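import Pool.Agent.Lib.MP_b6945b_al.As.ADefs

set_option autoImplicit false

/-!
Conjugacy of commuting pairs of regular elements modulo a normal p-subgroup.
-/

namespace Pool.Agent.Lib.MP_b6945b_al.Ip

open Finset

variable {G : Type} [Group G] [Finite G] {p : ℕ} [Fact p.Prime]

lemma g1_fix {q : ℕ} (hq : q.Prime) (hpq : q ≠ p) {U : Subgroup G} (hU : IsPGroup p U) {a x : G}
    (h1 : ∀ w ∈ U, x * w * a⁻¹ ∈ U) (h2 : ∀ w ∈ U, x ^ q * w * (a ^ q)⁻¹ = w) :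
    ∃ w ∈ U, x * w * a⁻¹ = w := by
  have := Fact.mk hq
  have := Fintype.ofFinite U
  let f : U → U := fun w => ⟨x * w * a⁻¹, h1 _ w.2⟩
  have hf : Function.Injective f := fun u v e =>
    Subtype.ext (mul_left_cancel (mul_right_cancel (congrArg Subtype.val e)))
  let σ : Equiv.Perm U := Equiv.ofBijective f (Finite.injective_iff_bijective.1 hf)
  have h3 : ∀ (n : ℕ) (w : U), (((σ ^ n) w : U) : G) = x ^ n * w * (a ^ n)⁻¹ := fun n w => by
    induction n with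
    | zero => simp
    | succ n ih =>
      rw [pow_succ', Equiv.Perm.mul_apply]
      change x * (((σ ^ n) w : U) : G) * a⁻¹ = _
      rw [ih, pow_succ' x, pow_succ' a]
      group
  obtain ⟨k, hk⟩ := hU.exists_card_eq
  obtain ⟨w, hw⟩ := Equiv.Perm.exists_fixed_point_of_prime (p := q) (n := 1) (σ := σ) (fun h => by
    rw [← Nat.card_eq_fintype_card, hk] at h
    exact hpq ((Nat.prime_dvd_prime_iff_eq hq Fact.out).1 (hq.dvd_of_dvd_pow h)))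
    (Equiv.ext fun w => Subtype.ext (by rw [pow_one, h3, h2 _ w.2]; rfl))
  exact ⟨w, w.2, congrArg Subtype.val hw⟩

omit [Finite G] in
lemma g1_pow {W : Subgroup G} {a x : G} (ha : a ∈ Nr W) (h : x * a⁻¹ ∈ W) (n : ℕ) :
    x ^ n * (a ^ n)⁻¹ ∈ W := by
  induction n with
  | zero => simp
  | succ n ih =>
    have e : x ^ (n + 1) * (a ^ (n + 1))⁻¹ = x * a⁻¹ * (a * (x ^ n * (a ^ n)⁻¹) * a⁻¹) := by
      rw [pow_succ' x, pow_succ' a]
      group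
    exact e ▸ W.mul_mem h ((Subgroup.mem_normalizer_iff.1 ha _).1 ih)

omit [Finite G] in
lemma g1_conj {W : Subgroup G} {a x w : G} (ha : a ∈ Nr W) (h : x * a⁻¹ ∈ W) (hw : w ∈ W) :
    w * x * w⁻¹ * a⁻¹ ∈ W := by
  have e : w * x * w⁻¹ * a⁻¹ = w * (x * a⁻¹) * (a * w⁻¹ * a⁻¹) := by group
  exact e ▸ W.mul_mem (W.mul_mem hw h) ((Subgroup.mem_normalizer_iff.1 ha _).1 (W.inv_mem hw))

/-- Strong induction on `m`, for all `W a x`.  For a prime `q ∣ m` apply the induction to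
`a ^ q`, `x ^ q` and conjugate so that `x ^ q = a ^ q = c`.  The map `w ↦ x * w * a⁻¹` is a
permutation of `W ⊓ centralizer {c}` whose `q`-th power is `1`, and `q` does not divide the order
of this `p`-group: `Equiv.Perm.exists_fixed_point_of_prime`. -/
lemma conj_one {m : ℕ} (hm : ¬ p ∣ m) {W : Subgroup G} (hW : IsPGroup p W) {a x : G}
    (ha : a ∈ Nr W) (h1 : a ^ m = 1) (h2 : x ^ m = 1) (h : x * a⁻¹ ∈ W) :
    ∃ w ∈ W, w * x * w⁻¹ = a := by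
  induction m using Nat.strong_induction_on generalizing a x with
  | _ m ih =>
    rcases eq_or_ne m 1 with rfl | hm1
    · exact ⟨1, W.one_mem, by rw [pow_one] at h1 h2; simp [h1, h2]⟩
    obtain ⟨q, hq, n, rfl⟩ := Nat.exists_prime_and_dvd hm1
    have hn : 0 < n := Nat.pos_of_ne_zero fun e => hm (by simp [e])
    obtain ⟨u, hu, e⟩ := ih n (lt_mul_of_one_lt_left hn hq.one_lt)
      (fun e => hm (e.mul_left q)) ((Nr W).pow_mem ha q) (by rwa [← pow_mul])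
      (by rwa [← pow_mul]) (g1_pow ha h q)
    have h3 := g1_conj ha h hu
    rw [← conj_pow] at e
    generalize hy : u * x * u⁻¹ = y at e h3
    obtain ⟨w, hw, e1⟩ := g1_fix hq (fun e => hm (e.symm.dvd.mul_right n))
      (U := W ⊓ Subgroup.centralizer {a ^ q}) hW.to_inf_left (a := a) (x := y) (fun w hw => ⟨by
        have e2 : y * w * a⁻¹ = y * a⁻¹ * (a * w * a⁻¹) := by group
        exact e2 ▸ W.mul_mem h3 ((Subgroup.mem_normalizer_iff.1 ha _).1 hw.1),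
        Subgroup.mul_mem _ (Subgroup.mul_mem _
          (Subgroup.mem_centralizer_singleton_iff.2 (by rw [← e, ← pow_succ, pow_succ'])) hw.2)
          (Subgroup.inv_mem _
            (Subgroup.mem_centralizer_singleton_iff.2 (by rw [← pow_succ, pow_succ'])))⟩)
      fun w hw => by
        rw [e, ← Subgroup.mem_centralizer_singleton_iff.1 hw.2, mul_inv_cancel_right]
    refine ⟨w⁻¹ * u, W.mul_mem (W.inv_mem hw.1) hu, ?_⟩
    calc w⁻¹ * u * x * (w⁻¹ * u)⁻¹ = w⁻¹ * (u * x * u⁻¹ * w * a⁻¹) * a := by group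
      _ = a := by rw [hy, e1, inv_mul_cancel, one_mul]

/-- `conj_one` for `x`, then `conj_one` for `y` inside `W ⊓ centralizer {a}`. -/
lemma conj_two {m : ℕ} (hm : ¬ p ∣ m) {W : Subgroup G} (hW : IsPGroup p W) {a b x y : G}
    (ha : a ∈ Nr W) (hb : b ∈ Nr W) (hab : a * b = b * a) (hxy : x * y = y * x)
    (h1 : a ^ m = 1) (h2 : b ^ m = 1) (h3 : x ^ m = 1) (h4 : y ^ m = 1) (hx : x * a⁻¹ ∈ W)
    (hy : y * b⁻¹ ∈ W) : ∃ w ∈ W, w * x * w⁻¹ = a ∧ w * y * w⁻¹ = b := by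
  obtain ⟨u, hu, e⟩ := conj_one hm hW ha h1 h3 hx
  have c1 : u * y * u⁻¹ ∈ Subgroup.centralizer {a} :=
    Subgroup.mem_centralizer_singleton_iff.2 (by
      calc u * y * u⁻¹ * a = u * (y * x) * u⁻¹ := by rw [← e]; group
        _ = a * (u * y * u⁻¹) := by rw [← e, ← hxy]; group)
  have c2 : b ∈ Subgroup.centralizer {a} := Subgroup.mem_centralizer_singleton_iff.2 hab.symm
  obtain ⟨w, hw, e1⟩ := conj_one hm (W := W ⊓ Subgroup.centralizer {a}) hW.to_inf_left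
    (nr_inf hb (Subgroup.le_normalizer c2)) h2 (x := u * y * u⁻¹) (by rw [conj_pow, h4]; simp)
    ⟨g1_conj hb hy hu, Subgroup.mul_mem _ c1 (Subgroup.inv_mem _ c2)⟩
  refine ⟨w * u, W.mul_mem hw.1 hu, ?_, by rw [← e1]; group⟩
  calc w * u * x * (w * u)⁻¹ = w * (u * x * u⁻¹) * w⁻¹ := by group
    _ = a := by rw [e, Subgroup.mem_centralizer_singleton_iff.1 hw.2, mul_inv_cancel_right]

/-- `conj_two` in `G ⧸ N` for `W.map (QuotientGroup.mk' N)`; `chief_mk`, `chief_pow`. -/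
theorem conj_pair {N W : Subgroup G} [N.Normal] (hle : N ≤ W)
    (hp : ∀ w ∈ W, ∃ j, w ^ p ^ j ∈ N) {a b x y : G} (ha : a ∈ Nr W) (hb : b ∈ Nr W)
    (hab : cm a b ∈ N) (hxy : cm x y ∈ N) (h1 : Reg p N a) (h2 : Reg p N b) (h3 : Reg p N x)
    (h4 : Reg p N y) (hx : x * a⁻¹ ∈ W) (hy : y * b⁻¹ ∈ W) :
    ∃ w ∈ W, w * x * w⁻¹ * a⁻¹ ∈ N ∧ w * y * w⁻¹ * b⁻¹ ∈ N := by
  obtain ⟨m1, k1, r1⟩ := h1
  obtain ⟨m2, k2, r2⟩ := h2
  obtain ⟨m3, k3, r3⟩ := h3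
  obtain ⟨m4, k4, r4⟩ := h4
  have hpp : p.Prime := Fact.out
  have n1 : ∀ {a : G}, a ∈ Nr W → (a : G ⧸ N) ∈ Nr (W.map (QuotientGroup.mk' N)) := fun ha =>
    Subgroup.le_normalizer_map (QuotientGroup.mk' N) ⟨_, ha, rfl⟩
  have n2 : ∀ {a : G} {m k : ℕ}, a ^ m ∈ N → m ∣ k → (a : G ⧸ N) ^ k = 1 := by
    rintro a m _ h ⟨c, rfl⟩
    rw [pow_mul, chief_pow.1 h, one_pow]
  obtain ⟨_, ⟨w, hw, rfl⟩, e1, e2⟩ := conj_two (p := p) (m := m1 * m2 * (m3 * m4))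
    (by simp only [hpp.dvd_mul, not_or]; exact ⟨⟨k1, k2⟩, k3, k4⟩)
    (W := W.map (QuotientGroup.mk' N)) (by
      rintro ⟨_, w, hw, rfl⟩
      exact (hp w hw).imp fun j hj => Subtype.ext (chief_pow.1 hj))
    (n1 ha) (n1 hb) (chief_mk.1 hab) (chief_mk.1 hxy) (n2 r1 ⟨m2 * (m3 * m4), by ring⟩)
    (n2 r2 ⟨m1 * (m3 * m4), by ring⟩) (n2 r3 ⟨m1 * m2 * m4, by ring⟩)
    (n2 r4 ⟨m1 * m2 * m3, by ring⟩) ⟨_, hx, rfl⟩ ⟨_, hy, rfl⟩
  exact ⟨w, hw, (QuotientGroup.eq_one_iff _).1 (mul_inv_eq_one.2 e1),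
    (QuotientGroup.eq_one_iff _).1 (mul_inv_eq_one.2 e2)⟩

end Pool.Agent.Lib.MP_b6945b_al.Ip
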