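import Pool.Agent.Lib.MP_b6945b_al.As.ADefs

set_option autoImplicit false

/-!
The induction step along a normal subgroup, and abelian chief factors.
-/

namespace Pool.Agent.Lib.MP_b6945b_al.Ip

open Finset

variable {G : Type} [Group G] [Fintype G] {p : ℕ} [Fact p.Prime] {G0 : Type} [Group G0] {k : ℕ}

omit [Fact p.Prime] in
lemma BB_pin {T T' : Subgroup G} (h : PIn p T T') (K : Set G) (N : Subgroup G) (g : G) :
    BB p K T N g = BB p K T' N g := by
  classical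
  unfold BB
  refine sum_congr rfl fun P _ => if_congr (and_congr_right fun hk =>
    ⟨fun e u hu => h.2 u (e hu) ?_, fun e => e.trans h.1⟩) rfl rfl
  obtain ⟨j, hj⟩ := hk.1 ⟨u, hu⟩
  exact ⟨j, congrArg Subtype.val hj⟩

omit [Fact p.Prime] in
lemma BB_supp (K : Set G) (T : Subgroup G) {N : Subgroup G} {g : G} (hg : g ∉ N) :
    BB p K T N g = 0 := by
  classical
  unfold BB
  refine sum_eq_zero fun P _ => ?_
  rw [EE_supp fun e : g ∈ N ⊓ Cr P => hg e.1, mul_zero, ite_self]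

omit [Fintype G] [Fact p.Prime] in
lemma l1_top (M : Subgroup G) (a b : G) :
    gen (⟨a, left_mem_gen a b M⟩ : gen a b M) ⟨b, right_mem_gen a b M⟩
      (M.subgroupOf (gen a b M)) = ⊤ := by
  have hφ := (gen a b M).subtype_injective
  have e2 := Subgroup.map_subgroupOf_eq_of_le (le_gen a b M)
  exact top_le_iff.1 ((Subgroup.map_le_map_iff_of_injective hφ).1
    ((Subgroup.map_subtype_le _).trans (gen_le.2 ⟨⟨_, left_mem_gen _ _ _, rfl⟩,
      ⟨_, right_mem_gen _ _ _, rfl⟩, e2.ge.trans (Subgroup.map_mono (le_gen _ _ _))⟩)))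

omit [Fintype G] in
/-- `reg_gen` in the group `gen a b M` (or directly), `mem_of_reg`. -/
lemma pin_gen {M : Subgroup G} {a b : G} (haM : a ∈ Nr M) (hbM : b ∈ Nr M) (ha : Reg p M a)
    (hb : Reg p M b) (hab : cm a b ∈ M) : PIn p (gen a b M) M := by
  refine ⟨le_gen a b M, fun g hg h2 => ?_⟩
  have := (Subgroup.normal_subgroupOf_iff_le_normalizer (le_gen a b M)).2
    (gen_le.2 ⟨haM, hbM, Subgroup.le_normalizer⟩)
  obtain ⟨m, hm, e⟩ := reg_gen (p := p) (N := M.subgroupOf (gen a b M))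
    (a := ⟨a, left_mem_gen a b M⟩) (b := ⟨b, right_mem_gen a b M⟩) (g := ⟨g, hg⟩) hab ha hb
    (by rw [l1_top]; trivial)
  obtain ⟨k, hk⟩ := h2
  obtain ⟨n, hn⟩ := exists_pow_eq_self_of_coprime (x := g) (n := m)
    (Nat.Coprime.coprime_dvd_right (orderOf_dvd_of_pow_eq_one hk)
      (((Nat.Prime.coprime_iff_not_dvd Fact.out).2 hm).symm.pow_right k))
  have e' : g ^ m ∈ M := e
  exact hn ▸ M.pow_mem e' n

omit [Fact p.Prime] in
lemma l1_map {H : Type} [Group H] [Fintype H] {φ : H →* G} (hφ : Function.Injective φ)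
    (T N M : Subgroup H) (a b : H) :
    CS (M.map φ) (tw p (T.map φ) (N.map φ) (M.map φ)) (φ a) (φ b) =
      CS M (tw p T N M) a b := by
  have h1 : ∀ {x : G} {a : H}, x * (φ a)⁻¹ ∈ M.map φ → x ∈ Set.range φ := by
    rintro x a ⟨n, -, e⟩
    exact ⟨n * a, by rw [map_mul, e, inv_mul_cancel_right]⟩
  refine Eq.symm ?_
  refine Fintype.sum_of_injective φ hφ _ _
    (fun x hx => Finset.sum_eq_zero fun y _ => if_neg fun h => hx (h1 h.1)) fun x => ?_
  refine Fintype.sum_of_injective φ hφ _ _ (fun y hy => if_neg fun h => hy (h1 h.2)) fun y => ?_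
  refine @if_congr _ _ _ (_) (_) _ _ _ _ ?_ ?_ rfl <;>
    simp only [tw, ← map_inv, ← map_mul, Subgroup.mem_map_iff_mem hφ, BB_map hφ, EE_map hφ, cm]

/-- Apply `ih` in the group `gen a b M` to the `subgroupOf`s and transport as in `core` and
`CZ_map` (`BB_map`, `EE_map`, `Sec.comap`, `Subgroup.relIndex_subgroupOf`, `BB_pin`). -/
theorem TW_loc (ih : TW p G0 k) {N M : Subgroup G} {a b : G} (hle : N ≤ M) (hn : M ≤ Nr N)
    (haN : a ∈ Nr N) (hbN : b ∈ Nr N) (haM : a ∈ Nr M) (hbM : b ∈ Nr M) (ha : Reg p M a)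
    (hb : Reg p M b) (hab : cm a b ∈ M) (hs : Sec G0 M N) (hk : N.relIndex M < k) :
    CS M (tw p M N M) a b = 0 := by
  classical
  have hM : M ≤ gen a b M := le_gen a b M
  have hN := hle.trans hM
  have := (Subgroup.normal_subgroupOf_iff_le_normalizer hN).2 (gen_le.2 ⟨haN, hbN, hn⟩)
  have := (Subgroup.normal_subgroupOf_iff_le_normalizer hM).2
    (gen_le.2 ⟨haM, hbM, Subgroup.le_normalizer⟩)
  have hφ := (gen a b M).subtype_injective
  have e1 := Subgroup.map_subgroupOf_eq_of_le hN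
  have e2 := Subgroup.map_subgroupOf_eq_of_le hM
  have h := ih (gen a b M) (N.subgroupOf (gen a b M)) (M.subgroupOf (gen a b M))
    ⟨a, left_mem_gen a b M⟩ ⟨b, right_mem_gen a b M⟩ (Subgroup.comap_mono hle) (l1_top M a b)
    ha hb hab (hs.comap _) (by rwa [Subgroup.relIndex_subgroupOf hM])
  have hp : PIn p ⊤ (M.subgroupOf (gen a b M)) := ⟨le_top, fun g _ ⟨j, hj⟩ =>
    (pin_gen haM hbM ha hb hab).2 g g.2 ⟨j, congrArg Subtype.val hj⟩⟩
  have h2 := l1_map (p := p) hφ (M.subgroupOf (gen a b M)) (N.subgroupOf (gen a b M))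
    (M.subgroupOf (gen a b M)) ⟨a, left_mem_gen a b M⟩ ⟨b, right_mem_gen a b M⟩
  rw [e1, e2] at h2
  refine h2.trans (Eq.trans (CS_congr fun x y _ _ => ?_) h)
  rw [tw, tw, BB_pin hp]

open Classical in
/-- `rd_step` with one more hypothesis in `core` (same proof). -/
theorem rd_step2 {T L L' U : Subgroup G} (w : G → G → Prop)
    (hw : ∀ n ∈ U, ∀ x y, (w (n * x) y ↔ w x y) ∧ (w x (n * y) ↔ w x y))
    (hT : T ≤ Nr L') (hL : L' ≤ T) (hwn : ∀ x y, w x y → x ∈ Nr L' ∧ y ∈ Nr L')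
    (core : ∀ Q a b, w a b → a ∈ Nr Q → b ∈ Nr Q → Q ≤ T → Q ⊓ L' = ⊥ →
      CZ p (U ⊓ Cr Q) a b (L' ⊓ Cr Q) (L ⊓ Cr Q)) :
    ∑ x, ∑ y, (if w x y then BB p {x, y} T L (x * y * x⁻¹ * y⁻¹) else 0) =
      ∑ x, ∑ y, if w x y then BB p {x, y} T L' (x * y * x⁻¹ * y⁻¹) else 0 := by
  have h1 : ∀ x y, (if w x y then BB p {x, y} T L (x * y * x⁻¹ * y⁻¹) else 0) -
      (if w x y then BB p {x, y} T L' (x * y * x⁻¹ * y⁻¹) else 0) = ∑ Q : Subgroup G,
        (if w x y ∧ KP p {x, y} Q ∧ Q ≤ T ∧ Q ⊓ L' = ⊥ then (mu p {x, y} Q : ℂ) else 0) *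
          (BB p {x, y} (L' ⊓ Cr Q) (L ⊓ Cr Q) (x * y * x⁻¹ * y⁻¹) -
            EE p (L' ⊓ Cr Q) (x * y * x⁻¹ * y⁻¹)) := by
    intro x y
    by_cases e : w x y
    · have hK : ({x, y} : Set G) ⊆ Nr L' := Set.pair_subset (hwn x y e).1 (hwn x y e).2
      rw [if_pos e, if_pos e, BB_loc hT hK, BB_loc hT hK, ← Finset.sum_sub_distrib,
        inf_eq_right.2 hL]
      refine Finset.sum_congr rfl fun Q _ => ?_
      simp only [e, true_and, BB_self]
      split_ifs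
      · ring
      · simp
    · simp [e]
  rw [← sub_eq_zero, ← Finset.sum_sub_distrib]
  simp only [← Finset.sum_sub_distrib, h1]
  rw [Finset.sum_congr rfl fun x _ => Finset.sum_comm, Finset.sum_comm]
  refine Finset.sum_eq_zero fun Q _ => rd_avg (U ⊓ Cr Q) _ _ (fun n hn x y => ?_)
    fun a b e => ?_
  · have h2 : ∀ P ≤ Q, _ := fun P hP => rd_pair (x := x) (y := y) (cr_le_nr hP hn.2)
    exact ⟨if_congr (and_congr (hw n hn.1 x y).1 (and_congr_left fun _ => and_congr_right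
        fun _ => (h2 Q le_rfl).1)) (congrArg _ (mu_congr fun P hP => (h2 P hP).1)) rfl,
      if_congr (and_congr (hw n hn.1 x y).2 (and_congr_left fun _ => and_congr_right
        fun _ => (h2 Q le_rfl).2)) (congrArg _ (mu_congr fun P hP => (h2 P hP).2)) rfl⟩
  · obtain ⟨h3, h4, h5, h6⟩ := (ite_ne_right_iff.1 e).1
    exact core Q a b h3 (h4.2 (Set.mem_insert _ _)) (h4.2 (Set.mem_insert_of_mem _ rfl)) h5 h6

omit [Fintype G] [Fact p.Prime] in
lemma l2_reg {L : Subgroup G} [L.Normal] {x a : G} (hx : x * a⁻¹ ∈ L) (h : Reg p L a) :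
    Reg p L x := by
  have h1 : (x : G ⧸ L) = a := by
    rwa [← mul_inv_eq_one, ← QuotientGroup.mk_inv, ← QuotientGroup.mk_mul,
      QuotientGroup.eq_one_iff]
  refine h.imp fun m e => ⟨e.1, ?_⟩
  rw [← QuotientGroup.eq_one_iff, QuotientGroup.mk_pow, h1, ← QuotientGroup.mk_pow,
    QuotientGroup.eq_one_iff]
  exact e.2

/-- If `cm a b ∉ L` use `BB_supp`, `cm_coset`.  If `a` or `b` is singular modulo `L` both sums
vanish (`rv_sing`; for `N` first `CS_of_le`).  Otherwise `rd_step2` with `T = ⊤`, `U = L`,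
`w x y := x * a⁻¹ ∈ L ∧ y * b⁻¹ ∈ L` and `TW_loc` for `N ⊓ Cr Q ≤ L ⊓ Cr Q` (`rv3_cr`, `nr_inf`,
`nr_cr`, `Sec.mono`, `Subgroup.relIndex_le_of_le_right`). -/
theorem step_mid (ih : TW p G0 k) {N L : Subgroup G} [N.Normal] [L.Normal] (hle : N ≤ L)
    (hs : Sec G0 L N) (hk : N.relIndex L < k) (a b : G) :
    CS L (fun x y => BB p {x, y} ⊤ N (cm x y) - BB p {x, y} ⊤ L (cm x y)) a b = 0 := by
  classical
  by_cases hab : cm a b ∈ L
  swap
  · refine (CS_congr fun x y hx hy => ?_).trans (CS_zero L a b)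
    have h1 : cm x y ∉ L := fun e => hab ((cm_coset hx hy).1 e)
    rw [BB_supp _ _ h1, BB_supp _ _ fun e => h1 (hle e), sub_zero]
  rw [CS_sub, sub_eq_zero]
  by_cases hr : Reg p L a ∧ Reg p L b
  swap
  · rw [rv_sing hr]
    have h1 : ∀ {x a : G}, x * a⁻¹ ∈ L → Reg p N x → Reg p L a := fun hx e =>
      l2_reg (by simpa using L.inv_mem hx) (e.imp fun _ e' => ⟨e'.1, hle e'.2⟩)
    exact CS_of_le hle _ fun x y hx hy => rv_sing fun e => hr ⟨h1 hx e.1, h1 hy e.2⟩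
  have hT : ∀ Q : Subgroup G, Q ≤ Nr L := fun Q g _ => pmob_nr g
  have h2 := rd_step2 (p := p) (T := ⊤) (L := N) (L' := L) (U := L)
    (fun x y => x * a⁻¹ ∈ L ∧ y * b⁻¹ ∈ L)
    (fun n hn x y => by simp only [mul_assoc, L.mul_mem_cancel_left hn, and_self]) (hT _) le_top
    (fun x y _ => ⟨pmob_nr x, pmob_nr y⟩) fun Q x y h hxQ hyQ _ hQ => by
      have h3 : ∀ {z : G}, z ∈ Nr Q → Reg p L z → Reg p (L ⊓ Cr Q) z := fun hz e =>
        e.imp fun m e' => ⟨e'.1, e'.2, rv3_cr (hT Q) hQ e'.2 (pow_mem hz m)⟩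
      have h4 := (cm_coset h.1 h.2).2 hab
      have h5 : N ⊓ Cr Q = N ⊓ (L ⊓ Cr Q) := by rw [← inf_assoc, inf_eq_left.2 hle]
      have h6 := TW_loc ih (N := N ⊓ Cr Q) (M := L ⊓ Cr Q) (inf_le_inf_right _ hle)
        (fun g hg => nr_inf (pmob_nr g) (Subgroup.le_normalizer hg.2))
        (nr_inf (pmob_nr x) (nr_cr hxQ)) (nr_inf (pmob_nr y) (nr_cr hyQ))
        (nr_inf (pmob_nr x) (nr_cr hxQ)) (nr_inf (pmob_nr y) (nr_cr hyQ))
        (h3 hxQ (l2_reg h.1 hr.1)) (h3 hyQ (l2_reg h.2 hr.2))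
        ⟨h4, rv3_cr (hT Q) hQ h4 (cm_mem hxQ hyQ)⟩ (hs.mono inf_le_left h5.ge) (by
          rw [h5, Subgroup.inf_relIndex_right]
          exact (Subgroup.relIndex_le_of_le_right inf_le_left
            Subgroup.index_ne_zero_of_finite).trans_lt hk)
      rw [CS] at h6
      rw [CZ]
      simp only [tw, cm] at h6
      convert h6
  simp only [CS, cm]
  convert h2

/-- The elements of `M` with a `p`-power in `N`, when `M / N` is abelian. -/
def l3_sub (p : ℕ) {G : Type} [Group G] (N M : Subgroup G) [N.Normal]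
    (hc : ∀ u ∈ M, ∀ v ∈ M, cm u v ∈ N) : Subgroup G where
  carrier := {g | g ∈ M ∧ ∃ k, g ^ p ^ k ∈ N}
  one_mem' := ⟨M.one_mem, 0, by simp⟩
  inv_mem' := fun {g} h => ⟨M.inv_mem h.1, h.2.imp fun k e => by
    rw [inv_pow]
    exact N.inv_mem e⟩
  mul_mem' := fun {u v} hu hv => by
    obtain ⟨hu, j, hj⟩ := hu
    obtain ⟨hv, k, hk⟩ := hv
    refine ⟨M.mul_mem hu hv, j + k, ?_⟩
    have h1 : Commute (u : G ⧸ N) (v : G ⧸ N) := by
      have h := (QuotientGroup.eq_one_iff (N := N) _).2 (hc u hu v hv)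
      simp only [cm, QuotientGroup.mk_mul, QuotientGroup.mk_inv] at h
      exact commutatorElement_eq_one_iff_commute.1 h
    have h2 : (u : G ⧸ N) ^ p ^ j = 1 := by
      rw [← QuotientGroup.mk_pow, QuotientGroup.eq_one_iff]
      exact hj
    have h3 : (v : G ⧸ N) ^ p ^ k = 1 := by
      rw [← QuotientGroup.mk_pow, QuotientGroup.eq_one_iff]
      exact hk
    have h4 : (u : G ⧸ N) ^ p ^ (j + k) = 1 := by rw [pow_add, pow_mul, h2, one_pow]
    have h5 : (v : G ⧸ N) ^ p ^ (j + k) = 1 := by rw [pow_add, mul_comm, pow_mul, h3, one_pow]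
    rw [← QuotientGroup.eq_one_iff, QuotientGroup.mk_pow, QuotientGroup.mk_mul, h1.mul_pow, h4, h5,
      one_mul]

lemma l3_zero {N M : Subgroup G} (hN : PIn p ⊤ N) (hM : PIn p ⊤ M) (a b : G) :
    CS M (tw p ⊤ N M) a b = 0 := by
  refine (CS_congr fun x y _ _ => ?_).trans (CS_zero M a b)
  rw [tw, BB_pin hN, BB_self, ← EE_pin hN, ← EE_pin hM, sub_self]

/-- The elements of `M` with a `p`-power in `N` form a normal subgroup.  If it is `M`:
`chief_fac`, `core_normal`, `CS_of_le`, `gen_coset`, `BB_pin` (and the case `M ≤ N`).  If it is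
`N`: `PIn p ⊤ N`, `EE_pin`, `BB_pin`, `BB_self`. -/
theorem tw_abel {N M : Subgroup G} [N.Normal] [M.Normal] (hle : N ≤ M) {a b : G}
    (hg : gen a b M = ⊤) (hp : PIn p ⊤ M) (hc : ∀ u ∈ M, ∀ v ∈ M, cm u v ∈ N)
    (hmin : ∀ T : Subgroup G, T.Normal → N ≤ T → T ≤ M → T = N ∨ T = M) :
    CS M (tw p ⊤ N M) a b = 0 := by
  have hn : (l3_sub p N M hc).Normal := ⟨fun u hu g =>
    ⟨Subgroup.Normal.conj_mem inferInstance u hu.1 g, hu.2.imp fun k e => by
      rw [conj_pow]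
      exact Subgroup.Normal.conj_mem inferInstance _ e g⟩⟩
  rcases hmin _ hn (fun g h => ⟨hle h, 0, by simpa using h⟩) (fun g h => h.1) with e | e
  · refine l3_zero ⟨le_top, fun g h1 h2 => ?_⟩ hp a b
    obtain ⟨k, hk⟩ := id h2
    exact e.le ⟨hp.2 g h1 h2, k, hk ▸ N.one_mem⟩
  · by_cases hne : M ≤ N
    · exact l3_zero ⟨le_top, fun g h1 h2 => hne (hp.2 g h1 h2)⟩ hp a b
    · have hf : Fac p N M := chief_fac hle hne (fun v hv => (e.ge hv).2) hmin
      refine CS_of_le hle _ fun x y hx hy => ?_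
      refine (CS_congr fun u v _ _ => ?_).trans (core_normal hf ((gen_coset hx hy).trans hg))
      rw [tw, BB_pin hp]

end Pool.Agent.Lib.MP_b6945b_al.Ip
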