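import Pool.Agent.Lib.MP_b6945b_al.As.AStab
import Pool.Agent.Lib.MP_b6945b_al.As.AConj
import Pool.Agent.Lib.MP_b6945b_al.As.ALoc

set_option autoImplicit false

/-!
From cosets of a p-extension to cosets of the normal subgroup.
-/

namespace Pool.Agent.Lib.MP_b6945b_al.Ip

open Finset

variable {G : Type} [Group G] [Fintype G] {p : ℕ} [Fact p.Prime] {N W : Subgroup G}

omit [Fact p.Prime] in
/-- `(card N) ^ 2 * CS W t a b` is the sum of `CS N t x y` over `x ∈ W a`, `y ∈ W b`, that is a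
positive multiple of `CS N t a b`. -/
lemma CS_descend (hle : N ≤ W) (t : G → G → ℂ) {a b : G}
    (h : ∀ x y, x * a⁻¹ ∈ W → y * b⁻¹ ∈ W → CS N t x y = 0 ∨ CS N t x y = CS N t a b)
    (h0 : CS W t a b = 0) : CS N t a b = 0 := by
  classical
  let _ : Fintype N := Fintype.ofFinite N
  by_contra hc
  have hN : (Fintype.card N : ℂ) ≠ 0 := Nat.cast_ne_zero.2 Fintype.card_ne_zero
  have h1 : CS W (fun x y => t x y - CS N t x y / Fintype.card N / Fintype.card N) a b = 0 :=
    CS_of_le hle _ fun x y _ _ => by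
      rw [CS_sub, CS_congr (t := fun u v => CS N t u v / Fintype.card N / Fintype.card N)
        (t' := fun _ _ => CS N t x y / Fintype.card N / Fintype.card N)
        fun u v hu hv => by rw [CS_coset t hu hv],
        CS_eq_sum N fun _ _ => CS N t x y / Fintype.card N / Fintype.card N]
      simp only [sum_const, card_univ, nsmul_eq_mul]
      field_simp
      ring
  rw [CS_sub, h0, zero_sub, neg_eq_zero] at h1
  let F : G → G → ℕ := fun x y =>
    if (x * a⁻¹ ∈ W ∧ y * b⁻¹ ∈ W) ∧ CS N t x y = CS N t a b then 1 else 0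
  have h2 : ((∑ x, ∑ y, F x y : ℕ) : ℂ) * (CS N t a b / Fintype.card N / Fintype.card N) = 0 := by
    rw [← h1]
    conv_rhs => rw [CS]
    push_cast
    simp only [sum_mul]
    refine sum_congr rfl fun x _ => sum_congr rfl fun y _ => ?_
    by_cases e : x * a⁻¹ ∈ W ∧ y * b⁻¹ ∈ W
    · rcases h x y e.1 e.2 with e1 | e1
      · simp [F, e, e1, Ne.symm hc]
      · simp [F, e, e1]
    · simp [F, e]
  have h3 : ∑ x, ∑ y, F x y = 0 := Nat.cast_eq_zero.1
    ((mul_eq_zero.1 h2).resolve_right (div_ne_zero (div_ne_zero hc hN) hN))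
  have h4 := sum_eq_zero_iff.1 (sum_eq_zero_iff.1 h3 a (mem_univ _)) b (mem_univ _)
  simp [F] at h4

omit [Fact p.Prime] in
lemma CS_conj [N.Normal] (t : G → G → ℂ) {w : G}
    (h : ∀ x y, t (w * x * w⁻¹) (w * y * w⁻¹) = t x y) (a b : G) :
    CS N t (w * a * w⁻¹) (w * b * w⁻¹) = CS N t a b := by
  classical
  have key : ∀ x a : G, w * x * w⁻¹ * (w * a * w⁻¹)⁻¹ ∈ N ↔ x * a⁻¹ ∈ N := fun x a => by
    have e : w * x * w⁻¹ * (w * a * w⁻¹)⁻¹ = w * (x * a⁻¹) * w⁻¹ := by group
    rw [e]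
    exact (Subgroup.mem_normalizer_iff.1 (pmob_nr (N := N) w) _).symm
  unfold CS
  rw [← Equiv.sum_comp (MulAut.conj w).toEquiv]
  refine sum_congr rfl fun x _ => ?_
  rw [← Equiv.sum_comp (MulAut.conj w).toEquiv]
  exact sum_congr rfl fun y _ => if_congr (and_congr (key x a) (key y b)) (h x y) rfl

omit [Fact p.Prime] in
/-- `BB_map`, `EE_map` for the automorphism `MulAut.conj w`. -/
lemma tw_conj [N.Normal] {w : G} (hw : w ∈ W) (x y : G) :
    tw p W N W (w * x * w⁻¹) (w * y * w⁻¹) = tw p W N W x y := by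
  have hφ : Function.Injective (MulAut.conj w).toMonoidHom := (MulAut.conj w).injective
  have key : ∀ U : Subgroup G, w ∈ Nr U → U.map (MulAut.conj w).toMonoidHom = U := fun U hU => by
    ext g
    constructor
    · rintro ⟨u, hu, rfl⟩
      exact (Subgroup.mem_normalizer_iff.1 hU u).1 hu
    · intro hg
      refine ⟨w⁻¹ * g * w, (Subgroup.mem_normalizer_iff.1 hU _).2 ?_, ?_⟩
      · simpa [mul_assoc] using hg
      · simp [mul_assoc]
  have h1 := BB_map (p := p) hφ x y W N (cm x y)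
  have h2 := EE_map (p := p) hφ W (cm x y)
  rw [key W (Subgroup.le_normalizer hw)] at h1 h2
  rw [key N (pmob_nr w)] at h1
  have e : cm (w * x * w⁻¹) (w * y * w⁻¹) = (MulAut.conj w).toMonoidHom (cm x y) := by
    change _ = w * cm x y * w⁻¹
    unfold cm
    group
  rw [tw, tw, e, h2, ← h1]
  rfl

/-- `rv_sing` in the group `J`, transported by `J.subtype` (`BB_map`, as in `van2_map`). -/
lemma rv_loc [N.Normal] {J : Subgroup G} (hle : N ≤ J) {a b : G} (ha : a ∈ J) (hb : b ∈ J)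
    (h : ¬ (Reg p N a ∧ Reg p N b)) :
    CS N (fun x y => BB p {x, y} J N (cm x y)) a b = 0 := by
  classical
  let _ : Fintype J := Fintype.ofFinite J
  have hφ : Function.Injective J.subtype := J.subtype_injective
  have h0 := rv_sing (p := p) (N := N.subgroupOf J) (a := ⟨a, ha⟩) (b := ⟨b, hb⟩) h
  have hN : (N.subgroupOf J).map J.subtype = N := Subgroup.map_subgroupOf_eq_of_le hle
  have hJ : (⊤ : Subgroup J).map J.subtype = J := by
    rw [← MonoidHom.range_eq_map, Subgroup.range_subtype]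
  have h1 : ∀ {x a : G}, a ∈ J → x * a⁻¹ ∈ N → x ∈ Set.range J.subtype := fun {x a} ha e =>
    ⟨⟨x, by simpa using J.mul_mem (hle e) ha⟩, rfl⟩
  refine Eq.trans (Eq.symm ?_) h0
  refine Fintype.sum_of_injective J.subtype hφ _ _
    (fun x hx => Finset.sum_eq_zero fun y _ => if_neg fun h => hx (h1 ha h.1)) fun x => ?_
  refine Fintype.sum_of_injective J.subtype hφ _ _
    (fun y hy => if_neg fun h => hy (h1 hb h.2)) fun y => ?_
  refine @if_congr _ _ _ (_) (_) _ _ _ _ Iff.rfl ?_ rfl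
  have h2 := BB_map (p := p) hφ x y ⊤ (N.subgroupOf J) (cm x y)
  rw [hN, hJ] at h2
  exact h2.symm

/-- `CS_descend`.  Pairs with `cm x y ∉ N`: `BB_supp`, `EE_pgroup`, `ee_supp`.  Singular pairs:
`rv_loc` for `J = gen a b W` with `pin_gen`, `BB_pin`; `EE_pgroup`, `CS_ee_congr` to the empty
set (`exists_pow_sing` gives a `p`-element of `J` outside `N`, it lies in `W ⊓ St`).  Regular
pairs: `conj_pair`, `CS_conj`, `tw_conj`, `CS_coset`. -/
theorem b1 [N.Normal] (hle : N ≤ W) (hp : ∀ w ∈ W, ∃ j, w ^ p ^ j ∈ N) {a b : G}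
    (haW : a ∈ Nr W) (hbW : b ∈ Nr W) (ha : Reg p N a) (hb : Reg p N b) (hab : cm a b ∈ N)
    (h : CS W (tw p W N W) a b = 0) : CS N (tw p W N W) a b = 0 := by
  let _ : Fintype N := Fintype.ofFinite N
  obtain ⟨I⟩ := exists_irrData N
  have hE := EE_pgroup (p := p) I hle hp
  have hJ : PIn p (gen a b W) W := pin_gen haW hbW (ha.imp fun _ e => ⟨e.1, hle e.2⟩)
    (hb.imp fun _ e => ⟨e.1, hle e.2⟩) (hle hab)
  refine CS_descend hle _ (fun x y hx hy => ?_) h
  have hxJ : x ∈ gen a b W := gen_coset hx hy ▸ left_mem_gen x y W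
  have hyJ : y ∈ gen a b W := gen_coset hx hy ▸ right_mem_gen x y W
  by_cases h1 : cm x y ∈ N
  · by_cases h2 : Reg p N x ∧ Reg p N y
    · obtain ⟨w, hw, e1, e2⟩ := conj_pair hle hp haW hbW hab h1 ha hb h2.1 h2.2 hx hy
      exact Or.inr ((CS_conj _ (tw_conj hw) x y).symm.trans (CS_coset _ e1 e2))
    · have k1 := rv_loc (hle.trans (le_gen a b W)) hxJ hyJ h2
      have k2 : CS N (fun u v => EE p W (cm u v)) x y = 0 := by
        rw [hE, CS_ee_congr I (T := fun _ => False) fun i s1 s2 => ⟨fun s => ?_, False.elim⟩,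
          ← CS_zero N x y]
        · exact CS_congr fun x y _ _ => by simp [ee, ext0, IrrData.zf, ind]
        · have key : ∀ c, c ∈ gen a b W → c ∈ St I i → Reg p N c := fun c c1 c2 => by
            by_contra hc
            obtain ⟨k, t1, -, t3⟩ := exists_pow_sing hc
            exact t1 (s.2 ⟨hJ.2 _ (pow_mem c1 k) (t3 c), pow_mem c2 k⟩)
          exact h2 ⟨key x hxJ s1, key y hyJ s2⟩
      refine Or.inl ((CS_congr fun u v _ _ => ?_).trans ((CS_sub N _ _ x y).trans
        (sub_eq_zero.2 (k1.trans k2.symm))))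
      rw [tw, BB_pin hJ]
  · refine Or.inl ((CS_congr fun u v hu hv => ?_).trans (CS_zero N x y))
    have h3 : cm u v ∉ N := fun e => h1 ((cm_coset hu hv).1 e)
    rw [tw, BB_supp _ _ h3, hE, ee_supp I _ h3, sub_zero]

end Pool.Agent.Lib.MP_b6945b_al.Ip
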