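import Pool.Agent.Lib.MP_b6945b_al.As.AStab
import Pool.Agent.Lib.MP_b6945b_al.As.ALoc

set_option autoImplicit false

/-!
Moebius inversion over the invariant p-subgroups of the quotient.
-/

namespace Pool.Agent.Lib.MP_b6945b_al.Ip

open Finset

variable {G : Type} [Group G] [Fintype G] {p : ℕ} [Fact p.Prime] {N : Subgroup G} [N.Normal]
  [Fintype N] [Fintype (G ⧸ N)]

omit [Fact p.Prime] in
open Classical in
/-- Triangular systems: strong induction on `Q`. -/
lemma KP_inv (K : Set G) (f g : Subgroup G → ℂ)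
    (h : ∀ Q, KP p K Q → ∑ R : Subgroup G, (if KP p K R ∧ R ≤ Q then f R else 0) =
      ∑ R : Subgroup G, if KP p K R ∧ R ≤ Q then g R else 0) {Q : Subgroup G} (hQ : KP p K Q) :
    f Q = g Q := by
  induction Q using WellFoundedLT.induction with
  | ind Q ih =>
  have h1 := h Q hQ
  rw [← Finset.add_sum_erase _ _ (Finset.mem_univ Q), ← Finset.add_sum_erase _ _
    (Finset.mem_univ Q), if_pos ⟨hQ, le_rfl⟩, if_pos ⟨hQ, le_rfl⟩] at h1
  rw [Finset.sum_congr rfl fun R hR => if_ctx_congr Iff.rfl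
    (fun a => ih R (lt_of_le_of_ne a.2 (Finset.ne_of_mem_erase hR)) a.1) fun _ => rfl] at h1
  exact add_right_cancel h1

omit [Fact p.Prime] [N.Normal] [Fintype N] [Fintype (G ⧸ N)] in
lemma b2a_ite (c : Prop) [Decidable c] (t : G → G → ℂ) (a b : G) :
    (if c then CS N t a b else 0) = CS N (fun x y => if c then t x y else 0) a b := by
  split_ifs
  · rfl
  · exact (CS_zero N a b).symm

omit [Fact p.Prime] [Fintype N] in
open Classical in
lemma b2a_f (a b : G) (Q : Subgroup (G ⧸ N)) :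
    ∑ R : Subgroup (G ⧸ N), (if KP p {(a : G ⧸ N), (b : G ⧸ N)} R ∧ R ≤ Q then
      CS N (fun x y => ∑ P : Subgroup G, if KP p {x, y} P ∧ P.map (QuotientGroup.mk' N) = R then
        (mu p {x, y} P : ℂ) * EE p (N ⊓ Cr P) (cm x y) else 0) a b else 0) =
      CS N (fun x y => BB p {x, y} (Q.comap (QuotientGroup.mk' N)) N (cm x y)) a b := by
  have key : ∀ {x a : G}, x * a⁻¹ ∈ N → QuotientGroup.mk' N x = (a : G ⧸ N) := fun {x a} hx => by
    rwa [QuotientGroup.mk'_apply, ← mul_inv_eq_one, ← QuotientGroup.mk_inv,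
      ← QuotientGroup.mk_mul, QuotientGroup.eq_one_iff]
  simp only [b2a_ite]
  rw [← CS_sum]
  refine CS_congr fun x y hx hy => ?_
  have h1 : ∀ (c : Prop) [Decidable c] (t : Subgroup G → ℂ),
      (if c then ∑ P, t P else 0) = ∑ P, if c then t P else 0 := fun c _ t => by
    split_ifs <;> simp
  simp only [h1]
  rw [sum_comm, BB]
  refine sum_congr rfl fun P _ => ?_
  rw [sum_eq_single (P.map (QuotientGroup.mk' N))
    (fun R _ e => by rw [if_neg fun e' : _ ∧ _ = R => e e'.2.symm, ite_self])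
    fun e => absurd (mem_univ _) e, ← ite_and]
  refine if_congr ⟨fun e => ⟨e.2.1, Subgroup.map_le_iff_le_comap.1 e.1.2⟩, fun e =>
    ⟨⟨?_, Subgroup.map_le_iff_le_comap.2 e.2⟩, e.1, rfl⟩⟩ rfl rfl
  refine ⟨e.1.1.map _, fun u hu => Subgroup.le_normalizer_map _ ?_⟩
  rcases hu with rfl | rfl
  · exact ⟨x, e.1.2 (Set.mem_insert _ _), key hx⟩
  · exact ⟨y, e.1.2 (Set.mem_insert_of_mem _ rfl), key hy⟩

omit [Fact p.Prime] in
open Classical in
lemma b2a_g {ι : Type} [Fintype ι] (K : Set G) (Q : Subgroup G) (c : ι → Prop)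
    [DecidablePred c] (T : ι → Subgroup G) (F : ι → ℂ) :
    ∑ R : Subgroup G, (if KP p K R ∧ R ≤ Q then
      ∑ i, (if c i ∧ R ≤ T i then (mu p K R : ℂ) * F i else 0) else 0) =
      ∑ i, if c i then (eK p K (Q ⊓ T i) : ℂ) * F i else 0 := by
  have h1 : ∀ R : Subgroup G, (if KP p K R ∧ R ≤ Q then
      ∑ i, (if c i ∧ R ≤ T i then (mu p K R : ℂ) * F i else 0) else 0) =
      ∑ i, if c i then (if KP p K R ∧ R ≤ Q ⊓ T i then (mu p K R : ℂ) else 0) * F i else 0 := by
    intro R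
    by_cases e : KP p K R ∧ R ≤ Q
    · rw [if_pos e]
      refine sum_congr rfl fun i _ => ?_
      by_cases e1 : c i <;> by_cases e2 : R ≤ T i <;> simp [e.1, e.2, e1, e2]
    · rw [if_neg e]
      refine (sum_eq_zero fun i _ => ?_).symm
      rw [if_neg fun e' : _ ∧ R ≤ Q ⊓ T i => e ⟨e'.1, e'.2.trans inf_le_left⟩, zero_mul, ite_self]
  rw [sum_congr rfl fun R _ => h1 R, sum_comm]
  refine sum_congr rfl fun i _ => ?_
  split_ifs
  · rw [eK_eq_sum, ← sum_mul]
    push_cast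
    rfl
  · simp

omit [Fact p.Prime] [N.Normal] [Fintype (G ⧸ N)] in
open Classical in
lemma b2a_ee (I : IrrData N) (S : Fin I.n → Prop) (a b : G) :
    CS N (fun x y => ee I S (cm x y)) a b =
      ∑ i, if S i then CS N (fun x y => ee I (· = i) (cm x y)) a b else 0 := by
  simp only [b2a_ite]
  rw [← CS_sum]
  exact CS_congr fun x y _ _ => ee_sum I S _

open Classical in
/-- `KP_inv` in `G ⧸ N` for `K = {a, b}`, with `f R = CS N (∑ P, [KP {x, y} P ∧ P.map mk = R]
mu {x, y} P * EE (N ⊓ Cr P) (cm x y))` and `g R = ∑ i, [Dz i ∧ a, b ∈ St i ∧ R ≤ (St i).map mk]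
mu {a, b} R * F i`.  For `Q` and `W = Q.comap mk` the sum of `f` below `Q` is
`CS N (BB W N) = CS N (EE W)` (`h`), `EE_pgroup`, `ee_sum`, `CS_ee_congr`; the sum of `g` is
evaluated by `eK_eq_sum`, `eK_self` for `Q ⊓ (St i).map mk`.  Then sum over all `R`. -/
theorem b2 (I : IrrData N) {a b : G}
    (h : ∀ W : Subgroup G, N ≤ W → (∀ w ∈ W, ∃ j, w ^ p ^ j ∈ N) → a ∈ Nr W → b ∈ Nr W →
      CS N (tw p W N W) a b = 0) :
    CS N (fun x y => BB p {x, y} ⊤ N (cm x y)) a b =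
      ∑ i, if Dz p I i then CS N (fun x y => ee I (· = i) (cm x y)) a b *
        eK p {(a : G ⧸ N), (b : G ⧸ N)} ((St I i).map (QuotientGroup.mk' N)) else 0 := by
  have h1 := b2a_f (p := p) (N := N) a b
  have h2 := fun Q => b2a_g (p := p) {(a : G ⧸ N), (b : G ⧸ N)} Q
    (fun i => Dz p I i ∧ a ∈ St I i ∧ b ∈ St I i) (fun i => (St I i).map (QuotientGroup.mk' N))
    fun i => CS N (fun x y => ee I (· = i) (cm x y)) a b
  have h3 := fun Q hQ => KP_inv (p := p) {(a : G ⧸ N), (b : G ⧸ N)} _ _ (Q := Q)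
    (fun Q hQ => (h1 Q).trans (Eq.trans ?_ (h2 Q).symm)) hQ
  · have h4 := (h1 ⊤).symm.trans ((sum_congr rfl fun R _ =>
      if_ctx_congr Iff.rfl (fun e => h3 R e.1) fun _ => rfl).trans (h2 ⊤))
    rw [Subgroup.comap_top] at h4
    rw [h4]
    refine sum_congr rfl fun i _ => ?_
    by_cases e : a ∈ St I i ∧ b ∈ St I i
    · rw [top_inf_eq, mul_comm]
      exact if_congr (and_iff_left e) rfl rfl
    · rw [if_neg fun e' => e e'.2, CS_ee_congr I (S := (· = i)) (T := fun _ => False)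
        (fun j ha hb => ⟨fun e' : j = i => e (e' ▸ ⟨ha, hb⟩), False.elim⟩), b2a_ee]
      simp
  · have hle : N ≤ Q.comap (QuotientGroup.mk' N) := fun n hn => by
      rw [Subgroup.mem_comap, QuotientGroup.mk'_apply, (QuotientGroup.eq_one_iff n).2 hn]
      exact Q.one_mem
    have hp : ∀ w ∈ Q.comap (QuotientGroup.mk' N), ∃ j, w ^ p ^ j ∈ N := fun w hw =>
      (hQ.1 ⟨_, hw⟩).imp fun j hj => (QuotientGroup.eq_one_iff _).1 (congrArg Subtype.val hj)
    have h5 := h _ hle hp (Subgroup.le_normalizer_comap _ (hQ.2 (Set.mem_insert _ _)))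
      (Subgroup.le_normalizer_comap _ (hQ.2 (Set.mem_insert_of_mem _ rfl)))
    unfold tw at h5
    rw [CS_sub, sub_eq_zero, EE_pgroup I hle hp, CS_ee_congr I (T := fun i =>
      (Dz p I i ∧ a ∈ St I i ∧ b ∈ St I i) ∧ Q.comap (QuotientGroup.mk' N) ⊓ St I i ≤ N)
      (fun i ha hb => by simp only [ha, hb, and_true]), b2a_ee] at h5
    rw [h5]
    refine sum_congr rfl fun i _ => ?_
    by_cases e : Dz p I i ∧ a ∈ St I i ∧ b ∈ St I i
    · have h6 : KP p {(a : G ⧸ N), (b : G ⧸ N)} (Q ⊓ (St I i).map (QuotientGroup.mk' N)) := by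
        refine ⟨hQ.1.to_inf_left, fun u hu => nr_inf (hQ.2 hu) (Subgroup.le_normalizer ?_)⟩
        rcases hu with rfl | rfl
        · exact ⟨a, e.2.1, rfl⟩
        · exact ⟨b, e.2.2, rfl⟩
      have h7 : Q ⊓ (St I i).map (QuotientGroup.mk' N) = ⊥ ↔
          Q.comap (QuotientGroup.mk' N) ⊓ St I i ≤ N := by
        rw [Subgroup.eq_bot_iff_forall]
        refine ⟨fun e' w hw => (QuotientGroup.eq_one_iff w).1 (e' _ ⟨hw.1, w, hw.2, rfl⟩), ?_⟩
        rintro e' _ ⟨h8, w, hw, rfl⟩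
        exact (QuotientGroup.eq_one_iff w).2 (e' ⟨h8, hw⟩)
      rw [if_pos e, eK_self h6]
      by_cases e' : Q.comap (QuotientGroup.mk' N) ⊓ St I i ≤ N
      · rw [if_pos ⟨e, e'⟩, if_pos (h7.2 e'), Int.cast_one, one_mul]
      · rw [if_neg fun c => e' c.2, if_neg fun c => e' (h7.1 c), Int.cast_zero, zero_mul]
    · rw [if_neg e, if_neg fun c => e c.1]

/-- `eK_vanish2` in the group `T` (for `y` use `Set.pair_comm`), transported by `T.subtype`
(`eK_eq_sum`, `sum_KP_map`, `mu_map`). -/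
lemma eK_sing {T : Subgroup G} {x y : G} (hx : x ∈ T) (hy : y ∈ T) (hxy : x * y = y * x)
    (h : p ∣ orderOf x ∨ p ∣ orderOf y) : eK p {x, y} T = 0 := by
  classical
  obtain ⟨x, rfl⟩ : ∃ u : T, T.subtype u = x := ⟨⟨x, hx⟩, rfl⟩
  obtain ⟨y, rfl⟩ : ∃ u : T, T.subtype u = y := ⟨⟨y, hy⟩, rfl⟩
  have hφ := T.subtype_injective
  have hxy' : x * y = y * x := hφ (by rw [map_mul, map_mul, hxy])
  rw [orderOf_injective _ hφ, orderOf_injective _ hφ] at h
  have h0 : eK p {x, y} (⊤ : Subgroup T) = 0 := by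
    rcases h with h | h
    · exact eK_vanish2 h hxy'
    · rw [Set.pair_comm]
      exact eK_vanish2 h hxy'.symm
  have h1 := sum_KP_map (p := p) hφ x y ⊤ (mu p {T.subtype x, T.subtype y})
  rw [← MonoidHom.range_eq_map, Subgroup.range_subtype] at h1
  rw [eK_eq_sum] at h0 ⊢
  refine h1.trans ((sum_congr rfl fun P _ => ?_).trans h0)
  exact ite_congr rfl (fun e => mu_map hφ e.1) fun _ => rfl

omit [Fintype G] [Fact p.Prime] [Fintype N] [Fintype (G ⧸ N)] in
lemma b2b_dvd {a : G} (h : ¬ Reg p N a) : p ∣ orderOf (a : G ⧸ N) := by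
  by_contra hp
  refine h ⟨_, hp, ?_⟩
  rw [← QuotientGroup.eq_one_iff, QuotientGroup.mk_pow, pow_orderOf_eq_one]

open Classical in
/-- Both sides vanish: `BB_supp`, `ee_supp`, `cm_coset`; `rv_sing`, `CS_ee_congr`, `eK_sing` in
`G ⧸ N`. -/
theorem b2_sing (I : IrrData N) {a b : G} (h : ¬ (Reg p N a ∧ Reg p N b ∧ cm a b ∈ N)) :
    CS N (fun x y => BB p {x, y} ⊤ N (cm x y)) a b =
      ∑ i, if Dz p I i then CS N (fun x y => ee I (· = i) (cm x y)) a b *
        eK p {(a : G ⧸ N), (b : G ⧸ N)} ((St I i).map (QuotientGroup.mk' N)) else 0 := by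
  by_cases hab : cm a b ∈ N
  · have h1 : ¬ (Reg p N a ∧ Reg p N b) := fun e => h ⟨e.1, e.2, hab⟩
    rw [rv_sing h1]
    refine (sum_eq_zero fun i _ => ite_eq_right_iff.2 fun _ => ?_).symm
    by_cases e : a ∈ St I i ∧ b ∈ St I i
    · have hc : (a : G ⧸ N) * b = b * a := by
        rw [← cm_eq_one, cm, ← QuotientGroup.mk_inv, ← QuotientGroup.mk_inv,
          ← QuotientGroup.mk_mul, ← QuotientGroup.mk_mul, ← QuotientGroup.mk_mul,
          QuotientGroup.eq_one_iff]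
        exact hab
      rw [eK_sing (T := (St I i).map (QuotientGroup.mk' N)) (x := a) (y := b) ⟨a, e.1, rfl⟩
        ⟨b, e.2, rfl⟩ hc ((not_and_or.1 h1).imp b2b_dvd b2b_dvd), Int.cast_zero, mul_zero]
    · rw [CS_ee_congr I (S := (· = i)) (T := fun _ => False) fun j ha hb =>
        iff_false_intro fun e' : j = i => e (e' ▸ ⟨ha, hb⟩)]
      refine mul_eq_zero_of_left (Eq.trans (CS_congr fun x y _ _ => ?_) (CS_zero N a b)) _
      simp [ee, ext0, IrrData.zf, ind]
  · have key : ∀ f : G → G → G → ℂ, (∀ x y g, g ∉ N → f x y g = 0) →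
        CS N (fun x y => f x y (cm x y)) a b = 0 := fun f hf =>
      (CS_congr fun x y hx hy => hf x y _ fun e => hab ((cm_coset hx hy).1 e)).trans
        (CS_zero N a b)
    rw [key (fun x y => BB p {x, y} ⊤ N) fun x y g => BB_supp _ _]
    refine (sum_eq_zero fun i _ => ite_eq_right_iff.2 fun _ => ?_).symm
    rw [key (fun _ _ => ee I (· = i)) fun _ _ g => ee_supp I _, zero_mul]

end Pool.Agent.Lib.MP_b6945b_al.Ip
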