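import Pool.Agent.Lib.MP_b6945b_al.As.ATheta
import Pool.Agent.Lib.MP_b6945b_al.As.AB1
import Pool.Agent.Lib.MP_b6945b_al.As.AB2

set_option autoImplicit false

/-!
Non-abelian chief factors and the induction.
-/

namespace Pool.Agent.Lib.MP_b6945b_al.Ip

open Finset

variable {p : ℕ} [Fact p.Prime] {G0 : Type} [Group G0] {k : ℕ}

section
variable {G : Type} [Group G] [Fintype G] {N M : Subgroup G} [N.Normal] [M.Normal]

omit [Fintype G] [M.Normal] in
lemma b3_mem {w : G} {j : ℕ} (h1 : Reg p M w) (h2 : w ^ p ^ j ∈ M) : w ∈ M := by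
  obtain ⟨m, hm, h1⟩ := h1
  have h3 : Nat.Coprime (p ^ j) m :=
    Nat.Coprime.pow_left j ((Nat.Prime.coprime_iff_not_dvd Fact.out).2 hm)
  have h4 : w = (w ^ p ^ j) ^ Nat.gcdA (p ^ j) m * (w ^ m) ^ Nat.gcdB (p ^ j) m := by
    rw [← zpow_natCast, ← zpow_natCast, ← zpow_mul, ← zpow_mul, ← zpow_add, ← Nat.gcd_eq_gcd_ab,
      h3, Nat.cast_one, zpow_one]
  rw [h4]
  exact M.mul_mem (M.zpow_mem h2 _) (M.zpow_mem h1 _)

omit [N.Normal] [M.Normal] in
lemma b3_lt {W : Subgroup G} (h1 : N ≤ W) (h2 : W ≤ M) (h3 : ¬ M ≤ W) :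
    N.relIndex W < N.relIndex M := by
  rw [← Subgroup.relIndex_mul_relIndex N W M h1 h2]
  have h4 : W.relIndex M ≠ 0 := Subgroup.FiniteIndex.index_ne_zero
  have h5 : W.relIndex M ≠ 1 := fun e => h3 (Subgroup.relIndex_eq_one.1 e)
  have h6 : N.relIndex W ≠ 0 := Subgroup.FiniteIndex.index_ne_zero
  exact lt_mul_of_one_lt_right (Nat.pos_of_ne_zero h6) (by omega)

open Classical in
/-- `b2_sing`, or `b2` with `b1` and `TW_loc`: a subgroup `W` as in `b2` lies in `M` (`hp`) and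
is not `M` (`chief_fac`, `hna`), so its index is smaller. -/
lemma b3 [Fintype N] [Fintype (G ⧸ N)] (ih : TW p G0 k) (hle : N ≤ M)
    (hp : ∀ g, Reg p M g) (hs : Sec G0 M N) (hk : N.relIndex M ≤ k)
    (hmin : ∀ T : Subgroup G, T.Normal → N ≤ T → T ≤ M → T = N ∨ T = M)
    (hna : ∃ u ∈ M, ∃ v ∈ M, cm u v ∉ N) (I : IrrData N) (a b : G) :
    CS N (fun x y => BB p {x, y} ⊤ N (cm x y)) a b =
      ∑ i, if Dz p I i then CS N (fun x y => ee I (· = i) (cm x y)) a b *
        eK p {(a : G ⧸ N), (b : G ⧸ N)} ((St I i).map (QuotientGroup.mk' N)) else 0 := by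
  by_cases h : Reg p N a ∧ Reg p N b ∧ cm a b ∈ N
  · obtain ⟨ha, hb, hab⟩ := h
    obtain ⟨u, hu, v, hv, huv⟩ := hna
    refine b2 I fun W h1 h2 haW hbW => b1 h1 h2 haW hbW ha hb hab ?_
    have h3 : W ≤ M := fun w hw => (h2 w hw).elim fun j e => b3_mem (hp w) (hle e)
    exact TW_loc ih h1 (fun g _ => pmob_nr g) (pmob_nr a) (pmob_nr b) haW hbW
      (ha.imp fun _ e => ⟨e.1, h1 e.2⟩) (hb.imp fun _ e => ⟨e.1, h1 e.2⟩) (h1 hab)
      (hs.mono h3 inf_le_left) ((b3_lt h1 h3 fun e => huv ((chief_fac hle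
        (fun e' => huv (cm_mem (e' hu) (e' hv))) (fun w hw => h2 w (e hw)) hmin).comm
          u hu v hv)).trans_le hk)
  · exact b2_sing I h

omit [Fact p.Prime] [M.Normal] in
lemma base24_mul (t : G → G → ℂ) (w : G ⧸ N → G ⧸ N → ℂ) (a b : G) :
    CS N (fun x y => t x y * w x y) a b = CS N t a b * w a b := by
  have key : ∀ {x a : G}, x * a⁻¹ ∈ N → (x : G ⧸ N) = a := fun {x a} h => by
    rw [← mul_inv_eq_one, ← QuotientGroup.mk_inv, ← QuotientGroup.mk_mul,
      QuotientGroup.eq_one_iff]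
    exact h
  rw [CS_congr (t' := fun x y => t x y * w a b) fun x y hx hy => by rw [key hx, key hy]]
  simp only [CS, sum_mul, ite_mul, zero_mul]

theorem tw_base (ih : TW p G0 k) (hyp : Hyp p G0) (hle : N ≤ M) {a b : G} (hg : gen a b M = ⊤)
    (ha : Reg p M a) (hb : Reg p M b) (hab : cm a b ∈ M) (hs : Sec G0 M N)
    (hk : N.relIndex M ≤ k) (hmin : ∀ T : Subgroup G, T.Normal → N ≤ T → T ≤ M → T = N ∨ T = M)
    (hna : ∃ u ∈ M, ∃ v ∈ M, cm u v ∉ N) : CS M (tw p ⊤ N M) a b = 0 := by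
  classical
  let _ : Fintype N := Fintype.ofFinite N
  let _ : Fintype (G ⧸ N) := Fintype.ofFinite _
  obtain ⟨I⟩ := exists_irrData N
  have hp : ∀ g, Reg p M g := fun g => reg_gen hab ha hb (hg ▸ Subgroup.mem_top g)
  let w : Fin I.n → G ⧸ N → G ⧸ N → ℂ := fun i u v =>
    eK p {u, v} ((St I i).map (QuotientGroup.mk' N))
  let t : Fin I.n → G → G → ℂ := fun i x y =>
    if Dz p I i then ee I (· = i) (cm x y) * w i x y else 0
  let t' : Fin I.n → G → G → ℂ := fun i x y =>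
    if Dz p I i then conv (ee I (· = i)) (EE p M) (cm x y) else 0
  have h1 : CS M (fun x y => BB p {x, y} ⊤ N (cm x y) - ∑ i, t i x y) a b = 0 := by
    refine CS_of_le hle _ fun u v _ _ => ?_
    rw [CS_sub, CS_sum, b3 ih hle hp hs hk hmin hna I u v, sub_eq_zero]
    refine sum_congr rfl fun i _ => ?_
    by_cases hi : Dz p I i
    · simp only [t, if_pos hi]
      exact (base24_mul (fun x y => ee I (· = i) (cm x y)) (w i) u v).symm
    · simp only [t, if_neg hi, CS_zero]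
  have h2 : CS M (fun x y => ∑ i, (t' i x y - t i x y)) a b = 0 := by
    rw [CS_sum]
    refine sum_eq_zero fun i _ => ?_
    by_cases hi : Dz p I i
    · have h3 := theta_part ih hyp hle hg ha hb hab hs hk hmin hna I hi
      rw [CS_sub, sub_eq_zero] at h3
      simp only [t, t', if_pos hi]
      rw [CS_sub, sub_eq_zero]
      exact h3.symm
    · simp only [t, t', if_neg hi, sub_self, CS_zero]
  have h3 := CS_sub M (fun x y => BB p {x, y} ⊤ N (cm x y) - ∑ i, t i x y)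
    (fun x y => ∑ i, (t' i x y - t i x y)) a b
  rw [h1, h2, sub_self] at h3
  refine (CS_congr fun x y _ _ => ?_).trans h3
  rw [tw, EE_split hle I, sum_sub_distrib]
  ring

end

theorem TW_succ (ih : TW p G0 k) (hyp : Hyp p G0) : TW p G0 (k + 1) := by
  intro G _ _ N M _ _ a b hle hg ha hb hab hs hk
  have hk' : N.relIndex M ≤ k := Nat.lt_succ_iff.1 hk
  by_cases hmin : ∀ T : Subgroup G, T.Normal → N ≤ T → T ≤ M → T = N ∨ T = M
  · by_cases hna : ∃ u ∈ M, ∃ v ∈ M, cm u v ∉ N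
    · exact tw_base ih hyp hle hg ha hb hab hs hk' hmin hna
    · refine tw_abel hle hg (hg ▸ pin_gen (pmob_nr a) (pmob_nr b) ha hb hab)
        (fun u hu v hv => by_contra fun e => hna ⟨u, hu, v, hv, e⟩) hmin
  simp only [not_forall, not_or] at hmin
  obtain ⟨L, _, h1, h2, h3, h4⟩ := hmin
  have e := Subgroup.relIndex_mul_relIndex N L M h1 h2
  have a0 : N.relIndex L ≠ 0 := Subgroup.index_ne_zero_of_finite
  have a1 : N.relIndex L ≠ 1 := fun h => h3 (le_antisymm (Subgroup.relIndex_eq_one.1 h) h1)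
  have b0 : L.relIndex M ≠ 0 := Subgroup.index_ne_zero_of_finite
  have b1 : L.relIndex M ≠ 1 := fun h => h4 (le_antisymm h2 (Subgroup.relIndex_eq_one.1 h))
  have a2 : 2 ≤ N.relIndex L := by omega
  have b2 : 2 ≤ L.relIndex M := by omega
  have k1 : N.relIndex L < k := by nlinarith
  have k2 : L.relIndex M < k := by nlinarith
  have e1 := ih G L M a b h2 hg ha hb hab (hs.mono le_rfl (inf_le_left.trans h1)) k2
  have e2 := CS_of_le h2 (fun x y => BB p {x, y} ⊤ L (cm x y) - BB p {x, y} ⊤ N (cm x y))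
    (a := a) (b := b) fun x y _ _ => by
      have h := step_mid ih h1 (hs.mono h2 inf_le_left) k1 x y
      rw [CS_sub, sub_eq_zero] at h ⊢
      exact h.symm
  have e3 := CS_sub M (tw p ⊤ L M)
    (fun x y => BB p {x, y} ⊤ L (cm x y) - BB p {x, y} ⊤ N (cm x y)) a b
  rw [e1, e2, sub_self] at e3
  refine (CS_congr fun x y _ _ => ?_).trans e3
  unfold tw
  ring

theorem TW_all (hyp : Hyp p G0) (k : ℕ) : TW p G0 k := by
  induction k with
  | zero => exact fun _ _ _ _ _ _ _ _ _ _ _ _ _ _ _ h => absurd h (Nat.not_lt_zero _)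
  | succ k ih => exact TW_succ ih hyp

end Pool.Agent.Lib.MP_b6945b_al.Ip
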