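import Pool.Agent.Lib.MP_b6945b_al.As.ADefs

set_option autoImplicit false

/-!
Light copies of some lemmas on the idempotent of defect zero.
-/

namespace Pool.Agent.Lib.MP_b6945b_al.Ip

open Finset

variable {G : Type} [Group G] [Fintype G] {p : ℕ} [Fact p.Prime]

omit [Fact p.Prime] in
lemma EE_bot2 (g : G) : EE p (⊥ : Subgroup G) g = ind (· = 1) g := by
  let _ : Fintype (⊥ : Subgroup G) := Fintype.ofFinite _
  obtain ⟨I⟩ := exists_irrData (⊥ : Subgroup G)
  by_cases h : g = 1
  · have h1 : ind (Dz p I) = 1 := funext fun i => ind_pos (by simp [Dz])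
    rw [EE_eq _ I, e1, h1, I.zf_one, h, ext0_pos _ (one_mem _), ind_pos (S := (· = (1 : G))) rfl]
    exact ind_pos (S := (· = 1)) rfl
  · rw [EE_supp (mt Subgroup.mem_bot.1 h), ind_neg (S := (· = 1)) h]

omit [Fact p.Prime] in
lemma EE_nr2 {U : Subgroup G} {g : G} (hg : g ∈ Nr U) (x : G) :
    EE p U (g * x * g⁻¹) = EE p U x :=
  EE_conj (Subgroup.mem_normalizer_iff.1 hg) x

variable {R : Subgroup G} [R.Normal]

omit [Fact p.Prime] in
lemma EE_cf2 : IsCF (EE p R) := fun g => EE_nr2 (pmob_nr g)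

/-- Characters of defect zero cover characters of defect zero. -/
lemma om_EE_dz2 (I : IrrData G) {i : Fin I.n} (hi : Dz p I i) : I.om i (EE p R) = 1 := by
  classical
  let _ : Fintype R := Fintype.ofFinite R
  obtain ⟨J⟩ := exists_irrData R
  have hf : IsCF (ind (IsPElt p) : R → ℂ) := isCF_ind fun a g => isPElt_conj a
  have e : ext0 R (ind (IsPElt p)) = ind fun g => g ∈ R ∧ IsPElt p g := funext fun g => by
    by_cases h : g ∈ R
    · rw [ext0_pos _ h]
      exact zeb_ind_congr (by simp only [pint1_pelt, h, true_and])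
    · rw [ext0_neg _ h, ind_neg fun e => h e.1]
  have hF : IsCF (ind fun g => g ∈ R ∧ IsPElt p g) :=
    isCF_ind fun a g => and_congr (zeb_N R a g) (isPElt_conj a)
  have h1 : EE p R = I.zf (ind fun k => I.om k (ind fun g => g ∈ R ∧ IsPElt p g) = 1) := by
    funext g
    have h := moment_count (fun j => J.om j (ind (IsPElt p))) (fun j => pint1_w J g j)
      (fun k => I.om k (ind fun g => g ∈ R ∧ IsPElt p g))
      (fun k => (I.d k : ℂ) * I.χ k g⁻¹ / Fintype.card G) (fun m => by
        rw [pint1_mom J hf, e, ← I.zf_om (cpow_cf hF m), IrrData.zf]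
        exact Finset.sum_congr rfl fun k _ => by rw [om_cpow I k hF, mul_comm]) (· = 1)
    rw [EE_eq R J, pint1_e1, pint1_zf, IrrData.zf]
    refine (Finset.sum_congr rfl fun i _ => ?_).trans (h.trans (Finset.sum_congr rfl fun i _ => ?_))
    · rw [ind, boole_mul]
    · rw [ind, boole_mul]
  rw [h1, I.om_zf, ind_pos]
  rw [IrrData.om, Finset.sum_eq_single 1 (fun g _ hg => ?_) (by simp),
    ind_pos (S := fun g => g ∈ R ∧ IsPElt p g) ⟨R.one_mem, 0, by simp⟩, I.χ_one, one_mul,
    div_self (I.d_ne i)]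
  by_cases h : g ∈ R ∧ IsPElt p g
  · rw [I.dz_vanish i hi h.2 hg, mul_zero]
  · rw [ind_neg (S := fun g => g ∈ R ∧ IsPElt p g) h, zero_mul]

end Pool.Agent.Lib.MP_b6945b_al.Ip
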