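import Pool.Agent.Lib.MP_b6945b_al.As.ADefs

set_option autoImplicit false

/-!
Functions that are fixed by the idempotent of a character of a normal subgroup.
-/

namespace Pool.Agent.Lib.MP_b6945b_al.Ip

open Finset

variable {G : Type} [Group G] [Fintype G] {p : ℕ} [Fact p.Prime] {N : Subgroup G} [N.Normal]
  [Fintype N]

/-- `exists_act` gives `j = x • i` with `j ≠ i` (else `x ∈ St`), `piv_conj`, `ee_mul`. -/
lemma conv_twist (I : IrrData N) (i : Fin I.n) {x : G} (hx : x ∉ St I i) (w : G) :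
    conv (fun v => ee I (· = i) (x⁻¹ * v * x)) (ee I (· = i)) w = 0 := by
  obtain ⟨act, h⟩ := exists_act I
  have e : (fun v => ee I (· = i) (x⁻¹ * v * x)) = ee I (· = x • i) := funext fun v => by
    rw [← piv_conj I (h x i).1 (h x i).2 (x⁻¹ * v * x)]
    congr 1
    group
  have hne : x • i ≠ i := fun e => hx fun y => by
    have := (h x i).2 y
    rwa [e] at this
  rw [e, ee_mul, ee_sum]
  exact sum_eq_zero fun k _ => if_neg fun hk => hne (hk.1.symm.trans hk.2)

/-- `E x = ∑ y z, e y * e z * E (y⁻¹ * (x * z⁻¹ * x⁻¹) * x)`; collect the terms with the same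
product and use `conv_twist` (or its mirror image, `conv_comm'`). -/
lemma supp_St (I : IrrData N) (i : Fin I.n) {E : G → ℂ} (h1 : conv (ee I (· = i)) E = E)
    (h2 : conv E (ee I (· = i)) = E) {x : G} (hx : x ∉ St I i) : E x = 0 := by
  have a1 : conv E (ee I (· = i)) x = conv (fun v => ee I (· = i) (x⁻¹ * v * x)) E x := by
    rw [conv, conv, ← Equiv.sum_comp ((Equiv.inv G).trans (Equiv.mulRight x))]
    refine sum_congr rfl fun v _ => ?_
    change E (v⁻¹ * x) * ee I (· = i) ((v⁻¹ * x)⁻¹ * x) = _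
    rw [mul_comm, mul_inv_rev, inv_inv]
  rw [← h2, a1, ← h1, ← conv_assoc', conv]
  exact sum_eq_zero fun y _ => by rw [conv_twist I i hx, zero_mul]

omit [N.Normal] [Fintype N] in
lemma c1_right (f e : G → ℂ) (x : G) : conv f e x = ∑ z, e z * f (x * z⁻¹) := by
  rw [conv, ← Equiv.sum_comp ((Equiv.inv G).trans (Equiv.mulLeft x))]
  refine sum_congr rfl fun z _ => ?_
  change f (x * z⁻¹) * e ((x * z⁻¹)⁻¹ * x) = _
  rw [mul_comm, mul_inv_rev, inv_inv, inv_mul_cancel_right]

omit [Fintype G] [N.Normal] in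
lemma c1_shift (Φ : G → ℂ) (u : G) {y : G} (hy : y ∈ N) :
    ∑ n : N, Φ (y⁻¹ * (n * u * (n : G)⁻¹)) = ∑ n : N, Φ (n * u * (n : G)⁻¹ * y⁻¹) := by
  rw [← Equiv.sum_comp (Equiv.mulLeft (⟨y, hy⟩ : N))]
  refine sum_congr rfl fun n _ => ?_
  change Φ (y⁻¹ * (y * n * u * (y * n)⁻¹)) = _
  congr 1
  group

/-- For fixed `u` the functions `g ↦ ∑ n : N, E (g * (n * u * n⁻¹))` and
`g ↦ ∑ n : N, E (n * u * n⁻¹ * g)` satisfy `h1`, `h2` again (shift `n` by an element of `N`;
`ee_supp`), so they vanish outside `St` (`supp_St`).  `CS_eq_sum`, `le_St`. -/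
theorem CS_St_zero (I : IrrData N) (i : Fin I.n) {E : G → ℂ} (h1 : conv (ee I (· = i)) E = E)
    (h2 : conv E (ee I (· = i)) = E) {a b : G} (h : ¬ (a ∈ St I i ∧ b ∈ St I i)) :
    CS N (fun x y => E (cm x y)) a b = 0 := by
  have e1 : ∀ x, E x = ∑ y, ee I (· = i) y * E (y⁻¹ * x) := fun x => (congrFun h1 x).symm
  have e2 : ∀ x, E x = ∑ y, ee I (· = i) y * E (x * y⁻¹) := fun x =>
    (congrFun h2 x).symm.trans (c1_right _ _ x)
  have hs : ∀ (n : N) {c : G}, c ∉ St I i → n * c ∉ St I i := fun n c hc e =>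
    hc (((St I i).mul_mem_cancel_left (le_St I i n.2)).1 e)
  rw [CS_eq_sum]
  rcases not_and_or.1 h with h | h
  · refine sum_eq_zero fun n _ => ?_
    obtain ⟨u, hu⟩ : ∃ u, u = b * (n * a)⁻¹ * b⁻¹ := ⟨_, rfl⟩
    have key := supp_St I i (E := fun g => ∑ m : N, E (g * (m * u * (m : G)⁻¹)))
      (funext fun g => ?_) (funext fun g => ?_) (hs n h)
    · refine Eq.trans (sum_congr rfl fun m _ => ?_) key
      rw [hu, cm]
      congr 1
      group
    · rw [conv, sum_congr rfl fun m _ => e1 _, sum_comm]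
      simp only [mul_sum, mul_assoc]
    · rw [c1_right, sum_congr rfl fun (m : N) _ => e2 (g * (m * u * (m : G)⁻¹)), sum_comm]
      refine sum_congr rfl fun y _ => ?_
      by_cases hy : y ∈ N
      · rw [← mul_sum]
        congr 1
        simpa only [mul_assoc] using c1_shift (fun v => E (g * v)) u hy
      · simp only [ee_supp I _ hy, zero_mul, sum_const_zero]
  · rw [sum_comm]
    refine sum_eq_zero fun n _ => ?_
    obtain ⟨u, hu⟩ : ∃ u, u = a * (n * b) * a⁻¹ := ⟨_, rfl⟩
    have key := supp_St I i (E := fun g => ∑ m : N, E (m * u * (m : G)⁻¹ * g))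
      (funext fun g => ?_) (funext fun g => ?_) (x := (n * b)⁻¹)
      fun e => hs n h ((St I i).inv_mem_iff.1 e)
    · refine Eq.trans (sum_congr rfl fun m _ => ?_) key
      rw [hu, cm]
      congr 1
      group
    · rw [conv, sum_congr rfl fun (m : N) _ => e1 (m * u * (m : G)⁻¹ * g), sum_comm]
      refine sum_congr rfl fun y _ => ?_
      by_cases hy : y ∈ N
      · rw [← mul_sum]
        congr 1
        simpa only [mul_assoc] using (c1_shift (fun v => E (v * g)) u hy).symm
      · simp only [ee_supp I _ hy, zero_mul, sum_const_zero]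
    · rw [c1_right, sum_congr rfl fun (m : N) _ => e2 (m * u * (m : G)⁻¹ * g), sum_comm]
      simp only [mul_sum, mul_assoc]

open Classical in
/-- Only pairs in the stabiliser count.  `sum_avg` and `CS_St_zero`. -/
theorem sum_St (I : IrrData N) (i : Fin I.n) {E : G → ℂ} (h1 : conv (ee I (· = i)) E = E)
    (h2 : conv E (ee I (· = i)) = E) (w : G ⧸ N → G ⧸ N → ℂ) :
    ∑ x : G, ∑ y : G, w x y * E (cm x y) =
      ∑ x : G, ∑ y : G, if x ∈ St I i ∧ y ∈ St I i then w x y * E (cm x y) else 0 := by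
  have hs : ∀ {x a : G}, x * a⁻¹ ∈ N → x ∈ St I i → a ∈ St I i := fun {x a} h hx => by
    simpa using (St I i).mul_mem ((St I i).inv_mem (le_St I i h)) hx
  have hq : ∀ (n : N) (a : G), ((n * a : G) : G ⧸ N) = a := fun n a => by
    rw [QuotientGroup.mk_mul, (QuotientGroup.eq_one_iff _).2 n.2, one_mul]
  have key := sum_avg N (fun x y => w x y * E (cm x y)) (fun x y => ¬ (x ∈ St I i ∧ y ∈ St I i))
    (fun a b x y hx hy h e => h ⟨hs hx e.1, hs hy e.2⟩) fun a b h => by
      have h0 := CS_St_zero I i h1 h2 h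
      rw [CS_eq_sum] at h0 ⊢
      simp only [hq, ← mul_sum, h0, mul_zero]
  refine sub_eq_zero.1 (Eq.trans ?_ key)
  rw [← sum_sub_distrib]
  refine sum_congr rfl fun x _ => ?_
  rw [← sum_sub_distrib]
  refine sum_congr rfl fun y _ => ?_
  by_cases h : x ∈ St I i ∧ y ∈ St I i
  · rw [if_pos h, if_neg (not_not.2 h), sub_self]
  · rw [if_neg h, if_pos h, sub_zero]

end Pool.Agent.Lib.MP_b6945b_al.Ip
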