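import Pool.Agent.Lib.MP_b6945b_al.Rd.Lay

set_option autoImplicit false

/-!
Definitions for the reduction to groups with one non-abelian composition factor.
-/

namespace Pool.Agent.Lib.MP_b6945b_al.Ip

open Finset

variable {G : Type} [Group G]

/-- `M / N` is a section of `G0`. -/
def Sec0 (G0 : Type) [Group G0] {G : Type} [Group G] (M N : Subgroup G) : Prop :=
  ∃ R : Subgroup (G0 × G), (∀ g ∈ M, ∃ u, (u, g) ∈ R) ∧ ∀ g, (1, g) ∈ R → g ∈ N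

/-- `M / N` is a section of `G0`, and, unless `G0` is solvable, the elements of `G` act on it like
elements of `G0`. -/
def Sec (G0 : Type) [Group G0] {G : Type} [Group G] (M N : Subgroup G) : Prop :=
  ∃ R : Subgroup (G0 × G), (∀ g ∈ M, ∃ u, (u, g) ∈ R) ∧ (∀ g ∈ M, (1, g) ∈ R → g ∈ N) ∧
    (Group.IsSolvable G0 ∨ ∀ x : G, ∃ u, (u, x) ∈ Nr R)

/-- A central subgroup of exponent prime to `p`. -/
def CenP (p : ℕ) (Z : Subgroup G) : Prop :=
  ∃ t, ¬ p ∣ t ∧ ∀ z ∈ Z, z ^ t = 1 ∧ ∀ g, g * z = z * g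

open Classical in
/-- The twisted contribution of a pair. -/
noncomputable def tz (p : ℕ) [Fintype G] (L : Subgroup G) (d x y : G) : ℂ :=
  (if cm x y = d then (eK p {x, y} L : ℂ) else 0) - EE p L (cm x y * d⁻¹)

/-- The relative contribution of a pair. -/
noncomputable def tw (p : ℕ) [Fintype G] (T N M : Subgroup G) (x y : G) : ℂ :=
  BB p {x, y} T N (cm x y) - EE p M (cm x y)

/-- The termwise identity below the index `k`. -/
def TW (p : ℕ) (G0 : Type) [Group G0] (k : ℕ) : Prop :=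
  ∀ (G : Type) [Group G] [Fintype G] (N M : Subgroup G) [N.Normal] [M.Normal] (a b : G),
    N ≤ M → gen a b M = ⊤ → Reg p M a → Reg p M b → cm a b ∈ M → Sec G0 M N →
    N.relIndex M < k → CS M (tw p ⊤ N M) a b = 0

/-- The identity for the groups with one non-abelian composition factor. -/
def Hyp (p : ℕ) (G0 : Type) [Group G0] : Prop :=
  ∀ (H : Type) [Group H] [Fintype H] (Z L : Subgroup H) [L.Normal] (a b : H),
    CenP p Z → Z ≤ L → (∀ T : Subgroup H, Z ≤ T → T ≤ L → L ≤ Nr T → T = Z ∨ T = L) →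
    (∃ u ∈ L, ∃ v ∈ L, cm u v ∉ Z) → gen a b L = ⊤ → Reg p L a → Reg p L b → cm a b ∈ L →
    Sec G0 L Z → KR p H

section sec
variable {G0 H : Type} [Group G0] [Group H] {M N M' N' : Subgroup G}

lemma Sec.weak (h : Sec G0 M N) : Sec0 G0 M N := by
  obtain ⟨R, h1, h2, -⟩ := h
  refine ⟨R ⊓ M.comap (MonoidHom.snd G0 G), fun g hg => ?_, fun g hg => h2 g hg.2 hg.1⟩
  obtain ⟨u, hu⟩ := h1 g hg
  exact ⟨u, hu, hg⟩

lemma Sec.mono (h : Sec G0 M N) (hM : M' ≤ M) (hN : N ⊓ M' ≤ N') : Sec G0 M' N' := by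
  obtain ⟨R, h1, h2, h3⟩ := h
  exact ⟨R, fun g hg => h1 g (hM hg), fun g hg e => hN ⟨h2 g (hM hg) e, hg⟩, h3⟩

lemma Sec.comap (h : Sec G0 M N) (φ : H →* G) : Sec G0 (M.comap φ) (N.comap φ) := by
  obtain ⟨R, h1, h2, h3⟩ := h
  refine ⟨R.comap ((MonoidHom.id G0).prodMap φ), fun g hg => h1 _ hg, fun g hg => h2 _ hg,
    h3.imp_right fun e x => ?_⟩
  obtain ⟨u, hu⟩ := e (φ x)
  exact ⟨u, Subgroup.le_normalizer_comap _ hu⟩

lemma Sec.map [hM : M.Normal] (h : Sec G0 M N) (φ : G →* H) (hφ : Function.Surjective φ) :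
    Sec G0 (M.map φ) (N.map φ) := by
  obtain ⟨R, h1, h2, h3⟩ := h
  refine ⟨(R ⊓ M.comap (MonoidHom.snd G0 G)).map ((MonoidHom.id G0).prodMap φ), ?_, ?_,
    h3.imp_right fun e x => ?_⟩
  · rintro _ ⟨g, hg, rfl⟩
    obtain ⟨u, hu⟩ := h1 g hg
    exact ⟨u, (u, g), ⟨hu, hg⟩, rfl⟩
  · rintro _ - ⟨⟨u, g⟩, hg, e⟩
    obtain ⟨e1, e2⟩ := Prod.ext_iff.1 e
    have e3 : u = 1 := e1
    subst e3
    exact ⟨g, h2 g hg.2 hg.1, e2⟩
  · obtain ⟨x, rfl⟩ := hφ x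
    obtain ⟨u, hu⟩ := e x
    exact ⟨u, Subgroup.le_normalizer_map _ ⟨(u, x), nr_inf hu (pmob_nr _), rfl⟩⟩

/-- Transport to a group generated by a copy of `M` and two elements acting like `x` and `y`. -/
lemma Sec.real (h : Sec G0 M N) (g : M →* H) {x y : G} {X Y : H} {σ τ : MulAut M}
    (hσ : ∀ l : M, x * M.subtype l * x⁻¹ = M.subtype (σ l)) (hX : ∀ l, X * g l * X⁻¹ = g (σ l))
    (hτ : ∀ l : M, y * M.subtype l * y⁻¹ = M.subtype (τ l)) (hY : ∀ l, Y * g l * Y⁻¹ = g (τ l))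
    (hg : gen X Y g.range = ⊤) : Sec G0 g.range ((N.subgroupOf M).map g) := by
  obtain ⟨R, h1, h2, h3⟩ := h
  set R' := (R.comap ((MonoidHom.id G0).prodMap M.subtype)).map ((MonoidHom.id G0).prodMap g)
    with hR
  have a1 : ∀ v ∈ g.range, ∃ u, (u, v) ∈ R' := by
    rintro _ ⟨l, rfl⟩
    obtain ⟨u, hu⟩ := h1 l l.2
    exact ⟨u, (u, l), hu, rfl⟩
  refine ⟨R', a1, ?_, h3.imp_right fun e => ?_⟩
  · rintro _ - ⟨⟨u, l⟩, hl, e⟩
    obtain ⟨e1, e2⟩ := Prod.ext_iff.1 e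
    have e3 : u = 1 := e1
    subst e3
    exact ⟨l, h2 l l.2 hl, e2⟩
  have key : ∀ {x : G} {X : H} {σ : MulAut M},
      (∀ l : M, x * M.subtype l * x⁻¹ = M.subtype (σ l)) → (∀ l, X * g l * X⁻¹ = g (σ l)) →
      X ∈ (Nr R').map (MonoidHom.snd G0 H) := fun {x X σ} b1 b2 => by
    obtain ⟨u, hu⟩ := e x
    have hu' := Subgroup.mem_normalizer_iff.1 hu
    refine ⟨(u, X), Subgroup.mem_normalizer_iff.2 fun r => ⟨?_, ?_⟩, rfl⟩
    · rintro ⟨⟨v, l⟩, hl, rfl⟩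
      refine ⟨(u * v * u⁻¹, σ l), ?_, Prod.ext rfl (b2 l).symm⟩
      have := (hu' _).1 hl
      change (u * v * u⁻¹, M.subtype (σ l)) ∈ R
      rw [← b1]
      exact this
    · rintro ⟨⟨v, l⟩, hl, e⟩
      obtain ⟨l, rfl⟩ := σ.surjective l
      obtain ⟨e1, e2⟩ := Prod.ext_iff.1 e
      have e3 : v = u * r.1 * u⁻¹ := e1
      have e4 : g (σ l) = X * r.2 * X⁻¹ := e2
      rw [← b2] at e4
      refine ⟨(r.1, l), (hu' _).2 ?_, Prod.ext rfl (mul_left_cancel (mul_right_cancel e4))⟩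
      change (u * r.1 * u⁻¹, x * M.subtype l * x⁻¹) ∈ R
      rw [b1, ← e3]
      exact hl
  have hall : gen X Y g.range ≤ (Nr R').map (MonoidHom.snd G0 H) :=
    gen_le.2 ⟨key hσ hX, key hτ hY, fun v hv => by
      obtain ⟨u, hu⟩ := a1 v hv
      exact ⟨(u, v), Subgroup.le_normalizer hu, rfl⟩⟩
  intro w
  obtain ⟨⟨u, v⟩, hu, rfl⟩ := hall (hg.ge (Subgroup.mem_top w))
  exact ⟨u, hu⟩

lemma Sec.top : Sec G (⊤ : Subgroup G) ⊥ :=
  ⟨((MonoidHom.id G).prod (MonoidHom.id G)).range, fun g _ => ⟨g, g, rfl⟩, by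
    rintro g - ⟨u, e⟩
    obtain ⟨e1, e2⟩ := Prod.ext_iff.1 e
    exact Subgroup.mem_bot.2 (e2.symm.trans e1),
    Or.inr fun x => ⟨x, Subgroup.le_normalizer ⟨x, rfl⟩⟩⟩

/-- If `G / N` acts faithfully on `M / N`, then `G / N` is a section of `G0`. -/
lemma Sec.all [hM : M.Normal] (h : Sec G0 M N) (hf : ∀ g, (∀ v ∈ M, cm g v ∈ N) → g ∈ N) :
    Group.IsSolvable G0 ∨ Sec0 G0 ⊤ N := by
  obtain ⟨R, h1, h2, h3⟩ := h
  refine h3.imp_right fun e => ⟨Nr R, fun g _ => e g, fun g hg => hf g fun v hv => ?_⟩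
  obtain ⟨u, hu⟩ := h1 v hv
  refine h2 _ (M.mul_mem (hM.conj_mem v hv g) (M.inv_mem hv)) ?_
  simpa [cm] using R.mul_mem ((Subgroup.mem_normalizer_iff.1 hg _).1 hu) (R.inv_mem hu)

end sec

lemma CenP.normal {p : ℕ} {Z : Subgroup G} (h : CenP p Z) : Z.Normal := by
  obtain ⟨t, -, h⟩ := h
  exact ⟨fun z hz g => by rwa [(h z hz).2 g, mul_inv_cancel_right]⟩

lemma CenP.mono {p : ℕ} {Z Z' : Subgroup G} (h : CenP p Z) (hle : Z' ≤ Z) : CenP p Z' :=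
  h.imp fun _ e => ⟨e.1, fun z hz => e.2 z (hle hz)⟩

/-- A sum over a pair of cosets depends only on the cosets. -/
lemma CS_coset [Fintype G] {L : Subgroup G} (t : G → G → ℂ) {a b a' b' : G}
    (ha : a' * a⁻¹ ∈ L) (hb : b' * b⁻¹ ∈ L) : CS L t a' b' = CS L t a b := by
  have key : ∀ {x a a' : G}, a' * a⁻¹ ∈ L → (x * a'⁻¹ ∈ L ↔ x * a⁻¹ ∈ L) := fun {x a a'} h => by
    rw [← L.mul_mem_cancel_right (y := x * a'⁻¹) h, mul_assoc, inv_mul_cancel_left]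
  classical
  unfold CS
  exact sum_congr rfl fun x _ => sum_congr rfl fun y _ =>
    if_congr (and_congr (key ha) (key hb)) rfl rfl

lemma CS_eq_sum [Fintype G] (L : Subgroup G) [Fintype L] (t : G → G → ℂ) (a b : G) :
    CS L t a b = ∑ n : L, ∑ n' : L, t (n * a) (n' * b) := by
  classical
  have key : ∀ (F : G → ℂ) (b : G),
      ∑ y : G, (if y * b⁻¹ ∈ L then F y else 0) = ∑ m : L, F (m * b) := fun F b => by
    rw [sum_sub L fun y => F (y * b), ← Equiv.sum_comp (Equiv.mulRight b)]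
    simp
  rw [CS, ← key (fun x => ∑ n' : L, t x (n' * b)) a]
  refine sum_congr rfl fun x _ => ?_
  by_cases h : x * a⁻¹ ∈ L
  · rw [if_pos h, ← key (t x) b]
    simp only [h, true_and]
  · simp [h]

/-- A sum over cosets of `M` vanishes if it vanishes on all pairs of cosets of `N ≤ M`. -/
lemma CS_of_le [Fintype G] {N M : Subgroup G} (hle : N ≤ M) (t : G → G → ℂ) {a b : G}
    (h : ∀ x y, x * a⁻¹ ∈ M → y * b⁻¹ ∈ M → CS N t x y = 0) : CS M t a b = 0 := by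
  have key : ∀ {x u a : G}, x * u⁻¹ ∈ N → u * a⁻¹ ∈ M → x * a⁻¹ ∈ M := fun h1 h2 => by
    simpa [mul_assoc] using M.mul_mem (hle h1) h2
  have h1 := sum_avg N t (fun x y => x * a⁻¹ ∈ M ∧ y * b⁻¹ ∈ M)
    (fun u v x y hx hy e => ⟨key hx e.1, key hy e.2⟩) fun u v e => h u v e.1 e.2
  unfold CS
  convert h1

end Pool.Agent.Lib.MP_b6945b_al.Ip
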