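import Pool.Agent.Lib.MP_b6945b_al.As.AHat

set_option autoImplicit false

/-!
Lifts whose kernel is cyclic and lies in the commutator subgroup modulo the normal subgroup.
-/

namespace Pool.Agent.Lib.MP_b6945b_al.Ip

open Finset
open scoped commutatorElement

/-- Linear characters extend along homomorphisms of abelian groups. -/
lemma ext_char {A B : Type} [CommGroup A] [CommGroup B] (j : B →* A) (f : B →* ℂˣ)
    (h : ∀ b, j b = 1 → f b = 1) : ∃ g : A →* ℂˣ, ∀ b, g (j b) = f b := by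
  let _ : DivisibleBy (Additive ℂˣ) ℕ := divisibleByOfSMulRightSurj _ _ fun {n} hn x => by
    obtain ⟨c, hc⟩ := IsAlgClosed.exists_pow_nat_eq (x.toMul : ℂ) (Nat.pos_of_ne_zero hn)
    have h0 : c ≠ 0 := fun e => x.toMul.ne_zero (by rw [← hc, e, zero_pow hn])
    exact ⟨Additive.ofMul (Units.mk0 c h0), Additive.toMul.injective (Units.ext hc)⟩
  let _ : DivisibleBy (Additive ℂˣ) ℤ := AddGroup.divisibleByIntOfDivisibleByNat _
  obtain ⟨g, hg⟩ := (Module.Baer.of_divisible (Additive ℂˣ)).extension_property_addMonoidHom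
    (MonoidHom.toAdditive (QuotientGroup.kerLift j)) (QuotientGroup.kerLift_injective j)
    (MonoidHom.toAdditive (QuotientGroup.lift j.ker f h))
  exact ⟨MonoidHom.toAdditive.symm g, fun b =>
    DFunLike.congr_fun hg (Additive.ofMul (b : B ⧸ j.ker))⟩

variable {G : Type} [Group G] {p : ℕ} [Fact p.Prime] {N : Subgroup G} [N.Normal] [Fintype N]
  (I : IrrData N) (i : Fin I.n)

/-- The scalars as a homomorphism. -/
noncomputable def gamZ : ℂˣ →* Gam I i where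
  toFun := gamC I i
  map_one' := Subtype.ext (Prod.ext rfl (map_one _))
  map_mul' a b := Subtype.ext (Prod.ext (one_mul _).symm (map_mul _ a b))

lemma gamZ_comm (c : ℂˣ) (γ : Gam I i) : γ * gamZ I i c = gamZ I i c * γ := by
  refine Subtype.ext (Prod.ext ((mul_one _).trans (one_mul _).symm) (Units.ext ?_))
  change γ.1.2.1 * (gamC I i c).1.2.1 = (gamC I i c).1.2.1 * γ.1.2.1
  rw [gamC_val, smul_mul_assoc, mul_smul_comm, one_mul, mul_one]

instance : (gamS I i).range.Normal := ⟨by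
  rintro _ ⟨n, rfl⟩ γ
  exact ⟨_, (mul_inv_eq_iff_eq_mul.2 (gamS_conj I i γ n)).symm⟩⟩

lemma gam_stem (hi : Dz p I i) : ∃ (δ : Gam I i →* ℂˣ) (t : ℕ), ¬ p ∣ t ∧
    (∀ n, δ (gamS I i n) = 1) ∧ (∀ c, δ (gamZ I i c) = c ^ t) ∧
    ∀ c, c ^ t = 1 → gamZ I i c ∈ (gamS I i).range ⊔ commutator (Gam I i) := by
  obtain ⟨δ, t, ht, h1, h2⟩ := gam_det I i Fact.out hi
  have : NeZero t := ⟨fun e => ht (e ▸ dvd_zero p)⟩
  obtain ⟨D, hD⟩ : ∃ D, D = (gamS I i).range ⊔ commutator (Gam I i) := ⟨_, rfl⟩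
  have : D.Normal := hD ▸ inferInstance
  have a1 : D ≤ δ.toHomUnits.ker := hD ▸ sup_le
    (by rintro _ ⟨n, rfl⟩; exact Units.ext (h1 n)) (Abelianization.commutator_subset_ker _)
  have a2 : D.comap (gamZ I i) ≤ rootsOfUnity t ℂ := fun c hc =>
    Units.ext ((h2 c).symm.trans (congrArg Units.val (a1 hc)))
  have : Finite (D.comap (gamZ I i)) :=
    Finite.of_injective _ (Subgroup.inclusion_injective a2)
  have : NeZero (Nat.card (D.comap (gamZ I i))) := ⟨Nat.card_pos.ne'⟩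
  have a3 : ∀ c ∈ D.comap (gamZ I i), c ^ Nat.card (D.comap (gamZ I i)) = 1 := fun c hc =>
    congrArg Subtype.val (pow_card_eq_one' (x := (⟨c, hc⟩ : D.comap (gamZ I i))))
  have a4 : D.comap (gamZ I i) = rootsOfUnity (Nat.card (D.comap (gamZ I i))) ℂ :=
    Subgroup.eq_of_le_of_card_ge a3 (Complex.card_rootsOfUnity _).le
  let _ : CommGroup (Gam I i ⧸ D) :=
    { (inferInstance : Group (Gam I i ⧸ D)) with
      mul_comm := (Subgroup.Normal.quotient_commutative_iff_commutator_le.2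
        (hD ▸ le_sup_right)).is_comm.comm }
  obtain ⟨g, hg⟩ := ext_char ((QuotientGroup.mk' D).comp (gamZ I i))
    (powMonoidHom (Nat.card (D.comap (gamZ I i)))) fun c hc =>
      a3 c ((QuotientGroup.eq_one_iff (gamZ I i c)).1 hc)
  refine ⟨g.comp (QuotientGroup.mk' D), _, fun h => ht (h.trans ?_), fun n => ?_, hg,
    fun c hc => ?_⟩
  · exact (Subgroup.card_dvd_of_le a2).trans (Complex.card_rootsOfUnity t).dvd
  · rw [MonoidHom.comp_apply, QuotientGroup.mk'_apply,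
      (QuotientGroup.eq_one_iff _).2 (hD ▸ Subgroup.mem_sup_left ⟨n, rfl⟩), map_one]
  · exact hD ▸ (a4.ge hc)

theorem exists_lift2 [Fintype G] (hi : Dz p I i) :
    ∃ (K : Type) (_ : Group K) (_ : Fintype K) (π : K →* G) (s : N →* K)
      (P : K →* Matrix (Fin (I.d i)) (Fin (I.d i)) ℂ), IsLift p I i π s P ∧ IsCyclic π.ker ∧
      π.ker ≤ s.range ⊔ commutator K := by
  obtain ⟨δ, t, ht, h1, h2, h3⟩ := gam_stem I i hi
  have h0 : 0 < t := Nat.pos_of_ne_zero fun e => ht (e ▸ dvd_zero p)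
  have : NeZero t := ⟨h0.ne'⟩
  let π : δ.ker →* G := ((MonoidHom.fst _ _).comp (Gam I i).subtype).comp δ.ker.subtype
  have hk : ∀ z ∈ π.ker, ∃ c : ℂˣ, c ^ t = 1 ∧ z.1 = gamZ I i c := fun z hz => by
    obtain ⟨c, hc⟩ := gam_ker I i z.1 hz
    exact ⟨c, (h2 c).symm.trans (by rw [← z.2]; exact congrArg δ hc.symm), hc⟩
  have hd : ∀ γ : Gam I i, ∃ (c : ℂˣ) (k : δ.ker), k.1 = gamZ I i c * γ := fun γ => by
    obtain ⟨c, hc⟩ := IsAlgClosed.exists_pow_nat_eq ((δ γ⁻¹ : ℂˣ) : ℂ) h0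
    have h4 : c ≠ 0 := fun e => (δ γ⁻¹).ne_zero (by rw [← hc, e, zero_pow h0.ne'])
    have h5 : Units.mk0 c h4 ^ t = δ γ⁻¹ := Units.ext hc
    exact ⟨Units.mk0 c h4, ⟨_, by
      rw [MonoidHom.mem_ker, map_mul, h2, h5, ← map_mul, inv_mul_cancel, map_one]⟩, rfl⟩
  let ψ : rootsOfUnity t ℂ →* π.ker :=
    (((gamZ I i).comp (rootsOfUnity t ℂ).subtype).codRestrict δ.ker
      fun c => (h2 c).trans c.2).codRestrict π.ker fun _ => rfl
  have hψ : Function.Surjective ψ := fun z => by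
    obtain ⟨c, a, b⟩ := hk z.1 z.2
    exact ⟨⟨c, a⟩, Subtype.ext (Subtype.ext b.symm)⟩
  have : Finite π.ker := Finite.of_surjective _ hψ
  have : Finite δ.ker := (MonoidHom.finite_iff_finite_ker_range π).2 ⟨this, inferInstance⟩
  refine ⟨δ.ker, inferInstance, Fintype.ofFinite _, π, (gamS I i).codRestrict _ h1,
    (Units.coeHom _).comp (((MonoidHom.snd _ _).comp (Gam I i).subtype).comp δ.ker.subtype),
    ⟨le_antisymm (by rintro _ ⟨k, rfl⟩; exact gam_mem I i k.1) fun g hg => ?_, fun _ => rfl,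
    fun _ => rfl, fun k n => Subtype.ext (mul_inv_eq_iff_eq_mul.2 (gamS_conj I i k n)),
    t, ht, fun z hz => ?_⟩, isCyclic_of_surjective ψ hψ, fun z hz => ?_⟩
  · obtain ⟨γ, rfl⟩ := gam_surj I i hg
    obtain ⟨c, k, e⟩ := hd γ
    exact ⟨k, (congrArg (fun u : Gam I i => u.1.1) e).trans (one_mul γ.1.1)⟩
  · obtain ⟨c, h4, h5⟩ := hk z hz
    refine ⟨Subtype.ext ?_, fun g => Subtype.ext ?_⟩
    · rw [Subgroup.coe_pow, h5, ← map_pow, h4, map_one, Subgroup.coe_one]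
    · rw [Subgroup.coe_mul, Subgroup.coe_mul, h5, gamZ_comm]
  · obtain ⟨c, h4, h5⟩ := hk z hz
    rw [← Subgroup.mem_map_iff_mem δ.ker.subtype_injective, Subgroup.coe_subtype, h5]
    refine sup_le (?_ : _ ≤ Subgroup.map _ _) ?_ (h3 c h4)
    · rintro _ ⟨n, rfl⟩
      exact ⟨_, Subgroup.mem_sup_left ⟨n, rfl⟩, rfl⟩
    · refine Subgroup.commutator_le.2 fun u _ v _ => ?_
      obtain ⟨a, k, e⟩ := hd u
      obtain ⟨b, l, e'⟩ := hd v
      refine ⟨⁅k, l⁆, Subgroup.mem_sup_right (Subgroup.commutator_mem_commutator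
        (Subgroup.mem_top k) (Subgroup.mem_top l)), ?_⟩
      have c1 : ∀ (c : ℂˣ) (x y : Gam I i), ⁅gamZ I i c * x, y⁆ = ⁅x, y⁆ := fun c x y => by
        have := gamZ_comm I i c (x * y * x⁻¹)
        calc _ = gamZ I i c * (x * y * x⁻¹) * (gamZ I i c)⁻¹ * y⁻¹ := by
              rw [commutatorElement_def]; group
          _ = _ := by rw [← this, mul_inv_cancel_right, commutatorElement_def]
      rw [map_commutatorElement, Subgroup.coe_subtype, e, e', c1, ← commutatorElement_inv, c1,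
        commutatorElement_inv]

variable {I i}

open Classical in
theorem hat2 [Fintype G] (hi : Dz p I i) : ∃ (H : Type) (_ : Group H) (_ : Fintype H)
    (κ : H →* G ⧸ N) (ε : H → ℂ) (c : ℂ), CenP p κ.ker ∧ IsCyclic κ.ker ∧
    κ.ker ≤ commutator H ∧ κ.range = (St I i).map (QuotientGroup.mk' N) ∧
    (∀ x, x ∉ κ.ker → ε x = 0) ∧
    (∀ w : G ⧸ N → G ⧸ N → ℂ, ∑ x : G, ∑ y : G,
      (if x ∈ St I i ∧ y ∈ St I i then w x y * ee I (· = i) (cm x y) else 0) =
      c * ∑ x : H, ∑ y : H, w (κ x) (κ y) * ε (cm x y)) ∧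
    ∀ M : Subgroup G, N ≤ M → M ≤ St I i → ∀ w : G ⧸ N → G ⧸ N → ℂ, ∑ x : G, ∑ y : G,
      (if x ∈ St I i ∧ y ∈ St I i then w x y * conv (ee I (· = i)) (EE p M) (cm x y) else 0) =
      c * ∑ x : H, ∑ y : H, w (κ x) (κ y) *
        conv ε (EE p ((M.map (QuotientGroup.mk' N)).comap κ)) (cm x y) := by
  obtain ⟨K, _, _, π, s, P, h, hc, hs⟩ := exists_lift2 I i hi
  have : s.range.Normal := ⟨by
    rintro _ ⟨n, rfl⟩ k
    exact ⟨_, (h.conj k n).symm⟩⟩
  let κ : K ⧸ s.range →* G ⧸ N := QuotientGroup.lift s.range ((QuotientGroup.mk' N).comp π) (by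
    rintro _ ⟨n, rfl⟩
    simp [h.sec])
  have hq := QuotientGroup.mk'_surjective s.range
  have hk := QuotientGroup.ker_mk' s.range
  have hκ : ∀ k, κ (QuotientGroup.mk' s.range k) = π k := fun _ => rfl
  let _ : Fintype (K ⧸ s.range) := Fintype.ofFinite _
  obtain ⟨c1, ε, c2, c3⟩ := tw_ee h hq hk hκ
  have c4 : (Nat.card π.ker : ℂ) ≠ 0 := by exact_mod_cast Nat.card_pos.ne'
  have c5 : κ.ker = π.ker.map (QuotientGroup.mk' s.range) := by
    refine le_antisymm (fun x hx => ?_) (Subgroup.map_le_iff_le_comap.2 fun z hz => ?_)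
    · obtain ⟨k, rfl⟩ := hq x
      have hn : π k ∈ N := (QuotientGroup.eq_one_iff _).1 ((hκ k).symm.trans hx)
      refine ⟨k * (s ⟨π k, hn⟩)⁻¹, by simp [h.sec], ?_⟩
      rw [map_mul, map_inv, (MonoidHom.mem_ker (f := QuotientGroup.mk' s.range)).1
        (hk.ge ⟨_, rfl⟩), inv_one, mul_one]
    · rw [Subgroup.mem_comap, MonoidHom.mem_ker, hκ, π.mem_ker.1 hz, QuotientGroup.mk_one]
  have key : ∀ {f : G → ℂ} {f' : K ⧸ s.range → ℂ}, Twf π (QuotientGroup.mk' s.range) P f f' →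
      ∀ w : G ⧸ N → G ⧸ N → ℂ, ∑ x : G, ∑ y : G,
      (if x ∈ St I i ∧ y ∈ St I i then w x y * f (cm x y) else 0) =
      ((Nat.card N : ℂ) / I.d i) ^ 2 * (P 1).trace / (Nat.card π.ker : ℂ) ^ 2 *
        ∑ x, ∑ y, w (κ x) (κ y) * f' (cm x y) := fun hf w => by
    have := pair_transfer h hq hk hκ hf w 1
    simp only [map_one π, map_one (QuotientGroup.mk' s.range), one_mul, inv_one] at this
    rw [div_mul_eq_mul_div, ← this, mul_div_cancel_left₀ _ (pow_ne_zero 2 c4)]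
  refine ⟨K ⧸ s.range, inferInstance, inferInstance, κ, ε, _, c1, ?_, ?_, ?_, c2, key c3,
    fun M h1 h2 => key (tw_EE hi h hq hk hκ c3 h1 h2)⟩
  · rw [c5]
    exact isCyclic_of_surjective _ (MonoidHom.subgroupMap_surjective _ _)
  · rw [c5]
    refine (Subgroup.map_mono hs).trans ?_
    rw [Subgroup.map_sup, (Subgroup.map_eq_bot_iff _).2 hk.ge, bot_sup_eq, commutator_def,
      Subgroup.map_commutator]
    exact Subgroup.commutator_mono le_top le_top
  rw [← h.range]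
  ext x
  constructor
  · rintro ⟨y, rfl⟩
    obtain ⟨k, rfl⟩ := hq y
    exact ⟨π k, ⟨k, rfl⟩, rfl⟩
  · rintro ⟨_, ⟨k, rfl⟩, rfl⟩
    exact ⟨_, hκ k⟩

end Pool.Agent.Lib.MP_b6945b_al.Ip
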