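import Pool.Agent.Lib.MP_b6945b_al.As.ABase
import Pool.Agent.Lib.MP_b6945b_al.As.AStem

set_option autoImplicit false

/-!
Reduction to cyclic central extensions of almost simple groups.
-/

namespace Pool.Agent.Lib.MP_b6945b_al.Ip

open Finset

/-- The identity for cyclic central extensions of almost simple groups. -/
def HypA (p : ℕ) (G0 : Type) [Group G0] : Prop :=
  ∀ (H : Type) [Group H] [Fintype H] (Z L : Subgroup H) [L.Normal] (a b : H),
    CenP p Z → Z ≤ L → (∀ T : Subgroup H, Z ≤ T → T ≤ L → L ≤ Nr T → T = Z ∨ T = L) →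
    (∃ u ∈ L, ∃ v ∈ L, cm u v ∉ Z) → gen a b L = ⊤ → Reg p L a → Reg p L b → cm a b ∈ L →
    Sec G0 L Z → IsCyclic Z → Z ≤ commutator H → (∀ g, (∀ v ∈ L, cm g v ∈ Z) → g ∈ Z) → KR p H

variable {p : ℕ} [Fact p.Prime] {G0 : Type} [Group G0]

lemma hyp_pgroup (h : IsPGroup p G0) : Hyp p G0 := by
  intro H _ _ Z L _ a b hZ hle hmin ⟨u, hu, v, hv, huv⟩ _ _ _ _ ⟨R, h1, h2, _⟩
  have := hZ.normal
  refine absurd ((chief_fac (p := p) hle (fun e => huv (cm_mem (e hu) (e hv))) (fun g hg => ?_)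
    fun T _ t1 t2 => hmin T t1 t2 fun g _ => pmob_nr g).comm u hu v hv) huv
  obtain ⟨x, hx⟩ := h1 g hg
  obtain ⟨j, hj⟩ := h x
  exact ⟨j, h2 _ (L.pow_mem hg _) (by simpa [hj] using R.pow_mem hx (p ^ j))⟩

section
variable {G : Type} [Group G] [Fintype G] {N : Subgroup G} [N.Normal]

omit [Fintype G] in
lemma sec_quot (W : Subgroup G) (h : Group.IsSolvable (W ⧸ N.subgroupOf W)) :
    Sec (W ⧸ N.subgroupOf W) W N :=
  ⟨((QuotientGroup.mk' _).prod W.subtype).range, fun g hg => ⟨_, ⟨g, hg⟩, rfl⟩, by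
    rintro g - ⟨w, e⟩
    obtain ⟨e1, e2⟩ := Prod.ext_iff.1 e
    exact (show (w : G) = g from e2) ▸ (QuotientGroup.eq_one_iff w).1 e1, Or.inl h⟩

open Classical in
lemma b3_all [Fintype N] [Fintype (G ⧸ N)] (I : IrrData N) (a b : G) :
    CS N (fun x y => BB p {x, y} ⊤ N (cm x y)) a b =
      ∑ i, if Dz p I i then CS N (fun x y => ee I (· = i) (cm x y)) a b *
        eK p {(a : G ⧸ N), (b : G ⧸ N)} ((St I i).map (QuotientGroup.mk' N)) else 0 := by
  by_cases h : Reg p N a ∧ Reg p N b ∧ cm a b ∈ N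
  · obtain ⟨ha, hb, hab⟩ := h
    refine b2 I fun W h1 h2 haW hbW => b1 h1 h2 haW hbW ha hb hab ?_
    have hW : IsPGroup p (W ⧸ N.subgroupOf W) := fun q => by
      obtain ⟨w, rfl⟩ := QuotientGroup.mk_surjective q
      exact (h2 w w.2).imp fun j e => chief_pow.1 e
    have := hW.isNilpotent
    exact TW_loc (TW_all (hyp_pgroup hW) _) h1 (fun g _ => pmob_nr g) (pmob_nr a)
      (pmob_nr b) haW hbW (ha.imp fun _ e => ⟨e.1, h1 e.2⟩) (hb.imp fun _ e => ⟨e.1, h1 e.2⟩)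
      (h1 hab) (sec_quot W inferInstance) (Nat.lt_succ_self _)
  · exact b2_sing I h

/-- Clifford reduction of the total sum. -/
theorem AB_hat (h : ∀ (H : Type) [Group H] [Fintype H] (κ : H →* G ⧸ N) (T : Subgroup G),
    CenP p κ.ker → IsCyclic κ.ker → κ.ker ≤ commutator H → N ≤ T → Cr N ≤ T →
      κ.range = T.map (QuotientGroup.mk' N) → ∀ z ∈ κ.ker, Psi p z = 0) : AB p N = AB p (⊤ : Subgroup G) := by
  classical
  let _ : Fintype N := Fintype.ofFinite N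
  let _ : Fintype (G ⧸ N) := Fintype.ofFinite _
  obtain ⟨I⟩ := exists_irrData N
  obtain ⟨S, hS⟩ : ∃ S : G → G → ℂ, ∀ x y, S x y = ∑ i, if Dz p I i then
      eK p {(x : G ⧸ N), (y : G ⧸ N)} ((St I i).map (QuotientGroup.mk' N)) *
        ee I (· = i) (cm x y) else 0 := ⟨_, fun _ _ => rfl⟩
  have key : ∀ {x u : G}, u * x⁻¹ ∈ N → (u : G ⧸ N) = x := fun h => by
    rwa [← mul_inv_eq_one, ← QuotientGroup.mk_inv, ← QuotientGroup.mk_mul,
      QuotientGroup.eq_one_iff]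
  have h1 : CS ⊤ (fun x y => BB p {x, y} ⊤ N (cm x y) - S x y) 1 1 = 0 := by
    refine CS_of_le (N := N) le_top _ fun x y _ _ => ?_
    rw [CS_sub, b3_all I, CS_congr (t := S) fun u v _ _ => hS u v, CS_sum, sub_eq_zero]
    refine sum_congr rfl fun i _ => ?_
    split_ifs
    · refine Eq.trans ?_ (CS_congr (t := fun u v =>
        eK p {(x : G ⧸ N), (y : G ⧸ N)} ((St I i).map (QuotientGroup.mk' N)) *
          ee I (· = i) (cm u v)) fun u v hu hv => by rw [key hu, key hv])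
      rw [mul_comm]
      simp only [CS, mul_sum, mul_ite, mul_zero]
    · exact (CS_zero _ _ _).symm
  have h2 : ∑ x : G, ∑ y : G, S x y = ∑ x : G, ∑ y : G, EE p ⊤ (cm x y) := by
    simp only [hS, EE_split (M := ⊤) le_top I]
    rw [sum_congr rfl fun x _ => sum_comm, sum_comm]
    conv_rhs => rw [sum_congr rfl fun x _ => sum_comm, sum_comm]
    refine sum_congr rfl fun i _ => ?_
    split_ifs with hi
    swap
    · rfl
    obtain ⟨H, _, _, κ, ε, c, hZ, hcy, hst, hr, hε, e1, e2⟩ := hat2 hi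
    have hee : conv (ee I (· = i)) (ee I (· = i)) = ee I (· = i) := pc3_conv I rfl
    have hf := conv_ee_fix I i (f := EE p (St I i))
      fun n hn x => EE_nr2 (Subgroup.le_normalizer (le_St I i hn)) x
    have e3 := (sum_St I i hf.1 hf.2 fun _ _ => 1).trans (e2 _ (le_St I i) le_rfl fun _ _ => 1)
    rw [← hr, MonoidHom.comap_range_self] at e3
    simp only [one_mul] at e3
    rw [ee_EE_stab I i le_top, top_inf_eq, e3, sum_St I i hee hee fun u v =>
      eK p {u, v} ((St I i).map (QuotientGroup.mk' N)),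
      e1 fun u v => eK p {u, v} ((St I i).map (QuotientGroup.mk' N))]
    congr 1
    rw [← sub_eq_zero, ← sum_sub_distrib]
    simp only [← sum_sub_distrib, ← hr, MonoidHom.range_eq_map,
      eK_quot κ hZ ⊤ (pmob_nr _) (pmob_nr _), mul_comm _ (ε _), sum_tz hZ hε]
    rw [sum_congr rfl fun x _ => sum_comm, sum_comm]
    refine sum_eq_zero fun z _ => ?_
    split_ifs with hz
    · simp only [← mul_sum]
      exact mul_eq_zero_of_right _ (h H κ _ hZ hcy hst (le_St I i) (fun g hg y => congrArg _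
        (Subtype.ext (mul_inv_eq_iff_eq_mul.2 (hg y y.2).symm))) hr z hz)
    · simp only [sum_const_zero]
  simp only [CS, Subgroup.mem_top, and_self, if_true, sum_sub_distrib, h2] at h1
  simpa only [AB, BB_self, cm] using sub_eq_zero.1 h1

omit [Fact p.Prime] [Fintype G] in
/-- Subgroups of abelian groups with two generators have two generators. -/
lemma two_gen {a b : G} (hg : gen a b N = ⊤) (hab : cm a b ∈ N) {T : Subgroup G} (hT : N ≤ T) :
    ∃ x y, gen x y N = T := by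
  have hc : ∀ u v : G, cm u v ∈ N := fun u v =>
    mid_comm hab u (hg ▸ Subgroup.mem_top u) v (hg ▸ Subgroup.mem_top v)
  have key : ∀ (M U : Subgroup G) (c : G), N ≤ M → (∀ g ∈ U, ∃ i : ℤ, g * (c ^ i)⁻¹ ∈ M) →
      ∃ y ∈ U, ∀ g ∈ U, ∃ i : ℤ, g * (y ^ i)⁻¹ ∈ M := fun M U c h1 h2 => by
    have : M.Normal := ⟨fun n hn g => by simpa [cm] using M.mul_mem (h1 (hc g n)) hn⟩
    have h3 : ∀ {g c : G} {i : ℤ}, g * (c ^ i)⁻¹ ∈ M ↔ (c : G ⧸ M) ^ i = g := by
      intro g c i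
      rw [← QuotientGroup.eq_one_iff, QuotientGroup.mk_mul, QuotientGroup.mk_inv,
        QuotientGroup.mk_zpow, mul_inv_eq_one, eq_comm]
    have : IsCyclic (U.map (QuotientGroup.mk' M)) :=
      Subgroup.isCyclic_of_le (H' := Subgroup.zpowers (c : G ⧸ M)) (by
        rintro _ ⟨g, hg, rfl⟩
        exact (h2 g hg).imp fun _ => h3.1)
    obtain ⟨q, hq⟩ := (Subgroup.isCyclic_iff_exists_zpowers_eq_top _).1 this
    obtain ⟨y, hy, rfl⟩ : q ∈ U.map (QuotientGroup.mk' M) := hq ▸ Subgroup.mem_zpowers q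
    exact ⟨y, hy, fun g hg => ((hq.ge ⟨g, hg, rfl⟩ : _ ∈ Subgroup.zpowers _)).imp fun _ => h3.2⟩
  have hm : ∀ (M : Subgroup G) (c : G), N ≤ M → ∀ g ∈ Subgroup.zpowers c ⊔ M,
      ∃ i : ℤ, g * (c ^ i)⁻¹ ∈ M := fun M c h1 g h2 => by
    have : M.Normal := ⟨fun n hn g => by simpa [cm] using M.mul_mem (h1 (hc g n)) hn⟩
    rw [sup_comm, ← SetLike.mem_coe, Subgroup.normal_mul] at h2
    obtain ⟨n, hn, _, ⟨i, rfl⟩, rfl⟩ := h2
    exact ⟨i, by simpa using hn⟩
  have h0 : gen a b N ≤ Subgroup.zpowers b ⊔ (Subgroup.zpowers a ⊔ N) :=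
    gen_le.2 ⟨Subgroup.mem_sup_right (Subgroup.mem_sup_left (Subgroup.mem_zpowers a)),
      Subgroup.mem_sup_left (Subgroup.mem_zpowers b), le_sup_right.trans le_sup_right⟩
  obtain ⟨y, hy, h1⟩ := key (Subgroup.zpowers a ⊔ N) T b le_sup_right fun g _ =>
    hm _ b le_sup_right g (h0 (hg ▸ Subgroup.mem_top g))
  obtain ⟨x, hx, h2⟩ := key N (T ⊓ (Subgroup.zpowers a ⊔ N)) a le_rfl fun g h => hm N a le_rfl g h.2
  refine ⟨x, y, le_antisymm (gen_le.2 ⟨hx.1, hy, hT⟩) fun g h => ?_⟩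
  obtain ⟨i, hi⟩ := h1 g h
  obtain ⟨j, hj⟩ := h2 _ ⟨T.mul_mem h (T.inv_mem (T.zpow_mem hy i)), hi⟩
  simpa using mul_mem (mul_mem (le_gen x y N hj) (zpow_mem (left_mem_gen x y N) j))
    (zpow_mem (right_mem_gen x y N) i)

end

variable {H : Type} [Group H] [Fintype H] {Z L : Subgroup H} [L.Normal] {a b : H}

theorem psi_zeroA (hyp : HypA p G0) (h : Sim p G0 Z L a b) (hc : IsCyclic Z)
    (hst : Z ≤ commutator H) (hf : ∀ g, (∀ v ∈ L, cm g v ∈ Z) → g ∈ Z) : ∀ w ∈ Z, Psi p w = 0 := by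
  refine psi_ind Z _ (fun w hw => ?_) fun w hw j hj => ?_
  · have h1 := Subgroup.zpowers_le.2 hw
    have := (h.cen.mono h1).normal
    have h2 := QuotientGroup.mk'_surjective (Subgroup.zpowers w)
    have h4 : (QuotientGroup.mk' (Subgroup.zpowers w)).ker ≤ Z := by rwa [QuotientGroup.ker_mk']
    have h3 := h.map h2 h4
    have := Subgroup.Normal.map (H := L) inferInstance _ h2
    let _ : Fintype (H ⧸ Subgroup.zpowers w) := Fintype.ofFinite _
    refine psi_quot (h.cen.mono h1)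
      (hyp _ _ _ _ _ h3.cen h3.le h3.sim h3.na h3.top h3.ra h3.rb h3.ab h3.sec
        (isCyclic_of_surjective _ (MonoidHom.subgroupMap_surjective _ Z))
        ((Subgroup.map_mono hst).trans (by
          rw [commutator_def, Subgroup.map_commutator]
          exact Subgroup.commutator_mono le_top le_top)) fun g hg => ?_)
    obtain ⟨g, rfl⟩ := h2 g
    refine ⟨g, hf g fun v hv => ?_, rfl⟩
    rw [← Subgroup.comap_map_eq_self h4, Subgroup.mem_comap]
    simpa only [cm, map_mul, map_inv] using hg _ ⟨v, hv, rfl⟩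
  · obtain ⟨t, -, e⟩ := h.cen
    exact Psi_pow (e w hw).2 hj

omit [Fact p.Prime] [Fintype H] in
lemma Sim.cr (h : Sim p G0 Z L a b) : (∀ g ∈ L, g ∈ Cr L → g ∈ Z) ∧ Z ≤ Cr L ∧
    ∀ g, (∀ v ∈ L, cm g v ∈ Z) → g ∈ Cr L := by
  obtain ⟨t, -, hZ⟩ := h.cen
  obtain ⟨u, hu, v, hv, huv⟩ := h.na
  have h0 : ∀ U : Subgroup H, Z ≤ Cr U := fun U z hz g _ => (hZ z hz).2 g
  refine ⟨fun g h1 h2 => ?_, h0 L, fun g hg => ?_⟩
  · rcases h.sim (L ⊓ Cr L) (le_inf h.le (h0 L)) inf_le_left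
      (fun x _ => nr_inf (pmob_nr x) (nr_cr (pmob_nr x))) with e | e
    · exact e.le ⟨h1, h2⟩
    · exact absurd (cm_eq_one.2 ((e.ge hv).2 u hu) ▸ Z.one_mem) huv
  · have := h.cen.normal
    have key : ∀ c ∈ CV Z L, ∀ x ∈ L, ∃ z ∈ Z, c * x = x * c * z := fun c hc x hx =>
      ⟨_, hc x hx, by rw [(hZ _ (hc x hx)).2, cm]; group⟩
    rcases h.sim (L ⊓ Cr (CV Z L)) (le_inf h.le (h0 _)) inf_le_left
      (fun x _ => nr_inf (pmob_nr x) (nr_cr (pmob_nr x))) with e | e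
    · refine absurd (e.le ⟨cm_mem hu hv, fun c hc => ?_⟩) huv
      obtain ⟨z, hz, e1⟩ := key c hc u hu
      obtain ⟨w, hw, e2⟩ := key c hc v hv
      have e3 : c * u * c⁻¹ = u * z := by rw [e1, (hZ z hz).2, (hZ z hz).2]; group
      have e4 : c * v * c⁻¹ = v * w := by rw [e2, (hZ w hw).2, (hZ w hw).2]; group
      have e5 : c * cm u v * c⁻¹ = cm (c * u * c⁻¹) (c * v * c⁻¹) := by unfold cm; group
      have e6 : cm (u * z) (v * w) = cm u v := by
        calc cm (u * z) (v * w) = u * (z * (v * w) * z⁻¹) * u⁻¹ * w⁻¹ * v⁻¹ := by unfold cm; group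
          _ = u * v * (w * u⁻¹ * w⁻¹) * v⁻¹ := by
            rw [← (hZ z hz).2, mul_inv_cancel_right]; group
          _ = cm u v := by rw [← (hZ w hw).2, mul_inv_cancel_right, cm]
      rw [e3, e4, e6] at e5
      exact mul_inv_eq_iff_eq_mul.1 e5
    · exact fun x hx => ((e.ge hx).2 g hg).symm

theorem hyp_of_hypA (hyp : HypA p G0) : Hyp p G0 := by
  intro H _ _ Z L _ a b hZ hle hmin hna hg ha hb hab hs
  have hS : Sim p G0 Z L a b := ⟨hZ, hle, hmin, hna, hg, ha, hb, hab, hs⟩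
  obtain ⟨c1, c2, c3⟩ := hS.cr
  have hreg : ∀ g, Reg p L g := fun g => reg_gen hab ha hb (hg ▸ Subgroup.mem_top g)
  have hcm : ∀ u v, cm u v ∈ L := fun u v =>
    mid_comm hab u (hg ▸ Subgroup.mem_top u) v (hg ▸ Subgroup.mem_top v)
  have e1 : AB p (⊥ : Subgroup H) = AB p (Cr L) := by
    obtain ⟨t, ht, h1⟩ := hZ
    choose m h2 h3 using hreg
    refine AB_reg bot_le (m := (∏ g, m g) * t) (fun e => ?_) fun v hv => ?_
    · rcases (Fact.out : p.Prime).dvd_mul.1 e with e | e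
      · obtain ⟨g, -, e⟩ := ((Fact.out : p.Prime).prime.dvd_finsetProd_iff _).1 e
        exact h2 g e
      · exact ht e
    · obtain ⟨r, hr⟩ := Finset.dvd_prod_of_mem m (mem_univ v)
      rw [hr, mul_right_comm, pow_mul, pow_mul, (h1 _ (c1 _ (h3 v) (pow_mem hv _))).1, one_pow]
      exact one_mem _
  have e2 : AB p (Cr L) = AB p (⊤ : Subgroup H) := by
    refine AB_hat fun E _ _ κ T hZ' hcy hst h1 h2 hr => ?_
    have hLT : L ≤ T := fun v hv => h2 fun c hc => (hc v hv).symm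
    have up : ∀ x ∈ T, ∃ u, κ u = x := fun x hx => hr.ge ⟨x, hx, rfl⟩
    have down : ∀ u, ∃ x ∈ T, κ u = x := fun u => by
      obtain ⟨x, hx, e⟩ := hr.le ⟨u, rfl⟩
      exact ⟨x, hx, e.symm⟩
    have hcm' : ∀ {u v : E} {x y : H}, κ u = x → κ v = y → κ (cm u v) = (cm x y : H) :=
      fun h3 h4 => by simp only [cm, map_mul, map_inv, h3, h4, QuotientGroup.mk_mul,
        QuotientGroup.mk_inv]
    obtain ⟨x, y, hxy⟩ := two_gen hg hab hLT
    obtain ⟨x', hx⟩ := up x (hxy ▸ left_mem_gen x y L)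
    obtain ⟨y', hy⟩ := up y (hxy ▸ right_mem_gen x y L)
    have hk : κ.ker ≤ (L.map (QuotientGroup.mk' (Cr L))).comap κ := Subgroup.ker_le_comap _ _
    have hr' : ∀ {u : E} {g : H}, κ u = g → Reg p ((L.map (QuotientGroup.mk' (Cr L))).comap κ) u :=
      fun {u g} e => (hreg g).imp fun m h => ⟨h.1, _, h.2, by rw [map_pow, map_pow, e]; rfl⟩
    have : (L.map (QuotientGroup.mk' (Cr L))).Normal :=
      Subgroup.Normal.map inferInstance _ (QuotientGroup.mk'_surjective _)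
    refine psi_zeroA hyp (L := (L.map (QuotientGroup.mk' (Cr L))).comap κ) (a := x') (b := y')
      ⟨hZ', hk, fun U u1 u2 u3 => ?_, ?_, ?_, hr' hx, hr' hy, ⟨_, hcm x y, (hcm' hx hy).symm⟩,
        ((hs.map _ (QuotientGroup.mk'_surjective _)).comap κ).mono le_rfl ?_⟩ hcy hst fun g h => ?_
    · refine (hmin (L ⊓ (U.map κ).comap (QuotientGroup.mk' (Cr L))) (fun z hz => ⟨hle hz, 1,
        one_mem _, (map_one κ).trans ((QuotientGroup.eq_one_iff z).2 (c2 hz)).symm⟩) inf_le_left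
        fun v hv => nr_inf (pmob_nr v) (Subgroup.le_normalizer_comap _ ?_)).imp
          (fun e => le_antisymm (fun u hu => ?_) u1) fun e => le_antisymm u2 fun u hu => ?_
      · obtain ⟨v', e⟩ := up v (hLT hv)
        exact Subgroup.le_normalizer_map κ ⟨v', u3 ⟨v, hv, e.symm⟩, e⟩
      · obtain ⟨v, hv, e'⟩ := u2 hu
        exact e'.symm.trans ((QuotientGroup.eq_one_iff v).2 (c2 (e.le ⟨hv, u, hu, e'.symm⟩)))
      · obtain ⟨v, hv, e'⟩ := hu
        obtain ⟨w, hw, e''⟩ := (e.ge hv).2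
        have h3 : u * w⁻¹ ∈ κ.ker := by
          rw [MonoidHom.mem_ker, map_mul, map_inv, e'', e', mul_inv_cancel]
        simpa using U.mul_mem (u1 h3) hw
    · obtain ⟨u, hu, v, hv, huv⟩ := hna
      obtain ⟨u', e⟩ := up u (hLT hu)
      obtain ⟨v', e'⟩ := up v (hLT hv)
      exact ⟨u', ⟨u, hu, e.symm⟩, v', ⟨v, hv, e'.symm⟩, fun h => huv (c1 _ (hcm u v)
        ((QuotientGroup.eq_one_iff _).1 ((hcm' e e').symm.trans h)))⟩
    · refine top_le_iff.1 fun g _ => ?_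
      obtain ⟨v, hv, e⟩ := down g
      have h3 : gen x y L ≤ ((gen x' y' ((L.map (QuotientGroup.mk' (Cr L))).comap κ)).map κ).comap
          (QuotientGroup.mk' (Cr L)) := gen_le.2 ⟨⟨x', left_mem_gen _ _ _, hx⟩,
        ⟨y', right_mem_gen _ _ _, hy⟩, fun w hw => (up w (hLT hw)).elim fun w' e =>
          ⟨w', le_gen _ _ _ ⟨w, hw, e.symm⟩, e⟩⟩
      obtain ⟨w, hw, e'⟩ := h3 (hxy ▸ hv)
      have h4 : g * w⁻¹ ∈ κ.ker := by
        rw [MonoidHom.mem_ker, map_mul, map_inv, e', e]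
        exact mul_inv_cancel _
      simpa using mul_mem (le_gen x' y' _ (hk h4)) hw
    · rintro u ⟨⟨z, hz, e⟩, -⟩
      exact e.symm.trans ((QuotientGroup.eq_one_iff z).2 (c2 hz))
    · obtain ⟨v, -, e⟩ := down g
      refine e.trans ((QuotientGroup.eq_one_iff v).2 (c3 v fun w hw => ?_))
      obtain ⟨w', e'⟩ := up w (hLT hw)
      exact c1 _ (hcm v w) ((QuotientGroup.eq_one_iff _).1
        ((hcm' e e').symm.trans (h w' ⟨w, hw, e'.symm⟩)))
  have e3 := e1.trans e2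
  refine KR_congr Subgroup.topEquiv ((KR_iff_term (L := ⊤) ⟨le_rfl, fun _ h _ => h⟩).2 ?_)
  have e4 : ∀ x y : H, term p ⊤ x y = tw p ⊤ ⊥ ⊤ x y := fun x y => by
    rw [tw_eq_tz (hZ.mono bot_le) ⟨le_rfl, fun _ h _ => h⟩, tz, term, inv_one, mul_one]
    congr 1
    exact pstep3_ite cm_eq_one.symm _
  simpa only [Subgroup.mem_top, and_self, if_true, e4, tw, sum_sub_distrib, AB, BB_self, cm]
    using sub_eq_zero.2 e3

end Pool.Agent.Lib.MP_b6945b_al.Ip
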