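import Pool.Agent.Lib.MP_b6945b_al.As.ASer
import Pool.Agent.Lib.MP_b6945b_al.As.BAlm

set_option autoImplicit false

/-!
The reduction to stem extensions of almost simple groups.
-/

namespace Pool.Agent.Lib.MP_b6945b_al.Ip

variable {p : ℕ} [Fact p.Prime] {G : Type} [Group G] [Finite G]

theorem reduction6
    (h : ∀ (A : Type) [Group A] [Finite A] (S : Subgroup A) [S.Normal], IsSimpleGroup S →
      (∃ x ∈ S, ∃ y ∈ S, x * y ≠ y * x) → Subgroup.centralizer (S : Set A) = ⊥ →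
      (∀ x y : A ⧸ S, x * y = y * x) → ¬ p ∣ S.index → Group.rank (A ⧸ S) ≤ 2 →
      (∃ (B : Subgroup G) (φ : B →* A), Function.Surjective φ) →
      (¬ ∃ P : Sylow p S, (∀ x ∈ P.toSubgroup, ∀ y ∈ P.toSubgroup, x * y = y * x) ∧
        Group.rank P.toSubgroup ≤ 2) →
      ∀ (H : Type) [Group H] [Finite H] (κ : H →* A), (Function.Surjective κ ∧
        κ.ker ≤ Subgroup.center H ∧ κ.ker ≤ commutator H ∧ IsCyclic κ.ker ∧
        ¬ p ∣ Nat.card κ.ker) → KR p H) : KR p G := by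
  refine KR_of_hyp (hyp_of_hypA ?_)
  intro H _ _ Z L _ a b hZ hle hmin hna hg ha hb hab hs hc hst hf
  have := hZ.normal
  have hq := QuotientGroup.mk'_surjective Z
  have hk := QuotientGroup.ker_mk' Z
  have h1 := (⟨hZ, hle, hmin, hna, hg, ha, hb, hab, hs⟩ : Sim p G Z L a b).map hq hk.le
  rw [(Subgroup.map_eq_bot_iff Z).2 hk.ge] at h1
  have := Subgroup.Normal.map (H := L) inferInstance _ hq
  have e : (L.map (QuotientGroup.mk' Z) ⧸ (⊥ : Subgroup (H ⧸ Z)).subgroupOf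
      (L.map (QuotientGroup.mk' Z))) ≃* L.map (QuotientGroup.mk' Z) :=
    (QuotientGroup.quotientMulEquivOfEq (Subgroup.bot_subgroupOf _)).trans
      QuotientGroup.quotientBot
  obtain ⟨u, hu, v, hv, huv⟩ := h1.na
  by_cases c : ∃ P : Sylow p (L.map (QuotientGroup.mk' Z)),
      (∀ x ∈ P.toSubgroup, ∀ y ∈ P.toSubgroup, x * y = y * x) ∧ Group.rank P.toSubgroup ≤ 2
  · obtain ⟨P, c1, c2⟩ := c
    refine KR_abR fun D hD => ?_
    have h2 : D ≤ L := fun g hg' => (pin_of_gen hg ha hb hab).2 g trivial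
      ((hD ⟨g, hg'⟩).imp fun _ e => congrArg Subtype.val e)
    have h3 : Function.Injective (((QuotientGroup.mk' Z).subgroupMap L).comp
        (Subgroup.inclusion h2)) := (injective_iff_map_eq_one _).2 fun d hd => by
      obtain ⟨t, ht, hZ⟩ := hZ
      exact Subtype.ext (Subgroup.mem_bot.1 (mem_of_reg_pelt ⟨t, ht, (hZ _
        ((QuotientGroup.eq_one_iff (d : H)).1 (congrArg Subtype.val hd))).1⟩
        ((hD d).imp fun _ e => congrArg Subtype.val e)))
    have h4 := AbR.map D.subtype_injective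
      (AbR.of_map h3 (abR_of_syl P c1 c2 _ ((hD.to_subgroup ⊤).map _)))
    rwa [← MonoidHom.range_eq_map, Subgroup.range_subtype] at h4
  obtain ⟨q1, q2, q3⟩ := quot_of_gen h1.top h1.ra h1.rb h1.ab
  have := simple_of_min h1.le (fun e => huv (cm_mem (e hu) (e hv))) h1.sim
  have hA : ∃ (B : Subgroup G) (φ : B →* H ⧸ Z), Function.Surjective φ := by
    rcases hs.all hf with s | s
    · obtain ⟨B, φ, hφ⟩ := sec_surj h1.sec.weak
      have e1 := IsSimpleGroup.comm_iff_isSolvable.2 (Group.isSolvable_of_surjective hφ)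
        (QuotientGroup.mk ⟨u, hu⟩) (QuotientGroup.mk ⟨v, hv⟩)
      exact absurd ((QuotientGroup.eq_one_iff (N := (⊥ : Subgroup (H ⧸ Z)).subgroupOf _)
        (cm ⟨u, hu⟩ ⟨v, hv⟩)).1 (cm_eq_one.2 e1)) huv
    · obtain ⟨B, φ, hφ⟩ := sec_surj s
      refine ⟨B, (QuotientGroup.map (Z.subgroupOf ⊤) Z (⊤ : Subgroup H).subtype le_rfl).comp φ,
        fun y => ?_⟩
      obtain ⟨y, rfl⟩ := hq y
      obtain ⟨w, hw⟩ := hφ (QuotientGroup.mk ⟨y, trivial⟩)
      exact ⟨w, by rw [MonoidHom.comp_apply, hw]; rfl⟩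
  refine h (H ⧸ Z) (L.map (QuotientGroup.mk' Z)) e.symm.isSimpleGroup
    ⟨u, hu, v, hv, fun e => huv (Subgroup.mem_bot.2 (cm_eq_one.2 e))⟩
    (le_bot_iff.1 fun g hg => ?_) q1 q2 q3 hA c H
    (QuotientGroup.mk' Z) ?_
  · obtain ⟨g, rfl⟩ := hq g
    exact (QuotientGroup.eq_one_iff g).2 (hf g fun w hw =>
      chief_mk.2 (hg _ ⟨w, hw, rfl⟩).symm)
  · rw [hk]
    exact ⟨hq, fun z hz => Subgroup.mem_center_iff.2 (hZ.choose_spec.2 z hz).2, hst, hc, hZ.card⟩

end Pool.Agent.Lib.MP_b6945b_al.Ip
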