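import Pool.Agent.Lib.MP_b6945b_al.As.ALDef

set_option autoImplicit false

/-!
An invariant character of defect zero extends to a finite central extension whose kernel has
exponent prime to `p`.
-/

namespace Pool.Agent.Lib.MP_b6945b_al.Ip

open Finset Matrix
open scoped Kronecker

lemma bl_exp {k : Type} [Field k] {p : ℕ} [Fact p.Prime] [CharP k p] {a : k}
    (ha : IsIntegral ℤ a) : ∃ e, ¬ p ∣ e ∧ ∀ m, a ^ (e * m + 1) = a := by
  let _ : Algebra (ZMod p) k := ZMod.algebra k p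
  have h1 : IsIntegral (ZMod p) a := ha.tower_top
  let F := IntermediateField.adjoin (ZMod p) {a}
  have : FiniteDimensional (ZMod p) F := IntermediateField.adjoin.finiteDimensional h1
  have : Finite F := Module.finite_of_finite (ZMod p)
  let _ : Fintype F := Fintype.ofFinite F
  have : CharP F p := (algebraMap F k).charP_iff_charP p |>.2 inferInstance
  obtain ⟨n, -, hn⟩ := FiniteField.card F p
  have h2 : a ^ Fintype.card F = a :=
    congrArg Subtype.val (FiniteField.pow_card (⟨a, IntermediateField.mem_adjoin_simple_self _ a⟩ : F))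
  obtain ⟨e, he⟩ : ∃ e, Fintype.card F = e + 1 := ⟨_, (Nat.succ_pred_eq_of_pos Fintype.card_pos).symm⟩
  refine ⟨e, fun hd => ?_, fun m => ?_⟩
  · have h3 : p ∣ e + 1 := he ▸ hn ▸ dvd_pow_self p n.ne_zero
    exact (Fact.out : p.Prime).one_lt.ne' (Nat.dvd_one.1 ((Nat.dvd_add_right hd).1 h3))
  · induction m with
    | zero => simp
    | succ m ih =>
      rw [show e * (m + 1) + 1 = e + (e * m + 1) by ring, pow_add, ih, ← pow_succ, ← he, h2]

lemma bl_exp2 {p : ℕ} [Fact p.Prime] {V : ValuationSubring ℂ} (hp : (p : ℂ) ∈ V.nonunits)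
    {ι : Type} [Fintype ι] (x : ι → ℂ) (hx : ∀ j, IsIntegral ℤ (x j)) :
    ∃ e, ¬ p ∣ e ∧ ∀ j, x j ^ (e + 1) - x j ∈ V.nonunits := by
  have := charP_residue V hp
  let y : ι → V := fun j => ⟨x j, mem_of_isIntegral V (hx j)⟩
  have hy : ∀ j, IsIntegral ℤ (IsLocalRing.residue V (y j)) := fun j =>
    map_isIntegral_int (IsLocalRing.residue V)
      ((isIntegral_algHom_iff V.subtype.toIntAlgHom Subtype.val_injective).1 (hx j))
  choose e he1 he2 using fun j => bl_exp (p := p) (hy j)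
  refine ⟨∏ j, e j, fun h => ?_, fun j => ?_⟩
  · obtain ⟨j, -, hj⟩ := ((Fact.out : p.Prime).prime.dvd_finsetProd_iff _).1 h
    exact he1 j hj
  · obtain ⟨m, hm⟩ := Finset.dvd_prod_of_mem e (mem_univ j)
    rw [hm]
    have h1 : IsLocalRing.residue V (y j ^ (e j * m + 1) - y j) = 0 := by
      rw [map_sub, map_pow, he2, sub_self]
    exact ValuationSubring.coe_mem_nonunits_iff.2 ((IsLocalRing.residue_eq_zero_iff _).1 h1)

lemma bl_idem {ι : Type} [Fintype ι] [DecidableEq ι] (E : Matrix ι ι ℂ) (h : E * E = E) :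
    ∃ D : ℕ, E.trace = D ∧ ∀ c : ℂ, (c • E + (1 - E)).det = c ^ D := by
  have h1 : IsIdempotentElem (Matrix.toLin' E) := by
    change Matrix.toLin' E ∘ₗ Matrix.toLin' E = _
    rw [← Matrix.toLin'_mul, h]
  have h2 := LinearMap.IsIdempotentElem.isProj_range _ h1
  refine ⟨Module.finrank ℂ (LinearMap.range (Matrix.toLin' E)), ?_, fun c => ?_⟩
  · rw [← Matrix.trace_toLin'_eq, h2.trace]
  · have h3 := h2.eq_conj_prodMap
    rw [← LinearMap.det_toLin', map_add, map_sub, map_smul, Matrix.toLin'_one]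
    generalize Submodule.prodEquivOfIsCompl _ _ h2.isCompl = e at h3
    have h4 : c • Matrix.toLin' E + (LinearMap.id - Matrix.toLin' E) =
        e.conj (LinearMap.prodMap (c • LinearMap.id) LinearMap.id) := by
      have h5 := congrArg (fun f => c • f + (e.conj LinearMap.id - f)) h3
      rw [← e.conj_id, h5, ← map_smul, ← map_sub, ← map_add]
      congr 1
      ext x <;> simp
    rw [h4, LinearEquiv.conj_apply, LinearMap.comp_assoc, LinearMap.det_conj, LinearMap.det_prodMap,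
      LinearMap.det_smul]
    simp

/-- The determinant on the invariants of a normal finite group. -/
lemma bl_det {Γ N ι : Type} [Group Γ] [Group N] [Fintype N] [Fintype ι] [DecidableEq ι]
    (R : Γ →* Matrix ι ι ℂ) (s : N →* Γ) (β : Γ → N ≃ N)
    (hβ : ∀ γ n, γ * s n = s (β γ n) * γ) : ∃ (δ : Γ →* ℂ) (D : ℕ),
      (D : ℂ) = (∑ n, (R (s n)).trace) / Fintype.card N ∧ (∀ n, δ (s n) = 1) ∧
      ∀ γ (c : ℂ), R γ = c • 1 → δ γ = c ^ D := by
  have h0 : (Fintype.card N : ℂ) ≠ 0 := by exact_mod_cast Fintype.card_ne_zero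
  obtain ⟨E, hE⟩ : ∃ E, E = (Fintype.card N : ℂ)⁻¹ • ∑ n, R (s n) := ⟨_, rfl⟩
  have h1 : ∀ m, R (s m) * E = E := fun m => by
    rw [hE, mul_smul_comm, Finset.mul_sum, ← Equiv.sum_comp (Equiv.mulLeft m) fun n => R (s n)]
    simp only [Equiv.coe_mulLeft, map_mul]
  have h2 : E * E = E := by
    conv_lhs => lhs; rw [hE]
    rw [smul_mul_assoc, Finset.sum_mul]
    simp only [h1, Finset.sum_const, card_univ]
    rw [← Nat.cast_smul_eq_nsmul ℂ, smul_smul, inv_mul_cancel₀ h0, one_smul]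
  have h3 : ∀ γ, R γ * E = E * R γ := fun γ => by
    rw [hE, mul_smul_comm, smul_mul_assoc, Finset.mul_sum, Finset.sum_mul,
      ← Equiv.sum_comp (β γ) fun n => R (s n) * R γ]
    simp only [← map_mul, hβ]
  obtain ⟨D, hD, hd⟩ := bl_idem E h2
  refine ⟨⟨⟨fun γ => (R γ * E + (1 - E)).det, by simp⟩, fun a b => ?_⟩, D, ?_, fun n => ?_,
    fun γ c hc => ?_⟩
  · change Matrix.det _ = Matrix.det _ * Matrix.det _
    rw [← Matrix.det_mul, map_mul]
    congr 1
    have h4 : E * (R b * E) = R b * E := by rw [← mul_assoc, ← h3, mul_assoc, h2]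
    simp only [add_mul, mul_add, sub_mul, mul_sub, mul_one, one_mul, mul_assoc, h2, h4]
    abel
  · rw [← hD, hE, Matrix.trace_smul, Matrix.trace_sum, smul_eq_mul, div_eq_inv_mul]
  · change (R (s n) * E + (1 - E)).det = 1
    simp [h1]
  · change (R γ * E + (1 - E)).det = _
    rw [hc, smul_mul_assoc, one_mul, hd]

/-- The tensor power of a matrix. -/
def tp (q : ℕ) {d : Type} (A : Matrix d d ℂ) : Matrix (Fin q → d) (Fin q → d) ℂ :=
  Matrix.of fun a b => ∏ j, A (a j) (b j)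

section tp
variable (q : ℕ) {d : Type} [Fintype d] [DecidableEq d]

omit [DecidableEq d] in
lemma tp_mul (A B : Matrix d d ℂ) : tp q (A * B) = tp q A * tp q B := by
  ext a b
  simp only [tp, of_apply, mul_apply, prod_univ_sum, Fintype.piFinset_univ, prod_mul_distrib]

omit [Fintype d] in
lemma tp_smul (c : ℂ) : tp q (c • (1 : Matrix d d ℂ)) = c ^ q • 1 := by
  ext a b
  simp only [tp, of_apply, Matrix.smul_apply, one_apply, smul_eq_mul, prod_mul_distrib, prod_const,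
    card_univ, Fintype.card_fin, Fintype.prod_ite_zero, one_pow, funext_iff]

omit [DecidableEq d] in
lemma tp_trace (A : Matrix d d ℂ) : (tp q A).trace = A.trace ^ q := by
  simp only [tp, Matrix.trace, diag_apply, of_apply]
  rw [← Fintype.piFinset_univ, ← prod_univ_sum (fun _ => univ) fun _ x => A x x]
  simp

/-- The tensor power times the dual. -/
noncomputable def tpR : (Matrix d d ℂ)ˣ →* Matrix ((Fin q → d) × d) ((Fin q → d) × d) ℂ where
  toFun u := tp q (u : Matrix d d ℂ) ⊗ₖ ((u⁻¹ : (Matrix d d ℂ)ˣ) : Matrix d d ℂ)ᵀ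
  map_one' := by
    have := tp_smul q (d := d) 1
    rw [one_smul, one_pow, one_smul] at this
    simp [this]
  map_mul' u v := by
    rw [← mul_kronecker_mul, ← tp_mul, ← transpose_mul, _root_.mul_inv_rev, Units.val_mul,
      Units.val_mul]

lemma tpR_trace (u : (Matrix d d ℂ)ˣ) : (tpR q u).trace =
    (u : Matrix d d ℂ).trace ^ q * ((u⁻¹ : (Matrix d d ℂ)ˣ) : Matrix d d ℂ).trace := by
  change (tp q _ ⊗ₖ _).trace = _
  rw [trace_kronecker, tp_trace, trace_transpose]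

lemma tpR_smul (u : (Matrix d d ℂ)ˣ) {c : ℂ} (hc : c ≠ 0) (h : (u : Matrix d d ℂ) = c • 1) :
    tpR (q + 1) u = c ^ q • 1 := by
  have h1 : ((u⁻¹ : (Matrix d d ℂ)ˣ) : Matrix d d ℂ) = c⁻¹ • 1 := by
    refine Units.inv_eq_of_mul_eq_one_right ?_
    rw [h, smul_mul_assoc, one_mul, smul_smul, mul_inv_cancel₀ hc, one_smul]
  change tp (q + 1) _ ⊗ₖ _ = _
  rw [h, h1, tp_smul, transpose_smul, transpose_one, smul_kronecker, kronecker_smul,
    one_kronecker_one, smul_smul, pow_succ, mul_inv_cancel_right₀ hc]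

end tp

section gam
variable {T : Type} [Group T] {N : Subgroup T} [N.Normal] [Fintype N] (I : IrrData N)
  (i : Fin I.n)

/-- Pairs of an element and an intertwining matrix. -/
def Gam : Subgroup (T × (Matrix (Fin (I.d i)) (Fin (I.d i)) ℂ)ˣ) where
  carrier := {x | ∀ n : N, x.2.1 * I.ρ i n = I.ρ i (MulAut.conjNormal x.1 n) * x.2.1}
  one_mem' := fun n => by simp
  mul_mem' := fun {a b} ha hb n => by
    rw [Prod.fst_mul, Prod.snd_mul, Units.val_mul, map_mul, MulAut.mul_apply, mul_assoc, hb,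
      ← mul_assoc, ha, mul_assoc]
  inv_mem' := fun {a} ha n => by
    have h := ha (MulAut.conjNormal a.1⁻¹ n)
    rw [← MulAut.mul_apply, ← map_mul, mul_inv_cancel, map_one, MulAut.one_apply] at h
    rw [Prod.fst_inv, Prod.snd_inv, Units.inv_mul_eq_iff_eq_mul, ← mul_assoc, h,
      Units.mul_inv_cancel_right]

/-- The copy of `N`. -/
noncomputable def gamS : N →* Gam I i :=
  (N.subtype.prod (I.ρ i).toHomUnits).codRestrict _ fun m n => by
    change I.ρ i m * I.ρ i n = I.ρ i (MulAut.conjNormal (m : T) n) * I.ρ i m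
    rw [← map_mul, ← map_mul]
    congr 1
    ext
    simp

lemma gamS_conj (γ : Gam I i) (n : N) :
    γ * gamS I i n = gamS I i (MulAut.conjNormal γ.1.1 n) * γ := by
  refine Subtype.ext (Prod.ext ?_ (Units.ext (γ.2 n)))
  change γ.1.1 * n = (MulAut.conjNormal γ.1.1 n : N) * γ.1.1
  simp

/-- The scalars. -/
noncomputable def gamC (c : ℂˣ) : Gam I i :=
  ⟨(1, Units.map (algebraMap ℂ (Matrix (Fin (I.d i)) (Fin (I.d i)) ℂ)).toMonoidHom c), fun n => by
    rw [map_one, MulAut.one_apply]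
    exact Algebra.commutes (c : ℂ) (I.ρ i n)⟩

lemma gamC_val (c : ℂˣ) : (gamC I i c).1.2.1 = (c : ℂ) • 1 :=
  Algebra.algebraMap_eq_smul_one _

lemma gam_ker (γ : Gam I i) (h : γ.1.1 = 1) : ∃ c, γ = gamC I i c := by
  have h1 := I.scalar_of_comm i γ.1.2 fun n => by simpa [h] using γ.2 n
  have : Nonempty (Fin (I.d i)) := ⟨⟨0, I.pos i⟩⟩
  obtain ⟨c, h1⟩ : ∃ c : ℂ, γ.1.2.1 = c • 1 := ⟨_, h1⟩
  have hc : c ≠ 0 := fun e => γ.1.2.ne_zero (by rw [h1, e, zero_smul])
  exact ⟨Units.mk0 c hc, Subtype.ext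
    (Prod.ext h (Units.ext (h1.trans (gamC_val I i (Units.mk0 c hc)).symm)))⟩

lemma gam_surj {g : T} (hg : g ∈ St I i) : ∃ γ : Gam I i, γ.1.1 = g := by
  obtain ⟨Φ, hΦ⟩ : ∃ Φ : Matrix (Fin (I.d i)) (Fin (I.d i)) ℂ → Matrix (Fin (I.d i)) (Fin (I.d i)) ℂ,
    ∀ X, Φ X = ∑ n, I.ρ i (MulAut.conjNormal g n) * X * I.ρ i n⁻¹ := ⟨_, fun _ => rfl⟩
  have h1 : ∀ X m, Φ X * I.ρ i m = I.ρ i (MulAut.conjNormal g m) * Φ X := fun X m => by
    rw [hΦ, Finset.sum_mul, Finset.mul_sum, ← Equiv.sum_comp (Equiv.mulLeft m)]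
    refine sum_congr rfl fun n _ => ?_
    simp only [Equiv.coe_mulLeft]
    rw [mul_assoc _ (I.ρ i _⁻¹), ← map_mul, _root_.mul_inv_rev, inv_mul_cancel_right]
    simp only [map_mul, mul_assoc]
  obtain ⟨X, hX⟩ : ∃ X, Φ X ≠ 0 := by
    by_contra h
    have h2 : ∑ a, ∑ b, Φ (single a b 1) a b = Fintype.card N := by
      have h3 := I.orth i i
      rw [if_pos rfl] at h3
      rw [← h3]
      simp only [hΦ, Matrix.sum_apply]
      rw [sum_congr rfl fun a _ => sum_comm, sum_comm]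
      refine sum_congr rfl fun n _ => ?_
      rw [← hg n, mul_comm, IrrData.χ, IrrData.χ, Matrix.trace, Matrix.trace, sum_mul_sum]
      refine sum_congr rfl fun a _ => sum_congr rfl fun b _ => ?_
      simp [mul_apply, single, ite_and]
    simp only [not_exists, not_not] at h
    simp only [h, Matrix.zero_apply, sum_const_zero] at h2
    exact Fintype.card_ne_zero (Nat.cast_eq_zero.1 h2.symm)
  have h2 : IsUnit (Φ X) := by
    rw [← Matrix.isUnit_toLin'_iff, LinearMap.isUnit_iff_ker_eq_bot]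
    refine (I.matIrr i _ fun n v hv => ?_).resolve_right fun e => hX ?_
    · rw [LinearMap.mem_ker, Matrix.toLin'_apply] at hv ⊢
      rw [mulVec_mulVec, h1, ← mulVec_mulVec, hv, mulVec_zero]
    · exact Matrix.toLin'.injective ((LinearMap.ker_eq_top.1 e).trans (map_zero _).symm)
  exact ⟨⟨(g, h2.unit), h1 X⟩, rfl⟩

lemma gam_det {p : ℕ} (hp : p.Prime) (hi : Dz p I i) : ∃ (δ : Gam I i →* ℂ) (t : ℕ), ¬ p ∣ t ∧
    (∀ n, δ (gamS I i n) = 1) ∧ ∀ c, δ (gamC I i c) = c ^ t := by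
  have : Fact p.Prime := ⟨hp⟩
  obtain ⟨V, hV⟩ := exists_val p
  obtain ⟨e, he, h1⟩ := bl_exp2 hV (I.χ i) (I.χ_isIntegral i)
  obtain ⟨δ, D, hD, h2, h3⟩ := bl_det
    ((tpR (e + 1)).comp ((MonoidHom.snd _ _).comp (Gam I i).subtype)) (gamS I i)
    (fun γ => (MulAut.conjNormal γ.1.1).toEquiv) (gamS_conj I i)
  refine ⟨δ, e * D, fun h => ?_, h2, fun c => ?_⟩
  · obtain ⟨m, hm⟩ := (hp.dvd_mul.1 h).resolve_left he
    obtain ⟨r, hr, hr2⟩ := exists_cod (p := p) I i
    have h4 := mul_mem_nonunits (I.om_mem_nonunits i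
      (z := fun n => I.χ i n⁻¹ ^ (e + 1) - I.χ i n⁻¹) (fun a b => by
        simp only [conj_inv, I.χ_conj]) fun n => h1 _) (inv_nat_mem hV (hr2.1 hi))
    have h5 : ∀ n : N, ((tpR (e + 1)).comp ((MonoidHom.snd _ _).comp (Gam I i).subtype)
        (gamS I i n)).trace = I.χ i n ^ (e + 1) * I.χ i n⁻¹ := fun n => by
      refine (tpR_trace _ _).trans ?_
      change _ * Matrix.trace (((I.ρ i).toHomUnits n)⁻¹ : (Matrix _ _ ℂ)ˣ).1 = _
      rw [← map_inv]
      rfl
    have h6 := I.orth i i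
    have h7 : (r : ℂ) ≠ 0 := Nat.cast_ne_zero.2 fun e => hr2.1 hi (e ▸ dvd_zero p)
    rw [if_pos rfl] at h6
    rw [Nat.card_eq_fintype_card] at hr
    simp only [h5] at hD
    rw [← Equiv.sum_comp (Equiv.inv N)] at hD
    simp only [Equiv.inv_apply, inv_inv] at hD
    have h8 : (D : ℂ) - 1 ∈ V.nonunits := by
      convert h4 using 1
      have := I.d_ne i
      simp only [IrrData.om, sub_mul, sum_sub_distrib, h6, hD, hr, Nat.cast_mul]
      field_simp
    have h9 := int_dvd_of_mem hV (n := D - 1) (by exact_mod_cast h8)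
    rw [hm, Nat.cast_mul, dvd_sub_right (dvd_mul_right _ _)] at h9
    exact hp.one_lt.ne' (by exact_mod_cast Int.eq_one_of_dvd_one (by positivity) h9)
  · rw [pow_mul]
    exact h3 _ _ (tpR_smul e _ c.ne_zero (gamC_val I i c))

lemma gam_mem (γ : Gam I i) : γ.1.1 ∈ St I i := fun n => by
  have h : I.ρ i (MulAut.conjNormal γ.1.1 n) = γ.1.2.1 * I.ρ i n * (γ.1.2⁻¹).1 := by
    rw [γ.2 n, Units.mul_inv_cancel_right]
  rw [IrrData.χ, h, Matrix.trace_mul_cycle, Units.inv_mul, one_mul, IrrData.χ]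

end gam

variable {G : Type} [Group G] [Fintype G] {p : ℕ} [Fact p.Prime] {N : Subgroup G} [N.Normal]
  [Fintype N]

theorem exists_lift (I : IrrData N) {i : Fin I.n} (hi : Dz p I i) :
    ∃ (K : Type) (_ : Group K) (_ : Fintype K) (π : K →* G) (s : N →* K)
      (P : K →* Matrix (Fin (I.d i)) (Fin (I.d i)) ℂ), IsLift p I i π s P := by
  obtain ⟨δ, t, ht, h1, h2⟩ := gam_det I i Fact.out hi
  have h0 : 0 < t := Nat.pos_of_ne_zero fun e => ht (e ▸ dvd_zero p)
  let π : δ.ker →* G := ((MonoidHom.fst _ _).comp (Gam I i).subtype).comp δ.ker.subtype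
  have hk : ∀ z ∈ π.ker, ∃ c : ℂˣ, c ^ t = 1 ∧ z.1 = gamC I i c := fun z hz => by
    obtain ⟨c, hc⟩ := gam_ker I i z.1 hz
    exact ⟨c, Units.ext ((h2 c).symm.trans (hc ▸ z.2)), hc⟩
  have : Finite π.ker := by
    have : NeZero t := ⟨h0.ne'⟩
    choose f hf using fun z : π.ker => hk z.1 z.2
    refine Finite.of_injective (fun z => (⟨f z, (hf z).1⟩ : rootsOfUnity t ℂ)) fun a b e => ?_
    exact Subtype.ext (Subtype.ext (by rw [(hf a).2, (hf b).2, Subtype.mk.inj e]))
  have : Finite δ.ker := (MonoidHom.finite_iff_finite_ker_range π).2 ⟨this, inferInstance⟩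
  refine ⟨δ.ker, inferInstance, Fintype.ofFinite _, π, (gamS I i).codRestrict _ h1,
    (Units.coeHom _).comp (((MonoidHom.snd _ _).comp (Gam I i).subtype).comp δ.ker.subtype),
    le_antisymm (by rintro _ ⟨k, rfl⟩; exact gam_mem I i k.1) fun g hg => ?_, fun _ => rfl,
    fun _ => rfl, fun k n => Subtype.ext (mul_inv_eq_iff_eq_mul.2 (gamS_conj I i k n)),
    t, ht, fun z hz => ?_⟩
  · obtain ⟨γ, rfl⟩ := gam_surj I i hg
    obtain ⟨c, hc⟩ := IsAlgClosed.exists_pow_nat_eq (δ γ⁻¹) h0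
    have h3 : δ γ⁻¹ * δ γ = 1 := by rw [← map_mul, inv_mul_cancel, map_one]
    have h4 : c ≠ 0 := by
      rintro rfl
      rw [← hc, zero_pow h0.ne', zero_mul] at h3
      exact zero_ne_one h3
    refine ⟨⟨gamC I i (Units.mk0 c h4) * γ, ?_⟩, one_mul γ.1.1⟩
    rw [MonoidHom.mem_ker, map_mul, h2, Units.val_mk0, hc, h3]
  · obtain ⟨c, h3, h4⟩ := hk z hz
    have h5 : z.1.1.1 = 1 := hz
    refine ⟨Subtype.ext (Subtype.ext (Prod.ext ?_ ?_)), fun g =>
      Subtype.ext (Subtype.ext (Prod.ext ?_ (Units.ext ?_)))⟩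
    · change z.1.1.1 ^ t = 1
      rw [h5, one_pow]
    · change z.1.1.2 ^ t = 1
      rw [h4]
      exact (map_pow _ c t).symm.trans (by rw [h3, map_one])
    · change g.1.1.1 * z.1.1.1 = z.1.1.1 * g.1.1.1
      rw [h5, one_mul, mul_one]
    · change g.1.1.2.1 * z.1.1.2.1 = z.1.1.2.1 * g.1.1.2.1
      rw [h4, gamC_val, smul_mul_assoc, mul_smul_comm, one_mul, mul_one]

end Pool.Agent.Lib.MP_b6945b_al.Ip
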