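import Pool.Agent.Lib.MP_b6945b_al.As.ABlk

set_option autoImplicit false

/-!
The idempotent of defect zero as a polynomial in the commutator count.
-/

namespace Pool.Agent.Lib.MP_b6945b_al.Ip

open Finset

variable {G : Type} [Group G] [Fintype G] {p : ℕ} [Fact p.Prime]

lemma m1_conv (f t : G → ℂ) (g : G) : conv f t g = ∑ h, f (g * h⁻¹) * t h := by
  rw [conv, ← Equiv.sum_comp ((Equiv.inv G).trans (Equiv.mulLeft g))
    fun y => f y * t (y⁻¹ * g)]
  refine sum_congr rfl fun y _ => ?_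
  change f (g * y⁻¹) * t ((g * y⁻¹)⁻¹ * g) = _
  rw [show (g * y⁻¹)⁻¹ * g = y by group]

open Classical in
/-- `conv f t g = ∑ h, f (g * h⁻¹) * t h`, `pch2_sum`, `cm_inv`, `Finset.sum_comm`. -/
lemma conv_tau (M : Subgroup G) (f : G → ℂ) (g : G) : conv f (tau M) g =
    ∑ x : G, ∑ y : G, if x ∈ M ∧ y ∈ M then f (g * cm x y) else 0 := by
  rw [m1_conv, sum_congr rfl fun h _ => mul_comm (f (g * h⁻¹)) (tau M h),
    pch2_sum fun h => f (g * h⁻¹), sum_comm]
  exact sum_congr rfl fun x _ => sum_congr rfl fun y _ =>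
    if_congr and_comm (by rw [cm_inv]) rfl

lemma conv_eq_sum (f t : G → ℂ) (g : G) : conv f t g = ∑ h, f (g * h⁻¹) * t h := by
  exact m1_conv f t g

lemma conv_one_right (f : G → ℂ) : conv f (ind (· = 1)) = f := by
  funext g
  rw [conv_eq_sum, sum_eq_single 1 (fun h _ e => by rw [ind_neg (S := (· = 1)) e, mul_zero])
    (by simp), ind_pos (S := (· = (1 : G))) rfl, inv_one, mul_one, mul_one]

lemma conv_one_left (f : G → ℂ) : conv (ind (· = 1)) f = f := by
  funext g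
  rw [conv, sum_eq_single 1 (fun h _ e => by rw [ind_neg (S := (· = 1)) e, zero_mul])
    (by simp), ind_pos (S := (· = (1 : G))) rfl, inv_one, one_mul, one_mul]

lemma cpow_succ' (f : G → ℂ) (m : ℕ) : cpow f (m + 1) = conv (cpow f m) f := by
  induction m with
  | zero => exact (conv_one_right f).trans (conv_one_left f).symm
  | succ m ih => exact (congrArg (conv f) ih).trans (conv_assoc' f (cpow f m) f).symm

omit [Fintype G] in
lemma m2_dz {H : Type} [Group H] [Fintype H] (I : IrrData H) (i : Fin I.n) {t : ℕ}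
    (ht : ¬ p ∣ t) : (∃ u : ℕ, ¬ p ∣ u ∧ (t : ℂ) ^ 2 * I.om i (tau (⊤ : Subgroup H)) =
      (u : ℂ) ^ 2) ↔ Dz p I i := by
  have hp : p.Prime := Fact.out
  obtain ⟨r, hr, hd⟩ := exists_cod (p := p) I i
  have e : (t : ℂ) ^ 2 * I.om i (tau (⊤ : Subgroup H)) = ((t * r : ℕ) : ℂ) ^ 2 := by
    rw [om_tau, hr, Nat.cast_mul, mul_div_cancel_left₀ _ (I.d_ne i), Nat.cast_mul, mul_pow]
  rw [e, hd]
  refine ⟨fun ⟨u, hu, h⟩ h1 => hu ?_,
    fun h => ⟨t * r, fun h1 => ((Nat.Prime.dvd_mul hp).1 h1).elim ht h, rfl⟩⟩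
  have h2 : (t * r) ^ 2 = u ^ 2 := by exact_mod_cast h
  rw [← Nat.pow_left_injective two_ne_zero h2]
  exact h1.mul_left t

lemma m2_mom (H : Subgroup G) [Fintype H] (I : IrrData H) (α : G → ℂ) (c : ℂ) (m : ℕ) :
    ∑ i, (∑ g, α g * pint1_w I g i) * (c * I.om i (tau (⊤ : Subgroup H))) ^ m =
      c ^ m * ∑ g, α g * cpow (tau H) m g := by
  simp only [sum_mul, mul_sum]
  rw [sum_comm]
  refine sum_congr rfl fun g _ => ?_
  rw [← ext0_tau H, ← pint1_mom I tau_cf g m, mul_sum, mul_sum]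
  exact sum_congr rfl fun i _ => by ring

omit [Fact p.Prime] in
open Classical in
lemma m2_EE (H : Subgroup G) [Fintype H] (I : IrrData H) (α : G → ℂ) :
    ∑ g, α g * EE p H g = ∑ i, if Dz p I i then ∑ g, α g * pint1_w I g i else 0 := by
  simp only [EE_eq H I, e1, pint1_zf, mul_sum]
  rw [sum_comm]
  refine sum_congr rfl fun i _ => ?_
  split_ifs with h
  · simp only [ind_pos (S := Dz p I) h, one_mul]
  · simp only [ind_neg (S := Dz p I) h, zero_mul, mul_zero, sum_const_zero]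

/-- `moment_count` with the points `t ^ 2 * om i tau` and `s ^ 2 * om j tau`, the weights
`∑ g, α g * pint1_w I g i`, and `Φ z := ∃ u : ℕ, ¬ p ∣ u ∧ z = u ^ 2`; `pint1_mom`, `ext0_tau`,
`EE_eq`, `pint1_zf`, `om_tau`, `exists_cod` (as in `om_EE_dz2`). -/
theorem EE_moment {G' : Type} [Group G'] [Fintype G'] (H : Subgroup G) (H' : Subgroup G')
    (α : G → ℂ) (β : G' → ℂ) {s t : ℕ} (hs : ¬ p ∣ s) (ht : ¬ p ∣ t)
    (h : ∀ m : ℕ, ((t : ℂ) ^ 2) ^ m * ∑ g, α g * cpow (tau H) m g =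
      ((s : ℂ) ^ 2) ^ m * ∑ g, β g * cpow (tau H') m g) :
    ∑ g, α g * EE p H g = ∑ g, β g * EE p H' g := by
  classical
  let _ : Fintype H := Fintype.ofFinite H
  let _ : Fintype H' := Fintype.ofFinite H'
  obtain ⟨I⟩ := exists_irrData H
  obtain ⟨I'⟩ := exists_irrData H'
  have h1 := moment_count (fun i => (t : ℂ) ^ 2 * I.om i (tau (⊤ : Subgroup H)))
    (fun i => ∑ g, α g * pint1_w I g i) (fun i => (s : ℂ) ^ 2 * I'.om i (tau (⊤ : Subgroup H')))
    (fun i => ∑ g, β g * pint1_w I' g i) (fun m => by rw [m2_mom, m2_mom, h])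
    (fun z => ∃ u : ℕ, ¬ p ∣ u ∧ z = (u : ℂ) ^ 2)
  rw [m2_EE H I, m2_EE H' I']
  refine (sum_congr rfl fun i _ => ?_).trans (h1.trans (sum_congr rfl fun i _ => ?_))
  · exact if_congr (m2_dz I i ht).symm rfl rfl
  · exact if_congr (m2_dz I' i hs) rfl rfl

/-- In the group `U`: `om_EE_dz2`, `zf_om`, `zf_mul`, `EE_cf2`; then `EE_map` with `U.subtype`,
`ext0_conv`, `EE_eq`. -/
theorem EE_mul_EE {V U : Subgroup G} (hle : V ≤ U) (hn : U ≤ Nr V) :
    conv (EE p V) (EE p U) = EE p U := by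
  let _ : Fintype U := Fintype.ofFinite U
  obtain ⟨I⟩ := exists_irrData U
  have : (V.subgroupOf U).Normal := (Subgroup.normal_subgroupOf_iff_le_normalizer hle).2 hn
  have e : EE p V = ext0 U (EE p (V.subgroupOf U)) := funext fun g => by
    by_cases h : g ∈ U
    · rw [ext0_pos _ h, ← EE_map U.subtype_injective, Subgroup.subgroupOf_map_subtype,
        inf_eq_left.2 hle]
      rfl
    · rw [ext0_neg _ h, EE_supp fun e => h (hle e)]
  have h := I.zf_mul (fun i => I.om i (EE p (V.subgroupOf U))) (ind (Dz p I))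
  rw [I.zf_om EE_cf2] at h
  rw [e, EE_eq U I, ← ext0_conv, e1, ← h]
  refine congrArg (fun a => ext0 U (I.zf a)) (funext fun i => ?_)
  by_cases hi : Dz p I i
  · rw [Pi.mul_apply, om_EE_dz2 I hi, one_mul]
  · rw [Pi.mul_apply, ind_neg hi, mul_zero]

open Classical in
/-- `EE_mul_EE`, `EE_eq_ee`, `ee_sum`. -/
theorem EE_split {N M : Subgroup G} [N.Normal] [Fintype N] (hle : N ≤ M) (I : IrrData N) (g : G) :
    EE p M g = ∑ i, if Dz p I i then conv (ee I (· = i)) (EE p M) g else 0 := by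
  have h := congrFun (EE_mul_EE (p := p) hle fun g _ => pmob_nr g) g
  rw [← h, conv, EE_eq_ee I, sum_congr rfl fun y _ => by rw [ee_sum I (Dz p I) y, sum_mul],
    sum_comm]
  refine sum_congr rfl fun i _ => ?_
  split_ifs
  · rfl
  · simp

end Pool.Agent.Lib.MP_b6945b_al.Ip
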