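import Pool.Agent.Lib.MP_b6945b_al.As.ASchur
import Pool.Agent.Lib.MP_b6945b_al.As.AMom
import Pool.Agent.Lib.MP_b6945b_al.As.ALift

set_option autoImplicit false

/-!
The central extension of the stabiliser modulo the normal subgroup.
-/

namespace Pool.Agent.Lib.MP_b6945b_al.Ip

open Finset

variable {G : Type} [Group G] [Fintype G] {p : ℕ} [Fact p.Prime] {N : Subgroup G} [N.Normal]
  [Fintype N] {I : IrrData N} {i : Fin I.n}

section lift
variable {K H : Type} [Group K] [Fintype K] [Group H] [Fintype H]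
  {π : K →* G} {s : N →* K} {P : K →* Matrix (Fin (I.d i)) (Fin (I.d i)) ℂ}

omit [Fintype G] in
lemma h3_card {Z : Subgroup K} (h : CenP p Z) : ¬ p ∣ Nat.card Z := fun hd => by
  obtain ⟨t, ht, h⟩ := h
  obtain ⟨z, hz⟩ := exists_prime_orderOf_dvd_card' p hd
  refine ht (hz ▸ orderOf_dvd_of_pow_eq_one (Subtype.ext ?_))
  exact (h z z.2).1

omit [Fact p.Prime] in
lemma h3_step (h : IsLift p I i π s P) {q : K →* H} (hq : Function.Surjective q)
    (hk : q.ker = s.range) {κ : H →* G ⧸ N} (hκ : ∀ k, κ (q k) = π k) {f : G → ℂ} {f' : H → ℂ}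
    {c c' : ℂ} (hf : Twf π q P (fun g => c * f g) fun g => c' * f' g) {M : Subgroup G}
    (h1 : N ≤ M) (h2 : M ≤ St I i) :
    Twf π q P (fun g => c * (Nat.card π.ker : ℂ) ^ 2 * conv f (tau M) g)
      fun g => c' * ((Nat.card N : ℂ) / I.d i) ^ 2 *
        conv f' (tau ((M.map (QuotientGroup.mk' N)).comap κ)) g := fun k => by
  classical
  have e : ∀ x : G, (x : G ⧸ N) ∈ M.map (QuotientGroup.mk' N) ↔ x ∈ M := fun x => by
    change x ∈ (M.map (QuotientGroup.mk' N)).comap (QuotientGroup.mk' N) ↔ _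
    rw [Subgroup.comap_map_eq, QuotientGroup.ker_mk', sup_eq_left.2 h1]
  have h3 := pair_transfer h hq hk hκ hf (fun x y =>
    if x ∈ M.map (QuotientGroup.mk' N) ∧ y ∈ M.map (QuotientGroup.mk' N) then 1 else 0) k
  have e1 : c * conv f (tau M) (π k) = ∑ x : G, ∑ y : G, (if x ∈ St I i ∧ y ∈ St I i then
      (if (x : G ⧸ N) ∈ M.map (QuotientGroup.mk' N) ∧ (y : G ⧸ N) ∈ M.map (QuotientGroup.mk' N)
        then (1 : ℂ) else 0) * (c * f (π k * cm x y)) else 0) := by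
    rw [conv_tau, mul_sum]
    refine sum_congr rfl fun x _ => ?_
    rw [mul_sum]
    refine sum_congr rfl fun y _ => ?_
    by_cases a : x ∈ M ∧ y ∈ M
    · rw [if_pos a, if_pos ⟨h2 a.1, h2 a.2⟩, if_pos ⟨(e x).2 a.1, (e y).2 a.2⟩, one_mul]
    · rw [if_neg a, if_neg (c := _ ∧ (y : G ⧸ N) ∈ _) fun b => a ⟨(e x).1 b.1, (e y).1 b.2⟩,
        zero_mul, mul_zero, ite_self]
  have e2 : c' * conv f' (tau ((M.map (QuotientGroup.mk' N)).comap κ)) (q k) =
      ∑ x : H, ∑ y : H, (if κ x ∈ M.map (QuotientGroup.mk' N) ∧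
        κ y ∈ M.map (QuotientGroup.mk' N) then (1 : ℂ) else 0) * (c' * f' (q k * cm x y)) := by
    rw [conv_tau, mul_sum]
    refine sum_congr rfl fun x _ => ?_
    rw [mul_sum]
    refine sum_congr rfl fun y _ => ?_
    simp only [Subgroup.mem_comap]
    split_ifs
    · rw [one_mul]
    · rw [zero_mul, mul_zero]
  rw [← e1, ← e2] at h3
  linear_combination h3

/-- Induction with `cpow_succ'`, `conv_tau`, `pair_transfer` gives the moments; `EE_moment` with
`s = card N / d` (`exists_cod`), `t = card π.ker`, `α h = f (π k * h⁻¹)`,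
`β h = trace (P k⁻¹) * f' (q k * h⁻¹)` (`conv_eq_sum`). -/
theorem tw_EE (hi : Dz p I i) (h : IsLift p I i π s P) {q : K →* H} (hq : Function.Surjective q)
    (hk : q.ker = s.range) {κ : H →* G ⧸ N} (hκ : ∀ k, κ (q k) = π k) {f : G → ℂ} {f' : H → ℂ}
    (hf : Twf π q P f f') {M : Subgroup G} (h1 : N ≤ M) (h2 : M ≤ St I i) :
    Twf π q P (conv f (EE p M))
      (conv f' (EE p ((M.map (QuotientGroup.mk' N)).comap κ))) := by
  obtain ⟨r, hr, hr2⟩ := exists_cod (p := p) I i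
  have e : (Nat.card N : ℂ) / I.d i = r := by
    rw [hr, Nat.cast_mul, mul_div_cancel_left₀ _ (I.d_ne i)]
  have key : ∀ m : ℕ,
      Twf π q P (fun g => ((Nat.card π.ker : ℂ) ^ 2) ^ m * conv f (cpow (tau M) m) g)
        fun g => ((r : ℂ) ^ 2) ^ m *
          conv f' (cpow (tau ((M.map (QuotientGroup.mk' N)).comap κ)) m) g := fun m => by
    induction m with
    | zero => simpa only [pow_zero, one_mul, cpow, conv_one_right] using hf
    | succ m ih =>
      have h3 := h3_step h hq hk hκ ih h1 h2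
      rw [e] at h3
      simpa only [cpow_succ', ← conv_assoc', pow_succ _ m] using h3
  intro k
  have h4 := EE_moment (p := p) M ((M.map (QuotientGroup.mk' N)).comap κ)
    (fun g => f (π k * g⁻¹)) (fun g => (P k⁻¹).trace * f' (q k * g⁻¹)) (hr2.1 hi)
    (h3_card h.cen) fun m => by
      have h5 := key m k
      simp only [conv_eq_sum] at h5
      simp only [mul_assoc, ← mul_sum]
      rw [h5]
      ring
  rw [conv_eq_sum, conv_eq_sum, h4, mul_sum]
  simp only [mul_assoc]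

omit [Fact p.Prime] [Fintype H] in
/-- `ε x = ∑ z, if π z = 1 ∧ q z = x then trace (P z) / card N else 0`.  For `π z = 1` the matrix
`P z` is scalar (`scalar_of_comm`); `piv_val`, `ee_supp`. -/
theorem tw_ee (h : IsLift p I i π s P) {q : K →* H} (hq : Function.Surjective q)
    (hk : q.ker = s.range) {κ : H →* G ⧸ N} (hκ : ∀ k, κ (q k) = π k) :
    CenP p κ.ker ∧ ∃ ε : H → ℂ, (∀ x, x ∉ κ.ker → ε x = 0) ∧ Twf π q P (ee I (· = i)) ε := by
  classical
  have hs : ∀ n, q (s n) = 1 := fun n => q.mem_ker.1 (hk ▸ ⟨n, rfl⟩)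
  have a1 : ∀ (k : K) (hn : π k ∈ N), π (k * (s ⟨π k, hn⟩)⁻¹) = 1 := fun k hn => by
    simp [h.sec]
  have a2 : ∀ (k : K) (n : N), q (k * (s n)⁻¹) = q k := fun k n => by simp [hs]
  have a3 : ∀ k, q k ∈ κ.ker ↔ π k ∈ N := fun k => by
    rw [MonoidHom.mem_ker, hκ, QuotientGroup.eq_one_iff]
  obtain ⟨t, ht, hc⟩ := h.cen
  refine ⟨⟨t, ht, fun x hx => ?_⟩,
    fun x => ∑ z, if π z = 1 ∧ q z = x then (P z).trace / Fintype.card N else 0, fun x hx => ?_,
    fun k => ?_⟩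
  · obtain ⟨k, rfl⟩ := hq x
    have hn := (a3 k).1 hx
    obtain ⟨b1, b2⟩ := hc _ (π.mem_ker.2 (a1 k hn))
    rw [← a2 k ⟨π k, hn⟩]
    refine ⟨by rw [← map_pow, b1, map_one], fun g => ?_⟩
    obtain ⟨g, rfl⟩ := hq g
    rw [← map_mul, b2, map_mul]
  · refine sum_eq_zero fun z _ => if_neg ?_
    rintro ⟨b1, rfl⟩
    exact hx ((a3 z).2 (b1 ▸ N.one_mem))
  · by_cases hn : π k ∈ N
    · obtain ⟨z, hz⟩ : ∃ z, z = k * (s ⟨π k, hn⟩)⁻¹ := ⟨_, rfl⟩
      have z1 : π z = 1 := hz ▸ a1 k hn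
      have z2 : q z = q k := hz ▸ a2 k _
      have b1 := I.scalar_of_comm i (P z) fun g => by
        rw [← h.rep, ← map_mul, ← map_mul, (hc z (π.mem_ker.2 z1)).2]
      have b2 : I.ρ i (⟨π k, hn⟩ : N)⁻¹ = P k⁻¹ * P z := by
        rw [← map_mul, hz, inv_mul_cancel_left, ← map_inv, h.rep]
      beta_reduce
      rw [piv_val I i hn, sum_eq_single z, if_pos ⟨z1, z2⟩, IrrData.χ, b2]
      · have := I.d_ne i
        conv_lhs => rw [b1]
        rw [mul_smul_comm, mul_one, Matrix.trace_smul, smul_eq_mul]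
        field_simp
      · refine fun y _ hy => if_neg fun ⟨c1, c2⟩ => hy ?_
        obtain ⟨m, hm⟩ : y * z⁻¹ ∈ s.range := hk ▸ q.mem_ker.2 (by simp [c2, z2])
        have c3 : m = 1 := Subtype.ext (by
          rw [← h.sec, hm]
          simp [c1, z1])
        rw [c3, map_one] at hm
        exact mul_inv_eq_one.1 hm.symm
      · simp
    · rw [ee_supp I _ hn]
      refine (mul_eq_zero_of_right _ (sum_eq_zero fun z _ => if_neg ?_)).symm
      rintro ⟨b1, b2⟩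
      exact hn ((a3 k).1 (b2 ▸ (a3 z).2 (b1 ▸ N.one_mem)))

end lift

open Classical in
/-- `exists_lift`, `H = K ⧸ s.range`, `tw_ee`, `tw_EE`, `pair_transfer` at `k = 1`. -/
theorem hat (hi : Dz p I i) : ∃ (H : Type) (_ : Group H) (_ : Fintype H) (κ : H →* G ⧸ N)
    (ε : H → ℂ) (c : ℂ), CenP p κ.ker ∧ κ.range = (St I i).map (QuotientGroup.mk' N) ∧
    (∀ x, x ∉ κ.ker → ε x = 0) ∧
    (∀ w : G ⧸ N → G ⧸ N → ℂ, ∑ x : G, ∑ y : G,
      (if x ∈ St I i ∧ y ∈ St I i then w x y * ee I (· = i) (cm x y) else 0) =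
      c * ∑ x : H, ∑ y : H, w (κ x) (κ y) * ε (cm x y)) ∧
    ∀ M : Subgroup G, N ≤ M → M ≤ St I i → ∀ w : G ⧸ N → G ⧸ N → ℂ, ∑ x : G, ∑ y : G,
      (if x ∈ St I i ∧ y ∈ St I i then w x y * conv (ee I (· = i)) (EE p M) (cm x y) else 0) =
      c * ∑ x : H, ∑ y : H, w (κ x) (κ y) *
        conv ε (EE p ((M.map (QuotientGroup.mk' N)).comap κ)) (cm x y) := by
  obtain ⟨K, _, _, π, s, P, h⟩ := exists_lift I hi
  have : s.range.Normal := ⟨by
    rintro _ ⟨n, rfl⟩ k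
    exact ⟨_, (h.conj k n).symm⟩⟩
  let κ : K ⧸ s.range →* G ⧸ N := QuotientGroup.lift s.range ((QuotientGroup.mk' N).comp π) (by
    rintro _ ⟨n, rfl⟩
    simp [h.sec])
  have hq := QuotientGroup.mk'_surjective s.range
  have hk := QuotientGroup.ker_mk' s.range
  have hκ : ∀ k, κ (QuotientGroup.mk' s.range k) = π k := fun _ => rfl
  let _ : Fintype (K ⧸ s.range) := Fintype.ofFinite _
  obtain ⟨c1, ε, c2, c3⟩ := tw_ee h hq hk hκ
  have c4 : (Nat.card π.ker : ℂ) ≠ 0 := by exact_mod_cast Nat.card_pos.ne'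
  have key : ∀ {f : G → ℂ} {f' : K ⧸ s.range → ℂ}, Twf π (QuotientGroup.mk' s.range) P f f' →
      ∀ w : G ⧸ N → G ⧸ N → ℂ, ∑ x : G, ∑ y : G,
      (if x ∈ St I i ∧ y ∈ St I i then w x y * f (cm x y) else 0) =
      ((Nat.card N : ℂ) / I.d i) ^ 2 * (P 1).trace / (Nat.card π.ker : ℂ) ^ 2 *
        ∑ x, ∑ y, w (κ x) (κ y) * f' (cm x y) := fun hf w => by
    have := pair_transfer h hq hk hκ hf w 1
    simp only [map_one π, map_one (QuotientGroup.mk' s.range), one_mul, inv_one] at this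
    rw [div_mul_eq_mul_div, ← this, mul_div_cancel_left₀ _ (pow_ne_zero 2 c4)]
  refine ⟨K ⧸ s.range, inferInstance, inferInstance, κ, ε, _, c1, ?_, c2, key c3,
    fun M h1 h2 => key (tw_EE hi h hq hk hκ c3 h1 h2)⟩
  rw [← h.range]
  ext x
  constructor
  · rintro ⟨y, rfl⟩
    obtain ⟨k, rfl⟩ := hq y
    exact ⟨π k, ⟨k, rfl⟩, rfl⟩
  · rintro ⟨_, ⟨k, rfl⟩, rfl⟩
    exact ⟨_, hκ k⟩

end Pool.Agent.Lib.MP_b6945b_al.Ip
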