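import Pool.Agent.Lib.MP_b6945b_al.As.ADefs

set_option autoImplicit false

/-!
Lifts of the stabiliser of a character.
-/

namespace Pool.Agent.Lib.MP_b6945b_al.Ip

open Finset

/-- A group `K` over the stabiliser to which the representation extends. -/
structure IsLift (p : ℕ) {G : Type} [Group G] {N : Subgroup G} [N.Normal] [Fintype N]
    (I : IrrData N) (i : Fin I.n) {K : Type} [Group K] (π : K →* G) (s : N →* K)
    (P : K →* Matrix (Fin (I.d i)) (Fin (I.d i)) ℂ) : Prop where
  range : π.range = St I i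
  sec : ∀ n, π (s n) = n
  rep : ∀ n, P (s n) = I.ρ i n
  conj : ∀ k n, k * s n * k⁻¹ = s (MulAut.conjNormal (π k) n)
  cen : CenP p π.ker

/-- Functions on `G` and on `H` that correspond to each other. -/
def Twf {G K H : Type} [Group G] [Group K] [Group H] {d : ℕ} (π : K →* G) (q : K →* H)
    (P : K →* Matrix (Fin d) (Fin d) ℂ) (f : G → ℂ) (f' : H → ℂ) : Prop :=
  ∀ k, f (π k) = (P k⁻¹).trace * f' (q k)

end Pool.Agent.Lib.MP_b6945b_al.Ip
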