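import Pool.Agent.Lib.MP_b6945b_al.As.ALDef

set_option autoImplicit false

/-!
Sums over commutators in a lift.
-/

namespace Pool.Agent.Lib.MP_b6945b_al.Ip

open Finset

variable {G : Type} [Group G] [Fintype G] {p : ℕ} {N : Subgroup G} [N.Normal] [Fintype N]
  {I : IrrData N} {i : Fin I.n} {K H : Type} [Group K] [Fintype K] [Group H] [Fintype H]
  {π : K →* G} {s : N →* K} {P : K →* Matrix (Fin (I.d i)) (Fin (I.d i)) ℂ}

/-- The sum commutes with `ρ`: `scalar_of_comm`. -/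
lemma schur_conj {H : Type} [Group H] [Fintype H] (I : IrrData H) (i : Fin I.n)
    (A : Matrix (Fin (I.d i)) (Fin (I.d i)) ℂ) :
    ∑ n, I.ρ i n * A * I.ρ i n⁻¹ = ((Nat.card H : ℂ) / I.d i * A.trace) • 1 := by
  rw [I.scalar_of_comm i (∑ n, I.ρ i n * A * I.ρ i n⁻¹) fun g => by
    rw [sum_mul, mul_sum, ← Equiv.sum_comp (Equiv.mulLeft g)]
    refine sum_congr rfl fun n _ => ?_
    rw [Equiv.coe_mulLeft, mul_assoc _ _ (I.ρ i g), ← map_mul, map_mul _ g n, mul_inv_rev,
      inv_mul_cancel_right, mul_assoc, mul_assoc, mul_assoc]]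
  have h : ∀ n, (I.ρ i n * A * I.ρ i n⁻¹).trace = A.trace := fun n => by
    rw [Matrix.trace_mul_comm, ← mul_assoc, ← map_mul, inv_mul_cancel, map_one, one_mul]
  rw [Matrix.trace_sum, sum_congr rfl fun n _ => h n, sum_const, card_univ, nsmul_eq_mul,
    Nat.card_eq_fintype_card, div_mul_eq_mul_div]

/-- Write `B = ∑ g, c g • ρ g` (`surj`) and use `idem`. -/
lemma schur_inv {H : Type} [Group H] [Fintype H] (I : IrrData H) (i : Fin I.n)
    (B : Matrix (Fin (I.d i)) (Fin (I.d i)) ℂ) :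
    ∑ n, (B * I.ρ i n⁻¹).trace • I.ρ i n = ((Nat.card H : ℂ) / I.d i) • B := by
  classical
  obtain ⟨c, hc⟩ := I.surj (Pi.single i B)
  have hB : B = ∑ g, c g • I.ρ i g := by rw [hc i, Pi.single_eq_same]
  have h1 : ∑ m, I.χ i m⁻¹ • I.ρ i m = ((Nat.card H : ℂ) / I.d i) • 1 := by
    have h := I.idem i i
    rw [if_pos rfl] at h
    rw [← h, smul_sum, Nat.card_eq_fintype_card]
    refine sum_congr rfl fun m _ => ?_
    have h2 := I.d_ne i
    have h3 : (Fintype.card H : ℂ) ≠ 0 := by exact_mod_cast Fintype.card_ne_zero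
    rw [smul_smul]
    congr 1
    field_simp
  have h2 : ∀ g, ∑ n, (I.ρ i g * I.ρ i n⁻¹).trace • I.ρ i n =
      ((Nat.card H : ℂ) / I.d i) • I.ρ i g := fun g => by
    rw [← one_mul (I.ρ i g), ← smul_mul_assoc, ← h1, sum_mul, one_mul,
      ← Equiv.sum_comp (Equiv.mulRight g)]
    refine sum_congr rfl fun m _ => ?_
    rw [Equiv.coe_mulRight, ← map_mul, mul_inv_rev, mul_inv_cancel_left, smul_mul_assoc, map_mul]
    rfl
  rw [hB, smul_sum]
  simp only [sum_mul, Matrix.trace_sum, sum_smul, smul_mul_assoc, Matrix.trace_smul, smul_assoc]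
  rw [sum_comm]
  refine sum_congr rfl fun g _ => ?_
  rw [← smul_sum, h2, smul_comm]

omit [Fintype G] [Fintype K] in
/-- `cm x (s n' * v) = x * (s n' * (v * x⁻¹ * v⁻¹) * (s n')⁻¹)`; `schur_conj`, then `schur_inv`
with `B = P u⁻¹`. -/
theorem schur2 (h : IsLift p I i π s P) (u v : K) :
    ∑ n : N, ∑ n' : N, P (cm (s n * u) (s n' * v)) = (((Nat.card N : ℂ) / I.d i) ^ 2) • 1 := by
  have h1 : ∀ n : N, ∑ n' : N, P (cm (s n * u) (s n' * v)) = ((Nat.card N : ℂ) / I.d i) •
      (((P u⁻¹ * I.ρ i n⁻¹).trace • I.ρ i n) * P u) := fun n => by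
    have e : ∀ n' : N, P (cm (s n * u) (s n' * v)) =
        P (s n * u) * (I.ρ i n' * P (v * (s n * u)⁻¹ * v⁻¹) * I.ρ i n'⁻¹) := fun n' => by
      rw [← h.rep, ← h.rep, ← map_mul, ← map_mul, ← map_mul, map_inv s, cm]
      congr 1
      group
    have t : (P (v * (s n * u)⁻¹ * v⁻¹)).trace = (P u⁻¹ * I.ρ i n⁻¹).trace := by
      rw [map_mul, Matrix.trace_mul_comm, ← map_mul, inv_mul_cancel_left, ← h.rep, ← map_mul,
        map_inv s, mul_inv_rev]
    rw [sum_congr rfl fun n' _ => e n', ← mul_sum, schur_conj, t, mul_smul_comm, mul_one,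
      map_mul, h.rep, smul_mul_assoc, smul_smul]
  rw [sum_congr rfl fun n _ => h1 n, ← smul_sum, ← sum_mul, schur_inv, smul_mul_assoc, ← map_mul,
    inv_mul_cancel, map_one, smul_smul, sq]

omit [Fintype G] in
open Classical in
/-- A sum over the range of a homomorphism. -/
lemma sum_range_hom [Fintype G] (φ : K →* G) (F : G → ℂ) :
    ∑ k, F (φ k) = (Nat.card φ.ker : ℂ) * ∑ g, if g ∈ φ.range then F g else 0 := by
  rw [← sum_fiberwise univ φ, mul_sum]
  refine sum_congr rfl fun g _ => ?_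
  rw [sum_congr rfl (g := fun _ => F g) fun k hk => by rw [(mem_filter.1 hk).2], sum_const,
    nsmul_eq_mul]
  split_ifs with hg
  · congr 2
    rw [MonoidHom.card_fiber_eq_of_mem_range φ (y := 1) hg ⟨1, map_one φ⟩,
      Nat.card_eq_fintype_card, Fintype.card_subtype]
    simp only [MonoidHom.mem_ker]
  · rw [filter_eq_empty_iff.2 fun k _ e => hg ⟨k, e⟩]
    simp

omit [Fintype G] in
open Classical in
lemma h2_pair [Fintype G] (φ : K →* G) (F : G → G → ℂ) :
    ∑ u, ∑ v, F (φ u) (φ v) = (Nat.card φ.ker : ℂ) ^ 2 * ∑ x, ∑ y,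
      if x ∈ φ.range ∧ y ∈ φ.range then F x y else 0 := by
  rw [sum_range_hom φ fun x => ∑ v, F x (φ v), sq, mul_assoc]
  congr 1
  rw [mul_sum]
  refine sum_congr rfl fun x _ => ?_
  split_ifs with hx
  · rw [sum_range_hom φ (F x)]
    simp only [hx, true_and]
  · simp [hx]

omit [Fintype K] [Fintype H] in
lemma h2_cm (q : K →* H) (u v : K) : q (cm u v) = cm (q u) (q v) := by
  simp only [cm, map_mul, map_inv]

omit [Fintype G] in
lemma h2_avg (h : IsLift p I i π s P) (W : K → K → ℂ)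
    (hW : ∀ (n n' : N) u v, W (s n' * u) (s n * v) = W u v)
    (B : Matrix (Fin (I.d i)) (Fin (I.d i)) ℂ) :
    (Nat.card N : ℂ) ^ 2 * ∑ u, ∑ v, W u v * (P (cm v u) * B).trace =
      ((Nat.card N : ℂ) / I.d i) ^ 2 * B.trace * ∑ u, ∑ v, W u v := by
  have e1 : ∀ n n' : N, ∑ u, ∑ v, W u v * (P (cm v u) * B).trace =
      ∑ u, ∑ v, W u v * (P (cm (s n * v) (s n' * u)) * B).trace := fun n n' => by
    rw [← Equiv.sum_comp (Equiv.mulLeft (s n'))]
    refine sum_congr rfl fun u _ => ?_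
    rw [← Equiv.sum_comp (Equiv.mulLeft (s n))]
    simp only [Equiv.coe_mulLeft, hW]
  calc _ = ∑ n : N, ∑ n' : N, ∑ u, ∑ v, W u v * (P (cm v u) * B).trace := by
        simp only [sum_const, card_univ, nsmul_eq_mul, Nat.card_eq_fintype_card]
        ring
    _ = ∑ n : N, ∑ n' : N, ∑ u, ∑ v,
        W u v * (P (cm (s n * v) (s n' * u)) * B).trace :=
        sum_congr rfl fun n _ => sum_congr rfl fun n' _ => e1 n n'
    _ = ∑ u, ∑ v, ∑ n : N, ∑ n' : N,
        W u v * (P (cm (s n * v) (s n' * u)) * B).trace := by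
        refine (sum_congr rfl fun n _ => sum_comm).trans (sum_comm.trans ?_)
        exact sum_congr rfl fun u _ => (sum_congr rfl fun n _ => sum_comm).trans sum_comm
    _ = _ := by
        rw [mul_sum]
        refine sum_congr rfl fun u _ => ?_
        rw [mul_sum]
        refine sum_congr rfl fun v _ => ?_
        simp only [← mul_sum, ← Matrix.trace_sum, ← sum_mul]
        rw [schur2 h, smul_mul_assoc, one_mul, Matrix.trace_smul, smul_eq_mul]
        ring

open Classical in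
/-- The left side is `∑ u v : K, w .. * trace (P (cm v u) * P k⁻¹) * f' (q k * cm (q u) (q v))`
(`sum_range_hom`, `cm_inv`).  Replace `u, v` by `s n * u`, `s n' * v`, average over `n, n'`
(`schur2`), and use `sum_range_hom` for `q` (the kernel has `card N` elements). -/
theorem pair_transfer (h : IsLift p I i π s P) {q : K →* H} (hq : Function.Surjective q)
    (hk : q.ker = s.range) {κ : H →* G ⧸ N} (hκ : ∀ k, κ (q k) = π k) {f : G → ℂ} {f' : H → ℂ}
    (hf : Twf π q P f f') (w : G ⧸ N → G ⧸ N → ℂ) (k : K) :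
    (Nat.card π.ker : ℂ) ^ 2 * ∑ x : G, ∑ y : G,
      (if x ∈ St I i ∧ y ∈ St I i then w x y * f (π k * cm x y) else 0) =
    ((Nat.card N : ℂ) / I.d i) ^ 2 * (P k⁻¹).trace *
      ∑ x : H, ∑ y : H, w (κ x) (κ y) * f' (q k * cm x y) := by
  have hs : ∀ n : N, q (s n) = 1 := fun n => by
    rw [← MonoidHom.mem_ker, hk]
    exact ⟨n, rfl⟩
  have hinj : Function.Injective s := fun n n' e => Subtype.ext (by rw [← h.sec, e, h.sec])
  have hc : Nat.card q.ker = Nat.card N := by
    rw [hk]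
    exact (Nat.card_congr (MonoidHom.ofInjective hinj).toEquiv).symm
  have hn : (Nat.card N : ℂ) ^ 2 ≠ 0 := pow_ne_zero _ (Nat.cast_ne_zero.2 Nat.card_pos.ne')
  have e1 := h2_pair π fun x y => w x y * f (π k * cm x y)
  have e2 := h2_pair q fun x y => w (κ x) (κ y) * f' (q k * cm x y)
  have e3 := h2_avg h (fun u v => w (κ (q u)) (κ (q v)) * f' (q k * cm (q u) (q v)))
    (fun n n' u v => by simp only [map_mul, hs, one_mul]) (P k⁻¹)
  simp only [h.range] at e1
  simp only [MonoidHom.range_eq_top.2 hq, Subgroup.mem_top, and_self, if_true, hc] at e2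
  rw [← e1]
  refine mul_left_cancel₀ hn ?_
  rw [mul_left_comm, ← e2, ← e3]
  congr 1
  refine sum_congr rfl fun u _ => sum_congr rfl fun v _ => ?_
  rw [← h2_cm, ← map_mul, hf, mul_inv_rev, cm_inv, map_mul, map_mul, h2_cm, hκ, hκ]
  ring

end Pool.Agent.Lib.MP_b6945b_al.Ip
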