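import Pool.Agent.Lib.MP_b6945b_al.As.ADefs

set_option autoImplicit false

/-!
Translation of the hypothesis.
-/

namespace Pool.Agent.Lib.MP_b6945b_al.Ip

open Finset

variable {p : ℕ} [Fact p.Prime] {G0 H : Type} [Group G0] [Group H]

omit [Fact p.Prime] in
/-- `A` is the first projection of `R ⊓ (G0 × L)`; the map from this subgroup to `A` is onto and
its kernel is killed by the map to `L ⧸ Z` (`MonoidHom.liftOfRightInverse` or
`QuotientGroup.quotientKerEquivOfSurjective`). -/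
lemma sec_surj {Z L : Subgroup H} [Z.Normal] (h : Sec0 G0 L Z) :
    ∃ (A : Subgroup G0) (φ : A →* L ⧸ Z.subgroupOf L), Function.Surjective φ := by
  obtain ⟨R, h1, h2⟩ := h
  let R' : Subgroup (G0 × L) := R.comap ((MonoidHom.id G0).prodMap L.subtype)
  let f : R' →* G0 := (MonoidHom.fst G0 L).comp R'.subtype
  let g : R' →* L ⧸ Z.subgroupOf L :=
    (QuotientGroup.mk' _).comp ((MonoidHom.snd G0 L).comp R'.subtype)
  have hk : f.rangeRestrict.ker ≤ g.ker := by
    rintro ⟨⟨u, x⟩, hx⟩ hu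
    have e : u = 1 := congrArg Subtype.val (MonoidHom.mem_ker.1 hu)
    subst e
    exact MonoidHom.mem_ker.2 ((QuotientGroup.eq_one_iff x).2 (h2 x.1 hx))
  refine ⟨f.range, f.rangeRestrict.liftOfSurjective f.rangeRestrict_surjective ⟨g, hk⟩,
    fun y => ?_⟩
  obtain ⟨x, rfl⟩ := QuotientGroup.mk_surjective y
  obtain ⟨u, hu⟩ := h1 x.1 x.2
  exact ⟨f.rangeRestrict ⟨(u, x), hu⟩, MonoidHom.liftOfRightInverse_comp_apply _ _ _ _ _⟩

/-- Cauchy: `exists_prime_orderOf_dvd_card'`. -/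
lemma CenP.card [Finite H] {Z : Subgroup H} (h : CenP p Z) : ¬ p ∣ Nat.card Z := by
  obtain ⟨t, ht, h⟩ := h
  intro hp
  obtain ⟨z, hz⟩ := exists_prime_orderOf_dvd_card' p hp
  exact ht (hz ▸ orderOf_dvd_of_pow_eq_one (Subtype.ext (h z.1 z.2).1))

omit [Fact p.Prime] in
lemma simple_of_min {Z L : Subgroup H} [Z.Normal] (hle : Z ≤ L) (hne : ¬ L ≤ Z)
    (h : ∀ T : Subgroup H, Z ≤ T → T ≤ L → L ≤ Nr T → T = Z ∨ T = L) :
    IsSimpleGroup (L ⧸ Z.subgroupOf L) := by
  have hnt : Nontrivial (L ⧸ Z.subgroupOf L) :=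
    QuotientGroup.nontrivial_iff.2 fun e => hne (Subgroup.subgroupOf_eq_top.1 e)
  refine ⟨fun N hN => ?_⟩
  set K : Subgroup L := N.comap (QuotientGroup.mk' _) with hK
  have hKn : K.Normal := hN.comap _
  have hm : ∀ x : L, x.1 ∈ K.map L.subtype ↔ (x : L ⧸ Z.subgroupOf L) ∈ N := fun x =>
    Subgroup.mem_map_iff_mem L.subtype_injective
  have hT : L ≤ Nr (K.map L.subtype) := by
    have := Subgroup.le_normalizer_map (H := K) L.subtype
    rwa [Subgroup.normalizer_eq_top, ← MonoidHom.range_eq_map, Subgroup.range_subtype] at this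
  have hZ : Z ≤ K.map L.subtype := fun z hz => (hm ⟨z, hle hz⟩).2 (by
    rw [(QuotientGroup.eq_one_iff (⟨z, hle hz⟩ : L)).2 hz]
    exact N.one_mem)
  rcases h _ hZ (L.map_subtype_le K) hT with e | e
  · refine Or.inl (eq_bot_iff.2 fun y hy => ?_)
    obtain ⟨x, rfl⟩ := QuotientGroup.mk_surjective y
    have := (hm x).2 hy
    rw [e] at this
    exact Subgroup.mem_bot.2 ((QuotientGroup.eq_one_iff x).2 this)
  · refine Or.inr (eq_top_iff.2 fun y _ => ?_)
    obtain ⟨x, rfl⟩ := QuotientGroup.mk_surjective y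
    exact (hm x).1 (e.symm ▸ x.2)

/-- `mid_comm`, `reg_gen`, Cauchy in `H ⧸ L`, `Group.rank_le` for the images of `a`, `b`. -/
lemma quot_of_gen [Finite H] {L : Subgroup H} [L.Normal] {a b : H} (hg : gen a b L = ⊤)
    (ha : Reg p L a) (hb : Reg p L b) (hab : cm a b ∈ L) :
    (∀ x y : H ⧸ L, x * y = y * x) ∧ ¬ p ∣ L.index ∧ Group.rank (H ⧸ L) ≤ 2 := by
  classical
  have hall : ∀ g : H, g ∈ gen a b L := fun g => hg ▸ Subgroup.mem_top g
  refine ⟨fun x y => ?_, fun h => ?_, ?_⟩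
  · obtain ⟨u, rfl⟩ := QuotientGroup.mk_surjective x
    obtain ⟨v, rfl⟩ := QuotientGroup.mk_surjective y
    exact mid_cm.1 (mid_comm hab u (hall u) v (hall v))
  · obtain ⟨x, hx⟩ := exists_prime_orderOf_dvd_card' (G := H ⧸ L) p h
    obtain ⟨u, rfl⟩ := QuotientGroup.mk_surjective x
    obtain ⟨m, hm, e⟩ := reg_gen hab ha hb (hall u)
    refine hm (hx ▸ orderOf_dvd_of_pow_eq_one ?_)
    rw [← QuotientGroup.mk_pow]
    exact (QuotientGroup.eq_one_iff _).2 e
  · have h1 : Subgroup.closure ((({(a : H ⧸ L), (b : H ⧸ L)} : Finset (H ⧸ L))) : Set (H ⧸ L)) =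
        ⊤ := by
      rw [eq_top_iff]
      intro x _
      obtain ⟨u, rfl⟩ := QuotientGroup.mk_surjective x
      have key : gen a b L ≤ (Subgroup.closure ((({(a : H ⧸ L), (b : H ⧸ L)} :
          Finset (H ⧸ L))) : Set (H ⧸ L))).comap (QuotientGroup.mk' L) := by
        refine gen_le.2 ⟨Subgroup.subset_closure (by simp), Subgroup.subset_closure (by simp),
          fun n hn => ?_⟩
        have e : (QuotientGroup.mk' L) n = 1 := (QuotientGroup.eq_one_iff n).2 hn
        rw [Subgroup.mem_comap, e]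
        exact one_mem _
      exact key (hall u)
    exact (Group.rank_le h1).trans card_le_two

/-- A Sylow subgroup of `L` meets `Z` trivially and maps into a Sylow subgroup of `L ⧸ Z`, onto
it by counting (`Sylow.mapSurjective`); all Sylow subgroups are conjugate; `Group.rank_congr`. -/
lemma syl_lift {L : Type} [Group L] [Finite L] {Z : Subgroup L} [Z.Normal]
    (hZ : ¬ p ∣ Nat.card Z) (S : Sylow p (L ⧸ Z))
    (hc : ∀ x ∈ S.toSubgroup, ∀ y ∈ S.toSubgroup, x * y = y * x)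
    (hn : Group.rank S.toSubgroup ≤ 2) : ∃ S' : Sylow p L,
      (∀ x ∈ S'.toSubgroup, ∀ y ∈ S'.toSubgroup, x * y = y * x) ∧
        Group.rank S'.toSubgroup ≤ 2 := by
  obtain ⟨S', rfl⟩ := Sylow.mapSurjective_surjective (QuotientGroup.mk'_surjective Z) p S
  have hinj : ∀ x ∈ S'.toSubgroup, (QuotientGroup.mk' Z) x = 1 → x = 1 := fun x hx e => by
    have hxZ : x ∈ Z := (QuotientGroup.eq_one_iff x).1 e
    obtain ⟨k, hk⟩ := S'.isPGroup' ⟨x, hx⟩
    have h1 : orderOf x ∣ p ^ k := orderOf_dvd_of_pow_eq_one (congrArg Subtype.val hk)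
    have h2 : orderOf x ∣ Nat.card Z := Z.orderOf_dvd_natCard hxZ
    have h3 : Nat.Coprime (p ^ k) (Nat.card Z) :=
      Nat.Coprime.pow_left k ((Nat.Prime.coprime_iff_not_dvd Fact.out).2 hZ)
    exact orderOf_eq_one_iff.1 (Nat.eq_one_of_dvd_coprimes h3 h1 h2)
  refine ⟨S', fun x hx y hy => ?_, ?_⟩
  · have e := hc _ (Subgroup.mem_map_of_mem _ hx) _ (Subgroup.mem_map_of_mem _ hy)
    refine mul_inv_eq_one.1 (hinj _ (mul_mem (mul_mem hx hy) (inv_mem (mul_mem hy hx))) ?_)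
    rw [map_mul, map_inv, map_mul, map_mul, e, mul_inv_cancel]
  · have hb : Function.Bijective ((QuotientGroup.mk' Z).subgroupMap S'.toSubgroup) :=
      ⟨(injective_iff_map_eq_one _).2 fun x e =>
        Subtype.ext (hinj x.1 x.2 (congrArg Subtype.val e)), MonoidHom.subgroupMap_surjective _ _⟩
    exact (Group.rank_congr (MulEquiv.ofBijective _ hb)).le.trans hn

end Pool.Agent.Lib.MP_b6945b_al.Ip
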