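import Pool.Agent.Lib.MP_b6945b_al.As.TReal

set_option autoImplicit false

/-!
The twisted sum vanishes below the bound of the induction.
-/

namespace Pool.Agent.Lib.MP_b6945b_al.Ip

open Finset

variable {G : Type} [Group G] [Fintype G] {p : ℕ} [Fact p.Prime]

/-- `eK_eq_sum`, `crapo` (PCrapo) with `T = L`, `M = R`, `F = fun _ => 1` over `ℤ`: the inner sum
is `eK K (L ⊓ R ⊓ Cr Q) = eK K R = 0` (`eK_self`) because `R ≤ Cr L ≤ Cr Q`. -/
lemma eK_cent {K : Set G} {L R : Subgroup G} (hR : KP p K R) (h0 : R ≠ ⊥) (h1 : R ≤ L ⊓ Cr L) :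
    eK p K L = 0 := by
  have h2 : R ≤ Cr L := h1.trans inf_le_right
  have h := crapo (p := p) (K := K) (T := L) (M := R)
    ((Subgroup.le_centralizer_iff.1 h2).trans (cr_le_nr le_rfl)) hR.2 fun _ => (1 : ℤ)
  simp only [mul_one, Int.cast_id, ← eK_eq_sum] at h
  rw [h]
  refine sum_eq_zero fun Q _ => ?_
  split_ifs with hQ
  · have e : L ⊓ R ⊓ Cr Q = R := le_antisymm (inf_le_left.trans inf_le_right) (le_inf
      (le_inf (h1.trans inf_le_left) le_rfl) (h2.trans (Subgroup.centralizer_le hQ.2.1)))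
    rw [e, eK_self hR, if_neg h0, mul_zero]
  · rfl

/-- `R` = the `p`-elements of `L ⊓ Cr L` is a subgroup normalised by `Nr L`; `eK_cent`,
`EE_eq_zero` (Rd/Loc). -/
lemma tz_cent {L : Subgroup G} {z : G} (hz : z ∈ L ⊓ Cr L) (hp : IsPElt p z) (h1 : z ≠ 1)
    (d : G) {x y : G} (hx : x ∈ Nr L) (hy : y ∈ Nr L) : tz p L d x y = 0 := by
  let R : Subgroup G :=
    { carrier := {g | g ∈ L ⊓ Cr L ∧ IsPElt p g}
      one_mem' := ⟨one_mem _, 0, by simp⟩
      mul_mem' := fun {a b} ha hb => ⟨mul_mem ha.1 hb.1, by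
        obtain ⟨k, hk⟩ := ha.2
        obtain ⟨l, hl⟩ := hb.2
        have hc : Commute a b := hb.1.2 a ha.1.1
        refine ⟨k + l, ?_⟩
        rw [hc.mul_pow, pow_add, pow_mul, hk, mul_comm (p ^ k), pow_mul, hl]
        simp⟩
      inv_mem' := fun ha => ⟨inv_mem ha.1, isPElt_inv.2 ha.2⟩ }
  have a1 : IsPGroup p R := fun r => r.2.2.imp fun _ e => Subtype.ext e
  have a2 : Nr L ≤ Nr R := fun g hg => Subgroup.mem_normalizer_iff.2 fun r =>
    and_congr (Subgroup.mem_normalizer_iff.1 (nr_inf hg (nr_cr hg)) r) (isPElt_conj g).symm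
  have a3 : R ≠ ⊥ := fun e => h1 (Subgroup.mem_bot.1 (e ▸ (⟨hz, hp⟩ : z ∈ R)))
  have a4 : R ≤ L ⊓ Cr L := fun _ h => h.1
  have a5 : KP p {x, y} R := ⟨a1, Set.pair_subset (a2 hx) (a2 hy)⟩
  rw [tz, eK_cent a5 a3 a4,
    EE_eq_zero a1 a3 (a4.trans inf_le_left) (Subgroup.le_normalizer.trans a2)]
  simp

/-- `x = u * s` (`exists_parts`); `u` is a `p`-element with `u ^ m ∈ L ⊔ Cr L`, so `u` itself lies
there, `u = l * e` with `l ∈ L`, `e ∈ Cr L` (the products form a subgroup); `x' = l⁻¹ * x = e * s`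
and `(e * s) ^ j * (s ^ j)⁻¹ ∈ Cr L` by induction (`nr_cr`); take `j = orderOf s`. -/
lemma reg_move {L : Subgroup G} {x : G} (hx : x ∈ Nr L) (h : Reg p (L ⊔ Cr L) x) :
    ∃ x', x' * x⁻¹ ∈ L ∧ ∃ m, ¬ p ∣ m ∧ x' ^ m ∈ Cr L := by
  obtain ⟨m, hm, e⟩ := h
  obtain ⟨u, s, ⟨k, hk⟩, hs, ⟨z, hz⟩, hs', e1⟩ := exists_parts p x
  obtain ⟨j, hj⟩ := exists_pow_eq_self_of_coprime (x := u) (Nat.Coprime.coprime_dvd_right
    (orderOf_dvd_of_pow_eq_one hk)
    (((Nat.Prime.coprime_iff_not_dvd Fact.out).2 hm).symm.pow_right k))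
  have h1 : u ∈ ((L ⊔ Cr L : Subgroup G) : Set G) := hj ▸ pow_mem (by
    rw [← hz, ← zpow_natCast, zpow_comm, zpow_natCast]
    exact zpow_mem e z) j
  rw [Subgroup.coe_mul_of_right_le_normalizer_left _ _ (Subgroup.centralizer_le_normalizer _)]
    at h1
  obtain ⟨l, hl, c, hc, e2⟩ := h1
  have h2 := Subgroup.mem_normalizer_iff.1 (nr_cr (Subgroup.zpowers_le.2 hx hs'))
  have h3 : ∀ i : ℕ, (c * s) ^ i * (s ^ i)⁻¹ ∈ Cr L := fun i => by
    induction i with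
    | zero => simp
    | succ i ih =>
      rw [pow_succ', pow_succ' s]
      simpa only [mul_assoc, mul_inv_rev] using mul_mem hc ((h2 _).1 ih)
  refine ⟨c * s, ?_, orderOf s, hs, by simpa using h3 (orderOf s)⟩
  rw [← e1, ← e2]
  simpa using hl

omit [Fintype G] in
lemma mem_of_reg_pelt {L : Subgroup G} {g : G} (h : Reg p L g) (hp : IsPElt p g) : g ∈ L := by
  obtain ⟨m, hm, e⟩ := h
  obtain ⟨k, hk⟩ := hp
  have h1 : m.Coprime (orderOf g) := Nat.Coprime.coprime_dvd_right (orderOf_dvd_of_pow_eq_one hk)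
    (((Nat.Prime.coprime_iff_not_dvd Fact.out).2 hm).symm.pow_right k)
  obtain ⟨j, hj⟩ := exists_pow_eq_self_of_coprime h1
  exact hj ▸ pow_mem e j

omit [Fintype G] in
lemma pin_of_gen {L : Subgroup G} [L.Normal] {a b : G} (hg : gen a b L = ⊤) (ha : Reg p L a)
    (hb : Reg p L b) (hab : cm a b ∈ L) : PIn p ⊤ L :=
  ⟨le_top, fun _ _ hp => mem_of_reg_pelt (reg_gen hab ha hb (hg.ge trivial)) hp⟩

omit [Fact p.Prime] in
lemma vih_EE_bot (g : G) : EE p (⊥ : Subgroup G) g = ind (· = 1) g := by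
  let _ : Fintype (⊥ : Subgroup G) := Fintype.ofFinite _
  obtain ⟨I⟩ := exists_irrData (⊥ : Subgroup G)
  by_cases h : g = 1
  · have h1 : ind (Dz p I) = 1 := funext fun i => ind_pos (by simp [Dz])
    rw [EE_eq _ I, e1, h1, I.zf_one, h, ext0_pos _ (one_mem _), ind_pos (S := (· = (1 : G))) rfl]
    exact ind_pos (S := (· = 1)) rfl
  · rw [EE_supp (mt Subgroup.mem_bot.1 h), ind_neg (S := (· = 1)) h]

/-- `EE p (Z ⊓ Cr P) = EE p ⊥` (`EE_pin`: a `p`-element of `Z` is trivial), `EE p ⊥ = ind (· = 1)`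
(copy the ten line proof of `EE_bot` from Rd/Blk under the name `vih_EE_bot`; do not import Blk),
`eK_eq_sum`, `eK_pin`. -/
lemma tw_eq_tz {Z L : Subgroup G} (hZ : CenP p Z) (hL : PIn p ⊤ L) (x y : G) :
    tw p ⊤ Z L x y = tz p L 1 x y := by
  classical
  obtain ⟨t, ht, h⟩ := hZ
  have a : ∀ P : Subgroup G, EE p (Z ⊓ Cr P) = EE p ⊥ := fun P => EE_pin ⟨bot_le, fun g hg hp =>
    mem_of_reg_pelt ⟨t, ht, Subgroup.mem_bot.2 (h g hg.1).1⟩ hp⟩
  rw [tw, tz, BB, inv_one, mul_one, ← eK_pin hL, eK_eq_sum]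
  congr 1
  simp only [a, vih_EE_bot, ind]
  split_ifs <;> simp

variable {G0 : Type} [Group G0] {k : ℕ}

omit [Fintype G] [Fact p.Prime] in
lemma vih3_pow {L : Subgroup G} {x : G} (hx : x ∈ Nr L) {m : ℕ} (hxm : x ^ m ∈ Cr L) :
    L.normalizerMonoidHom ⟨x, hx⟩ ^ m = 1 := by
  rw [← map_pow]
  ext l
  change x ^ m * l * (x ^ m)⁻¹ = l
  rw [← hxm l l.2, mul_inv_cancel_right]

/-- `real` for `A = L`, `σ = L.normalizerMonoidHom ⟨x, hx⟩`, `τ` likewise, `c = cm x y * d⁻¹`.  In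
the group `H` obtained `g.range` is normal and `Z' = (Z.subgroupOf L).map g` is central (use
`gen X Y g.range = ⊤`), `Sec.comap L.subtype`, `Sec.map g`,
`Subgroup.relIndex_map_map_of_injective`; `ih`, `tw_eq_tz`, `pin_of_gen`, then `tz_tr` with
`f = L.subtype`, `d' = 1`. -/
theorem vih_core (ih : TW p G0 k) {Z L : Subgroup G} {x y d : G} (hZ : CenP p Z) (hZL : Z ≤ L)
    (hx : x ∈ Nr L) (hy : y ∈ Nr L) (hd : d ∈ Cr L) (hc : cm x y * d⁻¹ ∈ L) {m : ℕ}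
    (hm : ¬ p ∣ m) (hxm : x ^ m ∈ Cr L) (hym : y ^ m ∈ Cr L) (hz : ∀ z ∈ L ⊓ Cr L, z ^ m = 1)
    (hs : Sec G0 L Z) (hk : Z.relIndex L < k) : CS L (tz p L d) x y = 0 := by
  have hp : p.Prime := Fact.out
  let σ : MulAut L := L.normalizerMonoidHom ⟨x, hx⟩
  let τ : MulAut L := L.normalizerMonoidHom ⟨y, hy⟩
  have hσ : ∀ l : L, x * L.subtype l * x⁻¹ = L.subtype (σ l) := fun _ => rfl
  have hτ : ∀ l : L, y * L.subtype l * y⁻¹ = L.subtype (τ l) := fun _ => rfl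
  have hm0 : m ≠ 0 := fun e => hm (e ▸ dvd_zero p)
  have hmm : ¬ p ∣ m * m := fun e => (hp.dvd_mul.1 e).elim hm hm
  obtain ⟨H, _, _, g, X, Y, hg, hX, hY, hcm, hXm, hYm, hgen⟩ :=
    real σ τ (⟨cm x y * d⁻¹, hc⟩ : L) hm0 (vih3_pow hx hxm) (vih3_pow hy hym)
      (fun z hzc => Subtype.ext (hz z ⟨z.2, fun u hu =>
        congrArg Subtype.val (Subgroup.mem_center_iff.1 hzc ⟨u, hu⟩)⟩))
      (fun l => Subtype.ext (by
        have h1 : (τ (σ l) : G) * d = d * τ (σ l) := hd _ (τ (σ l)).2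
        have h2 : (τ (σ l) : G) = y * (x * l * x⁻¹) * y⁻¹ := rfl
        change x * (y * l * y⁻¹) * x⁻¹ = cm x y * d⁻¹ * (τ (σ l) : G) * (cm x y * d⁻¹)⁻¹
        have h3 : cm x y * d⁻¹ * (τ (σ l) : G) * (cm x y * d⁻¹)⁻¹ =
            cm x y * d⁻¹ * ((τ (σ l) : G) * d) * (cm x y)⁻¹ := by group
        rw [h3, h1, h2]
        unfold cm
        group))
  have : Fintype H := Fintype.ofFinite H
  have hnr : ∀ {u : H} {α : MulAut L}, (∀ l, u * g l * u⁻¹ = g (α l)) → u ∈ Nr g.range :=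
    fun {u α} h => Subgroup.mem_normalizer_fintype (by
      rintro _ ⟨l, rfl⟩
      exact ⟨α l, (h l).symm⟩)
  have hN : g.range.Normal := Subgroup.normalizer_eq_top_iff.1 (eq_top_iff.2
    (hgen.ge.trans (gen_le.2 ⟨hnr hX, hnr hY, Subgroup.le_normalizer⟩)))
  have hZ' : CenP p ((Z.subgroupOf L).map g) := by
    obtain ⟨t, ht, h⟩ := hZ
    refine ⟨t, ht, ?_⟩
    rintro _ ⟨z, hz', rfl⟩
    obtain ⟨h1, h2⟩ := h z hz'
    refine ⟨by rw [← map_pow, show z ^ t = 1 from Subtype.ext h1, map_one], fun u => ?_⟩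
    have key : ∀ {v : H} {α : MulAut L}, (∀ l, v * g l * v⁻¹ = g (α l)) → α z = z →
        v ∈ Subgroup.centralizer {g z} := fun {v α} e e' => by
      rw [Subgroup.mem_centralizer_singleton_iff, ← mul_inv_eq_iff_eq_mul, e, e']
    have hall : gen X Y g.range ≤ Subgroup.centralizer {g z} := gen_le.2
      ⟨key hX (Subtype.ext (by change x * z * x⁻¹ = z; rw [h2 x, mul_inv_cancel_right])),
        key hY (Subtype.ext (by change y * z * y⁻¹ = z; rw [h2 y, mul_inv_cancel_right])), by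
        rintro _ ⟨l, rfl⟩
        rw [Subgroup.mem_centralizer_singleton_iff, ← map_mul, ← map_mul]
        exact congrArg g (Subtype.ext (h2 l))⟩
    exact Subgroup.mem_centralizer_singleton_iff.1 (hall (hgen.ge trivial))
  have := hZ'.normal
  have hrX : Reg p g.range X := ⟨m * m, hmm, hXm ▸ one_mem _⟩
  have hrY : Reg p g.range Y := ⟨m * m, hmm, hYm ▸ one_mem _⟩
  have hcr : cm X Y ∈ g.range := ⟨_, hcm.symm⟩
  have hs' : Sec G0 g.range ((Z.subgroupOf L).map g) := hs.real g hσ hX hτ hY hgen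
  have hk' : ((Z.subgroupOf L).map g).relIndex g.range < k := by
    rwa [MonoidHom.range_eq_map, Subgroup.relIndex_map_map_of_injective _ _ hg,
      Subgroup.relIndex_top_right]
  have h0 := ih H _ g.range X Y (Subgroup.map_le_range _ _) hgen hrX hrY hcr hs' hk'
  rw [CS_congr fun u v _ _ => tw_eq_tz hZ' (pin_of_gen hgen hrX hrY hcr) u v] at h0
  have h1 := tz_tr (p := p) L.subtype_injective hg σ τ (⟨cm x y * d⁻¹, hc⟩ : L) hσ hX hτ hY
    (d := d) (d' := 1) (by rwa [Subgroup.range_subtype]) (one_mem _) rfl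
    (by rw [inv_one, mul_one, hcm])
  rw [Subgroup.range_subtype] at h1
  exact h1.trans h0

theorem vih (ih : TW p G0 k) {Z L : Subgroup G} {x y d : G} (hZ : CenP p Z) (hZL : Z ≤ L)
    (hx : x ∈ Nr L) (hy : y ∈ Nr L) (hd : d ∈ Cr L) (hc : cm x y * d⁻¹ ∈ L)
    (hrx : Reg p (L ⊔ Cr L) x) (hry : Reg p (L ⊔ Cr L) y) (hs : Sec G0 L Z)
    (hk : Z.relIndex L < k) : CS L (tz p L d) x y = 0 := by
  have hp : p.Prime := Fact.out
  have hn : ∀ {u v : G}, v ∈ Nr L → u * v⁻¹ ∈ L → u ∈ Nr L := fun hv h => by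
    simpa using mul_mem (Subgroup.le_normalizer h) hv
  by_cases h : ∃ z ∈ L ⊓ Cr L, IsPElt p z ∧ z ≠ 1
  · obtain ⟨z, h1, h2, h3⟩ := h
    exact (CS_congr fun u v hu hv => tz_cent h1 h2 h3 d (hn hx hu) (hn hy hv)).trans
      (CS_zero L x y)
  obtain ⟨x', a1, m1, a2, a3⟩ := reg_move hx hrx
  obtain ⟨y', b1, m2, b2, b3⟩ := reg_move hy hry
  obtain ⟨e, t, ht, he⟩ := Nat.exists_eq_pow_mul_and_not_dvd (Nat.card_pos (α := G)).ne' p
    hp.ne_one
  rw [← CS_coset _ a1 b1]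
  refine vih_core ih hZ hZL (hn hx a1) (hn hy b1) hd (cm_formula hx hy hd hc a1 b1)
    (m := m1 * m2 * t) (fun e => ((hp.dvd_mul.1 e).elim (fun e => (hp.dvd_mul.1 e).elim a2 b2) ht))
    (by rw [mul_assoc, pow_mul]; exact pow_mem a3 _)
    (by rw [mul_comm m1, mul_assoc, pow_mul]; exact pow_mem b3 _) (fun z hz => ?_) hs hk
  have h1 : z ^ t = 1 := by_contra fun h2 => h ⟨_, pow_mem hz t,
    ⟨e, by rw [← pow_mul, mul_comm, ← he, pow_card_eq_one']⟩, h2⟩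
  rw [mul_comm, pow_mul, h1, one_pow]

end Pool.Agent.Lib.MP_b6945b_al.Ip
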