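import Pool.Agent.Lib.MP_b6945b_al.As.ABase
import Pool.Agent.Lib.MP_b6945b_al.As.ASec
import Pool.Agent.Lib.MP_b6945b_al.As.TVih
import Pool.Agent.Lib.MP_b6945b_al.Rd.Fin

set_option autoImplicit false

/-!
Layers with good simple sections, and groups with small composition factors.
-/

namespace Pool.Agent.Lib.MP_b6945b_al.Ip

open Finset

variable {p : ℕ} [Fact p.Prime] {G0 : Type} [Group G0]

theorem AB_hyp {G : Type} [Group G] [Fintype G] {N M : Subgroup G} [N.Normal] [M.Normal]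
    (hle : N ≤ M) (hs : Sec G0 M N) (hyp : Hyp p G0) : AB p N = AB p M := by
  have h := sum_avg M (fun x y => BB p {x, y} ⊤ N (cm x y) - BB p {x, y} ⊤ M (cm x y))
    (fun _ _ => True) (fun _ _ _ _ _ _ _ => trivial)
    fun a b _ => step_mid (TW_all hyp _) hle hs (Nat.lt_succ_self _) a b
  simp only [if_true, sum_sub_distrib] at h
  exact sub_eq_zero.1 h

theorem KR_of_hyp [Finite G0] (hyp : Hyp p G0) : KR p G0 := by
  let _ : Fintype G0 := Fintype.ofFinite G0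
  exact rel_bot.1 ((rel_iff _).2 ((AB_hyp bot_le Sec.top hyp).trans AB_top))

omit [Fact p.Prime] in
/-- A simple section is a section of a factor of a subnormal series. -/
lemma Sec0.series {H : Type} [Group H] [Finite H] {Z L : Subgroup H} [Z.Normal] (hZL : Z ≤ L)
    (hmin : ∀ T : Subgroup H, Z ≤ T → T ≤ L → L ≤ Nr T → T = Z ∨ T = L) (hne : ¬ L ≤ Z)
    (h : Sec0 G0 L Z) (r : ℕ) (s : ℕ → Subgroup G0)
    [hn : ∀ i, ((s i).subgroupOf (s (i + 1))).Normal]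
    (h0 : s 0 = ⊥) (hr : s r = ⊤) (hs : ∀ i < r, s i ≤ s (i + 1)) :
    ∃ i < r, Sec0 (s (i + 1) ⧸ (s i).subgroupOf (s (i + 1))) L Z := by
  obtain ⟨R, h1, h2⟩ := h
  let T : ℕ → Subgroup H := fun i => (R ⊓ (s i).prod L).map (MonoidHom.snd G0 H) ⊔ Z
  have m : ∀ i g, g ∈ T i ↔ ∃ u v z, ((u, v) ∈ R ∧ u ∈ s i ∧ v ∈ L) ∧ z ∈ Z ∧ v * z = g :=
    fun i g => by
    rw [← SetLike.mem_coe, Subgroup.mul_normal]
    exact ⟨fun ⟨_, ⟨⟨u, v⟩, a, rfl⟩, z, b, c⟩ => ⟨u, v, z, a, b, c⟩,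
      fun ⟨u, v, z, a, b, c⟩ => ⟨v, ⟨(u, v), a, rfl⟩, z, b, c⟩⟩
  have key : ∀ j ≤ r, L ≤ T j → ∃ i < r, L ≤ T (i + 1) ∧ T i ≤ Z := fun j => by
    induction j with
    | zero =>
      refine fun _ e => absurd (e.trans (sup_le ?_ le_rfl)) hne
      rintro _ ⟨⟨u, v⟩, ⟨a, b, -⟩, rfl⟩
      exact h2 v ((Subgroup.mem_bot.1 (h0.le b) : u = 1) ▸ a)
    | succ j ih =>
      intro hj e
      refine (hmin (T j) le_sup_right (sup_le ?_ hZL) (e.trans (sup_le ?_ ?_))).elim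
        (fun a => ⟨j, hj, e, a.le⟩) fun a => ih (by omega) a.ge
      · rintro _ ⟨_, a, rfl⟩
        exact a.2.2
      · rintro _ ⟨⟨u, v⟩, ⟨a, b, c⟩, rfl⟩
        refine nr_sup (Subgroup.mem_normalizer_fintype ?_) (pmob_nr _)
        rintro _ ⟨⟨u', v'⟩, ⟨a', b', c'⟩, rfl⟩
        exact ⟨(u, v) * (u', v') * (u, v)⁻¹, ⟨R.mul_mem (R.mul_mem a a') (R.inv_mem a),
          (hn j).conj_mem ⟨u', hs j hj b'⟩ b' ⟨u, b⟩, L.mul_mem (L.mul_mem c c') (L.inv_mem c)⟩,
          rfl⟩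
      · exact le_sup_right.trans Subgroup.le_normalizer
  obtain ⟨i, hi, a, b⟩ := key r le_rfl fun g hg => by
    obtain ⟨u, hu⟩ := h1 g hg
    exact (m r g).2 ⟨u, g, 1, ⟨hu, hr.ge trivial, hg⟩, one_mem _, mul_one g⟩
  let f := (QuotientGroup.mk' ((s i).subgroupOf (s (i + 1)))).prodMap (QuotientGroup.mk' Z)
  let f' := (MonoidHom.id (s (i + 1) ⧸ (s i).subgroupOf (s (i + 1)))).prodMap (QuotientGroup.mk' Z)
  refine ⟨i, hi, (((R ⊓ (⊤ : Subgroup G0).prod L).comap ((s (i + 1)).subtype.prodMap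
    (MonoidHom.id H))).map f).comap f', fun g hg => ?_, fun g hg => ?_⟩
  · obtain ⟨u, v, z, ⟨c1, c2, c3⟩, c4, rfl⟩ := (m _ g).1 (a hg)
    refine ⟨_, (⟨u, c2⟩, v), ⟨c1, trivial, c3⟩, Prod.ext rfl ?_⟩
    exact (QuotientGroup.mk_mul_of_mem v c4).symm
  · obtain ⟨⟨u, v⟩, ⟨c1, -, c3⟩, e⟩ := hg
    obtain ⟨e1, e2⟩ := Prod.ext_iff.1 e
    have c := b ((m i v).2 ⟨u, v, 1, ⟨c1, (QuotientGroup.eq_one_iff u).1 e1, c3⟩, one_mem _,
      mul_one v⟩)
    exact (QuotientGroup.eq_one_iff g).1 (Eq.trans (Eq.symm e2) ((QuotientGroup.eq_one_iff v).2 c))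

omit [Fact p.Prime] in
lemma om1_surj {A B : Type} [CommGroup A] [Finite A] [CommGroup B] (φ : A →* B)
    (hφ : Function.Surjective φ) :
    Nat.card {x : B // x ^ p = 1} ≤ Nat.card {x : A // x ^ p = 1} := by
  have : Finite B := Finite.of_surjective φ hφ
  have key : ∀ (C : Type) [CommGroup C] [Finite C], Nat.card {x : C // x ^ p = 1} =
      (powMonoidHom p : C →* C).range.index := fun C _ _ => by
    have h1 := (powMonoidHom p : C →* C).ker.card_mul_index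
    rw [Subgroup.index_ker, ← (powMonoidHom p : C →* C).range.index_mul_card] at h1
    exact Nat.eq_of_mul_eq_mul_right Nat.card_pos h1
  have e : (powMonoidHom p : A →* A).range.map φ = (powMonoidHom p : B →* B).range :=
    Subgroup.ext fun y => ⟨by
      rintro ⟨_, ⟨x, rfl⟩, rfl⟩
      exact ⟨φ x, (map_pow φ x p).symm⟩, by
      rintro ⟨x, rfl⟩
      obtain ⟨x, rfl⟩ := hφ x
      exact ⟨_, ⟨x, rfl⟩, map_pow φ x p⟩⟩
  rw [key, key, ← e]
  exact Nat.le_of_dvd (Nat.pos_of_ne_zero Subgroup.index_ne_zero_of_finite)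
    (Subgroup.index_map_dvd _ hφ)

lemma abR_surj {A B : Type} [Group A] [Finite A] [Group B] (φ : A →* B)
    (hφ : Function.Surjective φ) {n : ℕ} (h : ∀ P : Subgroup A, IsPGroup p P → AbR p n P)
    (D : Subgroup B) (hD : IsPGroup p D) : AbR p n D := by
  have : Finite B := Finite.of_surjective φ hφ
  obtain ⟨P⟩ : Nonempty (Sylow p (D.comap φ)) := inferInstance
  have h1 := φ.subgroupComap_surjective_of_surjective D hφ
  have h2 : (P : Subgroup (D.comap φ)).map (φ.subgroupComap D) = ⊤ :=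
    ((P.mapSurjective h1).is_maximal' (hD.to_subgroup ⊤) le_top).symm
  have h3 := AbR.of_map (D.comap φ).subtype_injective (h _ (P.isPGroup'.map _))
  have h4 : Function.Surjective ((φ.subgroupComap D).comp (P : Subgroup (D.comap φ)).subtype) :=
    fun y => by
    obtain ⟨x, hx, e⟩ := h2.ge (Subgroup.mem_top y)
    exact ⟨⟨x, hx⟩, e⟩
  let _ : CommGroup (P : Subgroup (D.comap φ)) :=
    { mul_comm := fun x y => Subtype.ext (h3.1 _ x.2 _ y.2) }
  have h5 : ∀ x y : D, x * y = y * x := fun x y => by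
    obtain ⟨x, rfl⟩ := h4 x
    obtain ⟨y, rfl⟩ := h4 y
    rw [← map_mul, ← map_mul, mul_comm]
  let _ : CommGroup D := { mul_comm := h5 }
  exact ⟨fun x hx y hy => congrArg Subtype.val (h5 ⟨x, hx⟩ ⟨y, hy⟩), (om1_surj _ h4).trans h3.2⟩

theorem KR_abR {H : Type} [Group H] [Fintype H]
    (h : ∀ D : Subgroup H, IsPGroup p D → AbR p 2 D) : KR p H :=
  rel_bot.1 ((rel_iff _).2 ((AB_small bot_le fun D hD _ _ => h D hD).trans AB_top))

/-- The hypothesis holds if all non-abelian composition factors have small abelian Sylow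
subgroups. -/
theorem hyp_of_series [Finite G0] (r : ℕ) (s : ℕ → Subgroup G0)
    [∀ i, ((s i).subgroupOf (s (i + 1))).Normal] (h0 : s 0 = ⊥) (hr : s r = ⊤)
    (hs : ∀ i < r, s i ≤ s (i + 1) ∧
      (Group.IsSolvable (s (i + 1) ⧸ (s i).subgroupOf (s (i + 1))) ∨
      ∀ D : Subgroup (s (i + 1) ⧸ (s i).subgroupOf (s (i + 1))), IsPGroup p D → AbR p 2 D)) :
    Hyp p G0 := by
  intro H _ _ Z L _ a b hZ hZL hmin ⟨u, hu, v, hv, huv⟩ hg ha hb hab hsec
  have := hZ.normal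
  have hne : ¬ L ≤ Z := fun e => huv (cm_mem (e hu) (e hv))
  obtain ⟨i, hi, h⟩ := hsec.weak.series hZL hmin hne r s h0 hr fun i hi => (hs i hi).1
  obtain ⟨A, φ, hφ⟩ := sec_surj h
  rcases (hs i hi).2 with e | e
  · have := simple_of_min hZL hne hmin
    have e1 := IsSimpleGroup.comm_iff_isSolvable.2 (Group.isSolvable_of_surjective hφ)
      (QuotientGroup.mk ⟨u, hu⟩) (QuotientGroup.mk ⟨v, hv⟩)
    exact absurd ((QuotientGroup.eq_one_iff (N := Z.subgroupOf L) (cm ⟨u, hu⟩ ⟨v, hv⟩)).1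
      (cm_eq_one.2 e1)) huv
  refine KR_abR fun D hD => ?_
  have h1 : D ≤ L := fun g hg' => (pin_of_gen hg ha hb hab).2 g trivial
    ((hD ⟨g, hg'⟩).imp fun _ e => congrArg Subtype.val e)
  have h2 : Function.Injective ((QuotientGroup.mk' (Z.subgroupOf L)).comp
      (Subgroup.inclusion h1)) := (injective_iff_map_eq_one _).2 fun d hd => by
    obtain ⟨t, ht, hZ⟩ := hZ
    exact Subtype.ext (Subgroup.mem_bot.1 (mem_of_reg_pelt ⟨t, ht, (hZ _
      ((QuotientGroup.eq_one_iff (N := Z.subgroupOf L) (Subgroup.inclusion h1 d)).1 hd)).1⟩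
      ((hD d).imp fun _ e => congrArg Subtype.val e)))
  have h3 := AbR.map D.subtype_injective (AbR.of_map h2 (abR_surj φ hφ
    (fun P hP => AbR.of_map A.subtype_injective (e _ (hP.map _))) _ ((hD.to_subgroup ⊤).map _)))
  rwa [← MonoidHom.range_eq_map, Subgroup.range_subtype] at h3

lemma abR_of_card {Q : Type} [Group Q] [Finite Q] (h : ¬ p ^ 3 ∣ Nat.card Q) (D : Subgroup Q)
    (hD : IsPGroup p D) : AbR p 2 D := by
  have hp : p.Prime := Fact.out
  obtain ⟨k, hk⟩ := hD.exists_card_eq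
  have h1 : k ≤ 2 := by_contra fun e =>
    h ((pow_dvd_pow p (by omega)).trans (hk ▸ D.card_subgroup_dvd_card))
  refine ⟨fun x hx y hy => congrArg Subtype.val (?_ : (⟨x, hx⟩ : D) * ⟨y, hy⟩ = ⟨y, hy⟩ * ⟨x, hx⟩),
    Finite.card_subtype_le _ |>.trans (hk.trans_le (Nat.pow_le_pow_right hp.pos h1))⟩
  rcases h1.lt_or_eq with h2 | rfl
  · have := isCyclic_of_card_dvd_prime (α := D) (p := p)
      (hk ▸ (pow_dvd_pow p (by omega : k ≤ 1)).trans (pow_one p).dvd)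
    exact IsCyclic.isMulCommutative.is_comm.comm _ _
  · exact (IsPGroup.isMulCommutative_of_card_eq_prime_sq hk).is_comm.comm _ _

lemma abR_of_syl {Q : Type} [Group Q] [Finite Q] (S : Sylow p Q)
    (hc : ∀ x ∈ S.toSubgroup, ∀ y ∈ S.toSubgroup, x * y = y * x)
    (hn : Group.rank S.toSubgroup ≤ 2) (D : Subgroup Q) (hD : IsPGroup p D) : AbR p 2 D :=
  sub_of_sylow Fact.out (MonoidHom.id Q) Function.injective_id S hc hn D hD

end Pool.Agent.Lib.MP_b6945b_al.Ip
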