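import Pool.Agent.Lib.MP_b6945b_al.As.AClif
import Pool.Agent.Lib.MP_b6945b_al.As.AMom

set_option autoImplicit false

/-!
Passage to the stabiliser of a character.
-/

namespace Pool.Agent.Lib.MP_b6945b_al.Ip

open Finset

variable {G : Type} [Group G] [Fintype G] {p : ℕ} [Fact p.Prime] {N : Subgroup G} [N.Normal]
  [Fintype N]

omit [N.Normal] in
lemma s1_idem (I : IrrData N) (i : Fin I.n) :
    conv (ee I (· = i)) (ee I (· = i)) = (ee I (· = i) : G → ℂ) := by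
  rw [ee_mul]
  simp only [and_self]

/-- If `f` is invariant under conjugation by `N` then `conv e f` is fixed by `e` on both sides:
`conv_assoc'`, `conv_comm'`, `ee_mul`, `ee_supp`. -/
lemma conv_ee_fix (I : IrrData N) (i : Fin I.n) {f : G → ℂ}
    (hf : ∀ n ∈ N, ∀ x, f (n * x * n⁻¹) = f x) :
    conv (ee I (· = i)) (conv (ee I (· = i)) f) = conv (ee I (· = i)) f ∧
      conv (conv (ee I (· = i)) f) (ee I (· = i)) = conv (ee I (· = i)) f := by
  have h1 : conv (ee I (· = i)) (conv (ee I (· = i)) f) = conv (ee I (· = i)) f := by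
    rw [← conv_assoc', s1_idem]
  refine ⟨h1, ?_⟩
  rw [conv_assoc', ← conv_comm' (fun _ hx => ee_supp I _ hx) hf, h1]

omit [N.Normal] [Fintype N] in
lemma s1_tau {M : Subgroup G} (hle : N ≤ M) : ∀ n ∈ N, ∀ x, tau M (n * x * n⁻¹) = tau M x :=
  fun _ hn x => zeb_tau_conj (fun _ => by
    rw [M.mul_mem_cancel_right (M.inv_mem (hle hn)), M.mul_mem_cancel_left (hle hn)]) x

lemma s1_left (I : IrrData N) (i : Fin I.n) {g : G} (hg : g ∈ St I i) :
    conv (ee I (· = i)) (fun h => ee I (· = i) (g * h)) = fun h => ee I (· = i) (g * h) := by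
  funext x
  rw [← congrFun (s1_idem I i) (g * x), conv, conv, ← Equiv.sum_comp (MulAut.conj g).toEquiv
    fun y => ee I (· = i) y * ee I (· = i) (y⁻¹ * (g * x))]
  refine sum_congr rfl fun y _ => ?_
  change _ = ee I (· = i) (g * y * g⁻¹) * ee I (· = i) ((g * y * g⁻¹)⁻¹ * (g * x))
  rw [ee_conj I hg, show (g * y * g⁻¹)⁻¹ * (g * x) = g * (y⁻¹ * x) by group]

lemma s1_right (I : IrrData N) (i : Fin I.n) (g : G) :
    conv (fun h => ee I (· = i) (g * h)) (ee I (· = i)) = fun h => ee I (· = i) (g * h) := by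
  funext x
  rw [← congrFun (s1_idem I i) (g * x), conv, conv, ← Equiv.sum_comp (Equiv.mulLeft g)
    fun y => ee I (· = i) y * ee I (· = i) (y⁻¹ * (g * x))]
  refine sum_congr rfl fun y _ => ?_
  change _ = ee I (· = i) (g * y) * ee I (· = i) ((g * y)⁻¹ * (g * x))
  rw [show (g * y)⁻¹ * (g * x) = y⁻¹ * x by group]

omit [Fintype G] [Fintype N] in
lemma s1_mem {M : Subgroup G} (hle : N ≤ M) (x : G) :
    (x : G ⧸ N) ∈ M.map (QuotientGroup.mk' N) ↔ x ∈ M := by
  refine ⟨?_, fun h => ⟨x, h, rfl⟩⟩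
  rintro ⟨y, hy, e⟩
  have h := M.mul_mem hy (hle (QuotientGroup.eq.1 e))
  rwa [mul_inv_cancel_left] at h

/-- For `g ∉ St` both sides vanish (`conv_ee_fix`, `zeb_tau_conj`, `supp_St`).  For `g ∈ St` use
`conv_tau` and `sum_St` for `E h = e (g * h)` (`ee_conj`) with the weight
`[x ∈ M.map mk ∧ y ∈ M.map mk]`. -/
lemma ee_tau_stab (I : IrrData N) (i : Fin I.n) {M : Subgroup G} (hle : N ≤ M) :
    conv (ee I (· = i)) (tau M) = conv (ee I (· = i)) (tau (M ⊓ St I i)) := by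
  classical
  have hle' : N ≤ M ⊓ St I i := le_inf hle (le_St I i)
  funext g
  by_cases hg : g ∈ St I i
  · have h := sum_St I i (s1_left I i hg) (s1_right I i g) fun a b =>
      if a ∈ M.map (QuotientGroup.mk' N) ∧ b ∈ M.map (QuotientGroup.mk' N) then 1 else 0
    simp only [s1_mem hle, ite_mul, one_mul, zero_mul] at h
    rw [conv_tau, conv_tau]
    refine (sum_congr rfl fun x _ => sum_congr rfl fun y _ => ?_).trans
      (h.trans (sum_congr rfl fun x _ => sum_congr rfl fun y _ => ?_))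
    · split_ifs <;> rfl
    · simp only [Subgroup.mem_inf]
      by_cases h1 : x ∈ St I i ∧ y ∈ St I i
      · simp only [h1, and_self, if_true, and_true]
      · rw [if_neg h1, if_neg fun h2 => h1 ⟨h2.1.2, h2.2.2⟩]
  · rw [supp_St I i (conv_ee_fix I i (s1_tau hle)).1 (conv_ee_fix I i (s1_tau hle)).2 hg,
      supp_St I i (conv_ee_fix I i (s1_tau hle')).1 (conv_ee_fix I i (s1_tau hle')).2 hg]

lemma s1_cpow (I : IrrData N) (i : Fin I.n) {M : Subgroup G} (hle : N ≤ M) (m : ℕ) :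
    conv (ee I (· = i)) (cpow (tau M) m) = conv (ee I (· = i)) (cpow (tau (M ⊓ St I i)) m) := by
  have hc := conv_comm' (fun _ hx => ee_supp I (· = i) hx) (s1_tau (le_inf hle (le_St I i)))
  induction m with
  | zero => rfl
  | succ m ih =>
    rw [cpow, cpow, ← conv_assoc', ← conv_assoc', ee_tau_stab I i hle, hc, conv_assoc',
      conv_assoc', ih]

/-- Induction on the exponent for `cpow` (`e` commutes with both `tau`), then `EE_moment` with
`s = t = 1` and `α h = e (g * h⁻¹)` (`conv_eq_sum`). -/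
theorem ee_EE_stab (I : IrrData N) (i : Fin I.n) {M : Subgroup G} (hle : N ≤ M) :
    conv (ee I (· = i)) (EE p M) = conv (ee I (· = i)) (EE p (M ⊓ St I i)) := by
  funext g
  rw [conv_eq_sum, conv_eq_sum]
  have hp : ¬ p ∣ 1 := (Fact.out : p.Prime).not_dvd_one
  refine EE_moment M (M ⊓ St I i) (fun h => ee I (· = i) (g * h⁻¹))
    (fun h => ee I (· = i) (g * h⁻¹)) hp hp fun m => ?_
  rw [← conv_eq_sum, ← conv_eq_sum, s1_cpow I i hle]

omit [Fintype N] in
/-- The preimage of a cyclic group of order `p` of the quotient. -/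
lemma s2_fac {v : G} (hv : v ∉ N) (hvp : v ^ p ∈ N) :
    Fac p N ((Subgroup.zpowers (v : G ⧸ N)).comap (QuotientGroup.mk' N)) := by
  have h1 : (v : G ⧸ N) ≠ 1 := mt (QuotientGroup.eq_one_iff v).1 hv
  have h2 : (v : G ⧸ N) ^ p = 1 := chief_pow.1 hvp
  have hpow : ∀ w ∈ Subgroup.zpowers (v : G ⧸ N), w ^ p = 1 := by
    rintro _ ⟨k, rfl⟩
    change ((v : G ⧸ N) ^ k) ^ p = 1
    rw [← zpow_natCast, ← zpow_mul, mul_comm, zpow_mul, zpow_natCast, h2, one_zpow]
  refine ⟨fun n hn => ?_, fun h => hv (h (Subgroup.mem_zpowers (v : G ⧸ N))),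
    fun w hw => chief_pow.2 (hpow _ hw), fun a ha b hb => chief_mk.2 ?_, fun T _ hNT hT => ?_⟩
  · change (n : G ⧸ N) ∈ Subgroup.zpowers (v : G ⧸ N)
    rw [(QuotientGroup.eq_one_iff n).2 hn]
    exact one_mem _
  · obtain ⟨k, hk⟩ := Subgroup.mem_zpowers_iff.1 (Subgroup.mem_comap.1 ha)
    obtain ⟨l, hl⟩ := Subgroup.mem_zpowers_iff.1 (Subgroup.mem_comap.1 hb)
    rw [QuotientGroup.mk'_apply] at hk hl
    rw [← hk, ← hl]
    exact (Commute.zpow_zpow_self _ k l).eq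
  · by_cases h : T ≤ N
    · exact Or.inl (le_antisymm h hNT)
    refine Or.inr (le_antisymm hT fun w hw => ?_)
    obtain ⟨t, ht, htN⟩ := SetLike.not_le_iff_exists.1 h
    have h3 : (t : G ⧸ N) ∈ Subgroup.zpowers (v : G ⧸ N) := hT ht
    have h4 : Subgroup.zpowers (t : G ⧸ N) = Subgroup.zpowers (v : G ⧸ N) := by
      refine Subgroup.eq_of_le_of_card_ge (Subgroup.zpowers_le.2 h3) (le_of_eq ?_)
      rw [Nat.card_zpowers, Nat.card_zpowers, orderOf_eq_prime h2 h1,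
        orderOf_eq_prime (hpow _ h3) (mt (QuotientGroup.eq_one_iff t).1 htN)]
    have h5 : (w : G ⧸ N) ∈ Subgroup.zpowers (t : G ⧸ N) := h4 ▸ hw
    obtain ⟨k, hk⟩ := Subgroup.mem_zpowers_iff.1 h5
    rw [← QuotientGroup.mk_zpow, QuotientGroup.eq] at hk
    simpa using T.mul_mem (T.zpow_mem ht k) (hNT hk)

/-- `chief_center` and a power give `v ∈ U`, `v ∉ N`, `v ^ p ∈ N`, central modulo `N`; for
`V = N ⊔ zpowers v` one has `Fac p N V` and `U ≤ Nr V`; `EE_chief`, `ee_mul`, `EE_mul_EE`,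
`conv_assoc'`. -/
lemma ee_EE_zero (I : IrrData N) (i : Fin I.n) {U : Subgroup G} (hle : N ≤ U) (hne : ¬ U ≤ N)
    (hp : ∀ w ∈ U, ∃ j, w ^ p ^ j ∈ N) (hU : U ≤ St I i) (g : G) :
    conv (ee I (· = i)) (EE p U) g = 0 := by
  classical
  obtain ⟨v0, hv0, hv0N, hc⟩ := chief_center (p := p) hne hp
  obtain ⟨k, hk, hk'⟩ := Nat.exists_not_and_succ_of_not_zero_of_exists
    (p := fun k => v0 ^ p ^ k ∈ N) (by simpa using hv0N) (hp v0 hv0)
  rw [pow_succ, pow_mul] at hk'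
  have hvU : v0 ^ p ^ k ∈ U := U.pow_mem hv0 _
  have hcv : ∀ w ∈ U, Commute ((v0 ^ p ^ k : G) : G ⧸ N) (w : G ⧸ N) := fun w hw => by
    rw [QuotientGroup.mk_pow]
    exact Commute.pow_left (chief_mk.1 (hc w hw)) _
  generalize v0 ^ p ^ k = v at hk hk' hvU hcv
  have hVU : (Subgroup.zpowers (v : G ⧸ N)).comap (QuotientGroup.mk' N) ≤ U := fun w hw => by
    obtain ⟨l, hl⟩ := Subgroup.mem_zpowers_iff.1 (Subgroup.mem_comap.1 hw)
    rw [QuotientGroup.mk'_apply, ← QuotientGroup.mk_zpow, QuotientGroup.eq] at hl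
    simpa using U.mul_mem (U.zpow_mem hvU l) (hle hl)
  have hnr : U ≤ Nr ((Subgroup.zpowers (v : G ⧸ N)).comap (QuotientGroup.mk' N)) := by
    refine Subgroup.le_normalizer_iff.2 fun u hu w hw => ?_
    obtain ⟨l, hl⟩ := Subgroup.mem_zpowers_iff.1 (Subgroup.mem_comap.1 hw)
    rw [QuotientGroup.mk'_apply] at hl
    refine Subgroup.mem_comap.2 (Subgroup.mem_zpowers_iff.2 ⟨l, ?_⟩)
    rw [QuotientGroup.mk'_apply, QuotientGroup.mk_mul, QuotientGroup.mk_mul, QuotientGroup.mk_inv,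
      ← hl, ← ((hcv u hu).zpow_left l).eq, mul_inv_cancel_right]
  obtain ⟨S, hS, hS'⟩ := EE_chief (s2_fac hk hk') I
  rw [← EE_mul_EE hVU hnr, ← conv_assoc', hS, ee_mul]
  refine sum_eq_zero fun y _ => ?_
  rw [ee_sum, sum_eq_zero, zero_mul]
  intro j _
  rw [if_neg]
  rintro ⟨rfl, h⟩
  exact (hS' j).1 h (hVU.trans hU)

/-- `EE_split`, `ee_EE_stab`, `ee_EE_zero`, `EE_eq_ee`, `pc3_conv`, `ee_sum`. -/
theorem EE_pgroup (I : IrrData N) {W : Subgroup G} (hle : N ≤ W)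
    (hp : ∀ w ∈ W, ∃ j, w ^ p ^ j ∈ N) :
    EE p W = ee I fun i => Dz p I i ∧ W ⊓ St I i ≤ N := by
  classical
  funext g
  rw [EE_split hle I g, ee_sum]
  refine sum_congr rfl fun i _ => ?_
  have h0 : N ≤ W ⊓ St I i := le_inf hle (le_St I i)
  by_cases h1 : Dz p I i
  · rw [if_pos h1, ee_EE_stab I i hle]
    by_cases h2 : W ⊓ St I i ≤ N
    · rw [if_pos ⟨h1, h2⟩, le_antisymm h2 h0, EE_eq_ee I, pc3_conv I h1]
    · rw [if_neg fun e => h2 e.2]
      exact ee_EE_zero I i h0 h2 (fun w hw => hp w hw.1) inf_le_right g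
  · rw [if_neg h1, if_neg fun e => h1 e.1]

end Pool.Agent.Lib.MP_b6945b_al.Ip
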