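import Pool.Agent.Lib.MP_b6945b_al.As.ADefs

set_option autoImplicit false

/-!
The components of a non-abelian chief factor that is not simple.
-/

namespace Pool.Agent.Lib.MP_b6945b_al.Ip

section aux
variable {H : Type} [Group H] {Z L S : Subgroup H}

lemma tcg_cent {x u v : H} (h1 : ∀ g, g * cm x u = cm x u * g) (h2 : ∀ g, g * cm x v = cm x v * g) :
    x * cm u v = cm u v * x := by
  have e : x * cm u v * x⁻¹ = cm x u * (u * cm x v * (v * u⁻¹) * (cm x u)⁻¹) * v⁻¹ * (cm x v)⁻¹ := by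
    unfold cm; group
  rw [← mul_inv_eq_iff_eq_mul, e, ← mul_assoc (cm x u), ← h1, mul_inv_cancel_right, h2 u,
    mul_assoc (cm x v), mul_assoc (cm x v), ← h2, mul_inv_cancel_right]
  unfold cm; group

lemma tcg_nr [Finite H] {g : H} (h : ∀ s ∈ S, g * s * g⁻¹ ∈ S) : g ∈ Nr S :=
  Subgroup.mem_normalizer_fintype (S := (S : Set H)) h

lemma tcg_conj {g s : H} (h : g ∈ Nr S) (hs : s ∈ S) : g * s * g⁻¹ ∈ S :=
  (Subgroup.mem_normalizer_iff.1 h s).1 hs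

/-- The conjugate subgroup. -/
def tcgC (w : H) (S : Subgroup H) : Subgroup H := S.comap (MulAut.conj w⁻¹).toMonoidHom

lemma mem_tcgC {w x : H} : x ∈ tcgC w S ↔ w⁻¹ * x * w⁻¹⁻¹ ∈ S := Iff.rfl

lemma tcgC_nr [Finite H] [hL : L.Normal] (h : L ≤ Nr S) (w : H) : L ≤ Nr (tcgC w S) :=
  fun l hl => tcg_nr fun s hs => by
    have := tcg_conj (h (hL.conj_mem l hl w⁻¹)) (mem_tcgC.1 hs)
    rw [mem_tcgC]
    convert this using 1
    group

/-- Distinct conjugates commute modulo `Z`. -/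
lemma tcg_mod [Finite H] [L.Normal] [hZ : Z.Normal] (h1 : Z ≤ S) (h2 : S ≤ L) (h3 : L ≤ Nr S)
    (hS : ∀ T : Subgroup H, Z ≤ T → T ≤ S → L ≤ Nr T → T = Z ∨ T = S) {w : H} (hw : w ∉ Nr S)
    {x v : H} (hx : x ∈ tcgC w S) (hv : v ∈ S) : cm x v ∈ Z := by
  have hxL : x ∈ L := by
    have := ‹L.Normal›.conj_mem _ (h2 (mem_tcgC.1 hx)) w
    simpa [mul_assoc] using this
  have h4 := tcgC_nr h3 w
  rcases hS (S ⊓ tcgC w S) (le_inf h1 fun z hz => h1 (hZ.conj_mem z hz _)) inf_le_left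
    (fun l hl => nr_inf (h3 hl) (h4 hl)) with e | e
  · rw [← e]
    refine ⟨S.mul_mem (tcg_conj (h3 hxL) hv) (S.inv_mem hv), ?_⟩
    have := (tcgC w S).mul_mem hx (tcg_conj (h4 (h2 hv)) ((tcgC w S).inv_mem hx))
    simpa [cm, mul_assoc] using this
  · exact absurd (by simpa using (Nr S).inv_mem (tcg_nr fun s hs => (e.ge hs).2)) hw

end aux

theorem comp_struct {H : Type} [Group H] [Finite H] (Z L : Subgroup H) [L.Normal]
    (hZ : ∀ z ∈ Z, ∀ g, g * z = z * g) (hZL : Z ≤ L) (hab : ∀ x y : H, cm x y ∈ L)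
    (hmin : ∀ T : Subgroup H, T.Normal → Z ≤ T → T ≤ L → T = Z ∨ T = L)
    (hna : ∃ u ∈ L, ∃ v ∈ L, cm u v ∉ Z)
    (hns : ∃ T : Subgroup H, Z ≤ T ∧ T ≤ L ∧ L ≤ Nr T ∧ T ≠ Z ∧ T ≠ L) :
    ∃ H0 L0 : Subgroup H, H0.Normal ∧ L ≤ H0 ∧ H0 ≠ ⊤ ∧
      (∀ c, c ∉ H0 → ∀ h, ∃ i : ℕ, h * (c ^ i)⁻¹ ∈ H0) ∧ Z ≤ L0 ∧ L0 < L ∧ H0 ≤ Nr L0 ∧
      (∀ g, g ∉ H0 → ∀ u ∈ L0, ∀ v ∈ L0, Commute (g * u * g⁻¹) v) ∧
      (∀ T : Subgroup H, (∀ g, ∀ u ∈ L0, g * u * g⁻¹ ∈ T) → L ≤ T) ∧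
      ∀ v ∈ L, (∀ w ∈ L, w * v = v * w) → v ∈ Z := by
  have hL : L.Normal := inferInstance
  have hZn : Z.Normal := ⟨fun z hz g => by rwa [hZ z hz g, mul_inv_cancel_right]⟩
  obtain ⟨u0, hu0, v0, hv0, hna⟩ := hna
  have hC : ∀ v ∈ L, (∀ w ∈ L, cm v w ∈ Z) → v ∈ Z := fun v hv h => by
    rcases hmin (CV Z L ⊓ L) inferInstance (le_inf (le_CV Z L) hZL) inf_le_right with e | e
    · exact e.le ⟨h, hv⟩
    · exact absurd ((e.ge hu0).1 v0 hv0) hna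
  obtain ⟨S, ⟨h1, h2, h3, h4, h5⟩, hm⟩ := (wellFounded_lt (α := Subgroup H)).has_min
    {T | Z ≤ T ∧ T ≤ L ∧ L ≤ Nr T ∧ T ≠ Z ∧ T ≠ L} hns
  have hS : ∀ T : Subgroup H, Z ≤ T → T ≤ S → L ≤ Nr T → T = Z ∨ T = S := fun T a b c => by
    by_contra e
    rw [not_or] at e
    exact hm T ⟨a, b.trans h2, c, e.1, fun e' => h5 (le_antisymm h2 (e' ▸ b))⟩ (lt_of_le_of_ne b e.2)
  have hN : Nr S ≠ ⊤ := fun e =>
    (hmin S (Subgroup.normalizer_eq_top_iff.1 e) h1 h2).elim h4 h5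
  obtain ⟨H0, hc, hH⟩ := (eq_top_or_exists_le_coatom (Nr S)).resolve_left hN
  have hLH : L ≤ H0 := h3.trans hH
  have hH0 : H0.Normal := ⟨fun h hh g => by
    simpa [cm] using H0.mul_mem (hLH (hab g h)) hh⟩
  have hT : ∀ T : Subgroup H, (∀ g, ∀ u ∈ S, g * u * g⁻¹ ∈ T) → L ≤ T := fun T h => by
    rcases hmin (Subgroup.normalClosure (S : Set H)) inferInstance
      (h1.trans Subgroup.le_normalClosure) (Subgroup.normalClosure_le_normal h2) with e | e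
    · exact absurd (le_antisymm (Subgroup.le_normalClosure.trans e.le) h1) h4
    · rw [← e, Subgroup.normalClosure, Subgroup.closure_le]
      intro x hx
      obtain ⟨s, hs, e'⟩ := Group.mem_conjugatesOfSet_iff.1 hx
      obtain ⟨c, rfl⟩ := isConj_iff.1 e'
      exact h c s hs
  have hcj : ∀ w, ∀ u ∈ S, w * u * w⁻¹ ∈ tcgC w S := fun w u hu => by
    simpa [mem_tcgC, mul_assoc] using hu
  have hex : ∀ w, w ∉ Nr S → ∀ u ∈ S, ∀ v ∈ S, Commute (w * u * w⁻¹) v := fun w hw => by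
    rcases hS (S ⊓ Cr (tcgC w S)) (le_inf h1 fun z hz g _ => hZ z hz g) inf_le_left
      (fun l hl => nr_inf (h3 hl) (nr_cr (tcgC_nr h3 w hl))) with e | e
    · have k1 : ∀ u ∈ S, ∀ v ∈ S, cm u v ∈ Z := fun u hu v hv => e.le ⟨cm_mem hu hv, fun x hx =>
        tcg_cent (hZ _ (tcg_mod h1 h2 h3 hS hw hx hu)) (hZ _ (tcg_mod h1 h2 h3 hS hw hx hv))⟩
      have k2 : L ≤ CV Z S := hT _ fun g u hu v hv => by
        by_cases hg : g ∈ Nr S
        · exact k1 _ (tcg_conj hg hu) v hv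
        · exact tcg_mod h1 h2 h3 hS hg (hcj g u hu) hv
      exact absurd (le_antisymm (fun v hv => hC v (h2 hv) fun x hx =>
        cm_inv x v ▸ Z.inv_mem (k2 hx v hv)) h1) h4
    · exact fun u hu v hv => (e.ge hv).2 _ (hcj w u hu)
  set L0 := Subgroup.closure {x | ∃ h ∈ H0, ∃ s ∈ S, x = h * s * h⁻¹} with hL0
  have hS0 : S ≤ L0 := fun s hs => Subgroup.subset_closure ⟨1, H0.one_mem, s, hs, by simp⟩
  have h0L : L0 ≤ L := (Subgroup.closure_le _).2 (by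
    rintro _ ⟨h, -, s, hs, rfl⟩
    exact hL.conj_mem s (h2 hs) h)
  have hcom : ∀ g, g ∉ H0 → ∀ u ∈ L0, ∀ v ∈ L0, Commute (g * u * g⁻¹) v := fun g hg u hu => by
    refine fun v hv => (Subgroup.mem_centralizer_singleton_iff.1 ((Subgroup.closure_le
      (Subgroup.centralizer {g * u * g⁻¹})).2 ?_ hv)).symm
    rintro _ ⟨h', hh', s', hs', rfl⟩
    refine Subgroup.mem_centralizer_singleton_iff.2 (Subgroup.mem_centralizer_singleton_iff.1
      ((Subgroup.closure_le ((Subgroup.centralizer {h' * s' * h'⁻¹}).comap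
        (MulAut.conj g).toMonoidHom)).2 ?_ hu)).symm
    rintro _ ⟨h, hh, s, hs, rfl⟩
    have k := hex (h'⁻¹ * g * h) (fun e => hg (by
      simpa [mul_assoc] using H0.mul_mem (H0.mul_mem hh' (hH e)) (H0.inv_mem hh))) s hs s' hs'
    refine Subgroup.mem_centralizer_singleton_iff.2 ?_
    have k' := congrArg (fun t => h' * t * h'⁻¹) k.eq
    simpa [mul_assoc] using k'
  refine ⟨H0, L0, hH0, hLH, hc.1, fun c hc' h => ?_, h1.trans hS0, lt_of_le_of_ne h0L fun e => ?_,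
    fun h hh => tcg_nr fun s hs => ?_, hcom, fun T h => hT T fun g u hu => h g u (hS0 hu),
    fun v hv h => hC v hv fun w hw => by rw [cm_eq_one.2 (h w hw).symm]; exact Z.one_mem⟩
  · have k : h ∈ ((H0 ⊔ Subgroup.zpowers c : Subgroup H) : Set H) := by
      rw [hc.2 _ (lt_of_le_of_ne le_sup_left fun e => hc' (e.ge (Subgroup.mem_sup_right
        (Subgroup.mem_zpowers c))))]
      trivial
    rw [Subgroup.normal_mul] at k
    obtain ⟨x, hx, y, hy, rfl⟩ := k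
    obtain ⟨i, rfl⟩ := mem_powers_iff_mem_zpowers.2 hy
    exact ⟨i, by simpa using hx⟩
  · obtain ⟨g, hg⟩ : ∃ g, g ∉ H0 := by
      by_contra! k
      exact hc.1 (eq_top_iff.2 fun g _ => k g)
    have k := hcom g hg _ (e.ge (hL.conj_mem u0 hu0 g⁻¹)) v0 (e.ge hv0)
    refine hna ?_
    rw [cm_eq_one.2 (by simpa [mul_assoc] using k.eq)]
    exact Z.one_mem
  · refine (Subgroup.closure_le (L0.comap (MulAut.conj h).toMonoidHom)).2 ?_ hs
    rintro _ ⟨h', hh', s', hs', rfl⟩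
    exact Subgroup.subset_closure ⟨h * h', H0.mul_mem hh hh', s', hs', by simp [mul_assoc]⟩

end Pool.Agent.Lib.MP_b6945b_al.Ip
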