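import Pool.Agent.Lib.MP_b6945b_al.As.TQuo

set_option autoImplicit false

/-!
Nielsen moves for the twisted contribution.
-/

namespace Pool.Agent.Lib.MP_b6945b_al.Ip

open Finset

/-- Euclid: by strong induction on `|i|` (or `Int.gcd.induction`) move to a matrix with `i = 0`,
keeping the determinant (`h1` can be iterated and inverted: `Φ i j (k + q * i) (l + q * j)`;
conjugating with `h2` gives the same for the first row).  For rows `(0, j)`, `(k, l)`:
`- j * k ≡ 1`; add `- k * (1 - l)` times the first row to the second: `(0, j)`, `(k, 1)` by `h3`;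
subtract `j` times the second row from the first: `(1, 0)`, `(k, 1)` by `h3`; subtract `k` times
the first row from the second. -/
theorem sl2_moves {X : Type} (m : ℕ) (Φ : ℤ → ℤ → ℤ → ℤ → X)
    (h1 : ∀ i j k l, Φ i j (k + i) (l + j) = Φ i j k l)
    (h2 : ∀ i j k l, Φ (-k) (-l) i j = Φ i j k l)
    (h3 : ∀ i j k l i' j' k' l', i ≡ i' [ZMOD m] → j ≡ j' [ZMOD m] → k ≡ k' [ZMOD m] →
      l ≡ l' [ZMOD m] → Φ i j k l = Φ i' j' k' l')
    (i j k l : ℤ) (h : i * l - j * k ≡ 1 [ZMOD m]) : Φ i j k l = Φ 1 0 0 1 := by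
  have a2 : ∀ q i j k l, Φ i j (k + q * i) (l + q * j) = Φ i j k l := by
    intro q i j k l
    induction q using Int.induction_on with
    | zero => simp
    | succ q ih => rw [add_mul, add_mul, one_mul, one_mul, ← add_assoc, ← add_assoc, h1, ih]
    | pred q ih =>
      rw [← h1, ← ih]
      congr 1 <;> ring
  have a1 : ∀ q i j k l, Φ (i + q * k) (j + q * l) k l = Φ i j k l := fun q i j k l => by
    rw [← h2, ← h2 i, ← a2 (-q) (-k) (-l) i j, neg_mul_neg, neg_mul_neg]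
  induction hn : i.natAbs using Nat.strong_induction_on generalizing i j k l with
  | _ n ih =>
    by_cases c : i = 0
    · subst c
      have e1 : l + -k * (1 - l) * j ≡ 1 [ZMOD m] := by
        have := (h.mul_right (1 - l)).add_left l
        rwa [show l + (0 * l - j * k) * (1 - l) = l + -k * (1 - l) * j by ring,
          show l + 1 * (1 - l) = 1 by ring] at this
      have e2 : 0 + -j * k ≡ 1 [ZMOD m] := by
        rwa [show 0 * l - j * k = 0 + -j * k by ring] at h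
      rw [← a2 (-k * (1 - l)), h3 _ _ _ _ 0 j k 1 rfl rfl (by simp) e1, ← a1 (-j),
        h3 _ _ _ _ 1 0 k 1 e2 (by simp) rfl rfl, ← a2 (-k)]
      simp
    · rw [← a2 (-(k / i)), ← h2]
      refine ih _ ?_ _ _ _ _ ?_ rfl
      · rw [← hn, Int.natAbs_neg, show k + -(k / i) * i = k % i by rw [Int.emod_def]; ring]
        exact Int.natAbs_lt_natAbs_of_nonneg_of_lt (Int.emod_nonneg _ c)
          (Int.emod_lt_abs _ c) |>.trans_eq (Int.natAbs_abs i)
      · rwa [show -(k + -(k / i) * i) * j - -(l + -(k / i) * j) * i = i * l - j * k by ring]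

variable {G : Type} [Group G] [Fintype G] {p : ℕ}

lemma eK_congr {K K' : Set G} {L : Subgroup G} (h : ∀ P ≤ L, K ⊆ Nr P ↔ K' ⊆ Nr P) :
    eK p K L = eK p K' L := by
  classical
  rw [eK_eq_sum, eK_eq_sum]
  refine sum_congr rfl fun Q _ => if_ctx_congr (and_congr_left fun e => and_congr_right fun _ =>
    h Q e) (fun e => mu_congr fun P hP => h P (hP.trans e.2)) fun _ => rfl

lemma tz_move1 (L : Subgroup G) (d x y : G) : tz p L d x (y * x) = tz p L d x y := by
  have e : cm x (y * x) = cm x y := by unfold cm; group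
  rw [tz, tz, e, eK_congr (K' := {x, y}) fun P _ => ?_]
  simp only [Set.insert_subset_iff, Set.singleton_subset_iff, SetLike.mem_coe]
  exact and_congr_right fun hx => (Nr P).mul_mem_cancel_right hx

lemma tz_move2 (L : Subgroup G) [hL : L.Normal] {d : G} (hd : ∀ g, g * d = d * g) (x y : G) :
    tz p L d y⁻¹ x = tz p L d x y := by
  have e : cm y⁻¹ x = y⁻¹ * cm x y * y⁻¹⁻¹ := by unfold cm; group
  have e1 : cm y⁻¹ x * d⁻¹ = y⁻¹ * (cm x y * d⁻¹) * y⁻¹⁻¹ := by
    have h : y * d⁻¹ = d⁻¹ * y := (Commute.inv_right (hd y)).eq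
    rw [e, inv_inv, mul_assoc _ y, h, ← mul_assoc, mul_assoc y⁻¹]
  have e2 : cm y⁻¹ x = d ↔ cm x y = d := by
    rw [← mul_inv_eq_one, e1, conj_eq_one_iff, mul_inv_eq_one]
  have e3 : eK p {y⁻¹, x} L = eK p {x, y} L := eK_congr fun P _ => by
    simp only [Set.insert_subset_iff, Set.singleton_subset_iff, SetLike.mem_coe, inv_mem_iff]
    exact and_comm
  rw [tz, tz, e1, EE_conj (H := L) (fun v => (zeb_N L _ v).symm), e3]
  by_cases h : cm x y = d
  · rw [if_pos h, if_pos (e2.2 h)]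
  · rw [if_neg h, if_neg (mt e2.1 h)]

/-- `sl2_moves` for `Φ i j k l = CS L t (a ^ i * b ^ j) (a ^ k * b ^ l)`: `CS_move1`, `CS_move2`
(PNiel), `CS_coset`; compute in `G ⧸ L`, where the images of `a`, `b` commute. -/
theorem CS_sl2 {L : Subgroup G} [L.Normal] (t : G → G → ℂ) (h1 : ∀ x y, t x (y * x) = t x y)
    (h2 : ∀ x y, t y⁻¹ x = t x y) {a b : G} {m : ℕ} (ha : a ^ m ∈ L) (hb : b ^ m ∈ L)
    (hab : cm a b ∈ L) {x y : G} {i j k l : ℤ} (hx : x * (a ^ i * b ^ j)⁻¹ ∈ L)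
    (hy : y * (a ^ k * b ^ l)⁻¹ ∈ L) (h : i * l - j * k ≡ 1 [ZMOD m]) :
    CS L t x y = CS L t a b := by
  have q : ∀ u v : G, u * v⁻¹ ∈ L ↔ (u : G ⧸ L) = v := fun u v => by
    rw [← QuotientGroup.eq_one_iff, QuotientGroup.mk_mul, QuotientGroup.mk_inv, mul_inv_eq_one]
  have hc : Commute (a : G ⧸ L) b := by
    have e : a * b * (b * a)⁻¹ = cm a b := by unfold cm; group
    exact (q (a * b) (b * a)).1 (e ▸ hab)
  have w : ∀ i j : ℤ, ((a ^ i * b ^ j : G) : G ⧸ L) = (a : G ⧸ L) ^ i * (b : G ⧸ L) ^ j :=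
    fun i j => rfl
  have z : ∀ {u : G}, u ^ m ∈ L → ∀ {i i' : ℤ}, i ≡ i' [ZMOD m] →
      (u : G ⧸ L) ^ i = (u : G ⧸ L) ^ i' := fun {u} hu {i i'} e => by
    have e1 : (u : G ⧸ L) ^ (m : ℤ) = 1 := by
      rw [zpow_natCast, ← QuotientGroup.mk_pow, QuotientGroup.eq_one_iff]
      exact hu
    rw [zpow_eq_zpow_emod i e1, zpow_eq_zpow_emod i' e1, e]
  have key := sl2_moves m (fun i j k l => CS L t (a ^ i * b ^ j) (a ^ k * b ^ l))
    (fun i j k l => ?_) (fun i j k l => ?_) (fun i j k l i' j' k' l' e1 e2 e3 e4 => ?_) i j k l h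
  · rw [CS_coset t hx hy, key, zpow_one, zpow_zero, mul_one, zpow_zero, zpow_one, one_mul]
  · rw [← CS_move1 t h1 (a ^ i * b ^ j) (a ^ k * b ^ l)]
    refine CS_coset t (by rw [mul_inv_cancel]; exact L.one_mem) ((q _ _).2 ?_)
    rw [QuotientGroup.mk_mul _ (a ^ k * b ^ l), w, w, w, zpow_add, zpow_add]
    exact (hc.zpow_zpow i l).mul_mul_mul_comm _ _
  · rw [← CS_move2 t h2 (a ^ i * b ^ j) (a ^ k * b ^ l)]
    refine CS_coset t ((q _ _).2 ?_) (by rw [mul_inv_cancel]; exact L.one_mem)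
    rw [QuotientGroup.mk_inv, w, w, (hc.zpow_zpow k l).eq, mul_inv_rev, zpow_neg, zpow_neg]
  · exact CS_coset t ((q _ _).2 (by rw [w, w, z ha e1, z hb e2]))
      ((q _ _).2 (by rw [w, w, z ha e3, z hb e4]))

/-- `∑ x, ∑ y, CS L t x y` is `|L| ^ 2` times the total sum (as in `sum_avg`, PInt) and is a
positive natural multiple of `CS L t a b`. -/
theorem CS_of_total (L : Subgroup G) (t : G → G → ℂ) (a b : G)
    (h : ∀ x y, CS L t x y = 0 ∨ CS L t x y = CS L t a b) (h0 : ∑ x, ∑ y, t x y = 0) :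
    CS L t a b = 0 := by
  classical
  have h1 : ∀ x : G, ∑ u : G, (if x * u⁻¹ ∈ L then (1 : ℂ) else 0) =
      (univ.filter fun u : G => u ∈ L).card := fun x => by
    rw [← Equiv.sum_comp ((Equiv.inv G).trans (Equiv.mulRight x)), card_filter]
    push_cast
    refine sum_congr rfl fun u _ => if_congr ?_ rfl rfl
    simp
  have h2 : ∑ u, ∑ v, CS L t u v = 0 := by
    have e : ∀ u v x y : G, (if x * u⁻¹ ∈ L ∧ y * v⁻¹ ∈ L then t x y else 0) =
        t x y * ((if x * u⁻¹ ∈ L then (1 : ℂ) else 0) * if y * v⁻¹ ∈ L then (1 : ℂ) else 0) :=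
      fun u v x y => by
        by_cases e1 : x * u⁻¹ ∈ L <;> by_cases e2 : y * v⁻¹ ∈ L <;> simp [e1, e2]
    simp only [CS, e]
    rw [sum_congr rfl fun u _ => sum_comm, sum_comm]
    rw [sum_congr rfl fun x _ => (sum_congr rfl fun u _ => sum_comm).trans sum_comm]
    simp only [← mul_sum, ← sum_mul, h1, h0, zero_mul]
  by_contra hne
  have h3 : ∑ u, ∑ v, CS L t u v =
      ((univ.filter fun w : G × G => CS L t w.1 w.2 ≠ 0).card : ℂ) * CS L t a b := by
    rw [← Fintype.sum_prod_type', card_filter]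
    push_cast
    rw [sum_mul]
    refine sum_congr rfl fun w _ => ?_
    by_cases e : CS L t w.1 w.2 = 0
    · rw [if_neg (not_not.2 e), zero_mul, e]
    · rw [if_pos e, one_mul, (h w.1 w.2).resolve_left e]
  rw [h2] at h3
  refine hne ((mul_eq_zero.1 h3.symm).resolve_left (Nat.cast_ne_zero.2 ?_))
  exact card_ne_zero.2 ⟨(a, b), mem_filter.2 ⟨mem_univ _, hne⟩⟩

end Pool.Agent.Lib.MP_b6945b_al.Ip
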