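import Pool.Agent.Lib.MP_b6945b_al.As.TCB
import Pool.Agent.Lib.MP_b6945b_al.As.TCGrp
import Pool.Agent.Lib.MP_b6945b_al.As.TNie

set_option autoImplicit false

/-!
The twisted sum of a non-abelian chief factor that is not simple.
-/

namespace Pool.Agent.Lib.MP_b6945b_al.Ip

section aux
variable {H : Type} [Group H]

/-- The product of commuting conjugates. -/
lemma tcf_phi {U : Subgroup H} {a : H} {r : ℕ} (hc : ∀ i j : Fin r, i ≠ j → ∀ u v : U,
    Commute (a ^ (i : ℕ) * u * (a ^ (i : ℕ))⁻¹) (a ^ (j : ℕ) * v * (a ^ (j : ℕ))⁻¹)) :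
    ∃ φ : (Fin r → U) →* H, (∀ i u, φ (Pi.mulSingle i u) = a ^ (i : ℕ) * u * (a ^ (i : ℕ))⁻¹) ∧
      ∀ n, φ n = (List.ofFn fun i : Fin r => a ^ (i : ℕ) * n i * (a ^ (i : ℕ))⁻¹).prod := by
  refine ⟨MonoidHom.noncommPiCoprod (N := fun _ : Fin r => U)
    (fun i => (MulAut.conj (a ^ (i : ℕ))).toMonoidHom.comp U.subtype) hc, fun i u =>
      by rw [MonoidHom.noncommPiCoprod_mulSingle]; rfl, fun n => ?_⟩
  rw [MonoidHom.noncommPiCoprod_apply, Finset.noncommProd_congr (List.toFinset_finRange r).symm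
    (fun _ _ => rfl), Finset.noncommProd_toFinset _ _ _ (List.nodup_finRange r), List.ofFn_eq_map]
  rfl

/-- The twisted shift. -/
def tcfS {U : Type} [Group U] {s : ℕ} (α : U ≃* U) : (Fin (s + 1) → U) →* (Fin (s + 1) → U) :=
  MonoidHom.mk' (fun n => Fin.cons (α (n (Fin.last s))) (Fin.init n)) fun n m => by
    funext i
    refine Fin.cases ?_ (fun j => ?_) i <;> simp [Fin.init]

lemma tcfS_last {U : Type} [Group U] {s : ℕ} (α : U ≃* U) (u : U) :
    tcfS α (Pi.mulSingle (Fin.last s) u) = Pi.mulSingle 0 (α u) := by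
  funext i
  refine Fin.cases ?_ (fun j => ?_) i <;>
    simp [tcfS, Fin.init, Fin.castSucc_ne_last]

lemma tcfS_cast {U : Type} [Group U] {s : ℕ} (α : U ≃* U) (k : Fin s) (u : U) :
    tcfS α (Pi.mulSingle k.castSucc u) = Pi.mulSingle k.succ u := by
  funext i
  refine Fin.cases ?_ (fun j => ?_) i <;>
    simp [tcfS, Fin.init, Pi.mulSingle_apply, (Fin.castSucc_ne_last k).symm,
      (Fin.succ_ne_zero k).symm]

lemma tcf_cons {U : Type} [Group U] {s : ℕ} (u : U) :
    (Fin.cons u 1 : Fin (s + 1) → U) = Pi.mulSingle 0 u := by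
  funext i
  refine Fin.cases ?_ (fun j => ?_) i <;> simp

lemma tcf_aut (U : Subgroup H) {g : H} (hg : g ∈ Nr U) :
    ∃ α : U ≃* U, ∀ u : U, g * u * g⁻¹ = α u := ⟨U.normalizerMonoidHom ⟨g, hg⟩, fun _ => rfl⟩

end aux

theorem tz_comp {p : ℕ} (hp : p.Prime) {H : Type} [Group H] [Fintype H] (Z L : Subgroup H)
    [L.Normal] {a b d : H} (hZ : CenP p Z) (hZL : Z ≤ L) (hd : d ∈ Z) (hg : gen a b L = ⊤)
    (ha : Reg p L a) (hb : Reg p L b) (hab : cm a b ∈ L)
    (hmin : ∀ T : Subgroup H, T.Normal → Z ≤ T → T ≤ L → T = Z ∨ T = L)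
    (hna : ∃ u ∈ L, ∃ v ∈ L, cm u v ∉ Z)
    (hns : ∃ T : Subgroup H, Z ≤ T ∧ T ≤ L ∧ L ≤ Nr T ∧ T ≠ Z ∧ T ≠ L)
    (vih : ∀ (L0 : Subgroup H) (x y e : H), Z ≤ L0 → L0 < L → x ∈ Nr L0 → y ∈ Nr L0 →
      e ∈ Cr L0 → cm x y * e⁻¹ ∈ L0 → Reg p (L0 ⊔ Cr L0) x → Reg p (L0 ⊔ Cr L0) y →
      CS L0 (tz p L0 e) x y = 0) :
    CS L (tz p L d) a b = 0 := by
  have : Fact p.Prime := ⟨hp⟩
  have hL : L.Normal := inferInstance
  have hZn := hZ.normal
  have hZc : ∀ z ∈ Z, ∀ g, g * z = z * g := by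
    obtain ⟨t, -, h⟩ := hZ
    exact fun z hz => (h z hz).2
  have hall : ∀ x y : H, cm x y ∈ L := fun x y =>
    mid_comm hab x (hg ▸ trivial) y (hg ▸ trivial)
  have hreg : ∀ g, Reg p L g := fun g => reg_gen hab ha hb (hg ▸ trivial)
  obtain ⟨H0, U, hH0, hLH, hne, hcyc, hZU, hlt, hN, hcom, hT, hcen⟩ :=
    comp_struct Z L hZc hZL hall hmin hna hns
  let _ : Fintype U := Fintype.ofFinite _
  have hcr : ∀ g, g ∉ H0 → ∀ u ∈ U, g * u * g⁻¹ ∈ Cr U := fun g hg u hu v hv =>
    (hcom g hg u hu v hv).symm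
  have hreg' : ∀ g, Reg p (U ⊔ Cr U) g := fun g => (hreg g).imp fun m h => ⟨h.1, hT _ (fun g u hu => by
    by_cases e : g ∈ H0
    · exact Subgroup.mem_sup_left (tcg_conj (hN e) hu)
    · exact Subgroup.mem_sup_right (hcr g e u hu)) h.2⟩
  have main : ∀ a b, b ∈ H0 → gen a b L = ⊤ → CS L (tz p L d) a b = 0 := fun a b hbH hg => by
    have haH : a ∉ H0 := fun e => hne (eq_top_iff.2 (hg ▸ gen_le.2 ⟨e, hbH, hLH⟩))
    obtain ⟨s, hs⟩ := Nat.exists_eq_succ_of_ne_zero (orderOf_pos (a : H ⧸ H0)).ne'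
    have q : ∀ x y : H, x⁻¹ * y ∈ H0 ↔ (x : H ⧸ H0) = y := fun _ _ => QuotientGroup.eq.symm
    have hne' : ∀ i ≤ s, ∀ j ≤ s, (a ^ j)⁻¹ * a ^ i ∈ H0 → j = i := fun i hi j hj e => by
      rw [q, QuotientGroup.mk_pow, QuotientGroup.mk_pow] at e
      exact pow_injOn_Iio_orderOf (by rw [hs]; exact Nat.lt_succ_of_le hj)
        (by rw [hs]; exact Nat.lt_succ_of_le hi) e
    have hr : a ^ (s + 1) ∈ H0 := by
      rw [← QuotientGroup.eq_one_iff, QuotientGroup.mk_pow, ← Nat.succ_eq_add_one, ← hs,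
        pow_orderOf_eq_one]
    have hout : ∀ i < s, a ^ (i + 1) ∉ H0 := fun i hi e =>
      absurd (hne' (i + 1) hi 0 (Nat.zero_le s) (by simpa using e)) (by omega)
    obtain ⟨φ, h1, h2⟩ := tcf_phi (U := U) (a := a) (r := s + 1) fun i j hij u v => by
      have k := hcom _ (fun e => hij (Fin.ext (hne' i i.is_le j j.is_le e).symm)) u u.2 v v.2
      have k' := congrArg (fun t => a ^ (j : ℕ) * t * (a ^ (j : ℕ))⁻¹) k.eq
      simpa [mul_assoc, commute_iff_eq] using k'
    have hin : ∀ T : Subgroup H, T.Normal → ∀ n : Fin (s + 1) → U, (∀ i, (n i : H) ∈ T) →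
        φ n ∈ T := fun T hT n hn => by
      rw [h2]
      refine T.list_prod_mem fun x hx => ?_
      obtain ⟨i, rfl⟩ := (List.mem_ofFn' _ _).1 hx
      exact hT.conj_mem _ (hn i) _
    have hrg : φ.range = L := le_antisymm (by
      rintro _ ⟨n, rfl⟩
      exact hin L hL n fun i => hlt.le (n i).2) (hT _ fun g u hu => by
        obtain ⟨i, hi⟩ := hcyc a haH g
        have k : (a ^ (i % (s + 1)))⁻¹ * g ∈ H0 := by
          rw [q, QuotientGroup.mk_pow, ← Nat.succ_eq_add_one, ← hs, pow_mod_orderOf,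
            ← QuotientGroup.mk_pow, ← q]
          exact hH0.mem_comm hi
        refine ⟨Pi.mulSingle ⟨i % (s + 1), Nat.mod_lt _ s.succ_pos⟩ ⟨_, tcg_conj (hN k) hu⟩, ?_⟩
        rw [h1]
        simp [mul_assoc])
    have hk : ∀ n, φ n ∈ Z ↔ ∀ i, U.subtype (n i) ∈ Z := fun n => ⟨fun h i => by
      have k : φ (Pi.mulSingle i (n i)) ∈ Z := hcen _ (hrg ▸ ⟨_, rfl⟩) fun w hw => by
        obtain ⟨m, rfl⟩ : w ∈ φ.range := hrg ▸ hw
        have e : cm m (Pi.mulSingle i (n i)) = cm (Pi.mulSingle i (m i)) n := by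
          funext j
          by_cases e : j = i
          · subst e
            simp [cm]
          · simp [cm, e]
        have e' := congrArg φ e
        simp only [cm, map_mul, map_inv] at e'
        exact cm_eq_one.1 (e'.trans (cm_eq_one.2 (hZc _ h _)))
      rw [h1] at k
      simpa [mul_assoc] using hZn.conj_mem _ k (a ^ (i : ℕ))⁻¹, hin Z hZn n⟩
    obtain ⟨α, hα⟩ := tcf_aut U (hN hr)
    have hφa : ∀ n, a * φ n * a⁻¹ = φ (Fin.cons (α (n (Fin.last s))) (Fin.init n)) := fun n => by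
      refine DFunLike.congr_fun (MonoidHom.pi_ext (f := (MulAut.conj a).toMonoidHom.comp φ)
        (g := φ.comp (tcfS α)) fun i u => ?_) n
      change a * φ _ * a⁻¹ = φ (tcfS α _)
      refine Fin.lastCases ?_ (fun k => ?_) i
      · rw [tcfS_last, h1, h1, ← hα]
        simp [pow_succ', mul_assoc]
      · rw [tcfS_cast, h1, h1]
        simp [pow_succ', mul_assoc]
    have key : ∀ b ∈ H0, ∀ c : U, cm a b = c * d → CS L (tz p L d) a b = 0 := fun b hbH c hc => by
      obtain ⟨β, hβ⟩ := tcf_aut U (hN hbH)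
      have hcd : ∀ g, g ∉ H0 → g * cm a b * g⁻¹ ∈ Cr U := fun g hg => by
        rw [hc, ← mul_assoc, mul_assoc _ d, ← hZc d hd, ← mul_assoc]
        exact (Cr U).mul_mem (hcr g hg c c.2) fun v _ => hZc d hd v
      have hw : ∀ i ≤ s, (a ^ i)⁻¹ * b * a ^ i * b⁻¹ ∈ Cr U := fun i => by
        induction i with
        | zero => simp
        | succ i ih =>
          intro hi
          have k := (Cr U).mul_mem ((Cr U).inv_mem (hcd (a ^ (i + 1))⁻¹
            fun e => hout i hi (H0.inv_mem_iff.1 e))) (ih (by omega))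
          convert k using 1
          unfold cm
          group
      have he : ∀ i ≤ s, (c : H)⁻¹ * cm (a ^ (i + 1)) b ∈ Cr U := fun i => by
        induction i with
        | zero =>
          intro _
          rw [zero_add, pow_one, hc, inv_mul_cancel_left]
          exact fun v _ => hZc d hd v
        | succ i ih =>
          intro hi
          have k := hcd _ (hout i hi)
          have k' := (Cr U).mul_mem k (ih (by omega))
          rw [← mul_assoc, ← k _ (U.inv_mem c.2)] at k'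
          convert k' using 1
          unfold cm
          group
      rw [← hrg]
      refine tz_abs U.subtype U.subtype_injective φ hZ hd α β c
        (e := (c : H)⁻¹ * cm (a ^ (s + 1)) b) (x0 := a ^ (s + 1))
        (fun u => by rw [tcf_cons, h1]; simp) hk (fun n hn => U.subtype_injective ?_) hφa
        (fun n => ?_) hα hc (mul_inv_cancel_left _ _).symm (fun u => he s le_rfl u u.2) ?_
      · rw [map_list_prod, List.map_ofFn, map_one, ← hn, h2]
        refine congrArg (fun f => (List.ofFn f).prod) (funext fun i => ?_)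
        exact eq_mul_inv_of_mul_eq (hZc _ ((hk n).1 (hn ▸ Z.one_mem) i) _).symm
      · refine DFunLike.congr_fun (MonoidHom.pi_ext (f := (MulAut.conj b).toMonoidHom.comp φ)
          (g := φ.comp (MonoidHom.compLeft β.toMonoidHom _)) fun i u => ?_) n
        have e : MonoidHom.compLeft β.toMonoidHom (Fin (s + 1)) (Pi.mulSingle i u) =
            Pi.mulSingle i (β u) := by
          funext j
          by_cases e : j = i
          · subst e
            simp
          · simp [e]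
        change b * φ _ * b⁻¹ = φ (MonoidHom.compLeft β.toMonoidHom _ _)
        have k := congrArg (fun t => a ^ (i : ℕ) * t * b * (a ^ (i : ℕ))⁻¹ * b⁻¹)
          (hw i i.is_le _ (β u).2)
        rw [e, h1, h1]
        rw [← hβ] at k ⊢
        simpa [mul_assoc] using k.symm
      · rw [U.range_subtype]
        exact vih U _ b _ hZU hlt (hN hr) (hN hbH) (he s le_rfl) (by simp) (hreg' _) (hreg' _)
    obtain ⟨c, hc⟩ : cm a b * d⁻¹ ∈ φ.range := hrg ▸ L.mul_mem (hall a b) (L.inv_mem (hZL hd))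
    have hm : φ (Fin.partialProd (Fin.tail c)) * b * b⁻¹ ∈ L := by
      rw [mul_inv_cancel_right, ← hrg]
      exact ⟨_, rfl⟩
    rw [← CS_coset _ (by simp : a * a⁻¹ ∈ L) hm]
    refine key _ (H0.mul_mem (hLH (by simpa using hm)) hbH)
      (α (Fin.partialProd (Fin.tail c) (Fin.last s)) * c 0) ?_
    set m := Fin.partialProd (Fin.tail c) with hmd
    have e : (Fin.cons (α (m (Fin.last s))) (Fin.init m) : Fin (s + 1) → U) * c * m⁻¹ =
        Pi.mulSingle 0 (α (m (Fin.last s)) * c 0) := by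
      funext i
      refine Fin.cases ?_ (fun j => ?_) i
      · simp [hmd]
      · simp [hmd, Fin.init, Fin.partialProd_succ, Fin.tail]
    have e' := congrArg φ e
    rw [map_mul, map_mul, map_inv, ← hφa, hc, h1] at e'
    simp only [Fin.val_zero, pow_zero, one_mul, inv_one, mul_one] at e'
    rw [← e', mul_assoc _ _ d, hZc d hd]
    unfold cm
    group
  obtain ⟨c, hc⟩ : ∃ c, c ∉ H0 := by
    by_contra! k
    exact hne (eq_top_iff.2 fun g _ => k g)
  have m2 : ∀ u v, (gen u v L = ⊤ → CS L (tz p L d) u v = 0) → gen v⁻¹ u L = ⊤ →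
      CS L (tz p L d) v⁻¹ u = 0 := fun u v h e => by
    rw [CS_move2 _ (tz_move2 L (hZc d hd))]
    exact h (eq_top_iff.2 (e ▸ gen_le.2 ⟨inv_mem (right_mem_gen _ _ _), left_mem_gen _ _ _,
      le_gen _ _ _⟩))
  refine nielsen H0 ⊤ c (fun h _ => hcyc c hc h)
    (fun u v => gen u v L = ⊤ → CS L (tz p L d) u v = 0) (fun u _ v _ h e => ?_)
    (fun u _ v _ => m2 u v) (fun u _ v _ hu => ?_) a trivial b trivial hg
  · rw [CS_move1 _ (tz_move1 L d)]
    exact h (eq_top_iff.2 (e ▸ gen_le.2 ⟨left_mem_gen _ _ _,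
      mul_mem (right_mem_gen _ _ _) (left_mem_gen _ _ _), le_gen _ _ _⟩))
  · simpa using m2 v u⁻¹ (main v u⁻¹ (H0.inv_mem hu))

end Pool.Agent.Lib.MP_b6945b_al.Ip
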