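import Pool.Agent.Lib.MP_b6945b_al.As.TSim
import Pool.Agent.Lib.MP_b6945b_al.As.TCFin

set_option autoImplicit false

/-!
The twisted sum vanishes.
-/

namespace Pool.Agent.Lib.MP_b6945b_al.Ip

theorem tz_zero {p k : ℕ} (hp : p.Prime) {G0 : Type} [Group G0] (ih : TW p G0 k) (hyp : Hyp p G0)
    {H : Type} [Group H] [Fintype H] (Z L : Subgroup H) [L.Normal] {a b d : H} (hZ : CenP p Z)
    (hZL : Z ≤ L) (hd : d ∈ Z) (hg : gen a b L = ⊤) (ha : Reg p L a) (hb : Reg p L b)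
    (hab : cm a b ∈ L) (hs : Sec G0 L Z)
    (hk : Z.relIndex L < k ∨ (Z.relIndex L ≤ k ∧
      (∀ T : Subgroup H, T.Normal → Z ≤ T → T ≤ L → T = Z ∨ T = L) ∧
      ∃ u ∈ L, ∃ v ∈ L, cm u v ∉ Z)) : CS L (tz p L d) a b = 0 := by
  have : Fact p.Prime := ⟨hp⟩
  have hr : ∀ {x : H}, Reg p L x → Reg p (L ⊔ Cr L) x := fun ⟨m, h1, h2⟩ =>
    ⟨m, h1, Subgroup.mem_sup_left h2⟩
  rcases hk with hk | ⟨hk, hmin, hna⟩
  · obtain ⟨t, ht, e⟩ := hZ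
    exact vih ih ⟨t, ht, e⟩ hZL (pmob_nr a) (pmob_nr b) (fun g _ => (e d hd).2 g)
      (mul_mem hab (inv_mem (hZL hd))) (hr ha) (hr hb) hs hk
  by_cases h : ∀ T : Subgroup H, Z ≤ T → T ≤ L → L ≤ Nr T → T = Z ∨ T = L
  · exact tz_simple hyp ⟨hZ, hZL, h, hna, hg, ha, hb, hab, hs⟩ hd
  push Not at h
  refine tz_comp hp Z L hZ hZL hd hg ha hb hab hmin hna h fun L0 x y e h1 h2 h3 h4 h5 h6 h7 h8 =>
    vih ih hZ h1 h3 h4 h5 h6 h7 h8 (hs.mono h2.le inf_le_left) (lt_of_lt_of_le ?_ hk)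
  rw [← Subgroup.relIndex_mul_relIndex Z L0 L h1 h2.le]
  exact lt_mul_of_one_lt_right (Nat.pos_of_ne_zero Subgroup.index_ne_zero_of_finite)
    (lt_of_le_of_ne (Nat.pos_of_ne_zero Subgroup.index_ne_zero_of_finite) fun e =>
      h2.not_ge (Subgroup.relIndex_eq_one.1 e.symm))

end Pool.Agent.Lib.MP_b6945b_al.Ip
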