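import Pool.Agent.Lib.MP_b6945b_al.As.AHat
import Pool.Agent.Lib.MP_b6945b_al.As.AStab
import Pool.Agent.Lib.MP_b6945b_al.As.ALoc
import Pool.Agent.Lib.MP_b6945b_al.As.TFin

set_option autoImplicit false

/-!
The part of one character of defect zero.
-/

namespace Pool.Agent.Lib.MP_b6945b_al.Ip

open Finset

variable {G : Type} [Group G] [Fintype G] {p : ℕ} [Fact p.Prime] {N M : Subgroup G} [N.Normal]
  [M.Normal] [Fintype N] [Fintype (G ⧸ N)] {G0 : Type} [Group G0] {k : ℕ}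

omit [Fact p.Prime] in
open Classical in
/-- Sort by the central element: `conv ε E g = ∑ z, ε z * E (g * z⁻¹)`. -/
lemma sum_tz {H : Type} [Group H] [Fintype H] {Z : Subgroup H} (hZ : CenP p Z) {ε : H → ℂ}
    (hε : ∀ x, x ∉ Z → ε x = 0) (L : Subgroup H) (x y : H) :
    ε (cm x y) * eK p {x, y} L - conv ε (EE p L) (cm x y) =
      ∑ z : H, if z ∈ Z then ε z * tz p L z x y else 0 := by
  obtain ⟨t, -, hc⟩ := hZ
  have e1 : ε (cm x y) * eK p {x, y} L
      = ∑ z : H, ε z * if cm x y = z then (eK p {x, y} L : ℂ) else 0 := by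
    simp only [mul_ite, mul_zero, sum_ite_eq, mem_univ, if_true]
  rw [e1, conv, ← sum_sub_distrib]
  refine sum_congr rfl fun z _ => ?_
  by_cases hz : z ∈ Z
  · rw [if_pos hz, tz, mul_sub, ((hc z⁻¹ (Z.inv_mem hz)).2 (cm x y))]
  · rw [if_neg hz, hε z hz, zero_mul, zero_mul, sub_zero]

omit [Fintype N] in
/-- The hypotheses of `tz_zero` for `Z = κ.ker`, `L = (M.map mk).comap κ`.  Lifts `x, y ∈ T` of
`κ u`, `κ v` satisfy `gen x y M = ⊤` (`gen_coset`), so `T = gen x y (M ⊓ T)` (Dedekind).  If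
`M ≤ T` then `T = ⊤` and `κ` is onto: normal subgroups correspond and the index is that of `N`
in `M`.  Otherwise the index is that of `N` in `M ⊓ T`, which is smaller. -/
lemma tz_hat (ih : TW p G0 k) (hyp : Hyp p G0) (hle : N ≤ M) {a b : G} (hg : gen a b M = ⊤)
    (ha : Reg p M a) (hb : Reg p M b) (hab : cm a b ∈ M) (hs : Sec G0 M N)
    (hk : N.relIndex M ≤ k) (hmin : ∀ T : Subgroup G, T.Normal → N ≤ T → T ≤ M → T = N ∨ T = M)
    (hna : ∃ u ∈ M, ∃ v ∈ M, cm u v ∉ N) {T : Subgroup G} (hT : N ≤ T) {H : Type} [Group H]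
    [Fintype H] {κ : H →* G ⧸ N} (hZ : CenP p κ.ker)
    (hr : κ.range = T.map (QuotientGroup.mk' N)) {u v z : H} (hz : z ∈ κ.ker)
    (hu : κ u * (a : G ⧸ N)⁻¹ ∈ M.map (QuotientGroup.mk' N))
    (hv : κ v * (b : G ⧸ N)⁻¹ ∈ M.map (QuotientGroup.mk' N)) :
    CS ((M.map (QuotientGroup.mk' N)).comap κ)
      (tz p ((M.map (QuotientGroup.mk' N)).comap κ) z) u v = 0 := by
  set π := QuotientGroup.mk' N with hπ
  have hsur : Function.Surjective π := QuotientGroup.mk'_surjective N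
  have hker : π.ker = N := QuotientGroup.ker_mk' N
  have hn : (M.map π).Normal := Subgroup.Normal.map ‹_› π hsur
  have hcm : (M.map π).comap π = M := Subgroup.comap_map_eq_self (hker.le.trans hle)
  have key : ∀ g, π g ∈ M.map π ↔ g ∈ M := fun g => by rw [← Subgroup.mem_comap, hcm]
  have lift : ∀ h : H, ∃ t ∈ T, π t = κ h := fun h => by
    have : κ h ∈ T.map π := hr ▸ MonoidHom.mem_range.2 ⟨h, rfl⟩
    exact this
  have mcm : ∀ {s t : G} {s' t' : H}, π s = κ s' → π t = κ t' → π (cm s t) = κ (cm s' t') :=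
    fun e1 e2 => by simp only [cm, map_mul, map_inv, e1, e2]
  obtain ⟨x, hxT, hx⟩ := lift u
  obtain ⟨y, hyT, hy⟩ := lift v
  have hxa : x * a⁻¹ ∈ M := (key _).1 (by rw [map_mul, map_inv, hx]; exact hu)
  have hyb : y * b⁻¹ ∈ M := (key _).1 (by rw [map_mul, map_inv, hy]; exact hv)
  have hg' : gen x y M = ⊤ := (gen_coset hxa hyb).trans hg
  have reg : ∀ {s c : G} {w : H}, π s = κ w → s * c⁻¹ ∈ M → Reg p M c →
      Reg p ((M.map π).comap κ) w := fun {s c w} e hsc ⟨m, hm, hc⟩ => by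
    refine ⟨m, hm, ?_⟩
    have h1 : (s : G ⧸ M) = c := by
      rwa [← mul_inv_eq_one, ← QuotientGroup.mk_inv, ← QuotientGroup.mk_mul,
        QuotientGroup.eq_one_iff]
    rw [Subgroup.mem_comap, map_pow, ← e, ← map_pow, key, ← QuotientGroup.eq_one_iff,
      QuotientGroup.mk_pow, h1, ← QuotientGroup.mk_pow, QuotientGroup.eq_one_iff]
    exact hc
  have hidx : κ.ker.relIndex ((M.map π).comap κ) = N.relIndex (T ⊓ M) := by
    have e : T.map π ⊓ M.map π = (T ⊓ M).map π := by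
      refine le_antisymm ?_ (Subgroup.map_inf_le _ _ _)
      rintro _ ⟨⟨t, ht, rfl⟩, h2⟩
      exact ⟨t, ⟨ht, (key t).1 h2⟩, rfl⟩
    rw [← MonoidHom.comap_bot, Subgroup.relIndex_comap, Subgroup.map_comap_eq, hr, e,
      ← Subgroup.relIndex_comap, MonoidHom.comap_bot, hker]
  refine tz_zero Fact.out ih hyp κ.ker _ hZ (Subgroup.ker_le_comap _ _) hz ?_ (reg hx hxa ha)
    (reg hy hyb hb) ?_ ?_ ?_
  · refine eq_top_iff.2 fun h _ => ?_
    obtain ⟨t, -, ht⟩ := lift h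
    have h1 : t ∈ ((Subgroup.closure {x, y} ⊔ M : Subgroup G) : Set G) := by
      rw [show Subgroup.closure {x, y} ⊔ M = ⊤ from hg']; trivial
    rw [Subgroup.mul_normal] at h1
    obtain ⟨c, hc, m, hm, rfl⟩ := h1
    have h2 : π c ∈ (Subgroup.closure {u, v}).map κ := by
      rw [MonoidHom.map_closure, Set.image_pair, ← hx, ← hy, ← Set.image_pair,
        ← MonoidHom.map_closure]
      exact Subgroup.mem_map_of_mem _ hc
    obtain ⟨c', hc', e⟩ := h2
    rw [← mul_inv_cancel_left c' h]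
    refine Subgroup.mul_mem_sup hc' ?_
    rw [Subgroup.mem_comap, map_mul, map_inv, e, ← ht, map_mul, inv_mul_cancel_left]
    exact (key m).2 hm
  · rw [Subgroup.mem_comap, ← mcm hx hy, key]
    exact (cm_coset hxa hyb).2 hab
  · have h1 := (hs.map π hsur).comap κ
    rwa [(Subgroup.map_eq_bot_iff N).2 hker.ge, MonoidHom.comap_bot] at h1
  · rw [hidx]
    by_cases hMT : M ≤ T
    · have hT' : T = ⊤ := eq_top_iff.2 (hg' ▸ gen_le.2 ⟨hxT, hyT, hMT⟩)
      have hκ : Function.Surjective κ := by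
        rw [← MonoidHom.range_eq_top, hr, hT']
        exact Subgroup.map_top_of_surjective _ hsur
      refine Or.inr ⟨by rwa [inf_eq_right.2 hMT], fun S hS h1 h2 => ?_, ?_⟩
      · have hS' : (S.map κ).Normal := hS.map κ hκ
        have h3 : (S.map κ).comap π ≤ M :=
          (Subgroup.comap_mono (Subgroup.map_le_iff_le_comap.2 h2)).trans hcm.le
        rcases hmin _ inferInstance (hker.ge.trans (Subgroup.ker_le_comap _ _)) h3 with e | e
        · refine Or.inl (le_antisymm (fun t ht => ?_) h1)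
          obtain ⟨g, hg1⟩ := hsur (κ t)
          have h4 : g ∈ (S.map κ).comap π := by
            rw [Subgroup.mem_comap, hg1]; exact Subgroup.mem_map_of_mem _ ht
          rw [e, ← hker, MonoidHom.mem_ker, hg1] at h4
          exact h4
        · refine Or.inr (le_antisymm h2 ?_)
          rw [← e, Subgroup.map_comap_eq_self_of_surjective hsur, Subgroup.comap_map_eq_self h1]
      · obtain ⟨s, hs1, t, ht1, hst⟩ := hna
        obtain ⟨s', e1⟩ := hκ (π s)
        obtain ⟨t', e2⟩ := hκ (π t)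
        refine ⟨s', ?_, t', ?_, fun h => hst ?_⟩
        · rw [Subgroup.mem_comap, e1]; exact (key s).2 hs1
        · rw [Subgroup.mem_comap, e2]; exact (key t).2 ht1
        · rw [← hker, MonoidHom.mem_ker, mcm e1.symm e2.symm]; exact h
    · have h1 := Subgroup.relIndex_mul_relIndex N (T ⊓ M) M (le_inf hT hle) inf_le_right
      have h2 : (T ⊓ M).relIndex M ≠ 1 := fun h =>
        hMT ((Subgroup.relIndex_eq_one.1 h).trans inf_le_left)
      have h3 : (T ⊓ M).relIndex M ≠ 0 := Subgroup.index_ne_zero_of_finite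
      have h4 : N.relIndex (T ⊓ M) ≠ 0 := Subgroup.index_ne_zero_of_finite
      refine Or.inl (lt_of_lt_of_le ?_ hk)
      rw [← h1]
      exact lt_mul_of_one_lt_right (Nat.pos_of_ne_zero h4) (by omega)

omit [Fintype G] [M.Normal] [Fintype N] [Fintype (G ⧸ N)] in
lemma th_pelt {g : G} (h1 : Reg p M g) {j : ℕ} (h2 : g ^ p ^ j ∈ M) : g ∈ M := by
  obtain ⟨m, hm, e⟩ := h1
  obtain ⟨u, v, huv⟩ : IsCoprime (m : ℤ) ((p ^ j : ℕ) : ℤ) := Nat.isCoprime_iff_coprime.2
    (((Nat.Prime.coprime_iff_not_dvd Fact.out).2 hm).symm.pow_right j)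
  have h3 : g = (g ^ m) ^ u * (g ^ p ^ j) ^ v := by
    rw [← zpow_natCast, ← zpow_natCast g (p ^ j), ← zpow_mul, ← zpow_mul, ← zpow_add, mul_comm _ u,
      mul_comm _ v, huv, zpow_one]
  exact h3 ▸ M.mul_mem (M.zpow_mem e u) (M.zpow_mem h2 v)

omit [Fintype G] [Fact p.Prime] [M.Normal] [Fintype N] [Fintype (G ⧸ N)] in
lemma th_mem (hle : N ≤ M) {g : G} : (g : G ⧸ N) ∈ M.map (QuotientGroup.mk' N) ↔ g ∈ M := by
  change g ∈ (M.map (QuotientGroup.mk' N)).comap (QuotientGroup.mk' N) ↔ _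
  rw [QuotientGroup.comap_map_mk', sup_eq_right.2 hle]

theorem theta_part (ih : TW p G0 k) (hyp : Hyp p G0) (hle : N ≤ M) {a b : G} (hg : gen a b M = ⊤)
    (ha : Reg p M a) (hb : Reg p M b) (hab : cm a b ∈ M) (hs : Sec G0 M N)
    (hk : N.relIndex M ≤ k) (hmin : ∀ T : Subgroup G, T.Normal → N ≤ T → T ≤ M → T = N ∨ T = M)
    (hna : ∃ u ∈ M, ∃ v ∈ M, cm u v ∉ N) (I : IrrData N) {i : Fin I.n} (hi : Dz p I i) :
    CS M (fun x y => ee I (· = i) (cm x y) *
      eK p {(x : G ⧸ N), (y : G ⧸ N)} ((St I i).map (QuotientGroup.mk' N)) -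
      conv (ee I (· = i)) (EE p M) (cm x y)) a b = 0 := by
  classical
  obtain ⟨H, _, _, κ, ε, c, h1, h2, h3, h4, h5⟩ := hat (I := I) hi
  have hL : ((M ⊓ St I i).map (QuotientGroup.mk' N)).comap κ =
      (M.map (QuotientGroup.mk' N)).comap κ := by
    refine le_antisymm (Subgroup.comap_mono (Subgroup.map_mono inf_le_left)) fun x hx => ?_
    obtain ⟨t, ht, e⟩ : κ x ∈ (St I i).map (QuotientGroup.mk' N) := h2 ▸ ⟨x, rfl⟩
    exact ⟨t, ⟨(th_mem hle).1 (by rw [Subgroup.mem_comap, ← e] at hx; exact hx), ht⟩, e⟩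
  have hP : PIn p ⊤ ((M.map (QuotientGroup.mk' N)).comap κ) := ⟨le_top, fun g _ ⟨j, hj⟩ => by
    obtain ⟨t, e⟩ := QuotientGroup.mk_surjective (κ g)
    rw [Subgroup.mem_comap, ← e, th_mem hle]
    refine th_pelt (reg_gen hab ha hb (hg ▸ Subgroup.mem_top t)) (j := j) (hle ?_)
    rw [chief_pow, e, ← map_pow, hj, map_one]⟩
  have hK : ∀ x y : H, eK p {κ x, κ y} ((St I i).map (QuotientGroup.mk' N)) =
      eK p {x, y} ((M.map (QuotientGroup.mk' N)).comap κ) := fun x y => by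
    rw [← h2, MonoidHom.range_eq_map, eK_quot κ h1 ⊤ (pmob_nr x) (pmob_nr y), eK_pin hP]
  obtain ⟨Ψ, hΨ0⟩ : ∃ Ψ : G ⧸ N → G ⧸ N → Prop, ∀ x y, Ψ x y ↔
      x * (a : G ⧸ N)⁻¹ ∈ M.map (QuotientGroup.mk' N) ∧
      y * (b : G ⧸ N)⁻¹ ∈ M.map (QuotientGroup.mk' N) := ⟨_, fun _ _ => Iff.rfl⟩
  have hΨ : ∀ x y : G, Ψ x y ↔ x * a⁻¹ ∈ M ∧ y * b⁻¹ ∈ M := fun x y => by
    simp only [hΨ0, ← QuotientGroup.mk_inv, ← QuotientGroup.mk_mul, th_mem hle]
  have e0 := pc3_conv I (S := (· = i)) rfl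
  have e1 := conv_ee_fix I i (f := EE p M) fun n _ x => EE_nr2 (pmob_nr n) x
  have a0 := sum_St I i e0 e0 fun x y => if Ψ x y then
    (eK p {x, y} ((St I i).map (QuotientGroup.mk' N)) : ℂ) else 0
  have a1 := h4 fun x y => if Ψ x y then
    (eK p {x, y} ((St I i).map (QuotientGroup.mk' N)) : ℂ) else 0
  rw [← a0] at a1
  have a2 := sum_St I i e1.1 e1.2 fun x y => if Ψ x y then 1 else 0
  have a3 := h5 (M ⊓ St I i) (le_inf hle (le_St I i)) inf_le_right
    fun x y => if Ψ x y then 1 else 0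
  rw [← ee_EE_stab I i hle, ← a2, hL] at a3
  have a4 : ∑ z : H, ∑ x : H, ∑ y : H, (if z ∈ κ.ker then ε z * if Ψ (κ x) (κ y) then
      tz p ((M.map (QuotientGroup.mk' N)).comap κ) z x y else 0 else 0) = 0 := by
    refine sum_eq_zero fun z _ => ?_
    by_cases hz : z ∈ κ.ker
    · simp only [if_pos hz, ← mul_sum]
      refine mul_eq_zero_of_right _ ?_
      have key : ∀ {x u : H} {a : G ⧸ N}, x * u⁻¹ ∈ (M.map (QuotientGroup.mk' N)).comap κ →
          κ u * a⁻¹ ∈ M.map (QuotientGroup.mk' N) → κ x * a⁻¹ ∈ M.map (QuotientGroup.mk' N) :=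
        fun h1 h2 => by simpa [mul_assoc] using mul_mem (Subgroup.mem_comap.1 h1) h2
      convert sum_avg _ (tz p ((M.map (QuotientGroup.mk' N)).comap κ) z)
        (fun x y => Ψ (κ x) (κ y)) (fun u v x y hx hy e =>
          (hΨ0 _ _).2 ⟨key hx ((hΨ0 _ _).1 e).1, key hy ((hΨ0 _ _).1 e).2⟩)
        fun u v e => tz_hat ih hyp hle hg ha hb hab hs hk hmin hna (le_St I i) h1 h2 hz
          ((hΨ0 _ _).1 e).1 ((hΨ0 _ _).1 e).2
    · simp [hz]
  rw [sum_comm] at a4
  calc _ = c * ∑ x : H, ∑ y : H, ((if Ψ (κ x) (κ y) then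
        (eK p {κ x, κ y} ((St I i).map (QuotientGroup.mk' N)) : ℂ) else 0) * ε (cm x y) -
        (if Ψ (κ x) (κ y) then 1 else 0) *
          conv ε (EE p ((M.map (QuotientGroup.mk' N)).comap κ)) (cm x y)) := by
        simp only [sum_sub_distrib, mul_sub, ← a1, ← a3]
        simp only [CS, ← sum_sub_distrib, hΨ]
        refine sum_congr rfl fun x _ => sum_congr rfl fun y _ => ?_
        split_ifs <;> ring
    _ = 0 := by
        refine mul_eq_zero_of_right _ (Eq.trans (sum_congr rfl fun x _ => ?_) a4)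
        rw [sum_comm]
        refine sum_congr rfl fun y _ => ?_
        by_cases e : Ψ (κ x) (κ y)
        · simp only [if_pos e]
          rw [hK, one_mul, mul_comm]
          convert sum_tz h1 h3 ((M.map (QuotientGroup.mk' N)).comap κ) x y
        · simp [e]

end Pool.Agent.Lib.MP_b6945b_al.Ip
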