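import Pool.Agent.Lib.MP_b6945b_al.As.TQuo
import Pool.Agent.Lib.MP_b6945b_al.Rd.Blk

set_option autoImplicit false

/-!
Tools for products of conjugate subgroups that are permuted cyclically.
-/

namespace Pool.Agent.Lib.MP_b6945b_al.Ip

open Finset

variable {p : ℕ} {U B : Type} [Group U] [Group B]

lemma tc_nr [Finite B] {P : Subgroup B} {x : B} (h : ∀ v ∈ P, x * v * x⁻¹ ∈ P) : x ∈ Nr P :=
  Subgroup.mem_normalizer_fintype h

/-- The chain part: invariant subgroups of the product and of one factor. -/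
theorem eK_wr [Fintype B] [Finite U] {s : ℕ} (j : U →* B) (ψ : (Fin (s + 1) → U) →* B)
    (hk : ∀ n, ψ n = 1 ↔ ∀ i, j (n i) = 1) (α : U ≃* U) (β : U → U) {x y x' y' : B}
    (hx : ∀ n, x * ψ n * x⁻¹ = ψ (Fin.cons (α (n (Fin.last s))) (Fin.init n)))
    (hy : ∀ n, y * ψ n * y⁻¹ = ψ fun i => β (n i))
    (hx' : ∀ u, x' * j u * x'⁻¹ = j (α u)) (hy' : ∀ u, y' * j u * y'⁻¹ = j (β u)) :
    eK p {x, y} ψ.range = eK p {x', y'} j.range := by
  have hs : ∀ P, KP p {x, y} P → ∀ (i : Fin (s + 1)) (u : U),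
      (∃ n, ψ n ∈ P ∧ n i = u) ↔ ∃ n, ψ n ∈ P ∧ n 0 = u := fun P hP i u => by
    have h1 := Subgroup.mem_normalizer_iff.1 (hP.2 (Set.mem_insert x {y}))
    induction i using Fin.induction with
    | zero => rfl
    | succ i ih =>
      refine Iff.trans ⟨?_, ?_⟩ ih
      · rintro ⟨n, hn, rfl⟩
        refine ⟨Fin.snoc (Fin.tail n) (α.symm (n 0)), (h1 _).2 ?_, by simp [Fin.tail]⟩
        rw [hx]
        simpa using hn
      · rintro ⟨n, hn, rfl⟩
        exact ⟨_, hx n ▸ (h1 _).1 hn, by simp [Fin.init]⟩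
  have hm : ∀ (P : Subgroup B) (v : B),
      v ∈ (P.comap ψ).map (j.comp (Pi.evalMonoidHom (fun _ => U) 0)) ↔
        ∃ n, ψ n ∈ P ∧ j (n 0) = v := fun P v => Iff.rfl
  have hm' : ∀ (Q : Subgroup B) (v : B), v ∈ (Subgroup.pi Set.univ fun _ => Q.comap j).map ψ ↔
      ∃ n, (∀ i, j (n i) ∈ Q) ∧ ψ n = v := fun Q v =>
    exists_congr fun n => and_congr_left fun _ => ⟨fun h i => h i trivial, fun h i _ => h i⟩
  refine eK_gal (fun P => (P.comap ψ).map (j.comp (Pi.evalMonoidHom (fun _ => U) 0)))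
    (fun Q => (Subgroup.pi Set.univ fun _ => Q.comap j).map ψ)
    (fun P hP _ => ⟨⟨?_, Set.pair_subset (tc_nr ?_) (tc_nr ?_)⟩, ?_⟩)
    (fun Q hQ hj => ⟨⟨?_, Set.pair_subset (tc_nr ?_) (tc_nr ?_)⟩, Subgroup.map_le_range _ _, ?_⟩)
    fun P Q hP hr _ _ => ⟨fun h v hv => ?_, fun h v hv => ?_⟩
  · rintro ⟨_, n, hn, rfl⟩
    obtain ⟨k, e⟩ := hP.1 ⟨ψ n, hn⟩
    refine ⟨k, Subtype.ext ?_⟩
    have e1 : ψ (n ^ p ^ k) = 1 := (map_pow ψ _ _).trans (congrArg Subtype.val e)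
    exact (map_pow j _ _).symm.trans ((hk _).1 e1 0)
  · intro v hv
    obtain ⟨n, hn, rfl⟩ := (hm P v).1 hv
    obtain ⟨m, h1, h2⟩ := (hs P hP (Fin.last s) _).2 ⟨n, hn, rfl⟩
    refine (hm P _).2 ⟨_, hx m ▸ (Subgroup.mem_normalizer_iff.1
      (hP.2 (Set.mem_insert x {y})) _).1 h1, ?_⟩
    rw [hx', Fin.cons_zero, h2]
  · intro v hv
    obtain ⟨n, hn, rfl⟩ := (hm P v).1 hv
    exact (hm P _).2 ⟨_, hy n ▸ (Subgroup.mem_normalizer_iff.1
      (hP.2 (Set.mem_insert_of_mem x rfl)) _).1 hn, (hy' _).symm⟩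
  · rintro _ ⟨n, -, rfl⟩
    exact ⟨n 0, rfl⟩
  · rintro ⟨v, hv⟩
    obtain ⟨n, hn, rfl⟩ := (hm' Q v).1 hv
    choose k e using fun i => hQ.1 ⟨j (n i), hn i⟩
    refine ⟨univ.sup k, Subtype.ext ((map_pow ψ _ _).symm.trans ((hk _).2 fun i => ?_))⟩
    obtain ⟨c, hc⟩ := Nat.exists_eq_add_of_le (le_sup (f := k) (mem_univ i))
    have e1 : j (n i) ^ p ^ k i = 1 := congrArg Subtype.val (e i)
    rw [Pi.pow_apply, map_pow, hc, pow_add, pow_mul, e1, one_pow]
  · intro v hv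
    obtain ⟨n, hn, rfl⟩ := (hm' Q v).1 hv
    refine (hm' Q _).2 ⟨_, fun i => ?_, (hx n).symm⟩
    refine Fin.cases ?_ (fun i => by simpa [Fin.init] using hn _) i
    rw [Fin.cons_zero, ← hx']
    exact (Subgroup.mem_normalizer_iff.1 (hQ.2 (Set.mem_insert x' {y'})) _).1 (hn _)
  · intro v hv
    obtain ⟨n, hn, rfl⟩ := (hm' Q v).1 hv
    refine (hm' Q _).2 ⟨_, fun i => ?_, (hy n).symm⟩
    rw [← hy']
    exact (Subgroup.mem_normalizer_iff.1 (hQ.2 (Set.mem_insert_of_mem x' rfl)) _).1 (hn _)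
  · simp only [Subgroup.eq_bot_iff_forall]
    refine ⟨fun h v hv => ?_, fun h v hv => ?_⟩
    · obtain ⟨u, rfl⟩ := hj hv
      exact (hk _).1 (h _ ((hm' Q _).2 ⟨fun _ => u, fun _ => hv, rfl⟩)) 0
    · obtain ⟨n, hn, rfl⟩ := (hm' Q v).1 hv
      exact (hk n).2 fun i => h _ (hn i)
  · obtain ⟨n, rfl⟩ := hr hv
    refine (hm' Q _).2 ⟨n, fun i => ?_, rfl⟩
    obtain ⟨m, h1, h2⟩ := (hs P hP i _).1 ⟨n, hv, rfl⟩
    exact h ((hm P _).2 ⟨m, h1, congrArg j h2⟩)
  · obtain ⟨n, hn, rfl⟩ := (hm P v).1 hv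
    obtain ⟨m, h1, h2⟩ := (hm' Q _).1 (h hn)
    have h3 := (hk (m⁻¹ * n)).1 (by rw [map_mul, map_inv, h2, inv_mul_cancel]) 0
    rw [Pi.mul_apply, Pi.inv_apply, map_mul, map_inv, inv_mul_eq_one] at h3
    exact h3 ▸ h1 0

variable [Fintype U]

/-- The telescoping convolution of an idempotent. -/
lemma tele {f : U → ℂ} (hf : conv f f = f) : ∀ (s : ℕ) (k : Fin (s + 1) → U),
    (∀ i g, g * k i = k i * g) → ∀ t u : U, ∑ m : Fin s → U, ∏ i : Fin (s + 1),
      f ((Fin.cons t m : Fin (s + 1) → U) i * ((Fin.snoc m u : Fin (s + 1) → U) i)⁻¹ * k i) =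
      f (t * u⁻¹ * (List.ofFn k).prod) := by
  intro s
  induction s with
  | zero =>
    intro k _ t u
    simp [Fin.snoc]
  | succ s ih =>
    intro k hk t u
    rw [← (Fin.consEquiv fun _ => U).sum_comp, Fintype.sum_prod_type]
    have h1 : ∀ (v : U) (m : Fin s → U), ∏ i : Fin (s + 2),
        f ((Fin.cons t (Fin.consEquiv (fun _ => U) (v, m)) : Fin (s + 2) → U) i *
          ((Fin.snoc (Fin.consEquiv (fun _ => U) (v, m)) u : Fin (s + 2) → U) i)⁻¹ * k i) =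
        f (t * v⁻¹ * k 0) * ∏ i : Fin (s + 1), f ((Fin.cons v m : Fin (s + 1) → U) i *
          ((Fin.snoc m u : Fin (s + 1) → U) i)⁻¹ * k i.succ) := fun v m => by
      rw [Fin.prod_univ_succ]
      have e : (Fin.snoc (Fin.consEquiv (fun _ => U) (v, m)) u : Fin (s + 2) → U) =
          Fin.cons v (Fin.snoc m u) := (Fin.cons_snoc_eq_snoc_cons v m u).symm
      rw [e]
      rfl
    simp only [h1, ← mul_sum, ih _ fun i => hk i.succ]
    rw [List.ofFn_succ (f := k), List.prod_cons]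
    generalize (List.ofFn fun i : Fin (s + 1) => k i.succ).prod = w
    refine Eq.trans ?_ (congrFun hf _)
    rw [conv, ← Equiv.sum_comp ((Equiv.inv U).trans ((Equiv.mulRight (k 0)).trans
      (Equiv.mulLeft t))) fun y => f y * f (y⁻¹ * (t * u⁻¹ * (k 0 * w)))]
    refine sum_congr rfl fun v _ => ?_
    simp only [Equiv.trans_apply, Equiv.inv_apply, Equiv.coe_mulRight, Equiv.coe_mulLeft]
    congr 2
    · exact mul_assoc _ _ _
    · rw [hk 0 v⁻¹, ← mul_assoc (t * u⁻¹), mul_assoc t, hk 0 u⁻¹]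
      simp only [mul_inv_rev, inv_inv, mul_assoc, inv_mul_cancel_left]

omit [Fintype U] in
lemma tc_ind {ι : Type} [Fintype ι] (S : ι → Prop) :
    ∏ i, ind S i = ind (fun _ : Unit => ∀ i, S i) () := by
  by_cases h : ∀ i, S i
  · rw [ind_pos (S := fun _ : Unit => ∀ i, S i) h, prod_eq_one fun i _ => ind_pos (h i)]
  · obtain ⟨i, hi⟩ := not_forall.1 h
    rw [ind_neg (S := fun _ : Unit => ∀ i, S i) h, prod_eq_zero (mem_univ i) (ind_neg hi)]

lemma conv_pi {n : ℕ} (f g : U → ℂ) (x : Fin n → U) :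
    conv (fun z : Fin n → U => ∏ i, f (z i)) (fun z => ∏ i, g (z i)) x =
      ∏ i, conv f g (x i) := by
  simp only [conv]
  rw [Fintype.prod_sum]
  exact sum_congr rfl fun y _ => prod_mul_distrib.symm

lemma cpow_pi {n : ℕ} (f : U → ℂ) (m : ℕ) :
    cpow (fun z : Fin n → U => ∏ i, f (z i)) m = fun z => ∏ i, cpow f m (z i) := by
  induction m with
  | zero =>
    funext x
    exact (zeb_ind_congr funext_iff).trans (tc_ind fun i => x i = 1).symm
  | succ m ih =>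
    funext x
    rw [cpow, ih, conv_pi]
    rfl

lemma tau_pi {n : ℕ} : tau (⊤ : Subgroup (Fin n → U)) = fun z => ∏ i, tau ⊤ (z i) := by
  funext x
  simp only [tau]
  rw [Fintype.prod_sum]
  refine sum_congr rfl fun a _ => ?_
  rw [Fintype.prod_sum]
  refine sum_congr rfl fun b _ => ?_
  refine Eq.trans (zeb_ind_congr ?_) ((tc_ind fun i =>
    a i * b i * (a i)⁻¹ * (b i)⁻¹ = x i).symm.trans (prod_congr rfl fun i _ => zeb_ind_congr ?_))
  · simp [funext_iff]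
  · simp

/-- The idempotent of a direct power. -/
theorem EE_pi [Fact p.Prime] {n : ℕ} (x : Fin n → U) :
    EE p (⊤ : Subgroup (Fin n → U)) x = ∏ i, EE p (⊤ : Subgroup U) (x i) := by
  obtain ⟨V, hp⟩ := exists_val p
  obtain ⟨I⟩ := exists_irrData (Fin n → U)
  have h1 : IsCF fun z : Fin n → U => ∏ i, EE p (⊤ : Subgroup U) (z i) := fun h g =>
    prod_congr rfl fun i _ => EE_cf (h i) (g i)
  have h2 : ∀ z : Fin n → U, ∀ S : Finset (Fin n), ∏ i ∈ S, EE p (⊤ : Subgroup U) (z i) -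
      ∏ i ∈ S, cpow (tau ⊤) (p - 1) (z i) ∈ V.nonunits := fun z S => by
    induction S using Finset.induction_on with
    | empty => simp
    | insert i S hi ih =>
      rw [prod_insert hi, prod_insert hi]
      have e := add_mem (mul_mem_nonunits ih (EE_mem hp ⊤ (z i))) (mul_mem_nonunits
        (EE_pow hp ⊤ (z i)) (prod_mem fun i _ => zeb_cpow_mem (zeb_tau_mem ⊤) (p - 1) (z i) :
          ∏ i ∈ S, cpow (tau ⊤) (p - 1) (z i) ∈ V))
      convert e using 1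
      ring
  refine congrFun ((I.zf_om EE_cf).symm.trans (Eq.trans (congrArg I.zf (funext fun i => ?_))
    (I.zf_om h1))) x
  refine eq_of_idem (V := V) (om_EE I i) (om_idem I i h1 (funext fun z => ?_)) ?_
  · rw [conv_pi, EE_idem]
  · rw [← I.om_sub]
    refine I.om_mem_nonunits i (fun h g => congrArg₂ (· - ·) (EE_cf h g) (h1 h g)) fun z => ?_
    have e := sub_mem (EE_pow hp (⊤ : Subgroup (Fin n → U)) z) (h2 z univ)
    rw [tau_pi, cpow_pi] at e
    convert e using 1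
    simp

end Pool.Agent.Lib.MP_b6945b_al.Ip
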