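import Pool.Agent.Lib.MP_b6945b_al.As.TCA

set_option autoImplicit false

/-!
The twisted sum of a cyclically permuted product is a multiple of the twisted sum of one factor.
-/

namespace Pool.Agent.Lib.MP_b6945b_al.Ip

open Finset

variable {p : ℕ} {U H : Type} [Group U] [Group H] [Fintype U] [Fintype H]

omit [Fintype H] in
open Classical in
lemma tc_fib (φ : U →* H) [Fintype φ.range] (F : H → ℂ) :
    ∑ n, F (φ n) = (Nat.card φ.ker : ℂ) * ∑ x : φ.range, F x := by
  rw [← sum_fiberwise univ φ.rangeRestrict fun n => F (φ n), mul_sum]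
  refine sum_congr rfl fun x _ => ?_
  obtain ⟨_, m, rfl⟩ := x
  rw [sum_congr rfl (g := fun _ => F (φ m)) fun n hn =>
    congrArg F (congrArg Subtype.val (mem_filter.1 hn).2), sum_const, nsmul_eq_mul,
    Nat.card_eq_fintype_card, Fintype.card_subtype]
  congr 2
  refine card_bij (fun n _ => m⁻¹ * n) (fun n hn => ?_) (fun _ _ _ _ e => mul_left_cancel e)
    fun k hk => ⟨m * k, ?_, inv_mul_cancel_left m k⟩
  · have e : φ n = φ m := congrArg Subtype.val (mem_filter.1 hn).2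
    simp [e]
  · have e : φ k = 1 := (mem_filter.1 hk).2
    exact mem_filter.2 ⟨mem_univ _, Subtype.ext (by simp [e])⟩

lemma tc_CS (φ : U →* H) (t : H → H → ℂ) (a b : H) : ∑ n, ∑ m, t (φ n * a) (φ m * b) =
    (Nat.card φ.ker : ℂ) * ((Nat.card φ.ker : ℂ) * CS φ.range t a b) := by
  classical
  rw [tc_fib φ fun x => ∑ m, t (x * a) (φ m * b), CS_eq_sum, mul_sum, mul_sum, mul_sum]
  exact sum_congr rfl fun x _ => by rw [tc_fib φ fun y => t (x * a) (y * b)]

variable [Fact p.Prime]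

lemma tz_conj {L : Subgroup H} {d g x y : H} (hg : g ∈ Nr L) (hd : g * d = d * g) (hx : x ∈ Nr L)
    (hy : y ∈ Nr L) : tz p L d (g * x * g⁻¹) (g * y * g⁻¹) = tz p L d x y := by
  have e : cm (g * x * g⁻¹) (g * y * g⁻¹) = g * cm x y * g⁻¹ := by unfold cm; group
  have e1 : g * cm x y * g⁻¹ * d⁻¹ = g * (cm x y * d⁻¹) * g⁻¹ := by
    rw [mul_assoc, ← mul_inv_rev, ← hd, mul_inv_rev, ← mul_assoc, mul_assoc g]
  have e2 := eK_push (p := p) (k := (MulAut.conj g).toMonoidHom) (L := L)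
    (kerP_of_inj fun z _ h => (MulAut.conj g).map_eq_one_iff.1 h) hx hy
  have e3 : L.map (MulAut.conj g).toMonoidHom = L := Subgroup.ext fun v => ⟨by
    rintro ⟨w, hw, rfl⟩
    exact (Subgroup.mem_normalizer_iff.1 hg w).1 hw, fun hv =>
      ⟨g⁻¹ * v * g, (Subgroup.mem_normalizer_iff''.1 hg v).1 hv, by simp [mul_assoc]⟩⟩
  rw [e3] at e2
  classical
  rw [tz, tz, e, e1, EE_nr hg]
  congr 1
  refine if_congr ?_ (congrArg _ e2) rfl
  rw [mul_inv_eq_iff_eq_mul, ← hd, mul_right_inj]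

theorem tz_abs {s : ℕ} (ι : U →* H) (hι : Function.Injective ι) (φ : (Fin (s + 1) → U) →* H)
    {Z : Subgroup H} (hZ : CenP p Z) {a b d e x0 : H} (hd : d ∈ Z) (α β : U ≃* U) (c : U)
    (h0 : ∀ u, φ (Fin.cons u 1) = ι u) (hk : ∀ n, φ n ∈ Z ↔ ∀ i, ι (n i) ∈ Z)
    (hp : ∀ n, φ n = 1 → (List.ofFn n).prod = 1)
    (ha : ∀ n, a * φ n * a⁻¹ = φ (Fin.cons (α (n (Fin.last s))) (Fin.init n)))
    (hb : ∀ n, b * φ n * b⁻¹ = φ fun i => β (n i)) (hx0 : ∀ u, x0 * ι u * x0⁻¹ = ι (α u))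
    (hc : cm a b = ι c * d) (he : cm x0 b = ι c * e) (heC : ∀ u, ι u * e = e * ι u)
    (hv : CS ι.range (tz p ι.range e) x0 b = 0) : CS φ.range (tz p φ.range d) a b = 0 := by
  classical
  have := hZ.normal
  obtain ⟨t, ht, hZ'⟩ := id hZ
  have hdc := (hZ' d hd).2
  have hcen : ∀ z, ι z ∈ Z → ∀ g, g * z = z * g := fun z hz g =>
    hι (by rw [map_mul, map_mul, (hZ' _ hz).2])
  have hb' : ∀ u, b * ι u * b⁻¹ = ι (β u) := fun u => by
    rw [← h0, hb, ← h0]
    exact congrArg φ (funext fun i => Fin.cases rfl (fun i => by simp) i)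
  have nr : ∀ {A : Type} [Group A] (k : A →* H) {x : H}, (∀ n, ∃ m, k m = x * k n * x⁻¹) →
      ∀ n, k n * x ∈ Nr k.range := fun k x h n =>
    mul_mem (Subgroup.le_normalizer ⟨n, rfl⟩) (tc_nr (by rintro _ ⟨m, rfl⟩; exact h m))
  have na := nr φ fun n => ⟨_, (ha n).symm⟩
  have nb := nr φ fun n => ⟨_, (hb n).symm⟩
  have hker : KerP p φ ⊤ := ⟨t, ht, fun z _ h => by
    have h1 := (hk z).1 (h ▸ Z.one_mem)
    exact ⟨funext fun i => hι (by rw [Pi.pow_apply, map_pow, (hZ' _ (h1 i)).1, Pi.one_apply,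
      map_one]), fun g _ => funext fun i => hcen _ (h1 i) _⟩⟩
  obtain ⟨κ, push⟩ : ∃ κ : ℂ, ∀ f : U → ℂ, conv f f = f → ∀ w u : U, ∑ m : Fin s → U,
      ∑ k : Fin (s + 1) → U, (if φ k = 1 then ∏ i, f ((Fin.cons w m : Fin (s + 1) → U) i *
        ((Fin.snoc m u : Fin (s + 1) → U) i)⁻¹ * k i) else 0) = κ * f (w * u⁻¹) := by
    refine ⟨∑ k, if φ k = 1 then 1 else 0, fun f hf w u => ?_⟩
    rw [sum_comm, sum_mul]
    refine sum_congr rfl fun k _ => ?_
    split_ifs with h
    · rw [tele hf s k (fun i => hcen _ ((hk k).1 (h ▸ Z.one_mem) i)), hp k h, mul_one, one_mul]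
    · simp
  have hone : conv (ind (· = (1 : U))) (ind (· = 1)) = ind (· = 1) := funext fun x => by
    rw [conv, sum_eq_single 1 (fun y _ h => by rw [ind_neg (S := (· = 1)) h, zero_mul]) (by simp),
      ind_pos (S := (· = (1 : U))) rfl, one_mul, inv_one, one_mul]
  have key : ∀ n u : U, ∑ m : Fin s → U, tz p φ.range d (ι n * a) (φ (Fin.snoc m u) * b) =
      κ * tz p ι.range e (ι n * x0) (ι u * b) := fun n u => by
    have e0 : cm (ι n * x0) (ι u * b) * e⁻¹ = ι (n * α u * c * (β n)⁻¹ * u⁻¹) := by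
      have e1 : cm (ι n * x0) (ι u * b) = ι n * (x0 * ι u * x0⁻¹) * cm x0 b *
          ((b * ι n * b⁻¹)⁻¹ * (ι u)⁻¹) := by unfold cm; group
      rw [e1, hx0, hb', he, ← map_inv ι, ← map_inv ι, ← map_mul ι (β n)⁻¹, mul_inv_eq_iff_eq_mul]
      simp only [map_mul ι _ (_ * _), mul_assoc]
      rw [heC]
    have e1 : ∀ m : Fin s → U, cm (ι n * a) (φ (Fin.snoc m u) * b) * d⁻¹ =
        φ fun i => (Fin.cons (n * α u * c * (β n)⁻¹) m : Fin (s + 1) → U) i *
          ((Fin.snoc m u : Fin (s + 1) → U) i)⁻¹ := fun m => by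
      have e2 : ∀ y, cm (ι n * a) (y * b) = ι n * (a * y * a⁻¹) * cm a b *
          ((b * ι n * b⁻¹)⁻¹ * y⁻¹) := fun y => by unfold cm; group
      rw [e2, ha, hb', hc, ← mul_assoc _ _ d, mul_assoc _ d, ← hdc, ← mul_assoc _ _ d,
        mul_inv_cancel_right, ← h0, ← h0, ← h0]
      simp only [← map_inv, ← map_mul]
      exact congrArg φ (funext fun i => Fin.cases (by simp [mul_assoc]) (fun i => by simp) i)
    have e3 : ∀ g, EE p φ.range (φ g) =
        ∑ k, if φ k = 1 then ∏ i, EE p (⊤ : Subgroup U) (g i * k i) else 0 := fun g => by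
      rw [MonoidHom.range_eq_map, EE_push hker (Subgroup.mem_top g)]
      exact sum_congr rfl fun k _ => if_congr (by simp) (EE_pi _) rfl
    have e4 : ∀ g, (if φ g = 1 then (1 : ℂ) else 0) =
        ∑ k, if φ k = 1 then ∏ i, ind (· = 1) (g i * k i) else 0 := fun g => by
      rw [sum_eq_single g⁻¹ (fun k _ h => ?_) (by simp)]
      · exact if_congr (by simp) (prod_eq_one fun i _ => ind_pos (by simp)).symm rfl
      · obtain ⟨i, hi⟩ := Function.ne_iff.1 h
        rw [prod_eq_zero (f := fun i => ind (· = 1) (g i * k i)) (mem_univ i)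
          (ind_neg fun e => hi (eq_inv_of_mul_eq_one_right e)), ite_self]
    have e5 : ∀ m : Fin s → U, cm (ι n * a) (φ (Fin.snoc m u) * b) = d →
        eK p {ι n * a, φ (Fin.snoc m u) * b} φ.range = eK p {ι n * x0, ι u * b} ι.range := by
      intro m hm
      have h1 := (hk _).1 ((e1 m).symm.trans (mul_inv_eq_one.2 hm) ▸ Z.one_mem)
      have h2 : ∀ i, ι ((Fin.snoc m u : Fin (s + 1) → U) i * u⁻¹) ∈ Z := fun i => by
        induction i using Fin.reverseInduction with
        | last => simp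
        | cast i ih => simpa using Z.mul_mem (h1 i.succ) ih
      have e7 : ∀ x y z : H, x * y * z * (x * y)⁻¹ = x * (y * z * y⁻¹) * x⁻¹ := fun x y z => by
        group
      have hq : CenP p (QuotientGroup.mk' Z).ker := by rwa [QuotientGroup.ker_mk']
      rw [← eK_quot _ hq _ (h0 n ▸ na _) (nb _), ← eK_quot _ hq _
        (nr ι (fun u => ⟨_, (hx0 u).symm⟩) n) (nr ι (fun u => ⟨_, (hb' u).symm⟩) u),
        MonoidHom.map_range, MonoidHom.map_range]
      refine eK_wr _ _ (fun g => ?_) (α.trans (MulAut.conj n)) (fun v => u * β v * u⁻¹)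
        (fun g => ?_) (fun g => ?_) (fun v => ?_) fun v => ?_
      · simpa using hk g
      all_goals
        rw [MonoidHom.comp_apply, MonoidHom.comp_apply, ← map_inv, ← map_mul, ← map_mul]
        congr 1
        rw [e7]
      · rw [ha, ← h0, ← map_inv, ← map_mul, ← map_mul]
        exact congrArg φ (funext fun i => Fin.cases (by simp) (fun i => by simp) i)
      · rw [hb, ← map_inv, ← map_mul, ← map_mul]
        refine congrArg φ (funext fun i => ?_)
        have h3 := hcen _ (h2 i) (u * β (g i) * u⁻¹)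
        rw [Pi.mul_apply, Pi.mul_apply, Pi.inv_apply, mul_inv_eq_iff_eq_mul]
        exact mul_right_cancel (b := u⁻¹) (by simpa [mul_assoc] using h3.symm)
      · rw [hx0, ← map_inv, ← map_mul, ← map_mul]
        rfl
      · rw [hb', ← map_inv, ← map_mul, ← map_mul]
    have e6 : ∀ m : Fin s → U, tz p φ.range d (ι n * a) (φ (Fin.snoc m u) * b) =
        (if cm (ι n * a) (φ (Fin.snoc m u) * b) * d⁻¹ = 1 then 1 else 0) *
          (eK p {ι n * x0, ι u * b} ι.range : ℂ) -
        EE p φ.range (cm (ι n * a) (φ (Fin.snoc m u) * b) * d⁻¹) := fun m => by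
      rw [tz, boole_mul]
      exact congrArg (· - _) (if_ctx_congr mul_inv_eq_one.symm (fun h => congrArg _
        (e5 m (mul_inv_eq_one.1 h))) fun _ => rfl)
    simp only [e6, e1, e3, e4, sum_sub_distrib, ← sum_mul]
    rw [push _ hone, push _ (EE_idem ⊤), tz, e0, mul_sub, mul_assoc, ← EE_map hι,
      ← MonoidHom.range_eq_map, ind, boole_mul]
    congr 2
    refine if_congr ?_ rfl rfl
    rw [← mul_inv_eq_one (a := cm _ _), e0, map_eq_one_iff _ hι]
  have hK : ∀ {A : Type} [Group A] [Fintype A] (k : A →* H), (Nat.card k.ker : ℂ) ≠ 0 :=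
    fun k => Nat.cast_ne_zero.2 Nat.card_pos.ne'
  have h1 : ∑ n, ∑ m, tz p φ.range d (ι n * a) (φ m * b) = 0 := by
    have e' : ∀ n, ∑ m, tz p φ.range d (ι n * a) (φ m * b) =
        ∑ u, κ * tz p ι.range e (ι n * x0) (ι u * b) := fun n => by
      rw [← (Fin.snocEquiv fun _ => U).sum_comp, Fintype.sum_prod_type]
      exact sum_congr rfl fun u _ => key n u
    simp only [e', ← mul_sum]
    rw [tc_CS, hv, mul_zero, mul_zero, mul_zero]
  refine (mul_eq_zero_iff_left (hK φ)).1 ((mul_eq_zero_iff_left (hK φ)).1 ?_)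
  rw [← tc_CS, ← (Fin.consEquiv fun _ => U).sum_comp, Fintype.sum_prod_type, sum_comm]
  refine sum_eq_zero fun m _ => ?_
  let l : Fin (s + 1) → U := Fin.partialProd fun i => (m i)⁻¹
  rw [← h1, ← Equiv.sum_comp (Equiv.mulRight (α (l (Fin.last s)))⁻¹)
    fun n => ∑ w, tz p φ.range d (ι n * a) (φ w * b)]
  refine sum_congr rfl fun n _ => ?_
  rw [← Equiv.sum_comp ((Equiv.mulLeft l).trans (Equiv.mulRight (fun i => β (l i))⁻¹))
    fun w => tz p φ.range d (ι _ * a) (φ w * b)]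
  refine sum_congr rfl fun w _ => ?_
  rw [← tz_conj (g := φ l) (Subgroup.le_normalizer (H := φ.range) ⟨l, rfl⟩) (hdc _) (na _) (nb _)]
  have e' : ∀ x y z : H, x * (y * z) * x⁻¹ = x * y * (z * x * z⁻¹)⁻¹ * z := fun x y z => by group
  rw [e', e', ha, hb, ← h0]
  simp only [← map_inv φ, ← map_mul]
  congr 3
  exact funext fun i => Fin.cases (by simp [l])
    (fun i => by simp [l, Fin.init, Fin.partialProd_succ]) i

end Pool.Agent.Lib.MP_b6945b_al.Ip
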