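import Pool.Agent.Lib.MP_b6945b_al.As.TNie

set_option autoImplicit false

/-!
The total twisted sum takes the same value on all generators of a central cyclic subgroup.
-/

namespace Pool.Agent.Lib.MP_b6945b_al.Ip

open Finset

/-- `lam i = ζ ^ e i` for `ζ = exp (2 π I / n)` (`Complex.isPrimitiveRoot_exp`,
`IsPrimitiveRoot.eq_pow_of_pow_eq_one`).  The rational polynomial `∑ X ^ e i - C r` vanishes at
`ζ`, so it is a multiple of `minpoly ℚ ζ = cyclotomic n ℚ = minpoly ℚ (ζ ^ j)`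
(`Polynomial.cyclotomic_eq_minpoly_rat`, `IsPrimitiveRoot.pow_of_coprime`). -/
theorem gal_sum {ι : Type} [Fintype ι] (lam : ι → ℂ) {n : ℕ} (hn : n ≠ 0)
    (h : ∀ i, lam i ^ n = 1) {r : ℚ} (hr : ∑ i, lam i = r) {j : ℕ} (hj : j.Coprime n) :
    ∑ i, lam i ^ j = ∑ i, lam i := by
  have _ : NeZero n := ⟨hn⟩
  have hζ := Complex.isPrimitiveRoot_exp n hn
  generalize Complex.exp (2 * Real.pi * Complex.I / n) = ζ at hζ
  choose e _ he using fun i => hζ.eq_pow_of_pow_eq_one (h i)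
  have hpos : 0 < n := Nat.pos_of_ne_zero hn
  have hev : ∀ z : ℂ, Polynomial.aeval z
      (∑ i, Polynomial.X ^ e i - Polynomial.C r : Polynomial ℚ) = ∑ i, z ^ e i - r := fun z => by
    simp [map_sum]
  have h1 : minpoly ℚ ζ ∣ ∑ i, Polynomial.X ^ e i - Polynomial.C r :=
    minpoly.dvd ℚ ζ (by rw [hev, sub_eq_zero, ← hr]; exact sum_congr rfl fun i _ => he i)
  rw [← Polynomial.cyclotomic_eq_minpoly_rat hζ hpos,
    Polynomial.cyclotomic_eq_minpoly_rat (hζ.pow_of_coprime j hj) hpos] at h1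
  have h2 := Polynomial.aeval_eq_zero_of_dvd_aeval_eq_zero h1 (minpoly.aeval ℚ (ζ ^ j))
  rw [hev, sub_eq_zero] at h2
  rw [hr, ← h2]
  exact sum_congr rfl fun i _ => by rw [← he i, ← pow_mul, ← pow_mul, mul_comm]

variable {H : Type} [Group H] [Fintype H] {p : ℕ}

lemma gal2_lift {n m i : ℕ} (hm : m ≠ 0) (h : n ∣ m) (hi : i.Coprime n) :
    ∃ j : ℕ, j.Coprime m ∧ j ≡ i [MOD n] := by
  have : NeZero m := ⟨hm⟩
  obtain ⟨u, hu⟩ := ZMod.unitsMap_surjective h (ZMod.unitOfCoprime i hi)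
  refine ⟨(u : ZMod m).val, ZMod.val_coe_unit_coprime u, (ZMod.natCast_eq_natCast_iff _ _ _).1 ?_⟩
  simpa [ZMod.unitsMap_def] using congrArg Units.val hu

/-- Strong induction on `orderOf w`.  An element `v` of `zpowers w` has smaller order, or
`v = w ^ i` with `i` prime to the order of `w`; then `i ≡ j` modulo the order for some `j` prime to
`Nat.card H` (`ZMod.unitsMap_surjective`).  So the sum is a positive multiple of `Ψ w`. -/
theorem psi_ind (Z : Subgroup H) (Ψ : H → ℂ)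
    (h1 : ∀ w ∈ Z, ∑ v : H, ind (· ∈ Subgroup.zpowers w) v * Ψ v = 0)
    (h2 : ∀ w ∈ Z, ∀ j : ℕ, j.Coprime (Nat.card H) → Ψ (w ^ j) = Ψ w) : ∀ w ∈ Z, Ψ w = 0 := by
  classical
  intro w hw
  induction hn : orderOf w using Nat.strong_induction_on generalizing w with
  | _ n ih =>
    subst hn
    have key : ∀ v, ind (· ∈ Subgroup.zpowers w) v * Ψ v =
        (if v ∈ Subgroup.zpowers w ∧ orderOf v = orderOf w then 1 else 0) * Ψ w := fun v => by
      by_cases hv : v ∈ Subgroup.zpowers w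
      · have h3 := Nat.le_of_dvd (orderOf_pos w) (orderOf_dvd_of_mem_zpowers hv)
        by_cases ho : orderOf v = orderOf w
        · rw [ind_pos (S := (· ∈ Subgroup.zpowers w)) hv, if_pos ⟨hv, ho⟩]
          obtain ⟨i, rfl⟩ := (mem_powers_iff_mem_zpowers.2 hv : v ∈ Submonoid.powers w)
          have h4 : i.Coprime (orderOf w) := by
            rw [orderOf_pow, Nat.div_eq_self] at ho
            exact Nat.Coprime.symm (ho.resolve_left (orderOf_pos w).ne')
          obtain ⟨j, j1, j2⟩ := gal2_lift Nat.card_pos.ne' (orderOf_dvd_natCard w) h4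
          rw [← h2 w hw j j1, pow_eq_pow_iff_modEq.2 j2]
        · rw [if_neg fun e => ho e.2, zero_mul, ih _ (lt_of_le_of_ne h3 ho) v
            ((Subgroup.zpowers_le.2 hw) hv) rfl, mul_zero]
      · rw [ind_neg (S := (· ∈ Subgroup.zpowers w)) hv, if_neg fun e => hv e.1, zero_mul, zero_mul]
    have h5 := h1 w hw
    simp only [key] at h5
    rw [← sum_mul, sum_boole] at h5
    exact (mul_eq_zero.1 h5).resolve_left (Nat.cast_ne_zero.2 (card_ne_zero.2
      ⟨w, mem_filter.2 ⟨mem_univ _, Subgroup.mem_zpowers w, rfl⟩⟩))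

omit [Fintype H] in
lemma gal2_pow {w x y : H} (hw : ∀ g, g * w = w * g) (h : cm x y = w) (i : ℕ) :
    cm (x ^ i) y = w ^ i := by
  induction i with
  | zero => simp [cm]
  | succ i ih =>
    have e : cm (x * x ^ i) y = x * cm (x ^ i) y * x⁻¹ * cm x y := by unfold cm; group
    rw [pow_succ', e, ih, h, (Commute.pow_right (hw x) i).eq, mul_inv_cancel_right, pow_succ]

open Classical in
/-- Substitute `x ↦ x ^ j` (`powCoprime`).  If `cm x y = w` then `x ^ i * y * (x ^ i)⁻¹ = w ^ i * y`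
by induction; for the converse use an inverse of `j` modulo `Nat.card H`; `eK_congr`. -/
theorem psi_A {w : H} (hw : ∀ g, g * w = w * g) {j : ℕ} (hj : j.Coprime (Nat.card H)) :
    ∑ x : H, ∑ y : H, (if cm x y = w ^ j then (eK p {x, y} ⊤ : ℂ) else 0) =
      ∑ x : H, ∑ y : H, if cm x y = w then (eK p {x, y} ⊤ : ℂ) else 0 := by
  rw [← (powCoprime hj.symm).sum_comp]
  refine sum_congr rfl fun x _ => sum_congr rfl fun y _ => ?_
  obtain ⟨m, hm⟩ := exists_pow_eq_self_of_coprime (hj.coprime_dvd_right (orderOf_dvd_natCard x))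
  have e : powCoprime hj.symm x = x ^ j := rfl
  have hp : ∀ {u : H}, (∀ g, g * u = u * g) → ∀ (i : ℕ) g, g * u ^ i = u ^ i * g :=
    fun hu i g => (Commute.pow_right (hu g) i).eq
  rw [e]
  refine if_congr ⟨fun h => ?_, fun h => gal2_pow hw h j⟩ (congrArg _ (eK_congr fun P _ => ?_)) rfl
  · have h1 := gal2_pow (hp hw j) h m
    rw [hm] at h1
    have h2 := gal2_pow (hp (hp hw j) m) h1 j
    exact h1.trans ((powCoprime hj.symm).injective (h2.symm.trans h))
  · simp only [Set.insert_subset_iff, SetLike.mem_coe]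
    exact and_congr_left' ⟨fun h => hm ▸ pow_mem h m, fun h => pow_mem h j⟩

variable [Fact p.Prime]

omit [Fact p.Prime] in
lemma gal3_cpow (k : ℕ) (g : H) :
    cpow (tau (⊤ : Subgroup H)) k g ∈ (algebraMap ℚ ℂ).range := by
  have h1 : ∀ {X : Type} (S : X → Prop) (x : X), ind S x ∈ (algebraMap ℚ ℂ).range := fun S x => by
    by_cases e : S x
    · rw [ind_pos e]
      exact one_mem _
    · rw [ind_neg e]
      exact zero_mem _
  induction k generalizing g with
  | zero => exact h1 _ _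
  | succ k ih =>
    exact sum_mem fun y _ => mul_mem (sum_mem fun _ _ => sum_mem fun _ _ => h1 _ _) (ih _)

/-- `exists_cod`, `om_tau` (ZE1): the values `om i (tau ⊤) = r i ^ 2` are natural numbers and
`Dz p I i ↔ ¬ p ∣ r i ^ 2`.  Lagrange interpolation over `ℚ` (as in `moment_count`, ZMom) gives
`P : ℚ[X]` with `e1 = ∑ k, P.coeff k • cpow (tau ⊤) k` (`zf_om`, `om_cpow`, `cpow_cf`, `tau_cf`);
`cpow (tau ⊤) k g` lies in the subring `(algebraMap ℚ ℂ).range` by induction. -/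
theorem e1_rat (I : IrrData H) (g : H) : ∃ r : ℚ, e1 p I g = r := by
  classical
  choose r h1 h2 using exists_cod (p := p) I
  have hv : Function.Injective fun n : ℕ => (n : ℚ) ^ 2 := fun a b e =>
    Nat.cast_injective ((pow_left_inj₀ a.cast_nonneg b.cast_nonneg two_ne_zero).1 e)
  obtain ⟨P, hP⟩ : ∃ P : Polynomial ℚ, ∀ i, P.eval ((r i : ℚ) ^ 2) = if p ∣ r i then 0 else 1 :=
    ⟨_, fun i => Lagrange.eval_interpolate_at_node (s := univ.image r)
      (fun n => if p ∣ n then 0 else 1) hv.injOn (mem_image_of_mem r (mem_univ i))⟩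
  have h3 : ∀ i, ind (Dz p I) i =
      ∑ k ∈ range (P.natDegree + 1), (P.coeff k : ℂ) * ((r i : ℂ) ^ 2) ^ k := fun i => by
    have e := congrArg (fun x : ℚ => (x : ℂ)) ((Polynomial.eval_eq_sum_range _).symm.trans (hP i))
    push_cast at e
    rw [e]
    by_cases k : p ∣ r i
    · rw [ind_neg fun e => (h2 i).1 e k, if_pos k, Rat.cast_zero]
    · rw [ind_pos ((h2 i).2 k), if_neg k, Rat.cast_one]
  have h4 : ∀ k, cpow (tau (⊤ : Subgroup H)) k g =
      ∑ i, ((r i : ℂ) ^ 2) ^ k * ((I.d i : ℂ) * I.χ i g⁻¹ / Fintype.card H) := fun k => by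
    rw [← I.zf_om (cpow_cf tau_cf k)]
    refine sum_congr rfl fun i _ => ?_
    beta_reduce
    rw [om_cpow I i tau_cf, om_tau, h1 i, Nat.cast_mul, mul_div_cancel_left₀ _ (I.d_ne i)]
  have h5 : e1 p I g =
      ∑ k ∈ range (P.natDegree + 1), (P.coeff k : ℂ) * cpow (tau (⊤ : Subgroup H)) k g := by
    simp only [e1, IrrData.zf, h3, h4, sum_mul, mul_sum, mul_assoc]
    exact sum_comm
  have h6 : e1 p I g ∈ (algebraMap ℚ ℂ).range := by
    rw [h5]
    exact sum_mem fun k _ => mul_mem (RingHom.mem_range_self (algebraMap ℚ ℂ) _) (gal3_cpow k g)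
  exact h6.imp fun _ e => e.symm

omit [Fact p.Prime] in
lemma EE_top (I : IrrData H) (g : H) : EE p (⊤ : Subgroup H) g = e1 p I g := by
  let _ : Fintype (⊤ : Subgroup H) := Fintype.ofFinite _
  obtain ⟨J⟩ := exists_irrData (⊤ : Subgroup H)
  rw [EE_eq ⊤ J, ext0_pos _ (Subgroup.mem_top g)]
  exact (e1_congr Subgroup.topEquiv J I ⟨g, trivial⟩).symm

omit [Fact p.Prime] in
open Classical in
/-- The total sum at an element that acts by scalars. -/
lemma gal4_sum (I : IrrData H) {v : H} (c : Fin I.n → ℂ) (hc : ∀ i, I.ρ i v = c i • 1) :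
    ∑ x : H, ∑ y : H, e1 p I (cm x y * v⁻¹) = Nat.card H * ∑ i : {i // Dz p I i}, c i := by
  have h1 : ∀ i g, I.χ i (v * g) = c i * I.χ i g := fun i g => by
    rw [IrrData.χ, map_mul, hc, smul_mul_assoc, one_mul, Matrix.trace_smul, smul_eq_mul, IrrData.χ]
  have h2 : ∀ i, ∑ x : H, ∑ y : H, I.χ i (cm y x) = (Nat.card H : ℂ) ^ 2 / I.d i := fun i =>
    sum_comm.trans (sum_chi_comm I i)
  rw [← sum_subtype (univ.filter (Dz p I)) (by simp) c, sum_filter, mul_sum]
  simp only [e1, IrrData.zf, mul_inv_rev, inv_inv, cm_inv, h1]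
  rw [sum_congr rfl fun x _ => sum_comm, sum_comm]
  refine sum_congr rfl fun i _ => ?_
  simp only [← mul_sum, ← sum_div, h2]
  have h3 := I.d_ne i
  have h4 : (Fintype.card H : ℂ) ≠ 0 := Nat.cast_ne_zero.2 Fintype.card_ne_zero
  rw [Nat.card_eq_fintype_card, ind]
  split_ifs
  · field_simp
  · simp

/-- For central `w` put `lam i w = I.om i (ind (· = w)) = χ i w / d i`; it is multiplicative in `w`
(`om_conv`), so `lam i w ^ card H = 1`.  `∑ x y, e1 (cm x y * w⁻¹) = card H * ∑ over Dz of lam i w`: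
unfold `e1`, `zf`; `χ i (w * g) = lam i w * χ i g` (`fourier_cf` for `ind (· = w)`: `ρ i w` is the
scalar `lam i w`), `cm_inv`, `sum_chi_comm`.  The left side is rational (`e1_rat`); `gal_sum` on
the subtype of `Dz p I`. -/
theorem psi_Z {w : H} (hw : ∀ g, g * w = w * g) {j : ℕ} (hj : j.Coprime (Nat.card H)) :
    ∑ x : H, ∑ y : H, EE p ⊤ (cm x y * (w ^ j)⁻¹) = ∑ x : H, ∑ y : H, EE p ⊤ (cm x y * w⁻¹) := by
  classical
  obtain ⟨I⟩ := exists_irrData H
  have hf : IsCF (ind (· = w) : H → ℂ) := isCF_ind fun a g => by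
    rw [mul_inv_eq_iff_eq_mul, ← hw a, mul_right_inj]
  have h1 : ∀ i, I.ρ i w = I.om i (ind (· = w)) • 1 := fun i => by
    rw [← I.fourier_cf hf i, sum_eq_single w (fun g _ hg => by
      rw [ind_neg (S := (· = w)) hg, zero_smul]) (by simp), ind_pos (S := (· = w)) rfl, one_smul]
  have h2 : ∀ m i, I.ρ i (w ^ m) = I.om i (ind (· = w)) ^ m • 1 := fun m i => by
    rw [map_pow, h1, smul_pow, one_pow]
  have h3 : ∀ i, I.om i (ind (· = w)) ^ Nat.card H = 1 := fun i => by
    have h4 := h2 (Nat.card H) i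
    rw [pow_card_eq_one', map_one] at h4
    simpa using (congrFun (congrFun h4 ⟨0, I.pos i⟩) ⟨0, I.pos i⟩).symm
  have h0 : Nat.card H ≠ 0 := Nat.card_pos.ne'
  choose r hr using e1_rat (p := p) I
  have h5 := gal4_sum (p := p) I _ h1
  simp only [EE_top I]
  rw [gal4_sum I _ (h2 j), h5]
  refine congrArg _ (gal_sum (fun i : {i // Dz p I i} => I.om i (ind (· = w))) h0
    (fun i => h3 i) (r := (∑ x : H, ∑ y : H, r (cm x y * w⁻¹)) / Nat.card H) ?_ hj)
  push_cast
  rw [eq_div_iff (Nat.cast_ne_zero.2 h0), mul_comm, ← h5]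
  simp only [hr]

/-- The total twisted sum. -/
noncomputable def Psi (p : ℕ) {H : Type} [Group H] [Fintype H] (w : H) : ℂ :=
  ∑ x : H, ∑ y : H, tz p ⊤ w x y

theorem Psi_pow {w : H} (hw : ∀ g, g * w = w * g) {j : ℕ} (hj : j.Coprime (Nat.card H)) :
    Psi p (w ^ j) = Psi p w := by
  simp only [Psi, tz, sum_sub_distrib]
  rw [psi_Z hw hj]
  congr 1
  convert psi_A (p := p) hw hj

end Pool.Agent.Lib.MP_b6945b_al.Ip
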