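import Pool.Agent.Lib.MP_b6945b_al.As.AFin

set_option autoImplicit false

/-!
Groups all of whose class defect groups are abelian and of small rank or large order, and their
central extensions with kernel of order prime to `p`.
-/

namespace Pool.Agent.Lib.MP_b6945b_al.Ip

open St Bi Kx

/-- `D` is abelian with at most `p ^ n` solutions of `x ^ p = 1`. -/
def AbG (p n : ℕ) (D : Type) [Group D] : Prop :=
  (∀ x y : D, x * y = y * x) ∧ Nat.card {x : D // x ^ p = 1} ≤ p ^ n

/-- `D` is abelian and `N(D) / C(D)` has order at most `n`. -/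
def AutG (n : ℕ) {A : Type} [Group A] (D : Subgroup A) : Prop :=
  (∀ x ∈ D, ∀ y ∈ D, x * y = y * x) ∧
    (Subgroup.centralizer (D : Set A)).relIndex (Subgroup.normalizer (D : Set A)) ≤ n

/-- All class defect groups are abelian, and of rank at most two, or large of rank at most `n`, or
with automizer of order at most `n` if `p` is large. -/
def TameG (p n q N : ℕ) (A : Type) [Group A] : Prop :=
  ∀ (x : A) (D : Sylow p (Subgroup.centralizer {x})),
    AbG p 2 D.toSubgroup ∨ (AbG p n D.toSubgroup ∧ N < Nat.card D.toSubgroup) ∨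
      (q < p ∧ AutG n (D.toSubgroup.map (Subgroup.centralizer {x}).subtype))

lemma AbG.of_inj {p n : ℕ} {D E : Type} [Group D] [Group E] [Finite E] (φ : D →* E)
    (hφ : Function.Injective φ) (h : AbG p n E) : AbG p n D :=
  ⟨fun x y => hφ (by rw [map_mul, map_mul, h.1]),
    (Nat.card_le_card_of_injective
      (fun x : {x : D // x ^ p = 1} =>
        (⟨φ x.1, by rw [← map_pow, x.2, map_one]⟩ : {x : E // x ^ p = 1}))
      fun _ _ e => Subtype.ext (hφ (congrArg Subtype.val e))).trans h.2⟩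

theorem KR_tame (n : ℕ) : ∃ q : ℕ, ∀ p : ℕ, p.Prime → ∃ N : ℕ,
    ∀ (H : Type) [Group H] [Finite H], TameG p n q N H → KR p H := by
  classical
  obtain ⟨q, hq⟩ := kr_sum_bounded n
  refine ⟨q, fun p hp => ?_⟩
  obtain ⟨N, hN⟩ := KS_large p hp n
  refine ⟨N, fun H _ _ h2 => ?_⟩
  obtain ⟨M, hM, hpM⟩ := exists_max_ideal p hp
  refine (KR_iff p H).2 (krc_of_blocks p hp H M hM hpM fun χ hχ D hD h0 => ?_)
  obtain ⟨x, -, S, rfl⟩ := hD.1
  have e := (S : Subgroup (Subgroup.centralizer {x})).equivMapOfInjective _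
    (Subgroup.centralizer {x}).subtype_injective
  rcases h2 x S with h | ⟨h, h'⟩ | ⟨h, a, b⟩
  · obtain ⟨a, b⟩ := h.of_inj e.symm.toMonoidHom e.symm.injective
    exact KS_two p hp H M hM hpM χ hχ _ hD h0
      (fun u hu v hv => congrArg Subtype.val (a ⟨u, hu⟩ ⟨v, hv⟩)) b
  · obtain ⟨a, b⟩ := h.of_inj e.symm.toMonoidHom e.symm.injective
    exact hN H M hM hpM χ hχ _ hD
      (fun u hu v hv => congrArg Subtype.val (a ⟨u, hu⟩ ⟨v, hv⟩)) b
      (Nat.card_congr e.toEquiv ▸ h')
  · let _ : Fintype (Finset (Subgroup H)) := Fintype.ofFinite _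
    generalize (S : Subgroup (Subgroup.centralizer {x})).map
      (Subgroup.centralizer {x}).subtype = D at hD h0 a b
    have h1 := hq p hp h H M hM hpM χ hχ D hD h0 a fun ψ _ _ => by
      have hle := Subgroup.centralizer_le_normalizer (D : Set H)
      refine le_trans (b := Nat.card (Subgroup.normalizer (D : Set H)))
        (Finite.card_le_of_embedding (Subtype.impEmbedding _ _ fun _ h => h.1)) ?_
      rw [← ((Subgroup.centralizer (D : Set H)).subgroupOf _).index_mul_card,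
        Nat.card_congr (Subgroup.subgroupOfEquivOfLe hle).toEquiv]
      exact Nat.mul_le_mul_right _ b
    rwa [finsum_eq_chain, ← KS_eq] at h1

/-- The order of the centraliser of `κ x` divides `|C(x)| * |ker κ|`. -/
lemma card_cent_dvd {H A : Type} [Group H] [Finite H] [Group A] (κ : H →* A)
    (h1 : Function.Surjective κ) (h2 : κ.ker ≤ Subgroup.center H) (x : H) :
    Nat.card (Subgroup.centralizer {κ x}) ∣
      Nat.card (Subgroup.centralizer {x}) * Nat.card κ.ker := by
  set U := (Subgroup.centralizer {κ x}).comap κ with hU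
  have hm : ∀ u : U, u.1 * x * u.1⁻¹ * x⁻¹ ∈ κ.ker := fun u => by
    have : κ u.1 * κ x = κ x * κ u.1 := Subgroup.mem_centralizer_singleton_iff.1 u.2
    rw [MonoidHom.mem_ker, map_mul, map_mul, map_mul, this, map_inv, map_inv]
    group
  let ψ : U →* κ.ker := MonoidHom.mk' (fun u => ⟨_, hm u⟩) fun u v => Subtype.ext (by
    have := Subgroup.mem_center_iff.1 (h2 (hm v))
    change (u.1 * v.1) * x * (u.1 * v.1)⁻¹ * x⁻¹ =
      (u.1 * x * u.1⁻¹ * x⁻¹) * (v.1 * x * v.1⁻¹ * x⁻¹)
    calc (u.1 * v.1) * x * (u.1 * v.1)⁻¹ * x⁻¹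
        = u.1 * ((v.1 * x * v.1⁻¹ * x⁻¹) * (x * u.1⁻¹ * x⁻¹)) := by group
      _ = _ := by rw [← this]; group)
  have a1 : Nat.card (Subgroup.centralizer {κ x}) ∣ Nat.card U := by
    have := Subgroup.card_map_dvd U κ
    rwa [hU, Subgroup.map_comap_eq_self_of_surjective h1] at this
  have a2 : Nat.card ψ.ker ∣ Nat.card (Subgroup.centralizer {x}) := by
    rw [← Subgroup.card_map_of_injective (K := ψ.ker) U.subtype_injective]
    refine Subgroup.card_dvd_of_le ?_
    rintro _ ⟨u, hu, rfl⟩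
    have : u.1 * x * u.1⁻¹ * x⁻¹ = 1 := congrArg Subtype.val (MonoidHom.mem_ker.1 hu)
    refine Subgroup.mem_centralizer_singleton_iff.2 ?_
    change u.1 * x = x * u.1
    calc u.1 * x = (u.1 * x * u.1⁻¹ * x⁻¹) * (x * u.1) := by group
      _ = _ := by rw [this, one_mul]
  refine a1.trans ?_
  rw [← ψ.ker.card_mul_index, Subgroup.index_ker]
  exact Nat.mul_dvd_mul a2 (Subgroup.card_subgroup_dvd_card _)

lemma AutG.cover {n : ℕ} {H A : Type} [Group H] [Group A] [Finite A] (κ : H →* A)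
    {D : Subgroup H} (hi : ∀ d ∈ D, κ d = 1 → d = 1) (h : AutG n (D.map κ)) : AutG n D := by
  refine ⟨fun x hx y hy => mul_inv_eq_one.1 (hi _ (D.mul_mem (D.mul_mem hx hy)
    (D.inv_mem (D.mul_mem hy hx))) ?_), le_trans ?_ h.2⟩
  · rw [map_mul, map_inv, map_mul, map_mul, h.1 _ ⟨x, hx, rfl⟩ _ ⟨y, hy, rfl⟩, mul_inv_cancel]
  have e : Subgroup.centralizer (D : Set H) ⊓ Subgroup.normalizer (D : Set H) =
      (Subgroup.centralizer (D.map κ : Set A)).comap κ ⊓ Subgroup.normalizer (D : Set H) := by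
    refine le_antisymm (fun g hg => ⟨fun _ ⟨d, hd, e⟩ => by
      rw [← e, ← map_mul, ← map_mul, hg.1 d hd], hg.2⟩) fun g hg => ⟨fun d hd => ?_, hg.2⟩
    · have h1 := hi (d * (g * d * g⁻¹)⁻¹) (D.mul_mem hd (D.inv_mem
        ((Subgroup.mem_normalizer_iff.1 hg.2 d).1 hd))) (by
          rw [map_mul, map_inv, map_mul, map_mul, map_inv, ← hg.1 _ ⟨d, hd, rfl⟩]
          group)
      exact eq_mul_inv_iff_mul_eq.1 (mul_inv_eq_one.1 h1)
  rw [← Subgroup.inf_relIndex_right, e, Subgroup.inf_relIndex_right, Subgroup.relIndex_comap]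
  exact Subgroup.relIndex_le_of_le_right (Subgroup.le_normalizer_map κ)
    Subgroup.index_ne_zero_of_finite

lemma TameG.cover {p n q N : ℕ} [hp : Fact p.Prime] {H A : Type} [Group H] [Finite H] [Group A]
    [Finite A] (κ : H →* A) (h1 : Function.Surjective κ) (h2 : κ.ker ≤ Subgroup.center H)
    (h3 : ¬ p ∣ Nat.card κ.ker) (h : TameG p n q N A) : TameG p n q N H := by
  intro x D
  let φ : Subgroup.centralizer {x} →* Subgroup.centralizer {κ x} :=
    (κ.comp (Subgroup.centralizer {x}).subtype).codRestrict _ fun u =>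
      Subgroup.mem_centralizer_singleton_iff.2 (by
        have : u.1 * x = x * u.1 := Subgroup.mem_centralizer_singleton_iff.1 u.2
        change κ u.1 * κ x = κ x * κ u.1
        rw [← map_mul, this, map_mul])
  obtain ⟨T, hT⟩ := (D.isPGroup'.map φ).exists_le_sylow
  let θ : D.toSubgroup →* T.toSubgroup :=
    (φ.comp D.toSubgroup.subtype).codRestrict _ fun u => hT (Subgroup.mem_map_of_mem φ u.2)
  have hθ : Function.Injective θ := by
    refine (injective_iff_map_eq_one θ).2 fun u hu => ?_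
    have hk : u.1.1 ∈ κ.ker := congrArg (fun t : T.toSubgroup => t.1.1) hu
    obtain ⟨k, hk'⟩ := IsPGroup.iff_orderOf.1 D.isPGroup' u
    have e : orderOf u ∣ Nat.card κ.ker := by
      rw [← Subgroup.orderOf_coe, ← Subgroup.orderOf_coe]
      exact Subgroup.orderOf_dvd_natCard _ hk
    rcases k with _ | k
    · exact orderOf_eq_one_iff.1 (by rw [hk', pow_zero])
    · exact absurd ((dvd_pow_self p k.succ_ne_zero).trans (hk' ▸ e)) h3
  have hc : Nat.card T.toSubgroup ≤ Nat.card D.toSubgroup := by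
    obtain ⟨j, hj⟩ := IsPGroup.iff_card.1 T.isPGroup'
    have b1 := (Subgroup.card_subgroup_dvd_card T.toSubgroup).trans (card_cent_dvd κ h1 h2 x)
    rw [hj] at b1 ⊢
    have b2 := (Nat.Coprime.pow_left j
      ((Nat.Prime.coprime_iff_not_dvd hp.out).2 h3)).dvd_of_dvd_mul_right b1
    exact Nat.le_of_dvd Nat.card_pos (D.pow_dvd_card_of_pow_dvd_card b2)
  refine (h (κ x) T).imp (AbG.of_inj θ hθ) (Or.imp (fun ⟨a, b⟩ => ⟨a.of_inj θ hθ, b.trans_le hc⟩)
    (And.imp_right fun a => AutG.cover κ ?_ ?_))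
  · rintro _ ⟨d, hd, rfl⟩ e
    exact congrArg (fun t : D.toSubgroup => t.1.1) ((injective_iff_map_eq_one θ).1 hθ ⟨d, hd⟩
      (Subtype.ext (Subtype.ext e)))
  · have hs : Function.Surjective θ := ((Nat.bijective_iff_injective_and_card θ).2
      ⟨hθ, le_antisymm (Nat.card_le_card_of_injective θ hθ) hc⟩).2
    convert a using 1
    refine le_antisymm ?_ ?_
    · rintro _ ⟨_, ⟨d, hd, rfl⟩, rfl⟩
      exact ⟨φ d, (θ ⟨d, hd⟩).2, rfl⟩
    · rintro _ ⟨t, ht, rfl⟩
      obtain ⟨d, e⟩ := hs ⟨t, ht⟩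
      exact ⟨_, ⟨d, d.2, rfl⟩, congrArg (fun t : T.toSubgroup => t.1.1) e⟩

/-- If a normal subgroup of index prime to `p` has abelian Sylow subgroups of rank at most two,
the group is tame. -/
lemma tame_of_small {p : ℕ} [hp : Fact p.Prime] (n q N : ℕ) {A : Type} [Group A] [Finite A]
    (S : Subgroup A) [S.Normal] (hi : ¬ p ∣ S.index) (P : Sylow p S)
    (hc : ∀ x ∈ P.toSubgroup, ∀ y ∈ P.toSubgroup, x * y = y * x)
    (hr : Group.rank P.toSubgroup ≤ 2) : TameG p n q N A := by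
  intro x D
  have hm : ∀ u : D.toSubgroup, u.1.1 ∈ S := fun u => by
    obtain ⟨k, hk⟩ := D.isPGroup' u
    have e : (u.1.1 : A) ^ p ^ k = 1 := congrArg (fun t : D.toSubgroup => t.1.1) hk
    have c : (p ^ k).Coprime S.index :=
      Nat.Coprime.pow_left k ((Nat.Prime.coprime_iff_not_dvd hp.out).2 hi)
    rw [← QuotientGroup.eq_one_iff, ← orderOf_eq_one_iff]
    refine Nat.eq_one_of_dvd_coprimes c (orderOf_dvd_of_pow_eq_one ?_) (orderOf_dvd_natCard _)
    rw [← QuotientGroup.mk_pow, e, QuotientGroup.mk_one]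
  let θ : D.toSubgroup →* S :=
    ((Subgroup.centralizer {x}).subtype.comp D.toSubgroup.subtype).codRestrict _ hm
  have hθ : Function.Injective θ := fun u v e =>
    Subtype.ext (Subtype.ext (congrArg (fun t : S => t.1) e))
  obtain ⟨a, b⟩ := sub_of_sylow hp.out θ hθ P hc hr ⊤ (D.isPGroup'.to_subgroup ⊤)
  exact Or.inl ⟨fun u v => a u trivial v trivial, (om1_congr Subgroup.topEquiv).symm.trans_le b⟩

/-- A subgroup of a section is a section. -/
lemma sec_sub {G A : Type} [Group G] [Group A] (S : Subgroup A)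
    (h : ∃ (B : Subgroup G) (φ : B →* A), Function.Surjective φ) :
    ∃ (B : Subgroup G) (φ : B →* S), Function.Surjective φ := by
  obtain ⟨B, φ, hφ⟩ := h
  have e := (S.comap φ).equivMapOfInjective _ B.subtype_injective
  exact ⟨_, (φ.subgroupComap S).comp e.symm.toMonoidHom,
    (φ.subgroupComap_surjective_of_surjective S hφ).comp e.symm.surjective⟩

/-- The reduction, with the tame almost simple groups removed from the hypothesis. -/
theorem reduction7 (n : ℕ) : ∃ q : ℕ, ∀ p : ℕ, p.Prime → ∃ N : ℕ,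
    ∀ (G : Type) [Group G] [Finite G],
    (∀ (A : Type) [Group A] [Finite A] (S : Subgroup A) [S.Normal], IsSimpleGroup S →
      (∃ x ∈ S, ∃ y ∈ S, x * y ≠ y * x) → Subgroup.centralizer (S : Set A) = ⊥ →
      (∀ x y : A ⧸ S, x * y = y * x) → ¬ p ∣ S.index → Group.rank (A ⧸ S) ≤ 2 →
      (∃ (B : Subgroup G) (φ : B →* A), Function.Surjective φ) → ¬ TameG p n q N A →
      ∀ (H : Type) [Group H] [Finite H] (κ : H →* A), (Function.Surjective κ ∧
        κ.ker ≤ Subgroup.center H ∧ κ.ker ≤ commutator H ∧ IsCyclic κ.ker ∧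
        ¬ p ∣ Nat.card κ.ker) → KR p H) → KR p G := by
  obtain ⟨q, hq⟩ := KR_tame n
  refine ⟨q, fun p hp => ?_⟩
  have : Fact p.Prime := ⟨hp⟩
  obtain ⟨N, hN⟩ := hq p hp
  refine ⟨N, fun G _ _ h => reduction6 fun A _ _ S _ a1 a2 a3 a4 a5 a6 a7 _ H _ _ κ b => ?_⟩
  by_cases t : TameG p n q N A
  · exact hN H (t.cover κ b.1 b.2.1 b.2.2.2.2)
  · exact h A S a1 a2 a3 a4 a5 a6 a7 t H κ b

end Pool.Agent.Lib.MP_b6945b_al.Ip
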