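import Pool.Agent.Lib.MP_b6945b_al.As.ADefs
import Pool.Agent.Lib.MP_b6945b_al.Ip.Prod

set_option autoImplicit false

/-!
Push forward along homomorphisms whose kernel is central and of order prime to `p`.
-/

namespace Pool.Agent.Lib.MP_b6945b_al.Ip

open Finset

variable {A B : Type} [Group A] [Group B] {p : ℕ}

/-- The kernel of `k` on `L` is central in `L` and of exponent prime to `p`. -/
def KerP (p : ℕ) (k : A →* B) (L : Subgroup A) : Prop :=
  ∃ t, ¬ p ∣ t ∧ ∀ z ∈ L, k z = 1 → z ^ t = 1 ∧ ∀ g ∈ L, g * z = z * g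

lemma CenP.kerP {k : A →* B} (h : CenP p k.ker) (L : Subgroup A) : KerP p k L :=
  h.imp fun _ e => ⟨e.1, fun z _ hz => ⟨(e.2 z hz).1, fun g _ => (e.2 z hz).2 g⟩⟩

lemma kerP_of_inj [Fact p.Prime] {k : A →* B} {L : Subgroup A} (h : ∀ z ∈ L, k z = 1 → z = 1) :
    KerP p k L :=
  ⟨1, (Fact.out : p.Prime).not_dvd_one, fun z hz e => by simp [h z hz e]⟩

lemma cm_formula {L : Subgroup A} {a b d x y : A} (ha : a ∈ Nr L) (hb : b ∈ Nr L) (hd : d ∈ Cr L)
    (hc : cm a b * d⁻¹ ∈ L) (hx : x * a⁻¹ ∈ L) (hy : y * b⁻¹ ∈ L) : cm x y * d⁻¹ ∈ L := by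
  have h1 := (Subgroup.mem_normalizer_iff.1 ha _).1 hy
  have h2 := L.mul_mem ((Subgroup.mem_normalizer_iff.1 hb _).1 (L.inv_mem hx)) (L.inv_mem hy)
  have h3 := (Cr L).inv_mem hd _ h2
  have e : cm x y * d⁻¹ = x * a⁻¹ * (a * (y * b⁻¹) * a⁻¹) * cm a b *
      (b * (x * a⁻¹)⁻¹ * b⁻¹ * (y * b⁻¹)⁻¹ * d⁻¹) := by unfold cm; group
  rw [e, h3, ← mul_assoc, mul_assoc _ (cm a b)]
  exact L.mul_mem (L.mul_mem (L.mul_mem hx h1) hc) h2

variable [Fintype A] [Fintype B]

/-- Galois connections preserve `eK`.  As `prod_push` (Prod) with `c = 1`: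
`F Q = ∑ P with α P = Q of mu P` satisfies the recursion of `mu_unique_le` (PCrapo) below `T'`
because `∑ over Q' ≤ Q of F Q' = eK K (β Q)` (`eK_eq_sum`, `eK_self`). -/
theorem eK_gal {K : Set A} {K' : Set B} {T : Subgroup A} {T' : Subgroup B}
    (α : Subgroup A → Subgroup B) (β : Subgroup B → Subgroup A)
    (h1 : ∀ P, KP p K P → P ≤ T → KP p K' (α P) ∧ α P ≤ T')
    (h2 : ∀ Q, KP p K' Q → Q ≤ T' → KP p K (β Q) ∧ β Q ≤ T ∧ (β Q = ⊥ ↔ Q = ⊥))
    (h3 : ∀ P Q, KP p K P → P ≤ T → KP p K' Q → Q ≤ T' → (α P ≤ Q ↔ P ≤ β Q)) :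
    eK p K T = eK p K' T' := by
  classical
  let F : Subgroup B → ℤ := fun R =>
    ∑ P : Subgroup A, if α P = R then (if KP p K P ∧ P ≤ T then mu p K P else 0) else 0
  have h4 : ∀ Q : Subgroup B, ∑ R, (if KP p K' R ∧ R ≤ Q then F R else 0) =
      ∑ P, if (KP p K P ∧ P ≤ T) ∧ α P ≤ Q then mu p K P else 0 := fun Q => by
    have h5 : ∀ R, (if KP p K' R ∧ R ≤ Q then F R else 0) = ∑ P : Subgroup A,
        if α P = R then (if (KP p K P ∧ P ≤ T) ∧ α P ≤ Q then mu p K P else 0) else 0 := by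
      intro R
      split_ifs with a
      · exact sum_congr rfl fun P _ => if_ctx_congr Iff.rfl
          (fun e => if_congr (and_iff_left (e.le.trans a.2)).symm rfl rfl) fun _ => rfl
      · refine (sum_eq_zero fun P _ => ?_).symm
        split_ifs with e b
        · exact (a ⟨e ▸ (h1 P b.1.1 b.1.2).1, e ▸ b.2⟩).elim
        · rfl
        · rfl
    rw [sum_congr rfl fun R _ => h5 R, sum_comm]
    exact sum_congr rfl fun P _ => by rw [sum_ite_eq, if_pos (mem_univ _)]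
  have h6 : ∀ R, KP p K' R → R ≤ T' → F R = mu p K' R := fun R hR hT => by
    refine mu_unique_le T' F (fun Q hQ hT => ?_) hR hT
    obtain ⟨b1, b2, b3⟩ := h2 Q hQ hT
    have h7 := (eK_eq_sum K (β Q)).symm.trans (eK_self b1)
    refine ((h4 Q).trans (sum_congr rfl fun P _ => if_congr ?_ rfl rfl)).trans
      (h7.trans (if_congr b3 rfl rfl))
    exact ⟨fun e => ⟨e.1.1, (h3 P Q e.1.1 e.1.2 hQ hT).1 e.2⟩, fun e =>
      ⟨⟨e.1, e.2.trans b2⟩, (h3 P Q e.1 (e.2.trans b2) hQ hT).2 e.2⟩⟩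
  rw [eK_eq_sum, eK_eq_sum]
  refine ((sum_congr rfl fun P _ => if_congr ?_ rfl rfl).trans (h4 T').symm).trans
    (sum_congr rfl fun R _ => if_ctx_congr Iff.rfl (fun e => h6 R e.1 e.2) fun _ => rfl)
  exact ⟨fun e => ⟨e, (h1 P e.1 e.2).2⟩, fun e => e.1⟩

variable [Fact p.Prime]

omit [Fintype A] in
lemma quo2_one {u : A} (hu : IsPElt p u) {t : ℕ} (ht : ¬ p ∣ t) (h : u ^ t = 1) : u = 1 := by
  obtain ⟨j, hj⟩ := hu
  exact orderOf_eq_one_iff.1 (Nat.eq_one_of_dvd_coprimes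
    (((Nat.Prime.coprime_iff_not_dvd Fact.out).2 ht).pow_left j)
    (orderOf_dvd_of_pow_eq_one hj) (orderOf_dvd_of_pow_eq_one h))

omit [Fintype A] [Fintype B] in
lemma quo2_uniq {k : A →* B} {L : Subgroup A} (h : KerP p k L) {u v : A} (hu : u ∈ L)
    (hv : v ∈ L) (h1 : IsPElt p u) (h2 : IsPElt p v) (e : k u = k v) : u = v := by
  obtain ⟨t, ht, h⟩ := h
  obtain ⟨h3, h4⟩ := h (u⁻¹ * v) (L.mul_mem (L.inv_mem hu) hv) (by simp [e])
  obtain ⟨i, hi⟩ := h1
  obtain ⟨j, hj⟩ := h2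
  have h5 := Commute.mul_pow (h4 u hu) (p ^ (i + j))
  rw [mul_inv_cancel_left, pow_add, pow_mul u, hi, one_pow, one_mul, mul_comm (p ^ i), pow_mul v,
    hj, one_pow, ← pow_add] at h5
  exact inv_mul_eq_one.1 (quo2_one ⟨_, h5.symm⟩ ht h3)

omit [Fintype B] in
/-- Unique lifting of `p`-elements.  Existence: `exists_parts`, `eq_one_of_reg` in `B`.
Uniqueness: `v = u * z` with `z` in the kernel, `z` is a `p`-element with `z ^ t = 1`. -/
lemma KerP.lift {k : A →* B} {L : Subgroup A} (h : KerP p k L) {g : A} (hg : g ∈ L)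
    (hp : IsPElt p (k g)) : ∃! u, u ∈ L ∧ IsPElt p u ∧ k u = k g := by
  obtain ⟨u, s, h1, h2, h3, ⟨n, h4⟩, h5⟩ := exists_parts p g
  have hu : u ∈ L := Subgroup.zpowers_le.2 hg h3
  have h6 : k s = 1 := by
    obtain ⟨j, hj⟩ := hp
    refine quo2_one ⟨j, ?_⟩ h2 (by rw [← map_pow, pow_orderOf_eq_one, map_one])
    have h7 : g ^ n = s := h4
    rw [← h7, map_zpow, ← zpow_natCast, ← zpow_mul, mul_comm, zpow_mul, zpow_natCast, hj,
      one_zpow]
  have h8 : k u = k g := by rw [← h5, map_mul, h6, mul_one]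
  exact ⟨u, ⟨hu, h1, h8⟩, fun v hv => quo2_uniq h hv.1 hu hv.2.1 h1 (hv.2.2.trans h8.symm)⟩

omit [Fintype B] in
/-- The `p`-elements of `E = L ⊓ Q.comap k` form a subgroup: a Sylow `p`-subgroup `S` of `E` maps
onto `Q ⊓ L.map k` (the image of `E` is a `p`-group), so by `KerP.lift` every `p`-element of `E`
lies in `S`. -/
lemma KerP.syl {k : A →* B} {L : Subgroup A} (h : KerP p k L) {Q : Subgroup B}
    (hQ : IsPGroup p Q) : ∃ P : Subgroup A, ∀ u, u ∈ P ↔ u ∈ L ∧ IsPElt p u ∧ k u ∈ Q := by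
  obtain ⟨S⟩ : Nonempty (Sylow p (L ⊓ Q.comap k : Subgroup A)) := inferInstance
  let φ := k.comp (L ⊓ Q.comap k).subtype
  have h1 : IsPGroup p φ.range := hQ.to_le (by
    rintro _ ⟨g, rfl⟩
    exact g.2.2)
  have h2 := (S.mapSurjective φ.rangeRestrict_surjective).is_maximal'
    (h1.to_subgroup ⊤) le_top
  have h3 : ∀ s ∈ (S : Subgroup (L ⊓ Q.comap k : Subgroup A)), IsPElt p (s : A) := fun s hs =>
    (isPElt_of_mem S.isPGroup' hs).imp fun _ e => congrArg Subtype.val e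
  refine ⟨(S : Subgroup (L ⊓ Q.comap k : Subgroup A)).map (L ⊓ Q.comap k).subtype, fun u =>
    ⟨?_, fun hu => ?_⟩⟩
  · rintro ⟨s, hs, rfl⟩
    exact ⟨s.2.1, h3 s hs, s.2.2⟩
  · obtain ⟨s, hs, e⟩ : φ.rangeRestrict ⟨u, hu.1, hu.2.2⟩ ∈
        (S : Subgroup (L ⊓ Q.comap k : Subgroup A)).map φ.rangeRestrict :=
      h2.le (Subgroup.mem_top _)
    exact ⟨s, hs, quo2_uniq h s.2.1 hu.1 (h3 s hs) hu.2.1 (congrArg Subtype.val e)⟩

/-- `eK_gal` with `α P = P.map k` (`prod_KP_map`, `Set.image_pair`) and `β Q` from `KerP.syl`. -/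
theorem eK_push {k : A →* B} {L : Subgroup A} (h : KerP p k L) {x y : A} (hx : x ∈ Nr L)
    (hy : y ∈ Nr L) : eK p {k x, k y} (L.map k) = eK p {x, y} L := by
  have h0 : ∀ Q : Subgroup B, ∃ P : Subgroup A, IsPGroup p Q →
      ∀ u, u ∈ P ↔ u ∈ L ∧ IsPElt p u ∧ k u ∈ Q := fun Q => by
    by_cases hQ : IsPGroup p Q
    · exact (h.syl hQ).imp fun _ e _ => e
    · exact ⟨⊥, fun e => absurd e hQ⟩
  choose β hβ using h0
  refine (eK_gal (fun P => P.map k) β (fun P hP hL => ⟨?_, Subgroup.map_mono hL⟩)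
    (fun Q hQ hL => ⟨⟨fun u => ?_, ?_⟩, fun u hu => ((hβ Q hQ.1 u).1 hu).1, fun e => ?_,
      fun e => ?_⟩) fun P Q hP hL hQ _ => ?_).symm
  · rw [← Set.image_pair]
    exact prod_KP_map k hP
  · exact ((hβ Q hQ.1 u).1 u.2).2.1.imp fun _ e => Subtype.ext e
  · have key : ∀ g ∈ Nr L, k g ∈ Nr Q → g ∈ Nr (β Q) := fun g h1 h2 =>
      Subgroup.mem_normalizer_iff.2 fun u => by
        rw [hβ Q hQ.1, hβ Q hQ.1, isPElt_conj, map_mul, map_mul, map_inv,
          ← Subgroup.mem_normalizer_iff.1 h1 u, ← Subgroup.mem_normalizer_iff.1 h2 (k u)]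
    rintro _ (rfl | rfl)
    · exact key _ hx (hQ.2 (Set.mem_insert _ _))
    · exact key _ hy (hQ.2 (Set.mem_insert_of_mem _ rfl))
  · refine eq_bot_iff.2 fun q hq => ?_
    obtain ⟨g, hg, rfl⟩ := hL hq
    obtain ⟨u, ⟨h1, h2, h3⟩, -⟩ := h.lift hg (isPElt_of_mem hQ.1 hq)
    have h4 := (hβ Q hQ.1 u).2 ⟨h1, h2, h3 ▸ hq⟩
    rw [e, Subgroup.mem_bot] at h4
    rw [← h3, h4, map_one]
    exact Subgroup.one_mem _
  · refine eq_bot_iff.2 fun u hu => ?_
    obtain ⟨h1, h2, h3⟩ := (hβ Q hQ.1 u).1 hu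
    rw [e, Subgroup.mem_bot] at h3
    exact quo2_uniq h h1 L.one_mem h2 ⟨0, one_pow _⟩ (h3.trans (map_one k).symm)
  · rw [Subgroup.map_le_iff_le_comap]
    exact ⟨fun e u hu => (hβ Q hQ.1 u).2 ⟨hL hu, isPElt_of_mem hP.1 hu, e hu⟩,
      fun e u hu => ((hβ Q hQ.1 u).1 (e hu)).2.2⟩

theorem eK_quot (k : A →* B) (h : CenP p k.ker) (L : Subgroup A) {x y : A} (hx : x ∈ Nr L)
    (hy : y ∈ Nr L) : eK p {k x, k y} (L.map k) = eK p {x, y} L := eK_push (h.kerP L) hx hy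

open Classical in
/-- Push forward of functions. -/
noncomputable def psh (k : A →* B) (f : A → ℂ) (b : B) : ℂ := ∑ a : A, if k a = b then f a else 0

omit [Fact p.Prime] in
lemma quo3_sum (k : A →* B) (f : A → ℂ) (F : B → ℂ) :
    ∑ c, psh k f c * F c = ∑ a, f a * F (k a) := by
  classical
  simp only [psh, sum_mul, ite_mul, zero_mul]
  rw [sum_comm]
  exact sum_congr rfl fun a _ => by rw [sum_ite_eq, if_pos (mem_univ _)]

omit [Fact p.Prime] in
lemma psh_conv (k : A →* B) (f g : A → ℂ) : psh k (conv f g) = conv (psh k f) (psh k g) := by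
  classical
  funext b
  rw [conv, quo3_sum k f fun c => psh k g (c⁻¹ * b)]
  have h1 : ∀ a, (if k a = b then conv f g a else 0) =
      ∑ y, f y * if k a = b then g (y⁻¹ * a) else 0 := fun a => by
    split_ifs
    · rfl
    · simp
  rw [psh, sum_congr rfl fun a _ => h1 a, sum_comm]
  refine sum_congr rfl fun y _ => ?_
  rw [← mul_sum, psh, ← Equiv.sum_comp (Equiv.mulLeft y)]
  refine congrArg _ (sum_congr rfl fun z _ => if_congr ?_ ?_ rfl)
  · rw [Equiv.coe_mulLeft, map_mul, eq_inv_mul_iff_mul_eq]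
  · rw [Equiv.coe_mulLeft, inv_mul_cancel_left]

omit [Fact p.Prime] in
lemma psh_cpow (k : A →* B) (f : A → ℂ) (m : ℕ) : psh k (cpow f m) = cpow (psh k f) m := by
  classical
  induction m with
  | zero =>
    funext b
    simp only [cpow]
    rw [psh, sum_eq_single 1 (fun a _ ha => by rw [ind_neg (S := (· = 1)) ha, ite_self])
      (fun e => (e (mem_univ _)).elim), ind_pos (S := (· = (1 : A))) rfl, map_one]
    by_cases hb : b = 1
    · rw [if_pos hb.symm, ind_pos (S := (· = (1 : B))) hb]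
    · rw [if_neg (Ne.symm hb), ind_neg (S := (· = (1 : B))) hb]
  | succ m ih => simp only [cpow, psh_conv, ih]

omit [Fintype B] [Fact p.Prime] in
lemma quo3_lin (k : A →* B) {ι : Type} [Fintype ι] (F : ι → A → ℂ) (c : ι → ℂ) (b : B) :
    ∑ i, psh k (F i) b * c i = psh k (fun g => ∑ i, F i g * c i) b := by
  classical
  simp only [psh, sum_mul]
  rw [sum_comm]
  refine sum_congr rfl fun a _ => ?_
  split_ifs <;> simp

omit [Fintype B] in
lemma quo3_pelt {k : A →* B} {L : Subgroup A} (h : KerP p k L) :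
    psh k (ext0 L (ind (IsPElt p))) = ext0 (L.map k) (ind (IsPElt p)) := by
  classical
  funext b
  have h0 : ∀ a, ¬ (a ∈ L ∧ IsPElt p a) → ext0 L (ind (IsPElt p)) a = 0 := fun a ha => by
    by_cases hL : a ∈ L
    · rw [ext0_pos _ hL, ind_neg fun e => ha ⟨hL, pint1_pelt.1 e⟩]
    · exact ext0_neg _ hL
  by_cases hb : b ∈ L.map k ∧ IsPElt p b
  · obtain ⟨⟨g, hg, rfl⟩, hp⟩ := hb
    obtain ⟨u, ⟨h1, h2, h3⟩, h4⟩ := h.lift hg hp
    rw [ext0_pos _ (Subgroup.mem_map_of_mem k hg), ind_pos (pint1_pelt.2 hp), psh,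
      sum_eq_single u (fun a _ ha => ?_) (fun e => (e (mem_univ _)).elim), if_pos h3,
      ext0_pos _ h1, ind_pos (pint1_pelt.2 h2)]
    split_ifs with e
    · exact h0 a fun e' => ha (h4 a ⟨e'.1, e'.2, e⟩)
    · rfl
  · have h1 : ext0 (L.map k) (ind (IsPElt p)) b = 0 := by
      by_cases hL : b ∈ L.map k
      · rw [ext0_pos _ hL, ind_neg fun e => hb ⟨hL, pint1_pelt.1 e⟩]
      · exact ext0_neg _ hL
    rw [h1, psh]
    refine sum_eq_zero fun a _ => ?_
    split_ifs with e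
    · refine h0 a fun e' => hb ⟨⟨a, e'.1, e⟩, ?_⟩
      obtain ⟨n, hn⟩ := e'.2
      exact ⟨n, by rw [← e, ← map_pow, hn, map_one]⟩
    · rfl

/-- With `f = ext0 L (ind (IsPElt p))`, `f' = ext0 (L.map k) (ind (IsPElt p))`: `psh k f = f'`
(`KerP.lift`), so the moments agree (`pint1_mom`, `psh_cpow`); then as in `ext0_interp` and
`EE_pin` (PInt): `moment_count` with weights `psh k (fun g => pint1_w I g i) b` and
`pint1_w I' b j`, `Φ = (· = 1)`, `pint1_e1`, `pint1_zf`, `EE_eq`. -/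
theorem psh_EE {k : A →* B} {L : Subgroup A} (h : KerP p k L) :
    psh k (EE p L) = EE p (L.map k) := by
  classical
  let _ : Fintype L := Fintype.ofFinite L
  let _ : Fintype (L.map k) := Fintype.ofFinite _
  obtain ⟨I⟩ := exists_irrData L
  obtain ⟨I'⟩ := exists_irrData (L.map k)
  have hf : IsCF (ind (IsPElt p) : L → ℂ) := isCF_ind fun a g => isPElt_conj a
  have hf' : IsCF (ind (IsPElt p) : L.map k → ℂ) := isCF_ind fun a g => isPElt_conj a
  rw [EE_eq L I, EE_eq _ I', pint1_e1, pint1_e1]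
  funext b
  have h1 := moment_count (fun i => I.om i (ind (IsPElt p)))
    (fun i => psh k (fun g => pint1_w I g i) b) (fun i => I'.om i (ind (IsPElt p)))
    (fun i => pint1_w I' b i) (fun m => by
      rw [pint1_mom I' hf', ← quo3_pelt h, ← psh_cpow,
        quo3_lin k (fun i g => pint1_w I g i) (fun i => I.om i (ind (IsPElt p)) ^ m)]
      exact congrArg (fun F => psh k F b) (funext fun g => pint1_mom I hf g m)) (· = 1)
  have h2 : ext0 L (I.zf (ind fun i => I.om i (ind (IsPElt p)) = 1)) =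
      fun g => ∑ i, pint1_w I g i * ind (fun i => I.om i (ind (IsPElt p)) = 1) i :=
    funext fun g => by rw [pint1_zf]; exact sum_congr rfl fun i _ => mul_comm _ _
  rw [pint1_zf, h2, ← quo3_lin k (fun i g => pint1_w I g i)]
  refine (sum_congr rfl fun i _ => ?_).trans (h1.trans (sum_congr rfl fun i _ => ?_))
  · rw [ind, mul_boole]
  · rw [ind, boole_mul]

open Classical in
/-- `psh_EE`, substitute `a = g * z`, `EE_supp`. -/
theorem EE_push {k : A →* B} {L : Subgroup A} (h : KerP p k L) {g : A} (hg : g ∈ L) :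
    EE p (L.map k) (k g) = ∑ z : A, if z ∈ L ∧ k z = 1 then EE p L (g * z) else 0 := by
  rw [← psh_EE h, psh, ← Equiv.sum_comp (Equiv.mulLeft g)]
  refine sum_congr rfl fun z _ => ?_
  rw [Equiv.coe_mulLeft]
  by_cases hz : z ∈ L
  · exact if_congr (by rw [map_mul, mul_eq_left, and_iff_right hz]) rfl rfl
  · rw [EE_supp fun e => hz ((L.mul_mem_cancel_left hg).1 e), ite_self, ite_self]

omit [Fact p.Prime] in
open Classical in
lemma quo4_fib (k : A →* B) (L : Subgroup A) (a : A) (F : B → ℂ) :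
    ∑ x : A, (if x * a⁻¹ ∈ L then F (k x) else 0) =
      (Nat.card (L ⊓ k.ker : Subgroup A) : ℂ) *
        ∑ u : B, if u * (k a)⁻¹ ∈ L.map k then F u else 0 := by
  have h1 : ∀ x : A, (if x * a⁻¹ ∈ L then F (k x) else 0) =
      ∑ u : B, if x * a⁻¹ ∈ L ∧ k x = u then F u else 0 := fun x => by
    by_cases e : x * a⁻¹ ∈ L <;> simp [e]
  rw [sum_congr rfl fun x _ => h1 x, sum_comm, mul_sum]
  refine sum_congr rfl fun u _ => ?_
  by_cases e : u * (k a)⁻¹ ∈ L.map k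
  · rw [if_pos e]
    obtain ⟨l, hl, e⟩ := e
    obtain rfl : u = k l * k a := by rw [e, inv_mul_cancel_right]
    rw [← Equiv.sum_comp (Equiv.mulRight (l * a))]
    have h2 : ∀ z : A, (z * (l * a) * a⁻¹ ∈ L ∧ k (z * (l * a)) = k l * k a) ↔
        z ∈ (L ⊓ k.ker : Subgroup A) := fun z => by
      rw [mul_assoc, mul_inv_cancel_right, L.mul_mem_cancel_right hl, map_mul, map_mul,
        mul_eq_right, Subgroup.mem_inf, MonoidHom.mem_ker]
    simp only [Equiv.coe_mulRight, h2]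
    rw [← sum_filter, sum_const, nsmul_eq_mul, Nat.card_eq_fintype_card, Fintype.card_subtype]
  · rw [if_neg e, mul_zero]
    refine sum_eq_zero fun x _ => if_neg ?_
    rintro ⟨hx, rfl⟩
    exact e ⟨_, hx, by rw [map_mul, map_inv]⟩

open Classical in
lemma quo4_pt {k : A →* B} {L : Subgroup A} (h : KerP p k L) {x y d : A} (hx : x ∈ Nr L)
    (hy : y ∈ Nr L) (hd : d ∈ Cr L) (hc : cm x y * d⁻¹ ∈ L) :
    ∑ w : A, (if w ∈ L ∧ k w = 1 then tz p L (d * w) x y else 0) =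
      tz p (L.map k) (k d) (k x) (k y) := by
  have e0 : cm (k x) (k y) = k (cm x y) := by simp [cm]
  have e1 : d⁻¹ * cm x y = cm x y * d⁻¹ := by
    have e := hd _ hc
    rw [inv_mul_cancel_right] at e
    rw [inv_mul_eq_iff_eq_mul]
    exact e
  have h1 : ∀ w : A, (if w ∈ L ∧ k w = 1 then tz p L (d * w) x y else 0) =
      (if w = d⁻¹ * cm x y then (if k w = 1 then (eK p {x, y} L : ℂ) else 0) else 0) -
        if w⁻¹ ∈ L ∧ k w⁻¹ = 1 then EE p L (cm x y * d⁻¹ * w⁻¹) else 0 := fun w => by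
    rw [L.inv_mem_iff, map_inv, inv_eq_one]
    by_cases hw : w ∈ L ∧ k w = 1
    · rw [if_pos hw, if_pos hw, if_pos hw.2, tz, ← hd w hw.1, mul_inv_rev, ← mul_assoc,
        hd w hw.1]
      congr 1
      exact if_congr (by rw [eq_inv_mul_iff_mul_eq, eq_comm]) rfl rfl
    · rw [if_neg hw, if_neg hw, sub_zero]
      split_ifs with e e'
      · exact absurd ⟨by rw [e, e1]; exact hc, e'⟩ hw
      · rfl
      · rfl
  rw [sum_congr rfl fun w _ => h1 w, sum_sub_distrib, sum_ite_eq', if_pos (mem_univ _), tz,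
    eK_push h hx hy, e0, ← map_inv, ← map_mul, EE_push h hc,
    ← Equiv.sum_comp (Equiv.inv A)]
  congr 1
  · exact if_congr (by rw [map_mul, map_inv, inv_mul_eq_one, eq_comm]) rfl rfl
  · simp only [Equiv.inv_apply, inv_inv]

open Classical in
/-- `CS_eq_sum` on both sides; every element of `L.map k` has `card (L ⊓ k.ker)` preimages in
`L`.  For `x ∈ L a`, `y ∈ L b` the element `g = cm x y * d⁻¹` lies in `L` (`cm_formula`), so
`k (cm x y) = k d` iff `cm x y = d * w` for exactly one `w ∈ L ⊓ k.ker` (`w` commutes with `d`);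
`eK_push`, `EE_push` with `z = w⁻¹`. -/
theorem tz_push {k : A →* B} {L : Subgroup A} (h : KerP p k L) {a b d : A} (ha : a ∈ Nr L)
    (hb : b ∈ Nr L) (hd : d ∈ Cr L) (hc : cm a b * d⁻¹ ∈ L) :
    ∑ w : A, (if w ∈ L ∧ k w = 1 then CS L (tz p L (d * w)) a b else 0) =
      (Nat.card (L ⊓ k.ker : Subgroup A) : ℂ) ^ 2 *
        CS (L.map k) (tz p (L.map k) (k d)) (k a) (k b) := by
  have nr : ∀ {x a : A}, a ∈ Nr L → x * a⁻¹ ∈ L → x ∈ Nr L := fun {x a} ha hx => by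
    simpa using (Nr L).mul_mem (Subgroup.le_normalizer hx) ha
  have h1 : ∑ w : A, (if w ∈ L ∧ k w = 1 then CS L (tz p L (d * w)) a b else 0) =
      CS L (fun x y => ∑ w : A, if w ∈ L ∧ k w = 1 then tz p L (d * w) x y else 0) a b := by
    rw [CS_sum]
    refine sum_congr rfl fun w _ => ?_
    by_cases e : w ∈ L ∧ k w = 1
    · simp only [if_pos e]
    · simp only [if_neg e, CS_zero]
  rw [h1, CS_congr fun x y hx hy =>
    quo4_pt h (nr ha hx) (nr hb hy) hd (cm_formula ha hb hd hc hx hy)]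
  have h2 : ∀ {G : Type} [Group G] [Fintype G] (N : Subgroup G) (t : G → G → ℂ) (a b : G),
      CS N t a b = ∑ x : G, if x * a⁻¹ ∈ N then
        ∑ y : G, (if y * b⁻¹ ∈ N then t x y else 0) else 0 := fun N t a b => by
    unfold CS
    refine sum_congr rfl fun x _ => ?_
    by_cases e : x * a⁻¹ ∈ N <;> simp [e]
  rw [h2, h2, pow_two, mul_assoc]
  simp only [quo4_fib k L b (tz p (L.map k) (k d) _)]
  rw [quo4_fib k L a fun u => (Nat.card (L ⊓ k.ker : Subgroup A) : ℂ) *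
    ∑ v : B, if v * (k b)⁻¹ ∈ L.map k then tz p (L.map k) (k d) u v else 0]
  congr 1
  rw [mul_sum]
  exact sum_congr rfl fun u _ => by split_ifs <;> simp

end Pool.Agent.Lib.MP_b6945b_al.Ip
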