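import Pool.Agent.Lib.MP_b6945b_al.As.TQuo

set_option autoImplicit false

/-!
Transfer between ambient groups, and a group in which a given element is a commutator.
-/

namespace Pool.Agent.Lib.MP_b6945b_al.Ip

open Finset

lemma real3_inj {p : ℕ} [Fact p.Prime] {A B : Type} [Group A] [Fintype A] [Group B] [Fintype B]
    {k : A →* B} {L : Subgroup A} (h : ∀ z ∈ L, k z = 1 → z = 1) {a b d : A} (ha : a ∈ Nr L)
    (hb : b ∈ Nr L) (hd : d ∈ Cr L) (hc : cm a b * d⁻¹ ∈ L) :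
    CS L (tz p L d) a b = CS (L.map k) (tz p (L.map k) (k d)) (k a) (k b) := by
  classical
  have h1 := tz_push (p := p) (kerP_of_inj h) ha hb hd hc
  have h2 : L ⊓ k.ker = ⊥ := eq_bot_iff.2 fun z hz => h z hz.1 hz.2
  rw [h2, Subgroup.card_bot, Nat.cast_one, one_pow, one_mul,
    sum_eq_single 1 (fun w _ hw => if_neg fun e => hw (h w e.1 e.2))
      (fun e => (e (mem_univ _)).elim), if_pos ⟨L.one_mem, map_one k⟩, mul_one] at h1
  exact h1

/-- `tz_push` for the two projections of `G × H`, `L = (f.prod g).range`, the pair `(a, a')`,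
`(b, b')` and `(d, d')`; both kernels on `L` are trivial (`kerP_of_inj`), `L.map fst = f.range`.
Normalisers: `Subgroup.mem_normalizer_fintype`. -/
theorem tz_tr {p : ℕ} [Fact p.Prime] {G H A : Type} [Group G] [Fintype G] [Group H] [Fintype H]
    [Group A] {f : A →* G} {g : A →* H} (hf : Function.Injective f) (hg : Function.Injective g)
    (σ τ : A → A) (c : A) {a b d : G} {a' b' d' : H} (ha : ∀ l, a * f l * a⁻¹ = f (σ l))
    (ha' : ∀ l, a' * g l * a'⁻¹ = g (σ l)) (hb : ∀ l, b * f l * b⁻¹ = f (τ l))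
    (hb' : ∀ l, b' * g l * b'⁻¹ = g (τ l)) (hd : d ∈ Cr f.range) (hd' : d' ∈ Cr g.range)
    (hc : cm a b * d⁻¹ = f c) (hc' : cm a' b' * d'⁻¹ = g c) :
    CS f.range (tz p f.range d) a b = CS g.range (tz p g.range d') a' b' := by
  have hn : ∀ (s : A → A) (x : G) (x' : H), (∀ l, x * f l * x⁻¹ = f (s l)) →
      (∀ l, x' * g l * x'⁻¹ = g (s l)) → (x, x') ∈ Nr (f.prod g).range := by
    intro s x x' h1 h2
    refine Subgroup.mem_normalizer_fintype ?_
    rintro _ ⟨l, rfl⟩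
    exact ⟨s l, Prod.ext (h1 l).symm (h2 l).symm⟩
  have h1 := hn σ a a' ha ha'
  have h2 := hn τ b b' hb hb'
  have h3 : (d, d') ∈ Cr (f.prod g).range := by
    rintro _ ⟨l, rfl⟩
    exact Prod.ext (hd _ ⟨l, rfl⟩) (hd' _ ⟨l, rfl⟩)
  have h4 : cm (a, a') (b, b') * (d, d')⁻¹ ∈ (f.prod g).range := ⟨c, Prod.ext hc.symm hc'.symm⟩
  have e1 := real3_inj (p := p) (k := MonoidHom.fst G H) (by
    rintro _ ⟨l, rfl⟩ e
    rw [hf (e.trans (map_one f).symm), map_one]) h1 h2 h3 h4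
  have e2 := real3_inj (p := p) (k := MonoidHom.snd G H) (by
    rintro _ ⟨l, rfl⟩ e
    rw [hg (e.trans (map_one g).symm), map_one]) h1 h2 h3 h4
  rw [MonoidHom.map_range, MonoidHom.fst_comp_prod] at e1
  rw [MonoidHom.map_range, MonoidHom.snd_comp_prod] at e2
  exact e1.symm.trans e2

theorem rl1_pow {M : Type} [Group M] (k : M) {n : ℕ} [NeZero n] (hk : k ^ n = 1) :
    ∃ f : Multiplicative (ZMod n) →* M, (∀ i, f i = k ^ (Multiplicative.toAdd i).val) ∧
      f (Multiplicative.ofAdd 1) = k := by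
  refine ⟨MonoidHom.mk' (fun i => k ^ (Multiplicative.toAdd i).val) fun i j => ?_,
    fun _ => rfl, ?_⟩
  · rw [toAdd_mul, ZMod.val_add, ← pow_eq_pow_mod _ hk, pow_add]
  · show k ^ (1 : ZMod n).val = k
    rw [ZMod.val_one_eq_one_mod, ← pow_eq_pow_mod _ hk, pow_one]

theorem rl1_conj {B H : Type} [Group B] [Group H] (α : MulAut B) (ψ : B →* H) (k : H)
    (h : ∀ l, k * ψ l * k⁻¹ = ψ (α l)) (j : ℕ) (l : B) :
    ψ ((α ^ j) l) = k ^ j * ψ l * (k ^ j)⁻¹ := by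
  induction j with
  | zero => simp
  | succ j ih => rw [pow_succ', MulAut.mul_apply, ← h, ih, pow_succ']; group

/-- A cyclic extension with its universal property: `H = B ⋊[φ] Multiplicative (ZMod n)`; for an
element `k` of a group with `k ^ n = 1` the map `i ↦ k ^ i.val` is a homomorphism on
`Multiplicative (ZMod n)` (`ZMod.val_add`, `pow_eq_pow_mod`); `SemidirectProduct.lift`,
`inl_aut`, `inl_left_mul_inr_right`, `equivProd`. -/
theorem ext_cyc {B : Type} [Group B] [Finite B] (α : MulAut B) {n : ℕ} (hn : n ≠ 0)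
    (hα : α ^ n = 1) : ∃ (H : Type) (_ : Group H) (_ : Finite H) (g : B →* H) (x : H),
      Function.Injective g ∧ (∀ l, x * g l * x⁻¹ = g (α l)) ∧ x ^ n = 1 ∧
      (∀ h : H, ∃ (l : B) (i : ℕ), h = g l * x ^ i) ∧
      ∀ (ψ : B →* H) (k : H), (∀ l, k * ψ l * k⁻¹ = ψ (α l)) → k ^ n = 1 →
        ∃ Ψ : H →* H, (∀ l, Ψ (g l) = ψ l) ∧ Ψ x = k := by
  have : NeZero n := ⟨hn⟩
  obtain ⟨φ, hφ, hφ1⟩ := rl1_pow α hα
  have hfin : Finite (B ⋊[φ] Multiplicative (ZMod n)) :=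
    Finite.of_equiv _ (SemidirectProduct.equivProd (φ := φ)).symm
  have hpow : ∀ i : ℕ, (Multiplicative.ofAdd (1 : ZMod n)) ^ i =
      Multiplicative.ofAdd (i : ZMod n) := fun i => by
    rw [← ofAdd_nsmul, nsmul_eq_mul, mul_one]
  refine ⟨B ⋊[φ] Multiplicative (ZMod n), inferInstance, hfin, SemidirectProduct.inl,
    SemidirectProduct.inr (Multiplicative.ofAdd 1), SemidirectProduct.inl_injective,
    fun l => ?_, ?_, fun h => ?_, fun ψ k hk hkn => ?_⟩
  · rw [← map_inv, ← SemidirectProduct.inl_aut, hφ1]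
  · rw [← map_pow, hpow, ZMod.natCast_self, ofAdd_zero, map_one]
  · refine ⟨h.left, (Multiplicative.toAdd h.right).val, ?_⟩
    rw [← map_pow, hpow, ZMod.natCast_zmod_val, ofAdd_toAdd,
      SemidirectProduct.inl_left_mul_inr_right]
  · obtain ⟨f, hf, hf1⟩ := rl1_pow k hkn
    refine ⟨SemidirectProduct.lift ψ f fun i => ?_, fun l => SemidirectProduct.lift_inl _ _ _ _,
      (SemidirectProduct.lift_inr _ _ _ _).trans hf1⟩
    refine MonoidHom.ext fun l => ?_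
    simp only [MonoidHom.comp_apply, MulEquiv.coe_toMonoidHom, MulAut.conj_apply]
    rw [hφ, hf]
    exact rl1_conj α ψ k hk _ l

/-- In the group of `ext_cyc` for `σ` and `n = m * m` let `k = g c⁻¹ * x`.  It acts on `g A` as
`τ σ τ⁻¹`, so `k ^ m` and `x ^ m` centralise `g A`; `k ^ j = g u * x ^ j` by induction, so
`k ^ m = g w * x ^ m` with `w` central and `k ^ (m * m) = 1`.  Let `T` be the endomorphism with
`T (g l) = g (τ l)`, `T x = k`; it is onto, hence bijective.  `T ^ j x = g u * x` by induction;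
for `j = m` apply `T ^ m` to `x * g l * x⁻¹ = g (σ l)`: `u` is central; `T ^ (m * j) x =
g (u ^ j) * x`. -/
theorem real_one {A H : Type} [Group A] [Group H] [Finite H] (σ τ : MulAut A) (c : A) {m : ℕ}
    (hσ : σ ^ m = 1) (hτ : τ ^ m = 1) (hz : ∀ z ∈ Subgroup.center A, z ^ m = 1)
    (hc : ∀ l, σ (τ l) = c * τ (σ l) * c⁻¹) {g : A →* H} {x : H} (hg : Function.Injective g)
    (h1 : ∀ l, x * g l * x⁻¹ = g (σ l)) (h2 : x ^ (m * m) = 1)
    (h3 : ∀ h : H, ∃ (l : A) (i : ℕ), h = g l * x ^ i)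
    (h4 : ∀ (ψ : A →* H) (k : H), (∀ l, k * ψ l * k⁻¹ = ψ (σ l)) → k ^ (m * m) = 1 →
      ∃ Ψ : H →* H, (∀ l, Ψ (g l) = ψ l) ∧ Ψ x = k) :
    ∃ T : MulAut H, (∀ l, T (g l) = g (τ l)) ∧ T x = g c⁻¹ * x ∧ T ^ (m * m) = 1 := by
  have conj : ∀ (y : H) (ψ : A → H), (∀ l, y * ψ l * y⁻¹ = ψ (σ l)) → ∀ l,
      y ^ m * ψ l = ψ l * y ^ m := by
    intro y ψ hy l
    have e : ∀ j : ℕ, ∀ l, y ^ j * ψ l = ψ ((σ ^ j) l) * y ^ j := by
      intro j
      induction j with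
      | zero => intro l; simp
      | succ j ih =>
        intro l
        rw [pow_succ' y, pow_succ' σ, MulAut.mul_apply, ← hy, mul_assoc, ih]
        group
    rw [e, hσ, MulAut.one_apply]
  have hx : ∀ l, x * g l = g (σ l) * x := fun l => by rw [← h1]; group
  have hk : ∀ l, g c⁻¹ * x * g (τ l) * (g c⁻¹ * x)⁻¹ = g (τ (σ l)) := fun l => by
    rw [mul_assoc (g c⁻¹), hx, hc]
    simp only [map_mul, map_inv]
    group
  have hkj : ∀ j : ℕ, ∃ u, (g c⁻¹ * x) ^ j = g u * x ^ j := by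
    intro j
    induction j with
    | zero => exact ⟨1, by simp⟩
    | succ j ih =>
      obtain ⟨u, hu⟩ := ih
      refine ⟨c⁻¹ * σ u, ?_⟩
      rw [pow_succ', hu, mul_assoc, ← mul_assoc x, hx, map_mul, pow_succ']
      group
  obtain ⟨w, hw⟩ := hkj m
  have hxm := conj x g h1
  have hwc : w ∈ Subgroup.center A := by
    refine Subgroup.mem_center_iff.2 fun l => hg ?_
    have e := conj _ (fun l => g (τ l)) hk (τ.symm l)
    simp only [MulEquiv.apply_symm_apply] at e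
    rw [hw, mul_assoc, hxm, ← mul_assoc, ← mul_assoc] at e
    rw [map_mul, map_mul]
    exact (mul_right_cancel e).symm
  have hkm : (g c⁻¹ * x) ^ (m * m) = 1 := by
    have e : Commute (g w) (x ^ m) := (hxm w).symm
    rw [pow_mul, hw, e.mul_pow, ← pow_mul, h2, ← map_pow, hz w hwc, map_one, one_mul]
  obtain ⟨Ψ, p1, p2⟩ := h4 (g.comp τ.toMonoidHom) _ hk hkm
  replace p1 : ∀ l, Ψ (g l) = g (τ l) := p1
  have hs : Function.Surjective Ψ := by
    have e1 : ∀ l, g l ∈ Ψ.range := fun l => ⟨g (τ.symm l), by rw [p1, MulEquiv.apply_symm_apply]⟩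
    have e2 : x ∈ Ψ.range := by
      have e := mul_mem (e1 c) (⟨x, p2⟩ : g c⁻¹ * x ∈ Ψ.range)
      rwa [← mul_assoc, ← map_mul, mul_inv_cancel, map_one, one_mul] at e
    intro h
    obtain ⟨l, i, rfl⟩ := h3 h
    exact mul_mem (e1 l) (pow_mem e2 i)
  obtain ⟨T, t1, t2⟩ : ∃ T : MulAut H, (∀ l, T (g l) = g (τ l)) ∧ T x = g c⁻¹ * x :=
    ⟨MulEquiv.ofBijective Ψ (Finite.surjective_iff_bijective.1 hs), p1, p2⟩
  refine ⟨T, t1, t2, ?_⟩
  have q1 : ∀ j : ℕ, ∀ l, (T ^ j) (g l) = g ((τ ^ j) l) := by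
    intro j l
    induction j with
    | zero => rfl
    | succ j ih => rw [pow_succ', pow_succ', MulAut.mul_apply, MulAut.mul_apply, ih, t1]
  have q2 : ∀ j : ℕ, ∃ u, (T ^ j) x = g u * x := by
    intro j
    induction j with
    | zero => exact ⟨1, by simp⟩
    | succ j ih =>
      obtain ⟨u, hu⟩ := ih
      refine ⟨τ u * c⁻¹, ?_⟩
      rw [pow_succ', MulAut.mul_apply, hu, map_mul, t1, t2, map_mul, mul_assoc]
  obtain ⟨u, hu⟩ := q2 m
  have q3 : ∀ l, (T ^ m) (g l) = g l := fun l => by rw [q1, hτ, MulAut.one_apply]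
  rw [pow_mul]
  generalize T ^ m = S at hu q3
  have huc : u ∈ Subgroup.center A := by
    refine Subgroup.mem_center_iff.2 fun l => hg ?_
    have e := congrArg S (hx (σ.symm l))
    rw [map_mul, map_mul, hu, q3, q3, mul_assoc, hx, MulEquiv.apply_symm_apply, ← mul_assoc,
      ← mul_assoc] at e
    rw [map_mul, map_mul]
    exact (mul_right_cancel e).symm
  have q4 : ∀ j : ℕ, (∀ l, (S ^ j) (g l) = g l) ∧ (S ^ j) x = g (u ^ j) * x := by
    intro j
    induction j with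
    | zero => simp
    | succ j ih =>
      refine ⟨fun l => by rw [pow_succ', MulAut.mul_apply, ih.1, q3], ?_⟩
      rw [pow_succ', MulAut.mul_apply, ih.2, map_mul, q3, hu, pow_succ, map_mul, mul_assoc]
  ext h
  obtain ⟨l, i, rfl⟩ := h3 h
  rw [map_mul, map_pow, (q4 m).1, (q4 m).2, hz u huc, map_one, one_mul, MulAut.one_apply]

/-- `ext_cyc` for `σ`, `real_one`, `ext_cyc` for `T`. -/
theorem real {A : Type} [Group A] [Finite A] (σ τ : MulAut A) (c : A) {m : ℕ} (hm : m ≠ 0)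
    (hσ : σ ^ m = 1) (hτ : τ ^ m = 1) (hz : ∀ z ∈ Subgroup.center A, z ^ m = 1)
    (hc : ∀ l, σ (τ l) = c * τ (σ l) * c⁻¹) :
    ∃ (H : Type) (_ : Group H) (_ : Finite H) (g : A →* H) (x y : H), Function.Injective g ∧
      (∀ l, x * g l * x⁻¹ = g (σ l)) ∧ (∀ l, y * g l * y⁻¹ = g (τ l)) ∧ cm x y = g c ∧
      x ^ (m * m) = 1 ∧ y ^ (m * m) = 1 ∧ gen x y g.range = ⊤ := by
  obtain ⟨H1, _, _, g1, x1, a1, a2, a3, a4, a5⟩ := ext_cyc σ (mul_ne_zero hm hm)
    (by rw [pow_mul, hσ, one_pow])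
  obtain ⟨T, t1, t2, t3⟩ := real_one σ τ c hσ hτ hz hc a1 a2 a3 a4 a5
  obtain ⟨H, _, _, g, y, b1, b2, b3, b4, -⟩ := ext_cyc T (mul_ne_zero hm hm) t3
  refine ⟨H, _, inferInstance, g.comp g1, g x1, y, b1.comp a1, fun l => ?_, fun l => ?_, ?_,
    by rw [← map_pow, a3, map_one], b3, eq_top_iff.2 fun h _ => ?_⟩
  · rw [MonoidHom.comp_apply, ← map_inv, ← map_mul, ← map_mul, a2, MonoidHom.comp_apply]
  · rw [MonoidHom.comp_apply, b2, t1, MonoidHom.comp_apply]
  · have e : cm (g x1) y = g x1 * (y * g x1 * y⁻¹)⁻¹ := by unfold cm; group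
    rw [e, b2, t2]
    simp
  · obtain ⟨u, i, rfl⟩ := b4 h
    obtain ⟨l, j, rfl⟩ := a4 u
    rw [map_mul, map_pow]
    exact mul_mem (mul_mem (le_gen _ _ _ ⟨l, rfl⟩) (pow_mem (left_mem_gen _ _ _) j))
      (pow_mem (right_mem_gen _ _ _) i)

end Pool.Agent.Lib.MP_b6945b_al.Ip
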