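import Pool.Agent.Lib.MP_b6945b_al.As.TGal
import Pool.Agent.Lib.MP_b6945b_al.As.TVih

set_option autoImplicit false

/-!
The simple case: a twist by a Heisenberg group.
-/

namespace Pool.Agent.Lib.MP_b6945b_al.Ip

open Finset

/-- The Heisenberg group over `ZMod m`. -/
@[ext] structure Hs (m : ℕ) where
  /-- first coordinate -/
  a : ZMod m
  /-- second coordinate -/
  b : ZMod m
  /-- central coordinate -/
  c : ZMod m

namespace Hs
variable {m : ℕ}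

instance : Mul (Hs m) := ⟨fun x y => ⟨x.a + y.a, x.b + y.b, x.c + y.c + x.a * y.b⟩⟩
instance : One (Hs m) := ⟨⟨0, 0, 0⟩⟩
instance : _root_.Inv (Hs m) := ⟨fun x => ⟨-x.a, -x.b, -x.c + x.a * x.b⟩⟩

lemma mul_def (x y : Hs m) : x * y = ⟨x.a + y.a, x.b + y.b, x.c + y.c + x.a * y.b⟩ := rfl
lemma one_def : (1 : Hs m) = ⟨0, 0, 0⟩ := rfl
lemma inv_def (x : Hs m) : x⁻¹ = ⟨-x.a, -x.b, -x.c + x.a * x.b⟩ := rfl

instance : Group (Hs m) := Group.ofLeftAxioms
  (fun x y z => by simp only [mul_def]; ext <;> dsimp only <;> ring)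
  (fun x => by simp only [mul_def, one_def]; ext <;> dsimp only <;> ring)
  (fun x => by simp only [mul_def, one_def, inv_def]; ext <;> dsimp only <;> ring)

instance [NeZero m] : Finite (Hs m) :=
  Finite.of_injective (fun x : Hs m => (x.a, x.b, x.c)) fun _ _ e => by
    simp only [Prod.mk.injEq] at e
    exact Hs.ext e.1 e.2.1 e.2.2

lemma cm_eq (x y : Hs m) : cm x y = ⟨0, 0, x.a * y.b - y.a * x.b⟩ := by
  simp only [cm, mul_def, inv_def]
  ext <;> dsimp only <;> ring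

/-- The central coordinate axis. -/
def cen (m : ℕ) : Subgroup (Hs m) where
  carrier := {u | u.a = 0 ∧ u.b = 0}
  one_mem' := ⟨rfl, rfl⟩
  mul_mem' := fun {x y} hx hy => ⟨by simp [mul_def, hx.1, hy.1], by simp [mul_def, hx.2, hy.2]⟩
  inv_mem' := fun {x} hx => ⟨by simp [inv_def, hx.1], by simp [inv_def, hx.2]⟩

lemma mem_cen {u : Hs m} : u ∈ cen m ↔ u.a = 0 ∧ u.b = 0 := Iff.rfl

lemma cen_comm {u : Hs m} (h : u ∈ cen m) (g : Hs m) : g * u = u * g := by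
  simp only [mul_def, h.1, h.2]
  ext <;> dsimp only <;> ring

instance : (cen m).Normal := ⟨fun z hz g => by rwa [cen_comm hz g, mul_inv_cancel_right]⟩

lemma pow_a (x : Hs m) (n : ℕ) : (x ^ n).a = n * x.a := by
  induction n with
  | zero => simp [one_def]
  | succ n ih => rw [pow_succ, mul_def, ih]; push_cast; ring

lemma pow_b (x : Hs m) (n : ℕ) : (x ^ n).b = n * x.b := by
  induction n with
  | zero => simp [one_def]
  | succ n ih => rw [pow_succ, mul_def, ih]; push_cast; ring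

lemma cen_pow {u : Hs m} (h : u ∈ cen m) : u ^ m = 1 := by
  have key : ∀ n : ℕ, u ^ n = ⟨0, 0, n * u.c⟩ := fun n => by
    induction n with
    | zero => simp [one_def]
    | succ n ih =>
      rw [pow_succ, ih, mul_def, h.1, h.2]
      ext <;> push_cast <;> ring
  rw [key, ZMod.natCast_self, zero_mul, one_def]

end Hs

/-- The hypotheses of `Hyp`. -/
structure Sim (p : ℕ) (G0 : Type) [Group G0] {H : Type} [Group H] (Z L : Subgroup H) (a b : H) :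
    Prop where
  cen : CenP p Z
  le : Z ≤ L
  sim : ∀ T : Subgroup H, Z ≤ T → T ≤ L → L ≤ Nr T → T = Z ∨ T = L
  na : ∃ u ∈ L, ∃ v ∈ L, cm u v ∉ Z
  top : gen a b L = ⊤
  ra : Reg p L a
  rb : Reg p L b
  ab : cm a b ∈ L
  sec : Sec G0 L Z

/-- The fibre product of `H` and the Heisenberg group over `H ⧸ L`. -/
structure Fbr {H E : Type} [Group H] [Group E] (L : Subgroup H) (a b : H) (m : ℕ) (k : E →* H)
    (κ : E →* Hs m) (A B : E) : Prop where
  ka : k A = a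
  kb : k B = b
  sa : κ A = ⟨1, 0, 0⟩
  sb : κ B = ⟨0, 1, 0⟩
  inj : ∀ x, k x = 1 → κ x = 1 → x = 1
  fib : ∀ l ∈ L, ∀ c, ∃ x, k x = l ∧ κ x = ⟨0, 0, c⟩
  cos : ∀ x, κ x ∈ Hs.cen m → k x ∈ L

/-- `ρ : Hs m →* H ⧸ L`, `u ↦ a ^ u.a.val * b ^ u.b.val` (the images of `a`, `b` commute,
`ZMod.val_add`, `pow_eq_pow_mod`; for `m = 1` note `a`, `b ∈ L`, `ZMod.val_one_eq_one_mod`);
`E = MonoidHom.eqLocus ((mk' L).comp fst) (ρ.comp snd)`. -/
theorem exists_tw {H : Type} [Group H] [Finite H] (L : Subgroup H) [L.Normal] {a b : H} {m : ℕ}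
    [NeZero m] (ha : a ^ m ∈ L) (hb : b ^ m ∈ L) (hab : cm a b ∈ L) :
    ∃ (E : Type) (_ : Group E) (_ : Fintype E) (k : E →* H) (κ : E →* Hs m) (A B : E),
      Fbr L a b m k κ A B := by
  have hc : Commute (a : H ⧸ L) (b : H ⧸ L) := by
    have h := (QuotientGroup.eq_one_iff _).2 hab
    rw [cm, QuotientGroup.mk_mul, QuotientGroup.mk_mul, QuotientGroup.mk_mul, QuotientGroup.mk_inv,
      QuotientGroup.mk_inv, mul_inv_eq_one, mul_inv_eq_iff_eq_mul] at h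
    exact h
  have key : ∀ g : H, g ^ m ∈ L → ∀ n : ℕ, (g : H ⧸ L) ^ (n % m) = (g : H ⧸ L) ^ n :=
    fun g hg n => (pow_eq_pow_mod n (by
      rw [← QuotientGroup.mk_pow]; exact (QuotientGroup.eq_one_iff _).2 hg)).symm
  let ρ : Hs m →* H ⧸ L := MonoidHom.mk'
    (fun u => (a : H ⧸ L) ^ u.a.val * (b : H ⧸ L) ^ u.b.val) fun u v => by
      simp only [Hs.mul_def, ZMod.val_add, key a ha, key b hb, pow_add]
      exact ((hc.pow_pow _ _).mul_mul_mul_comm _ _)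
  have hρ : ∀ u : Hs m, ρ u = (a : H ⧸ L) ^ u.a.val * (b : H ⧸ L) ^ u.b.val := fun _ => rfl
  let E : Subgroup (H × Hs m) := MonoidHom.eqLocus
    ((QuotientGroup.mk' L).comp (MonoidHom.fst H (Hs m))) (ρ.comp (MonoidHom.snd H (Hs m)))
  have hE : ∀ x : H × Hs m, x ∈ E ↔ (x.1 : H ⧸ L) = ρ x.2 := fun _ => Iff.rfl
  refine ⟨E, inferInstance, Fintype.ofFinite _, (MonoidHom.fst H (Hs m)).comp E.subtype,
    (MonoidHom.snd H (Hs m)).comp E.subtype, ⟨(a, ⟨1, 0, 0⟩), (hE _).2 ?_⟩,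
    ⟨(b, ⟨0, 1, 0⟩), (hE _).2 ?_⟩, rfl, rfl, rfl, rfl,
    fun x h1 h2 => Subtype.ext (Prod.ext h1 h2),
    fun l hl c => ⟨⟨(l, ⟨0, 0, c⟩), (hE _).2 ?_⟩, rfl, rfl⟩, fun x hx => ?_⟩
  · simp [hρ, ZMod.val_one_eq_one_mod, key a ha]
  · simp [hρ, ZMod.val_one_eq_one_mod, key b hb]
  · simp [hρ, hl]
  · have h := (hE _).1 x.2
    have h1 : x.1.2.a = 0 := hx.1
    have h2 : x.1.2.b = 0 := hx.2
    rw [hρ, h1, h2, ZMod.val_zero, pow_zero, pow_zero, mul_one] at h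
    exact (QuotientGroup.eq_one_iff _).1 h

variable {p : ℕ} [Fact p.Prime] {G0 H E : Type} [Group G0] [Group H] [Group E]
  {Z L : Subgroup H} {a b : H}

omit [Fact p.Prime] in
/-- Correspondence of subgroups above the kernel (`Subgroup.comap_map_eq_self`,
`Subgroup.map_comap_eq_self_of_surjective`, `Subgroup.le_normalizer_comap`), `Sec.map`. -/
theorem Sim.map [L.Normal] (h : Sim p G0 Z L a b) {k : H →* E} (hk : Function.Surjective k)
    (h0 : k.ker ≤ Z) : Sim p G0 (Z.map k) (L.map k) (k a) (k b) := by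
  have hc : ∀ u v, cm (k u) (k v) = k (cm u v) := fun u v => by simp only [cm, map_mul, map_inv]
  refine ⟨?_, Subgroup.map_mono h.le, fun T h1 h2 h3 => ?_, ?_, ?_, ?_, ?_, ?_, h.sec.map k hk⟩
  · obtain ⟨t, ht, e⟩ := h.cen
    refine ⟨t, ht, ?_⟩
    rintro _ ⟨z, hz, rfl⟩
    refine ⟨by rw [← map_pow, (e z hz).1, map_one], fun g => ?_⟩
    obtain ⟨g, rfl⟩ := hk g
    rw [← map_mul, (e z hz).2 g, map_mul]
  · have h4 := h.sim (T.comap k) (Subgroup.map_le_iff_le_comap.1 h1)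
      ((Subgroup.comap_mono h2).trans (Subgroup.comap_map_eq_self (h0.trans h.le)).le)
      ((Subgroup.map_le_iff_le_comap.1 h3).trans (Subgroup.le_normalizer_comap k))
    exact h4.imp (fun e => by rw [← e, Subgroup.map_comap_eq_self_of_surjective hk])
      fun e => by rw [← e, Subgroup.map_comap_eq_self_of_surjective hk]
  · obtain ⟨u, hu, v, hv, e⟩ := h.na
    refine ⟨k u, Subgroup.mem_map_of_mem k hu, k v, Subgroup.mem_map_of_mem k hv, fun e' => e ?_⟩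
    rwa [hc, ← Subgroup.mem_comap, Subgroup.comap_map_eq_self h0] at e'
  · rw [eq_top_iff, ← Subgroup.map_top_of_surjective k hk, ← h.top,
      Subgroup.map_le_iff_le_comap, gen_le]
    exact ⟨left_mem_gen (k a) (k b) _, right_mem_gen (k a) (k b) _,
      Subgroup.map_le_iff_le_comap.1 (le_gen _ _ _)⟩
  · exact h.ra.imp fun _ e => ⟨e.1, map_pow k a _ ▸ Subgroup.mem_map_of_mem k e.2⟩
  · exact h.rb.imp fun _ e => ⟨e.1, map_pow k b _ ▸ Subgroup.mem_map_of_mem k e.2⟩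
  · exact hc a b ▸ Subgroup.mem_map_of_mem k h.ab

omit [Fact p.Prime] in
lemma sim2_cs [Fintype H] (t : H → H → ℂ) : CS ⊤ t 1 1 = ∑ x : H, ∑ y : H, t x y := by
  simp [CS]

/-- `tz_push` for `QuotientGroup.mk' Z0`, `L = ⊤`, `a = b = d = 1`; `CS ⊤ t 1 1` is the total sum;
`tz p ⊤ 1 = term p ⊤` (`cm_eq_one`); `KR_iff_term` for `H = L = ⊤`, `KR_congr Subgroup.topEquiv`. -/
theorem psi_quot [Fintype H] {Z0 : Subgroup H} [Z0.Normal] (h0 : CenP p Z0)
    (h : KR p (H ⧸ Z0)) : ∑ v : H, ind (· ∈ Z0) v * Psi p v = 0 := by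
  classical
  let _ : Fintype (H ⧸ Z0) := Fintype.ofFinite _
  have h1 := tz_push (p := p) (k := QuotientGroup.mk' Z0) (L := ⊤)
    (CenP.kerP (by rwa [QuotientGroup.ker_mk']) ⊤) (a := 1) (b := 1) (d := 1) (one_mem _)
    (one_mem _) (one_mem _) (Subgroup.mem_top _)
  have h2 := (KR_iff_term (p := p) (H := (⊤ : Subgroup (H ⧸ Z0))) (L := ⊤)
    ⟨le_rfl, fun g hg _ => hg⟩).1 (KR_congr Subgroup.topEquiv.symm h)
  have h3 : ∑ x : H ⧸ Z0, ∑ y : H ⧸ Z0, tz p ⊤ 1 x y = 0 := by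
    refine Eq.trans (sum_congr rfl fun x _ => sum_congr rfl fun y _ => ?_) h2
    rw [if_pos ⟨Subgroup.mem_top _, Subgroup.mem_top _⟩, tz, term, inv_one, mul_one]
    by_cases e : x * y = y * x
    · rw [if_pos e, if_pos (cm_eq_one.2 e)]
    · rw [if_neg e, if_neg fun e' => e (cm_eq_one.1 e')]
  rw [Subgroup.map_top_of_surjective _ (QuotientGroup.mk'_surjective Z0), map_one, sim2_cs, h3,
    mul_zero] at h1
  refine Eq.trans (sum_congr rfl fun w _ => ?_) h1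
  by_cases hw : w ∈ Z0
  · rw [ind_pos (S := (· ∈ Z0)) hw, one_mul,
      if_pos ⟨Subgroup.mem_top _, (QuotientGroup.eq_one_iff w).2 hw⟩, sim2_cs, one_mul, Psi]
  · rw [ind_neg (S := (· ∈ Z0)) hw, zero_mul,
      if_neg fun e => hw ((QuotientGroup.eq_one_iff w).1 e.2)]

theorem psi_zero [Fintype H] [L.Normal] (hyp : Hyp p G0) (h : Sim p G0 Z L a b) :
    ∀ w ∈ Z, Psi p w = 0 := by
  refine psi_ind Z _ (fun w hw => ?_) fun w hw j hj => ?_
  · have h1 := Subgroup.zpowers_le.2 hw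
    have := (h.cen.mono h1).normal
    have h2 := QuotientGroup.mk'_surjective (Subgroup.zpowers w)
    have h3 := h.map h2 (by rwa [QuotientGroup.ker_mk'])
    have := Subgroup.Normal.map (H := L) inferInstance _ h2
    let _ : Fintype (H ⧸ Subgroup.zpowers w) := Fintype.ofFinite _
    exact psi_quot (h.cen.mono h1)
      (hyp _ _ _ _ _ h3.cen h3.le h3.sim h3.na h3.top h3.ra h3.rb h3.ab h3.sec)
  · obtain ⟨t, -, e⟩ := h.cen
    exact Psi_pow (e w hw).2 hj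

variable {m : ℕ} [NeZero m] {k : E →* H} {κ : E →* Hs m} {A B : E}

omit [Fact p.Prime] in
/-- `Hs.pow_a`, `Hs.pow_b`, `ZMod.natCast_zmod_val`. -/
theorem Fbr.coset (h : Fbr L a b m k κ A B) (x : E) :
    x * (A ^ ((κ x).a.val : ℤ) * B ^ ((κ x).b.val : ℤ))⁻¹ ∈ (Hs.cen m).comap κ := by
  rw [Subgroup.mem_comap, Hs.mem_cen, zpow_natCast, zpow_natCast, map_mul, map_inv, map_mul,
    map_pow, map_pow, h.sa, h.sb]
  simp only [Hs.mul_def, Hs.inv_def, Hs.pow_a, Hs.pow_b, ZMod.natCast_zmod_val]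
  constructor <;> ring

omit [NeZero m] in
lemma Fbr.map (h : Fbr L a b m k κ A B) : ((Hs.cen m).comap κ).map k = L :=
  le_antisymm (Subgroup.map_le_iff_le_comap.2 h.cos) fun l hl => by
    obtain ⟨x, e1, e2⟩ := h.fib l hl 0
    exact ⟨x, by rw [SetLike.mem_coe, Subgroup.mem_comap, e2]; exact ⟨rfl, rfl⟩, e1⟩

/-- `inj` makes the new `Z` central of exponent `t * m` (`Hs.cen_comm`, `Hs.cen_pow`).  A subgroup
`T` between the new `Z` and the new `L` equals `(T.map k).comap k ⊓ L'`; `Fbr.map`, `Fbr.coset`,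
`Sec.comap`, `Sec.mono`. -/
theorem Fbr.sim (h : Fbr L a b m k κ A B) (hm : ¬ p ∣ m) (hs : Sim p G0 Z L a b) :
    Sim p G0 (Z.comap k ⊓ (Hs.cen m).comap κ) ((Hs.cen m).comap κ) A B := by
  have lift : ∀ l ∈ L, ∃ x ∈ (Hs.cen m).comap κ, k x = l := fun l hl => (h.map.ge hl :)
  refine ⟨?_, inf_le_right, fun T h1 h2 h3 => ?_, ?_, eq_top_iff.2 fun x _ => ?_, ⟨m, hm, ?_⟩,
    ⟨m, hm, ?_⟩, ?_, (hs.sec.comap k).mono h.cos le_rfl⟩
  · obtain ⟨t, ht, e⟩ := hs.cen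
    refine ⟨t * m, fun d => ((Fact.out : p.Prime).dvd_mul.1 d).elim ht hm, fun z hz =>
      ⟨h.inj _ ?_ ?_, fun g => mul_inv_eq_one.1 (h.inj _ ?_ ?_)⟩⟩
    · rw [map_pow, pow_mul, (e _ hz.1).1, one_pow]
    · rw [map_pow, pow_mul', Hs.cen_pow hz.2, one_pow]
    · rw [map_mul, map_inv, map_mul, map_mul, (e _ hz.1).2, mul_inv_cancel]
    · rw [map_mul, map_inv, map_mul, map_mul, Hs.cen_comm hz.2, mul_inv_cancel]
  · refine (hs.sim (T.map k) (fun z hz => ?_) ((Subgroup.map_mono h2).trans h.map.le)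
      (h.map.ge.trans ((Subgroup.map_mono h3).trans (Subgroup.le_normalizer_map k)))).imp
      (fun e => le_antisymm (fun x hx => ⟨e.le ⟨x, hx, rfl⟩, h2 hx⟩) h1)
      fun e => le_antisymm h2 fun x hx => ?_
    · obtain ⟨x, hx, rfl⟩ := lift z (hs.le hz)
      exact ⟨x, h1 ⟨hz, hx⟩, rfl⟩
    · obtain ⟨t, ht, e'⟩ := e.ge (h.cos x hx)
      refine (T.mul_mem_cancel_right (T.inv_mem ht)).1
        (h1 (Subgroup.mem_inf.2 ⟨?_, mul_mem hx (inv_mem (h2 ht))⟩))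
      rw [Subgroup.mem_comap, map_mul, map_inv, e', mul_inv_cancel]
      exact one_mem _
  · obtain ⟨u, hu, v, hv, e⟩ := hs.na
    obtain ⟨x, hx, rfl⟩ := lift u hu
    obtain ⟨y, hy, rfl⟩ := lift v hv
    have e1 : k (cm x y) = cm (k x) (k y) := by simp only [cm, map_mul, map_inv]
    exact ⟨x, hx, y, hy, fun e' => e (e1 ▸ Subgroup.mem_comap.1 (Subgroup.mem_inf.1 e').1)⟩
  · exact (Subgroup.mul_mem_cancel_right _ (inv_mem (mul_mem (zpow_mem (left_mem_gen A B _) _)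
      (zpow_mem (right_mem_gen A B _) _)))).1 (le_gen A B _ (h.coset x))
  · rw [Subgroup.mem_comap, Hs.mem_cen, map_pow, Hs.pow_a, Hs.pow_b, ZMod.natCast_self]
    exact ⟨zero_mul _, zero_mul _⟩
  · rw [Subgroup.mem_comap, Hs.mem_cen, map_pow, Hs.pow_a, Hs.pow_b, ZMod.natCast_self]
    exact ⟨zero_mul _, zero_mul _⟩
  · have e : κ (cm A B) = cm (κ A) (κ B) := by simp only [cm, map_mul, map_inv]
    rw [Subgroup.mem_comap, e, Hs.cm_eq]
    exact ⟨rfl, rfl⟩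

omit [NeZero m] in
/-- `EE_pin` for `κ.ker ≤ (Hs.cen m).comap κ` (`mem_of_reg_pelt`, `Hs.cen_pow`), `EE_supp`. -/
theorem tw_supp [Fintype E] (hm : ¬ p ∣ m) {w x y : E} (h : κ (cm x y) ≠ κ w) :
    tz p ((Hs.cen m).comap κ) w x y = 0 := by
  have hp : PIn p ((Hs.cen m).comap κ) κ.ker :=
    ⟨fun g hg => by
      rw [Subgroup.mem_comap, MonoidHom.mem_ker.1 hg]
      exact one_mem _,
    fun g hg hp => mem_of_reg_pelt
      ⟨m, hm, by rw [MonoidHom.mem_ker, map_pow]; exact Hs.cen_pow hg⟩ hp⟩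
  rw [tz, if_neg fun e => h (by rw [e]), EE_pin hp, EE_supp, sub_zero]
  rw [MonoidHom.mem_ker, map_mul, map_inv, mul_inv_eq_one]
  exact h

omit [Fact p.Prime] [NeZero m] in
lemma sim4_cm (κ : E →* Hs m) (x y : E) :
    κ (cm x y) = ⟨0, 0, (κ x).a * (κ y).b - (κ y).a * (κ x).b⟩ := by
  rw [← Hs.cm_eq]
  simp only [cm, map_mul, map_inv]

omit [Fact p.Prime] [NeZero m] in
lemma sim4_ab {x u : E} (h : x * u⁻¹ ∈ (Hs.cen m).comap κ) :
    (κ x).a = (κ u).a ∧ (κ x).b = (κ u).b := by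
  rw [Subgroup.mem_comap, map_mul, map_inv, Hs.mem_cen, Hs.mul_def, Hs.inv_def] at h
  exact ⟨add_neg_eq_zero.1 h.1, add_neg_eq_zero.1 h.2⟩

omit [NeZero m] in
lemma sim4_van [Fintype E] (hm : ¬ p ∣ m) {w x y : E} (h : κ (cm x y) ≠ κ w) :
    CS ((Hs.cen m).comap κ) (tz p ((Hs.cen m).comap κ) w) x y = 0 := by
  refine (CS_congr fun u v hu hv => tw_supp hm ?_).trans (CS_zero _ x y)
  rwa [sim4_cm, (sim4_ab hu).1, (sim4_ab hu).2, (sim4_ab hv).1, (sim4_ab hv).2, ← sim4_cm]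

/-- `κ (cm x y)` depends only on the cosets of `L' = (Hs.cen m).comap κ` (`Hs.cm_eq`), so by
`tw_supp` the sum over a pair of cosets vanishes unless `κ (cm x y) = κ w`.  If `κ w ≠ ⟨0, 0, 1⟩`
this is the claim.  Otherwise `CS_of_total`: `CS_sl2` with `Fbr.coset`, `tz_move1`, `tz_move2`
(`ZMod.intCast_eq_intCast_iff`); the total sum is `Psi p w` by `eK_pin`, `EE_pin`. -/
theorem Fbr.zero [Fintype E] (h : Fbr L a b m k κ A B) (hm : ¬ p ∣ m)
    (hp : PIn p ⊤ ((Hs.cen m).comap κ)) {w : E} (hw : ∀ g, g * w = w * g) (h0 : Psi p w = 0) :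
    CS ((Hs.cen m).comap κ) (tz p ((Hs.cen m).comap κ) w) A B = 0 := by
  by_cases e : κ (cm A B) = κ w
  swap
  · exact sim4_van hm e
  refine CS_of_total _ _ A B (fun x y => ?_) ?_
  · by_cases e1 : κ (cm x y) = κ w
    swap
    · exact Or.inl (sim4_van hm e1)
    refine Or.inr (CS_sl2 _ (tz_move1 _ w) (tz_move2 _ hw) (m := m) ?_ ?_ ?_ (h.coset x)
      (h.coset y) ?_)
    · rw [Subgroup.mem_comap, map_pow, Hs.mem_cen, Hs.pow_a, Hs.pow_b, ZMod.natCast_self,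
        zero_mul, zero_mul]
      exact ⟨rfl, rfl⟩
    · rw [Subgroup.mem_comap, map_pow, Hs.mem_cen, Hs.pow_a, Hs.pow_b, ZMod.natCast_self,
        zero_mul, zero_mul]
      exact ⟨rfl, rfl⟩
    · rw [Subgroup.mem_comap, sim4_cm]
      exact ⟨rfl, rfl⟩
    · rw [← e, sim4_cm, sim4_cm, h.sa, h.sb] at e1
      have e2 := congrArg Hs.c e1
      dsimp only at e2
      rw [← ZMod.intCast_eq_intCast_iff]
      simp only [Int.cast_sub, Int.cast_mul, Int.cast_natCast, ZMod.natCast_zmod_val, Int.cast_one]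
      linear_combination e2
  · rw [← h0, Psi]
    refine sum_congr rfl fun x _ => sum_congr rfl fun y _ => ?_
    rw [tz, tz, eK_pin hp, EE_pin hp]

theorem tz_simple [Fintype H] [L.Normal] (hyp : Hyp p G0) (h : Sim p G0 Z L a b) {d : H}
    (hd : d ∈ Z) : CS L (tz p L d) a b = 0 := by
  classical
  have hp : p.Prime := Fact.out
  obtain ⟨m1, a1, a2⟩ := h.ra
  obtain ⟨m2, b1, b2⟩ := h.rb
  have hm : ¬ p ∣ m1 * m2 := fun e => (hp.dvd_mul.1 e).elim a1 b1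
  have : NeZero (m1 * m2) := ⟨fun e => hm (e ▸ dvd_zero p)⟩
  obtain ⟨E, _, _, k, κ, A, B, t⟩ := exists_tw L (a := a) (b := b) (m := m1 * m2)
    (by rw [pow_mul]; exact pow_mem a2 _) (by rw [mul_comm, pow_mul]; exact pow_mem b2 _) h.ab
  have s := t.sim hm h
  obtain ⟨D, e1, e2⟩ := t.fib d (h.le hd) 0
  have hD : D ∈ Z.comap k ⊓ (Hs.cen (m1 * m2)).comap κ :=
    ⟨Subgroup.mem_comap.2 (e1 ▸ hd), Subgroup.mem_comap.2 (e2 ▸ ⟨rfl, rfl⟩)⟩
  have hk : ∀ w ∈ (Hs.cen (m1 * m2)).comap κ, k w = 1 →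
      w ∈ Z.comap k ⊓ (Hs.cen (m1 * m2)).comap κ := fun w hw e =>
    ⟨Subgroup.mem_comap.2 (e ▸ one_mem _), hw⟩
  obtain ⟨n, hn, c⟩ := s.cen
  have h1 := tz_push (p := p) (k := k) (L := (Hs.cen (m1 * m2)).comap κ)
    ⟨n, hn, fun z hz e => ⟨(c z (hk z hz e)).1, fun g _ => (c z (hk z hz e)).2 g⟩⟩
    (pmob_nr A) (pmob_nr B) (d := D) (fun g _ => (c D hD).2 g) (mul_mem s.ab (inv_mem hD.2))
  rw [sum_eq_zero fun w _ => ite_eq_right_iff.2 fun e => t.zero hm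
    (pin_of_gen s.top s.ra s.rb s.ab) (c _ (mul_mem hD (hk w e.1 e.2))).2
    (psi_zero hyp s _ (mul_mem hD (hk w e.1 e.2))), t.map, e1, t.ka, t.kb] at h1
  exact (mul_eq_zero.1 h1.symm).resolve_left
    (pow_ne_zero 2 (Nat.cast_ne_zero.2 Nat.card_pos.ne'))

end Pool.Agent.Lib.MP_b6945b_al.Ip
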